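import Pool.Agent.Work.TSQ.Main

/-!
# MP_ab148e_al: the group is generated by three elements
-/

namespace TSq

theorem strong : ∃ (G : Type) (_ : Group G), Group.FG G ∧ Parad (G × G) 5 ∧ ¬ Parad G 5 := by
  have OV : OverStmt := over_of_dich dich
  have PSs : PSStmt := ps_of dich OV
  have LB : LabStmt := lab_of ncut
  have RU : RDUStmt := rdu_of dich (rduA dich) (rduB dich OV)
  obtain ⟨G, _, π, hπ, hM, hH, hD⟩ := lim (oneStep_of PSs (trh hcut) (rde_of PSs dich) resFin RU
    (geo dich) (trn1 longStmt LB) (trn2 LB)) baseGeo baseWStmt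
  refine ⟨G, inferInstance, ?_, Tar.parad_of_hall hM.inf hH, Tar.noParad (Tar.allFl π hπ hM hD)⟩
  exact Group.fg_of_surjective hπ

end TSq
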