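import Pool.Agent.Work.TSQ.Interface
import Pool.Agent.Work.MP_50f8f6_al_helper22.L2

/-!
# Block BASEGEO: the free group acts on its tree and `⟨a⟩` is malnormal
-/

namespace TSq
open FrobP GMet

namespace BG

open FrobP.HNNT

variable {α : Type} [DecidableEq α]

theorem reduced_left {L L' : List (α × Bool)} (h : FreeGroup.IsReduced (L ++ L')) :
    FreeGroup.IsReduced L := (List.isChain_append.1 h).1

theorem toWord_of_reduced {L : List (α × Bool)} (h : FreeGroup.IsReduced L) :
    (FreeGroup.mk L).toWord = L := by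
  rw [FreeGroup.toWord_mk, h.reduce_eq]

theorem take_word (x : FreeGroup α) (m : ℕ) : ∃ y : FreeGroup α, y.toWord = x.toWord.take m := by
  refine ⟨FreeGroup.mk (x.toWord.take m), toWord_of_reduced ?_⟩
  apply reduced_left (L' := x.toWord.drop m)
  rw [List.take_append_drop]
  exact FreeGroup.isReduced_toWord

/-- the word metric -/
noncomputable def met : GMet (FreeGroup α) where
  d v w := D v.toWord w.toWord
  d_self v := D_self _
  eq_of_d v w h := FreeGroup.toWord_injective (eq_of_D _ _ h)
  symm v w := D_symm _ _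
  tri u v w := D_tri _ _ _
  geo v w k hk := by
    obtain ⟨z, ⟨z', rfl⟩, h1, h2⟩ := D_geo (Set.range (FreeGroup.toWord : FreeGroup α → _))
      (by rintro _ ⟨v, rfl⟩ m; exact take_word v m) v.toWord w.toWord ⟨v, rfl⟩ ⟨w, rfl⟩ k hk
    exact ⟨z', h1, h2⟩

attribute [local instance] met

theorem d_def (v w : FreeGroup α) : d v w = D v.toWord w.toWord := rfl

theorem hyp0 : Hyp (FreeGroup α) 0 := by
  intro x y z w
  have := D_hyp x.toWord y.toWord z.toWord w.toWord
  simp only [d_def]
  omega

theorem d_one_left (x : FreeGroup α) : d 1 x = x.toWord.length := by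
  rw [d_def, FreeGroup.toWord_one]
  have := D_spec ([] : List (α × Bool)) x.toWord
  rw [cp_nil_left, List.length_nil] at this
  omega

theorem d_mul_letter (x : FreeGroup α) (a : α × Bool) : d x (x * FreeGroup.mk [a]) ≤ 1 := by
  rw [d_def]
  have hr : FreeGroup.IsReduced x.toWord := FreeGroup.isReduced_toWord
  have hx : x = FreeGroup.mk x.toWord := FreeGroup.mk_toWord.symm
  rcases List.eq_nil_or_concat x.toWord with h | ⟨L, b, h⟩
  · have h1 : x = 1 := FreeGroup.toWord_eq_nil_iff.1 h
    subst h1
    rw [one_mul, toWord_of_reduced (by simp), FreeGroup.toWord_one]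
    have := D_append ([] : List (α × Bool)) a
    rw [List.nil_append] at this
    omega
  · rw [List.concat_eq_append] at h
    by_cases hab : b.1 = a.1 → b.2 = a.2
    · have h1 : FreeGroup.IsReduced (x.toWord ++ [a]) := by
        rw [h] at hr ⊢
        refine FreeGroup.IsReduced.append_overlap hr ?_ (by simp)
        rw [List.singleton_append, FreeGroup.isReduced_cons_cons]
        exact ⟨hab, by simp⟩
      have h2 : x * FreeGroup.mk [a] = FreeGroup.mk (x.toWord ++ [a]) := by
        conv_lhs => rw [hx]
        rw [FreeGroup.mul_mk]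
      rw [h2, toWord_of_reduced h1, D_append]
    · have hb : b = (a.1, !a.2) := by
        push Not at hab
        obtain ⟨h1, h2⟩ := hab
        ext
        · exact h1
        · exact Bool.eq_not_of_ne h2
      have h2 : x * FreeGroup.mk [a] = FreeGroup.mk L := by
        conv_lhs => rw [hx]
        rw [FreeGroup.mul_mk, h, List.append_assoc, List.singleton_append, hb, ← FreeGroup.mul_mk]
        have : FreeGroup.mk [(a.1, !a.2), a] = 1 := by
          rw [← FreeGroup.toWord_eq_nil_iff, FreeGroup.toWord_mk]
          simp [FreeGroup.reduce.cons]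
        rw [this, mul_one]
      have hL : FreeGroup.IsReduced L := reduced_left (h ▸ hr)
      rw [h2, toWord_of_reduced hL, h, D_symm, D_append]

theorem letter_of_d_one {x y : FreeGroup α} (h : d x y = 1) :
    ∃ a, y = x * FreeGroup.mk [a] := by
  rw [d_def] at h
  have hx : x = FreeGroup.mk x.toWord := FreeGroup.mk_toWord.symm
  have hy : y = FreeGroup.mk y.toWord := FreeGroup.mk_toWord.symm
  rcases D_one _ _ h with ⟨a, ha⟩ | ⟨a, ha⟩
  · refine ⟨(a.1, !a.2), ?_⟩
    have h1 : x = y * FreeGroup.mk [a] := by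
      conv_lhs => rw [hx, ha]
      conv_rhs => rw [hy]
      rw [FreeGroup.mul_mk]
    have h2 : FreeGroup.mk [(a.1, !a.2)] = (FreeGroup.mk [a])⁻¹ := by
      rw [FreeGroup.inv_mk]; rfl
    rw [h1, h2, mul_inv_cancel_right]
  · refine ⟨a, ?_⟩
    conv_lhs => rw [hy, ha]
    conv_rhs => rw [hx]
    rw [FreeGroup.mul_mk]

theorem d_smul_le (g : FreeGroup α) :
    ∀ (n : ℕ) (v w : FreeGroup α), d v w = n → d (g * v) (g * w) ≤ n := by
  intro n
  induction n with
  | zero => intro v w h; rw [eq_of_d v w h, d_self]
  | succ n ih =>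
    intro v w h
    obtain ⟨z, hz1, hz2⟩ := geo v w 1 (by omega)
    have h1 : d (g * v) (g * z) ≤ 1 := by
      obtain ⟨a, rfl⟩ := letter_of_d_one hz1
      rw [← mul_assoc]
      exact d_mul_letter _ _
    have h2 := ih z w (by omega)
    have := tri (g * v) (g * z) (g * w)
    omega

theorem d_mul (g v w : FreeGroup α) : d (g * v) (g * w) = d v w := by
  apply le_antisymm (d_smul_le g _ v w rfl)
  have := d_smul_le g⁻¹ _ (g * v) (g * w) rfl
  rwa [inv_mul_cancel_left, inv_mul_cancel_left] at this

theorem hg [Finite α] : HG (FreeGroup α) (FreeGroup α) where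
  isom g x y := d_mul g x y
  ne := ⟨1⟩
  hyp := ⟨0, hyp0⟩
  prop x r := by
    have h1 : {g : FreeGroup α | g.toWord.length ≤ d 1 x + r + d 1 x}.Finite := by
      have h2 : {g : FreeGroup α | g.toWord.length ≤ d 1 x + r + d 1 x} =
          FreeGroup.toWord ⁻¹' {l | l.length ≤ d 1 x + r + d 1 x} := rfl
      rw [h2]
      exact Set.Finite.preimage FreeGroup.toWord_injective.injOn
        (List.finite_length_le _ _)
    refine h1.subset fun g hg => ?_
    have hg' : d x (g * x) ≤ r := hg
    rw [Set.mem_setOf_eq, ← d_one_left]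
    have t1 := tri 1 x g
    have t2 := tri x (g * x) g
    have t3 : d (g * x) g = d 1 x := by
      have := d_mul g x 1
      rw [mul_one] at this
      rw [this, GMet.symm]
    omega
  cob := ⟨1, 0, fun y => ⟨y, by
    have : y • (1 : FreeGroup α) = y := mul_one y
    rw [this, d_self]⟩⟩

/-! ### malnormality -/

/-- exponent sum of `of i` -/
def ex (i : α) : FreeGroup α →* Multiplicative ℤ :=
  FreeGroup.lift fun j => if j = i then Multiplicative.ofAdd 1 else 1

theorem ex_pow (i : α) (n : ℤ) : ex i (FreeGroup.of i ^ n) = Multiplicative.ofAdd n := by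
  rw [map_zpow]
  simp [ex, ← ofAdd_zsmul]

theorem inf (i : α) : ¬ IsOfFinOrder (FreeGroup.of i) := by
  intro h
  obtain ⟨n, hn, h1⟩ := isOfFinOrder_iff_pow_eq_one.1 h
  have h2 := ex_pow i (n : ℤ)
  rw [zpow_natCast, h1, map_one] at h2
  have h3 : (0 : ℤ) = n := Multiplicative.ofAdd.injective (by simpa using h2)
  omega

theorem word_pow (i : α) (n : ℤ) : ∃ b : Bool, (FreeGroup.of i ^ n).toWord =
    List.replicate n.natAbs (i, b) := by
  rcases Int.natAbs_eq n with h | h
  · refine ⟨true, ?_⟩
    conv_lhs => rw [h]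
    rw [zpow_natCast, FreeGroup.toWord_of_pow]
  · refine ⟨false, ?_⟩
    conv_lhs => rw [h]
    rw [zpow_neg, zpow_natCast, FreeGroup.toWord_inv, FreeGroup.toWord_of_pow]
    simp [FreeGroup.invRev]

/-- a word not starting with `i` -/
theorem word_pow_mul (i : α) (n : ℤ) (h : FreeGroup α) (hh : ∀ b L, h.toWord ≠ (i, b) :: L) :
    (FreeGroup.of i ^ n * h).toWord = (FreeGroup.of i ^ n).toWord ++ h.toWord := by
  rw [FreeGroup.toWord_mul]
  apply FreeGroup.IsReduced.reduce_eq
  refine List.isChain_append.2 ⟨FreeGroup.isReduced_toWord, FreeGroup.isReduced_toWord, ?_⟩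
  intro x hx y hy hxy
  exfalso
  obtain ⟨b, hb⟩ := word_pow i n
  rw [hb] at hx
  have h1 : x = (i, b) := List.eq_of_mem_replicate (List.mem_of_mem_getLast? hx)
  obtain ⟨y1, y2⟩ := y
  cases hw : h.toWord with
  | nil => rw [hw] at hy; simp at hy
  | cons z L =>
    rw [hw] at hy
    simp only [List.head?_cons, Option.mem_some_iff] at hy
    apply hh y2 L
    rw [hw, hy, h1] at *
    simp only at hxy
    rw [← hxy]

theorem word_mul_pow (i : α) (n : ℤ) (h : FreeGroup α) (hh : ∀ b L, h.toWord ≠ L ++ [(i, b)]) :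
    (h * FreeGroup.of i ^ n).toWord = h.toWord ++ (FreeGroup.of i ^ n).toWord := by
  rw [FreeGroup.toWord_mul]
  apply FreeGroup.IsReduced.reduce_eq
  refine List.isChain_append.2 ⟨FreeGroup.isReduced_toWord, FreeGroup.isReduced_toWord, ?_⟩
  intro x hx y hy hxy
  exfalso
  obtain ⟨b, hb⟩ := word_pow i n
  rw [hb] at hy
  have h1 : y = (i, b) := List.eq_of_mem_replicate (List.mem_of_mem_head? hy)
  obtain ⟨x1, x2⟩ := x
  rcases List.eq_nil_or_concat h.toWord with hw | ⟨L, z, hw⟩
  · rw [hw] at hx; simp at hx
  · rw [List.concat_eq_append] at hw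
    rw [hw] at hx
    simp only [List.getLast?_append, List.getLast?_singleton, Option.some_or,
      Option.mem_some_iff] at hx
    apply hh x2 L
    rw [hw, hx]
    rw [h1] at hxy
    simp only at hxy
    rw [← hxy]

theorem comm_case (i : α) (n : ℤ) (hn : n ≠ 0) : ∀ (l : ℕ) (g : FreeGroup α),
    g.toWord.length = l → g * FreeGroup.of i ^ n = FreeGroup.of i ^ n * g →
    g ∈ Subgroup.zpowers (FreeGroup.of i) := by
  intro l
  induction l using Nat.strong_induction_on with
  | _ l ih =>
    intro g hl hc
    by_cases h1 : ∃ b L, g.toWord = (i, b) :: L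
    · obtain ⟨b, L, h1⟩ := h1
      have hL : FreeGroup.IsReduced L := by
        have : FreeGroup.IsReduced ([(i, b)] ++ L) := by
          rw [List.singleton_append, ← h1]; exact FreeGroup.isReduced_toWord
        exact (List.isChain_append.1 this).2.1
      have e : g = FreeGroup.mk [(i, b)] * FreeGroup.mk L := by
        rw [FreeGroup.mul_mk, List.singleton_append, ← h1, FreeGroup.mk_toWord]
      have hb : FreeGroup.mk [(i, b)] ∈ Subgroup.zpowers (FreeGroup.of i) := by
        cases b
        · refine ⟨-1, ?_⟩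
          simp only [zpow_neg, zpow_one]
          change (FreeGroup.mk [(i, true)])⁻¹ = _
          rw [FreeGroup.inv_mk]; rfl
        · exact ⟨1, by simp only [zpow_one]; rfl⟩
      rw [e]
      refine Subgroup.mul_mem _ hb (ih L.length ?_ _ (by rw [toWord_of_reduced hL]) ?_)
      · rw [← hl, h1]; simp
      · obtain ⟨p, hp⟩ := hb
        simp only at hp
        rw [e, ← hp] at hc
        have : FreeGroup.of i ^ n * (FreeGroup.of i ^ p * FreeGroup.mk L) =
            FreeGroup.of i ^ p * (FreeGroup.of i ^ n * FreeGroup.mk L) := by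
          rw [← mul_assoc, ← mul_assoc, ← zpow_add, ← zpow_add, add_comm]
        rw [this, mul_assoc] at hc
        exact mul_left_cancel hc
    by_cases h2 : ∃ b L, g.toWord = L ++ [(i, b)]
    · obtain ⟨b, L, h2⟩ := h2
      have hL : FreeGroup.IsReduced L := by
        have : FreeGroup.IsReduced (L ++ [(i, b)]) := by
          rw [← h2]; exact FreeGroup.isReduced_toWord
        exact reduced_left this
      have e : g = FreeGroup.mk L * FreeGroup.mk [(i, b)] := by
        rw [FreeGroup.mul_mk, ← h2, FreeGroup.mk_toWord]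
      have hb : FreeGroup.mk [(i, b)] ∈ Subgroup.zpowers (FreeGroup.of i) := by
        cases b
        · refine ⟨-1, ?_⟩
          simp only [zpow_neg, zpow_one]
          change (FreeGroup.mk [(i, true)])⁻¹ = _
          rw [FreeGroup.inv_mk]; rfl
        · exact ⟨1, by simp only [zpow_one]; rfl⟩
      rw [e]
      refine Subgroup.mul_mem _ (ih L.length ?_ _ (by rw [toWord_of_reduced hL]) ?_) hb
      · rw [← hl, h2]; simp
      · obtain ⟨p, hp⟩ := hb
        simp only at hp
        rw [e, ← hp] at hc
        have : FreeGroup.mk L * FreeGroup.of i ^ p * FreeGroup.of i ^ n =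
            FreeGroup.mk L * FreeGroup.of i ^ n * FreeGroup.of i ^ p := by
          rw [mul_assoc, mul_assoc, ← zpow_add, ← zpow_add, add_comm]
        rw [this, ← mul_assoc] at hc
        exact mul_right_cancel hc
    · push Not at h1 h2
      have e1 := word_pow_mul i n g h1
      have e2 := word_mul_pow i n g h2
      rw [hc, e1] at e2
      cases hw : g.toWord with
      | nil =>
        rw [FreeGroup.toWord_eq_nil_iff.1 hw]
        exact Subgroup.one_mem _
      | cons z L =>
        exfalso
        obtain ⟨b, hb⟩ := word_pow i n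
        rw [hw, hb] at e2
        obtain ⟨m, hm⟩ : ∃ m, n.natAbs = m + 1 := ⟨n.natAbs - 1, by omega⟩
        rw [hm, List.replicate_succ, List.cons_append, List.cons_append, List.cons.injEq] at e2
        exact h1 b L (by rw [hw, ← e2.1])

theorem mal (i : α) : Mal (FreeGroup.of i) where
  inf := inf i
  mal g m n hn h := by
    have h1 := congrArg (ex i) h
    rw [map_mul, map_mul, ex_pow, ex_pow, map_inv, mul_comm (ex i g), mul_inv_cancel_right] at h1
    have h2 : n = m := Multiplicative.ofAdd.injective h1
    subst h2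
    exact comm_case i n hn _ g rfl (mul_inv_eq_iff_eq_mul.1 h)

end BG

theorem baseGeo : BaseGeoStmt :=
  ⟨⟨F3, BG.met, inferInstance, @BG.hg (Fin 3) _ _⟩, BG.mal 0⟩

end TSq
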