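import Pool.Agent.Work.TSQ.Interface

/-!
# MP_ab148e_al: block BASE, part 2 (helper79)
-/

namespace TSq

open Finset

namespace BaseW

theorem mem_nb {G G2 M : Type} [Group G] [Group G2] {a : G} {e : Fin 3 → G} {f : Fin 3 → G2}
    {π : Ln a × G2 → M} {F : Finset (G × G2)} {m : M} :
    m ∈ nb a e f π F ↔ ∃ p ∈ F, ∃ i, π (nd a e f p i) = m := by
  classical
  unfold nb
  simp only [mem_biUnion, mem_image, mem_univ, true_and]

/-- the three elements `1, b, c` -/
abbrev ee : Fin 3 → F3 := fe

/-- the three lines of the claw `g` -/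
def L (g : F3) (i : Fin 3) : Ln fa := ((g * ee i : F3) : Ln fa)

/-- last letter -/
def la (g : F3) : Option (Fin 3 × Bool) := g.toWord.getLast?

theorem la_mul {h : F3} {i : Fin 3} {b : Bool} (hne : la h ≠ some (i, !b)) :
    la (h * FreeGroup.mk [(i, b)]) = some (i, b) := by
  have h1 : (h * FreeGroup.mk [(i, b)]).toWord = h.toWord ++ [(i, b)] := by
    rw [FreeGroup.toWord_mul, FreeGroup.toWord_mk]
    have h2 : FreeGroup.reduce [(i, b)] = [(i, b)] := rfl
    rw [h2]
    apply FreeGroup.IsReduced.reduce_eq
    unfold FreeGroup.IsReduced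
    rw [List.isChain_append]
    refine ⟨FreeGroup.isReduced_toWord, List.isChain_singleton _, ?_⟩
    rintro ⟨x, s⟩ hx ⟨y, t⟩ hy hxy
    simp only [List.head?_cons, Option.mem_def, Option.some.injEq, Prod.mk.injEq] at hy
    obtain ⟨rfl, rfl⟩ := hy
    simp only at hxy
    subst hxy
    by_contra hst
    apply hne
    unfold la
    rw [Option.mem_def] at hx
    rw [hx]
    have : s = !b := by
      cases s <;> cases b <;> simp_all
    rw [this]
  unfold la
  rw [h1, List.getLast?_append]
  simp

theorem la_one : la 1 = none := by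
  unfold la
  rw [FreeGroup.toWord_one]; rfl

theorem la_mul_pow {h : F3} {i : Fin 3} {b : Bool} (hne : la h ≠ some (i, !b)) (n : ℕ) :
    la (h * FreeGroup.mk [(i, b)] ^ (n + 1)) = some (i, b) := by
  induction n with
  | zero => rw [zero_add, pow_one]; exact la_mul hne
  | succ n ih =>
    rw [pow_succ, ← mul_assoc]
    apply la_mul
    rw [ih]
    intro h
    simp only [Option.some.injEq, Prod.mk.injEq, true_and] at h
    cases b <;> simp at h

theorem of_eq (i : Fin 3) : (FreeGroup.of i : F3) = FreeGroup.mk [(i, true)] := rfl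

theorem inv_of_eq (i : Fin 3) : (FreeGroup.of i : F3)⁻¹ = FreeGroup.mk [(i, false)] := rfl

/-- words not ending with `a^{±1}` represent their cosets uniquely -/
theorem coset_unique {h h' : F3} (h1 : ∀ s, la h ≠ some (0, s)) (h2 : ∀ s, la h' ≠ some (0, s))
    (he : (h : Ln fa) = h') : h = h' := by
  rw [QuotientGroup.eq, Subgroup.mem_zpowers_iff] at he
  obtain ⟨n, hn⟩ := he
  have e : h' = h * fa ^ n := by rw [hn]; group
  rcases lt_trichotomy n 0 with h0 | h0 | h0
  · exfalso
    obtain ⟨m, hm⟩ : ∃ m : ℕ, n = -((m + 1 : ℕ) : ℤ) := ⟨(-n - 1).toNat, by omega⟩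
    apply h2 false
    rw [e, hm, zpow_neg, zpow_natCast, ← inv_pow]
    exact la_mul_pow (h1 _) m
  · rw [h0, zpow_zero, mul_one] at e
    exact e.symm
  · exfalso
    obtain ⟨m, hm⟩ : ∃ m : ℕ, n = ((m + 1 : ℕ) : ℤ) := ⟨(n - 1).toNat, by omega⟩
    apply h2 true
    rw [e, hm, zpow_natCast]
    exact la_mul_pow (h1 _) m

/-- index of the parent line -/
def par (g : F3) : Fin 3 :=
  if la g = some (1, false) then 1 else if la g = some (2, false) then 2 else 0

/-- the last letter of a child -/
theorem la_child {g : F3} {i : Fin 3} (hi : i ≠ par g) :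
    ∃ x s, la (g * ee i) = some (x, s) ∧ x ≠ 0 ∧ i = if s then x else 0 := by
  fin_cases i
  · -- `i = 0`
    have e : g * ee 0 = g := by simp [ee, fe]
    change ∃ x s, la (g * ee 0) = some (x, s) ∧ x ≠ 0 ∧ (0 : Fin 3) = if s then x else 0
    rw [e]
    unfold par at hi
    by_cases h1 : la g = some (1, false)
    · exact ⟨1, false, h1, by decide, rfl⟩
    · by_cases h2 : la g = some (2, false)
      · exact ⟨2, false, h2, by decide, rfl⟩
      · rw [if_neg h1, if_neg h2] at hi
        exact absurd rfl hi
  · refine ⟨1, true, ?_, by decide, rfl⟩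
    change la (g * FreeGroup.of 1) = _
    rw [of_eq]
    apply la_mul
    intro h
    have h' : la g = some (1, false) := h
    apply hi
    unfold par
    rw [if_pos h']
    rfl
  · refine ⟨2, true, ?_, by decide, rfl⟩
    change la (g * FreeGroup.of 2) = _
    rw [of_eq]
    apply la_mul
    intro h
    have h' : la g = some (2, false) := h
    apply hi
    unfold par
    rw [if_neg (by rw [h']; decide), if_pos h']
    rfl

theorem child_inj {g g' : F3} {i i' : Fin 3} (hi : i ≠ par g) (hi' : i' ≠ par g')
    (h : g * ee i = g' * ee i') : g = g' ∧ i = i' := by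
  obtain ⟨x, s, h1, h2, h3⟩ := la_child hi
  obtain ⟨x', s', h1', h2', h3'⟩ := la_child hi'
  rw [h, h1'] at h1
  simp only [Option.some.injEq, Prod.mk.injEq] at h1
  obtain ⟨rfl, rfl⟩ := h1
  have e : i = i' := by rw [h3, h3']
  subst e
  exact ⟨mul_right_cancel h, rfl⟩

theorem L_inj {g g' : F3} {i i' : Fin 3} (hi : i ≠ par g) (hi' : i' ≠ par g')
    (h : L g i = L g' i') : g = g' ∧ i = i' := by
  obtain ⟨x, s, h1, h2, h3⟩ := la_child hi
  obtain ⟨x', s', h1', h2', h3'⟩ := la_child hi'
  apply child_inj hi hi'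
  apply coset_unique _ _ h
  · intro t ht
    rw [h1] at ht
    simp only [Option.some.injEq, Prod.mk.injEq] at ht
    exact h2 ht.1
  · intro t ht
    rw [h1'] at ht
    simp only [Option.some.injEq, Prod.mk.injEq] at ht
    exact h2' ht.1

theorem par_one : par 1 = 0 := by
  unfold par
  rw [la_one]; rfl

theorem L_ne_root {g : F3} {i : Fin 3} (hi : i ≠ par g) : L g i ≠ L 1 0 := by
  intro h
  obtain ⟨x, s, h1, h2, h3⟩ := la_child hi
  have h4 : g * ee i = 1 * ee 0 := by
    apply coset_unique _ _ h
    · intro t ht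
      rw [h1] at ht
      simp only [Option.some.injEq, Prod.mk.injEq] at ht
      exact h2 ht.1
    · intro t
      have : (1 : F3) * ee 0 = 1 := by simp [ee, fe]
      rw [this, la_one]
      simp
  have h5 : (1 : F3) * ee 0 = 1 := by simp [ee, fe]
  rw [h4, h5, la_one] at h1
  simp at h1

/-- the child lines of claws other than `1` are not lines of the claw `1` -/
theorem L_ne_one {g : F3} {i j : Fin 3} (hg : g ≠ 1) (hi : i ≠ par g) : L g i ≠ L 1 j := by
  by_cases hj : j = 0
  · subst hj; exact L_ne_root hi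
  · intro h
    exact hg (L_inj hi (by rw [par_one]; exact hj) h).1

/-- translation of lines -/
theorem L_trans {h g g' : F3} {i i' : Fin 3} : L (h * g) i = L (h * g') i' ↔ L g i = L g' i' := by
  unfold L
  rw [QuotientGroup.eq, QuotientGroup.eq]
  have : (h * g * ee i)⁻¹ * (h * g' * ee i') = (g * ee i)⁻¹ * (g' * ee i') := by group
  rw [this]

/-- the lines of the claws of `E` -/
noncomputable def NE (E : Finset F3) : Finset (Ln fa) := by
  classical
  exact (E ×ˢ (univ : Finset (Fin 3))).image fun q => L q.1 q.2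

theorem mem_NE {E : Finset F3} {m : Ln fa} :
    m ∈ NE E ↔ ∃ g ∈ E, ∃ i, L g i = m := by
  classical
  unfold NE
  simp only [mem_image, mem_product, mem_univ, and_true, Prod.exists]
  constructor
  · rintro ⟨g, i, hg, h⟩; exact ⟨g, hg, i, h⟩
  · rintro ⟨g, hg, i, h⟩; exact ⟨g, i, hg, h⟩

theorem card_NE_le (E : Finset F3) : (NE E).card ≤ 3 * E.card := by
  classical
  unfold NE
  refine card_image_le.trans ?_
  rw [card_product]
  simp [mul_comm]

/-- children, the tree being rooted at `g0` -/
noncomputable def chl (g0 : F3) (E : Finset F3) : Finset (F3 × Fin 3) :=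
  (E ×ˢ (univ : Finset (Fin 3))).filter fun q => q.2 ≠ par (g0⁻¹ * q.1)

theorem card_chl (g0 : F3) (E : Finset F3) : (chl g0 E).card = 2 * E.card := by
  classical
  have h1 : (chl g0 E).card = ∑ g ∈ E, ((univ : Finset (Fin 3)).filter fun i =>
      i ≠ par (g0⁻¹ * g)).card := by
    rw [card_eq_sum_card_fiberwise (f := Prod.fst) (t := E)]
    · apply sum_congr rfl
      intro g hg
      apply card_bij (fun q _ => q.2)
      · intro q hq
        simp only [chl, mem_filter, mem_product, mem_univ, and_true, true_and] at hq ⊢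
        rw [← hq.2]; exact hq.1.2
      · intro q hq q' hq' h
        simp only [chl, mem_filter, mem_product, mem_univ, and_true] at hq hq'
        exact Prod.ext (hq.2.trans hq'.2.symm) h
      · intro i hi
        simp only [mem_filter, mem_univ, true_and] at hi
        exact ⟨(g, i), by simp only [chl, mem_filter, mem_product, mem_univ, and_true]
                          exact ⟨hg, hi⟩, rfl⟩
    · intro q hq
      simp only [chl, coe_filter, mem_product, mem_univ, and_true, Set.mem_ofPred_eq] at hq
      exact hq.1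
  rw [h1]
  have h2 : ∀ j : Fin 3, ((univ : Finset (Fin 3)).filter fun i => i ≠ j).card = 2 := by decide
  simp only [h2, sum_const, smul_eq_mul]
  omega

/-- (T1) -/
theorem T1 {E : Finset F3} (hE : E.Nonempty) : 2 * E.card + 1 ≤ (NE E).card := by
  classical
  obtain ⟨g0, hg0⟩ := hE
  have hinj : Set.InjOn (fun q : F3 × Fin 3 => L q.1 q.2) (chl g0 E) := by
    rintro q hq q' hq' h
    simp only [chl, coe_filter, mem_product, mem_univ, and_true, Set.mem_ofPred_eq] at hq hq'
    have h' : L q.1 q.2 = L q'.1 q'.2 := h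
    have h1 : L (g0⁻¹ * q.1) q.2 = L (g0⁻¹ * q'.1) q'.2 := L_trans.2 h'
    obtain ⟨h2, h3⟩ := L_inj hq.2 hq'.2 h1
    exact Prod.ext (mul_left_cancel h2) h3
  have hsub : insert (L g0 0) ((chl g0 E).image fun q => L q.1 q.2) ⊆ NE E := by
    intro m hm
    rw [mem_insert, mem_image] at hm
    rcases hm with rfl | ⟨q, hq, rfl⟩
    · exact mem_NE.2 ⟨g0, hg0, 0, rfl⟩
    · simp only [chl, mem_filter, mem_product, mem_univ, and_true] at hq
      exact mem_NE.2 ⟨q.1, hq.1, q.2, rfl⟩
  have hni : L g0 0 ∉ (chl g0 E).image fun q => L q.1 q.2 := by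
    intro hm
    obtain ⟨q, hq, h⟩ := mem_image.1 hm
    simp only [chl, mem_filter, mem_product, mem_univ, and_true] at hq
    have h1 : L (g0⁻¹ * q.1) q.2 = L (g0⁻¹ * g0) 0 := L_trans.2 h
    rw [inv_mul_cancel] at h1
    exact L_ne_root hq.2 h1
  have := card_le_card hsub
  rwa [card_insert_of_notMem hni, card_image_of_injOn hinj, card_chl] at this

/-- `|X {1,b,c}| ≥ 2 |X|` -/
theorem T3 (X : Finset F3) : 2 * X.card ≤
    ((X ×ˢ (univ : Finset (Fin 3))).image fun q => q.1 * ee q.2).card := by
  classical
  have hinj : Set.InjOn (fun q : F3 × Fin 3 => q.1 * ee q.2) (chl 1 X) := by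
    rintro q hq q' hq' h
    simp only [chl, inv_one, one_mul, coe_filter, mem_product, mem_univ, and_true,
      Set.mem_ofPred_eq] at hq hq'
    obtain ⟨h2, h3⟩ := child_inj hq.2 hq'.2 h
    exact Prod.ext h2 h3
  rw [← card_chl 1 X, ← card_image_of_injOn hinj]
  apply card_le_card
  apply image_subset_image
  exact filter_subset _ _

/-! ### the homomorphism `θ` -/

/-- `a ↦ 1, b ↦ b, c ↦ c` -/
def th : F3 →* F3 := FreeGroup.lift ![1, FreeGroup.of 1, FreeGroup.of 2]

theorem th_ee (i : Fin 3) : th (ee i) = ee i := by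
  fin_cases i <;> simp [th, ee, fe]

theorem th_a : th fa = 1 := by simp [th, fa]

/-- `θ` of a line -/
noncomputable def thl (m : Ln fa) : F3 := th m.out

theorem thl_mk (g : F3) : thl (g : Ln fa) = th g := by
  unfold thl
  have h : ((g : Ln fa).out : Ln fa) = g :=
    QuotientGroup.out_eq' _
  rw [QuotientGroup.eq, Subgroup.mem_zpowers_iff] at h
  obtain ⟨n, hn⟩ := h
  have h1 := congrArg th hn
  rw [map_zpow, th_a, one_zpow, map_mul, map_inv] at h1
  exact (inv_mul_eq_one.1 h1.symm)

theorem thl_L (g : F3) (i : Fin 3) : thl (L g i) = th g * ee i := by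
  unfold L
  rw [thl_mk, map_mul, th_ee]

end BaseW

open BaseW

/-- BLOCK BASE, part 2 -/
theorem baseWStmt : BaseWStmt := by
  intro P F
  have instL : DecidableEq (Ln fa) := fun a b => Classical.propDecidable _
  -- the set of all nodes
  let S : Finset (Ln fa × F3) := nb fa fe fe id F
  have hSmem : ∀ n, n ∈ S ↔ ∃ p ∈ F, ∃ i, (L p.1 i, p.2 * ee i) = n := fun n => mem_nb
  -- the component of a claw / of a node
  let uc : F3 × F3 → F3 := fun p => p.2 * (th p.1)⁻¹
  let un : Ln fa × F3 → F3 := fun n => n.2 * (thl n.1)⁻¹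
  have hun : ∀ (p : F3 × F3) (i : Fin 3), un (L p.1 i, p.2 * ee i) = uc p := by
    intro p i
    simp only [un, uc]
    rw [thl_L]; group
  let U0 : Finset F3 := F.image uc
  let Eu : F3 → Finset F3 := fun u => (F.filter fun p => uc p = u).image Prod.fst
  have hEu : ∀ u, (Eu u).card = (F.filter fun p => uc p = u).card := by
    intro u
    apply card_image_of_injOn
    intro p hp p' hp' h
    simp only [coe_filter, Set.mem_ofPred_eq] at hp hp'
    have h1 : p.1 = p'.1 := h
    have h2 : p.2 * (th p.1)⁻¹ = p'.2 * (th p'.1)⁻¹ := hp.2.trans hp'.2.symm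
    rw [h1] at h2
    exact Prod.ext h1 (mul_right_cancel h2)
  have hF : F.card = ∑ u ∈ U0, (Eu u).card := by
    rw [card_eq_sum_card_fiberwise (f := uc) (t := U0)]
    · exact sum_congr rfl fun u _ => (hEu u).symm
    · intro p hp
      exact mem_image_of_mem _ hp
  -- nodes of the component `u` are the lines of the claws of `Eu u`
  have hSu : ∀ (Q : Ln fa → Prop) [DecidablePred Q], (S.filter fun n => Q n.1).card =
      ∑ u ∈ U0, ((NE (Eu u)).filter Q).card := by
    intro Q _
    rw [card_eq_sum_card_fiberwise (f := un) (t := U0)]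
    · apply sum_congr rfl
      intro u hu
      apply card_bij (fun n _ => n.1)
      · intro n hn
        simp only [mem_filter] at hn ⊢
        obtain ⟨⟨hn1, hn2⟩, hn3⟩ := hn
        obtain ⟨p, hp, i, rfl⟩ := (hSmem n).1 hn1
        refine ⟨mem_NE.2 ⟨p.1, ?_, i, rfl⟩, hn2⟩
        refine mem_image.2 ⟨p, mem_filter.2 ⟨hp, ?_⟩, rfl⟩
        rw [← hn3, hun]
      · intro n hn n' hn' h
        simp only [mem_filter] at hn hn'
        have h1 : n.1 = n'.1 := h
        have h2 : n.2 * (thl n.1)⁻¹ = n'.2 * (thl n'.1)⁻¹ := hn.2.trans hn'.2.symm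
        rw [h1] at h2
        exact Prod.ext h1 (mul_right_cancel h2)
      · intro m hm
        simp only [mem_filter] at hm
        obtain ⟨hm1, hm2⟩ := hm
        obtain ⟨g, hg, i, rfl⟩ := mem_NE.1 hm1
        obtain ⟨p, hp, rfl⟩ := mem_image.1 hg
        rw [mem_filter] at hp
        refine ⟨(L p.1 i, p.2 * ee i), ?_, rfl⟩
        rw [mem_filter, mem_filter]
        exact ⟨⟨(hSmem _).2 ⟨p, hp.1, i, rfl⟩, hm2⟩, by rw [hun]; exact hp.2⟩
    · intro n hn
      rw [mem_coe, mem_filter] at hn
      obtain ⟨p, hp, i, rfl⟩ := (hSmem n).1 hn.1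
      rw [mem_coe, hun]
      exact mem_image_of_mem _ hp
  -- identification of three lines
  let Pl : Finset (Ln fa) := univ.image P
  have hPl : ∀ m, m ∈ Pl ↔ m ∈ Set.range P := by
    intro m; simp [Pl]
  have hPc : Pl.card ≤ 3 := by
    have : (univ.image P).card ≤ (univ : Finset (Fin 3)).card := card_image_le
    simpa using this
  set I : Finset (Ln fa × F3) := nb fa fe fe (wd P) F with hI
  -- non-special nodes and special fibres
  let Sn : Finset (Ln fa × F3) := S.filter fun n => n.1 ∉ Pl
  let Sp : Finset (Ln fa × F3) := S.filter fun n => n.1 ∈ Pl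
  let Yy : Finset F3 := Sp.image Prod.snd
  have hwd1 : ∀ n : Ln fa × F3, n.1 ∉ Pl → wd P n = n := by
    intro n hn
    unfold wd
    rw [if_neg (fun h => hn ((hPl _).2 h))]
  have hwd2 : ∀ n : Ln fa × F3, n.1 ∈ Pl → wd P n = (P 0, n.2) := by
    intro n hn
    unfold wd
    rw [if_pos ((hPl _).1 hn)]
  have hIc : I.card = Sn.card + Yy.card := by
    have e1 : I = Sn ∪ Yy.image fun y => (P 0, y) := by
      ext n
      rw [mem_union, hI, mem_nb]
      constructor
      · rintro ⟨p, hp, i, rfl⟩
        by_cases h : (nd fa fe fe p i).1 ∈ Pl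
        · right
          rw [hwd2 _ h]
          refine mem_image.2 ⟨(nd fa fe fe p i).2, mem_image.2 ⟨nd fa fe fe p i,
            mem_filter.2 ⟨mem_nb.2 ⟨p, hp, i, rfl⟩, h⟩, rfl⟩, rfl⟩
        · left
          rw [hwd1 _ h]
          exact mem_filter.2 ⟨mem_nb.2 ⟨p, hp, i, rfl⟩, h⟩
      · rintro (hn | hn)
        · obtain ⟨h1, h2⟩ := mem_filter.1 hn
          obtain ⟨p, hp, i, hi⟩ := mem_nb.1 h1
          have hi : nd fa fe fe p i = n := hi
          exact ⟨p, hp, i, by rw [hi, hwd1 _ h2]⟩
        · obtain ⟨y, hy, rfl⟩ := mem_image.1 hn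
          obtain ⟨m, hm, rfl⟩ := mem_image.1 hy
          obtain ⟨h1, h2⟩ := mem_filter.1 hm
          obtain ⟨p, hp, i, hi⟩ := mem_nb.1 h1
          have hi : nd fa fe fe p i = m := hi
          exact ⟨p, hp, i, by rw [hi, hwd2 _ h2]⟩
    have e2 : Disjoint Sn (Yy.image fun y => (P 0, y)) := by
      rw [Finset.disjoint_left]
      intro n hn hn'
      obtain ⟨y, hy, rfl⟩ := mem_image.1 hn'
      exact (mem_filter.1 hn).2 ((hPl _).2 ⟨0, rfl⟩)
    rw [e1, card_union_of_disjoint e2, card_image_of_injective]
    intro y y' h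
    exact congrArg Prod.snd h
  have h4 : (0 : ℚ) ≤ F.card := Nat.cast_nonneg _
  by_cases hcl : ∃ g0 : F3, ∀ i, L g0 i ∈ Pl
  · -- the three lines are the lines of a claw
    obtain ⟨g0, hg0⟩ := hcl
    have hPL : ∀ m ∈ Pl, ∃ i, L g0 i = m := by
      have h1 : (univ.image (L g0)) = Pl := by
        apply eq_of_subset_of_card_le
        · intro m hm
          obtain ⟨i, -, rfl⟩ := mem_image.1 hm
          exact hg0 i
        · have h2 := T1 (singleton_nonempty g0)
          have h3 : NE {g0} = univ.image (L g0) := by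
            ext m
            rw [mem_NE, mem_image]
            simp
          rw [h3, card_singleton] at h2
          omega
      intro m hm
      rw [← h1] at hm
      obtain ⟨i, -, h⟩ := mem_image.1 hm
      exact ⟨i, h⟩
    let X : Finset F3 := (F.filter fun p => p.1 = g0).image Prod.snd
    have hX : X.card = (F.filter fun p => p.1 = g0).card := by
      apply card_image_of_injOn
      intro p hp p' hp' h
      simp only [coe_filter, Set.mem_ofPred_eq] at hp hp'
      exact Prod.ext (hp.2.trans hp'.2.symm) h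
    have hY : 2 * X.card ≤ Yy.card := by
      refine (T3 X).trans (card_le_card ?_)
      intro y hy
      obtain ⟨q, hq, rfl⟩ := mem_image.1 hy
      rw [mem_product] at hq
      obtain ⟨p, hp, hpq⟩ := mem_image.1 hq.1
      rw [mem_filter] at hp
      refine mem_image.2 ⟨(L p.1 q.2, p.2 * ee q.2), ?_, by rw [hpq]⟩
      refine mem_filter.2 ⟨(hSmem _).2 ⟨p, hp.1, q.2, rfl⟩, ?_⟩
      simp only
      rw [hp.2]
      exact hg0 _
    -- injection of the children
    let Ch : Finset ((F3 × F3) × Fin 3) :=
      ((F.filter fun p => ¬ p.1 = g0) ×ˢ (univ : Finset (Fin 3))).filter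
        fun q => q.2 ≠ par (g0⁻¹ * q.1.1)
    have hCh : 2 * (F.filter fun p => ¬ p.1 = g0).card = Ch.card := by
      have h1 : Ch.card = ∑ p ∈ F.filter fun p => ¬ p.1 = g0,
          ((univ : Finset (Fin 3)).filter fun i => i ≠ par (g0⁻¹ * p.1)).card := by
        rw [card_eq_sum_card_fiberwise (f := Prod.fst) (t := F.filter fun p => ¬ p.1 = g0)]
        · apply sum_congr rfl
          intro p hp
          apply card_bij (fun q _ => q.2)
          · intro q hq
            simp only [Ch, mem_filter, mem_product, mem_univ, and_true, true_and] at hq ⊢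
            rw [← hq.2]; exact hq.1.2
          · intro q hq q' hq' h
            simp only [Ch, mem_filter, mem_product, mem_univ, and_true] at hq hq'
            exact Prod.ext (hq.2.trans hq'.2.symm) h
          · intro i hi
            simp only [mem_filter, mem_univ, true_and] at hi
            refine ⟨(p, i), ?_, rfl⟩
            simp only [Ch, mem_filter, mem_product, mem_univ, and_true]
            exact ⟨mem_filter.1 hp, hi⟩
        · intro q hq
          simp only [Ch, coe_filter, mem_product, mem_filter, mem_univ, and_true,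
            Set.mem_ofPred_eq] at hq
          rw [mem_coe, mem_filter]
          exact hq.1
      rw [h1]
      have h2 : ∀ j : Fin 3, ((univ : Finset (Fin 3)).filter fun i => i ≠ j).card = 2 := by
        decide
      simp only [h2, sum_const, smul_eq_mul]
      omega
    have hSn : Ch.card ≤ Sn.card := by
      apply card_le_card_of_injOn (fun q => (L q.1.1 q.2, q.1.2 * ee q.2))
      · intro q hq
        simp only [Ch, coe_filter, mem_product, mem_filter, mem_univ, and_true,
          Set.mem_ofPred_eq] at hq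
        rw [mem_coe, mem_filter]
        refine ⟨(hSmem _).2 ⟨q.1, hq.1.1, q.2, rfl⟩, ?_⟩
        intro hm
        obtain ⟨j, hj⟩ := hPL _ hm
        have h1 : L (g0⁻¹ * q.1.1) q.2 = L (g0⁻¹ * g0) j := L_trans.2 hj.symm
        rw [inv_mul_cancel] at h1
        refine L_ne_one ?_ hq.2 h1
        intro h2
        exact hq.1.2 (inv_mul_eq_one.1 h2).symm
      · intro q hq q' hq' h
        simp only [Ch, coe_filter, mem_product, mem_filter, mem_univ, and_true,
          Set.mem_ofPred_eq] at hq hq'
        have h1 : L q.1.1 q.2 = L q'.1.1 q'.2 := congrArg Prod.fst h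
        have h2 : q.1.2 * ee q.2 = q'.1.2 * ee q'.2 := congrArg Prod.snd h
        have h3 : L (g0⁻¹ * q.1.1) q.2 = L (g0⁻¹ * q'.1.1) q'.2 := L_trans.2 h1
        obtain ⟨h4, h5⟩ := L_inj hq.2 hq'.2 h3
        rw [h5] at h2
        exact Prod.ext (Prod.ext (mul_left_cancel h4) (mul_right_cancel h2)) h5
    have hsplit := card_filter_add_card_filter_not (s := F) (fun p => p.1 = g0)
    have h5 : 2 * F.card ≤ I.card := by omega
    have h6 : (2 : ℚ) * F.card ≤ I.card := by exact_mod_cast h5
    linarith
  · -- the three lines are not the lines of a claw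
    have hw : ∀ E : Finset F3, 9 * E.card ≤
        6 * ((NE E).filter fun m => m ∉ Pl).card + 2 * ((NE E).filter fun m => m ∈ Pl).card := by
      intro E
      rcases E.eq_empty_or_nonempty with rfl | hne
      · simp
      · have h1 := T1 hne
        have h2 := card_filter_add_card_filter_not (s := NE E) (fun m => m ∈ Pl)
        have h3 : ((NE E).filter fun m => m ∈ Pl).card ≤ 3 := by
          have h30 : ((NE E).filter fun m => m ∈ Pl) ⊆ Pl := by
            intro m hm
            exact (mem_filter.1 hm).2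
          have h31 := card_le_card h30
          omega
        have h4 : 0 < E.card := card_pos.2 hne
        by_cases h5 : E.card = 1 ∧ ((NE E).filter fun m => m ∈ Pl).card = 3
        · exfalso
          obtain ⟨h5, h6⟩ := h5
          obtain ⟨g, rfl⟩ := card_eq_one.1 h5
          apply hcl
          refine ⟨g, fun i => ?_⟩
          have h7 : (NE {g}).card ≤ 3 := by
            have := card_NE_le {g}
            rwa [card_singleton] at this
          have h8 : (NE {g}).filter (fun m => m ∈ Pl) = NE {g} := by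
            apply eq_of_subset_of_card_le (filter_subset _ _)
            omega
          have h9 : L g i ∈ NE {g} := mem_NE.2 ⟨g, mem_singleton_self _, i, rfl⟩
          rw [← h8] at h9
          exact (mem_filter.1 h9).2
        · omega
    have h1 : Sn.card = ∑ u ∈ U0, ((NE (Eu u)).filter fun m => m ∉ Pl).card :=
      hSu (fun m => m ∉ Pl)
    have h2 : Sp.card = ∑ u ∈ U0, ((NE (Eu u)).filter fun m => m ∈ Pl).card :=
      hSu (fun m => m ∈ Pl)
    have h3 : 9 * F.card ≤ 6 * Sn.card + 2 * Sp.card := by
      rw [h1, h2, hF, mul_sum, mul_sum, mul_sum, ← sum_add_distrib]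
      exact sum_le_sum fun u _ => hw (Eu u)
    have h5 : Sp.card ≤ 3 * Yy.card := by
      have h50 : Sp ⊆ Pl ×ˢ Yy := by
        intro n hn
        rw [mem_product]
        exact ⟨(mem_filter.1 hn).2, mem_image_of_mem _ hn⟩
      have h51 := card_le_card h50
      rw [card_product] at h51
      exact h51.trans (Nat.mul_le_mul_right _ hPc)
    have h6 : 3 * F.card ≤ 2 * I.card := by omega
    have h7 : (3 : ℚ) * F.card ≤ 2 * I.card := by exact_mod_cast h6
    linarith

end TSq
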