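import Pool.Agent.Work.TSQ.Orb

/-!
# MP_ab148e_al, block DICH (helper59): elements of infinite order are loxodromic, their orbits are
quasiconvex.
-/

namespace TSq
open FrobP GMet

namespace DI

section
variable {G V : Type} [Group G] [GMet V] [MulAction G V] [IsomAct G V] {δ : ℕ}

/-- distances along an orbit -/
theorem d_zpow (g : G) (x : V) (a b : ℤ) :
    d (g ^ a • x) (g ^ b • x) = d x (g ^ (b - a) • x) := by
  have : g ^ b = g ^ a * g ^ (b - a) := by rw [← zpow_add]; congr 1; ring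
  rw [this, mul_smul, IsomAct.isom]

theorem d_zneg (g : G) (x : V) (a : ℤ) : d x (g ^ (-a) • x) = d x (g ^ a • x) := by
  rw [zpow_neg, disp_inv]

/-- doubling: if some point is displaced little -/
theorem doubling (hV : Hyp V δ) (h : G) (x z : V) {m : ℕ} (hz : d z (h • z) ≤ m) :
    d x (h • h • x) ≤ d x (h • x) + 3 * m + 2 * δ := by
  have q := hV x (h • h • x) (h • x) z
  have e1 : d (h • h • x) (h • x) = d x (h • x) := by rw [isom, GMet.symm]
  have e2 : d (h • x) (h • z) = d x z := isom h x z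
  have e3 : d (h • h • x) (h • h • z) = d x z := by rw [isom, isom]
  have e4 : d (h • z) (h • h • z) = d z (h • z) := isom h z (h • z)
  have t1 := tri (h • x) z (h • z)
  have t2 := tri (h • h • x) (h • h • z) z
  have t3 := tri (h • h • z) (h • z) z
  have s1 := GMet.symm (h • h • z) (h • z)
  have s2 := GMet.symm (h • z) z
  omega

/-- if all powers displace some point little, then long pieces of the orbit of some point are
bounded -/
theorem near (hV : Hyp V δ) (g : G) (x : V) {m : ℕ}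
    (hm : ∀ n : ℤ, ∃ z : V, d z (g ^ n • z) ≤ m) (N : ℕ) :
    ∃ p : V, ∀ i : ℕ, i ≤ N → d p (g ^ (i : ℤ) • p) ≤ 3 * m + 7 * δ + 1 := by
  have hdbl : ∀ k : ℤ, d x (g ^ (2 * k) • x) ≤ d x (g ^ k • x) + 3 * m + 2 * δ := by
    intro k
    obtain ⟨z, hz⟩ := hm k
    have := doubling hV (g ^ k) x z hz
    rwa [← mul_smul, ← zpow_add, ← two_mul] at this
  obtain ⟨j, hj, hmax⟩ := Finset.exists_max_image (Finset.range (N + 1))
    (fun k : ℕ => d x (g ^ (k : ℤ) • x)) ⟨0, by simp⟩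
  set M := d x (g ^ (j : ℤ) • x) with hMdef
  have hjN : j ≤ N := by
    have := Finset.mem_range.1 hj
    omega
  have hMn : ∀ k : ℕ, k ≤ N → d x (g ^ (k : ℤ) • x) ≤ M := fun k hk =>
    hmax k (Finset.mem_range.2 (by omega))
  have hM : ∀ k : ℤ, |k| ≤ N → d x (g ^ k • x) ≤ M := by
    intro k hk
    rcases le_total 0 k with h0 | h0
    · obtain ⟨n, rfl⟩ := Int.eq_ofNat_of_zero_le h0
      exact hMn n (by rw [abs_of_nonneg h0] at hk; exact_mod_cast hk)
    · obtain ⟨n, hn⟩ := Int.eq_ofNat_of_zero_le (neg_nonneg.2 h0)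
      rw [← d_zneg, hn]
      exact hMn n (by rw [abs_of_nonpos h0, hn] at hk; exact_mod_cast hk)
  have hS : ∀ i : ℕ, i ≤ N → d x (g ^ ((i : ℤ) + j) • x) ≤ M + 3 * m + 3 * δ := by
    intro i hi
    have q := hV (g ^ (0 : ℤ) • x) (g ^ ((i : ℤ) + j) • x) (g ^ ((i : ℤ) - j) • x)
      (g ^ (2 * (i : ℤ)) • x)
    simp only [d_zpow] at q
    have e1 : (2 * (i : ℤ)) - ((i : ℤ) - j) = (i : ℤ) + j := by ring
    have e2 : (2 * (i : ℤ)) - ((i : ℤ) + j) = (i : ℤ) - j := by ring
    have e3 : ((i : ℤ) - j) - ((i : ℤ) + j) = -(2 * j) := by ring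
    rw [e1, e2, e3, d_zneg, sub_zero, sub_zero, sub_zero] at q
    have h1 := hdbl i
    have h2 := hdbl j
    have h3 := hMn i hi
    have h4 := hM ((i : ℤ) - j) (by rw [abs_le]; constructor <;> omega)
    omega
  obtain ⟨p, hp, hxp⟩ := exists_bt x (g ^ (j : ℤ) • x) (k := M / 2) (by omega)
  refine ⟨p, fun i hi => ?_⟩
  have hq : Bt (g ^ (i : ℤ) • x) (g ^ (i : ℤ) • p) (g ^ (i : ℤ) • g ^ (j : ℤ) • x) :=
    hp.smul (g ^ (i : ℤ))
  have e0 : g ^ (i : ℤ) • g ^ (j : ℤ) • x = g ^ ((i : ℤ) + j) • x := by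
    rw [← mul_smul, ← zpow_add]
  rw [e0] at hq
  have q1 := hV.h1 hp (g ^ (i : ℤ) • x)
  have q2 := hV.h1 hp (g ^ ((i : ℤ) + j) • x)
  have q3 := hV.h1 hq p
  have f1 : d (g ^ (i : ℤ) • x) x = d x (g ^ (i : ℤ) • x) := GMet.symm _ _
  have f2 : d (g ^ (i : ℤ) • x) (g ^ (j : ℤ) • x) = d x (g ^ ((j : ℤ) - i) • x) := d_zpow _ _ _ _
  have f3 : d (g ^ ((i : ℤ) + j) • x) x = d x (g ^ ((i : ℤ) + j) • x) := GMet.symm _ _
  have f4 : d (g ^ ((i : ℤ) + j) • x) (g ^ (j : ℤ) • x) = d x (g ^ (i : ℤ) • x) := by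
    rw [d_zpow, ← d_zneg]
    congr 3
    ring
  have f5 : d (g ^ (i : ℤ) • x) (g ^ ((i : ℤ) + j) • x) = M := by
    rw [d_zpow]
    congr 3
    ring
  have f6 : d (g ^ (i : ℤ) • x) (g ^ (i : ℤ) • p) = d x p := isom _ _ _
  have h2 := hMn i hi
  have h3 := hM ((j : ℤ) - i) (by rw [abs_le]; constructor <;> omega)
  have h4 := hS i hi
  have s1 := GMet.symm p (g ^ (i : ℤ) • x)
  have s2 := GMet.symm p (g ^ ((i : ℤ) + j) • x)
  unfold Bt at hp hq
  omega

/-- some power has large minimal displacement -/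
theorem exists_pow (H : HG G V) (hV : Hyp V δ) (g : G) (hg : ¬ IsOfFinOrder g) (m : ℕ) :
    ∃ n : ℕ, 1 ≤ n ∧ m ≤ md V (g ^ n) := by
  classical
  by_contra hcon
  push Not at hcon
  obtain ⟨x, D, hcob⟩ := H.cob
  have hne : Nonempty V := ⟨x⟩
  have hm : ∀ n : ℤ, ∃ z : V, d z (g ^ n • z) ≤ m := by
    have key : ∀ n : ℕ, ∃ z : V, d z (g ^ n • z) ≤ m := by
      intro n
      rcases Nat.eq_zero_or_pos n with h | h
      · exact ⟨x, by rw [h, pow_zero, one_smul, d_self]; omega⟩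
      · obtain ⟨z, hz⟩ := exists_md (V := V) (g ^ n)
        exact ⟨z, by have := hcon n h; omega⟩
    intro n
    rcases Int.natAbs_eq n with h | h
    · obtain ⟨z, hz⟩ := key n.natAbs
      refine ⟨z, ?_⟩
      rw [h, zpow_natCast]; exact hz
    · obtain ⟨z, hz⟩ := key n.natAbs
      refine ⟨z, ?_⟩
      rw [h, d_zneg, zpow_natCast]; exact hz
  have hfin := H.prop x (3 * m + 7 * δ + 1 + 2 * D)
  obtain ⟨p, hp⟩ := near hV g x hm hfin.toFinset.card
  obtain ⟨γ, hγ⟩ := hcob p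
  have hcard := Finset.card_le_card_of_injOn (s := Finset.range (hfin.toFinset.card + 1))
    (t := hfin.toFinset) (fun i : ℕ => γ⁻¹ * g ^ (i : ℤ) * γ) (by
      intro i hi
      have hi' := Finset.mem_range.1 (Finset.mem_coe.1 hi)
      rw [Finset.mem_coe, Set.Finite.mem_toFinset]
      change d x ((γ⁻¹ * g ^ (i : ℤ) * γ) • x) ≤ _
      rw [← disp_smul]
      have h1 := disp_lip (g ^ (i : ℤ)) (γ • x) p
      have h2 := hp i (by omega)
      have h3 := GMet.symm (γ • x) p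
      omega) (by
      intro i _ j _ hij
      have h1 : g ^ (i : ℤ) = g ^ (j : ℤ) := by simpa using hij
      have h2 := (injective_zpow_iff_not_isOfFinOrder.2 hg) h1
      exact_mod_cast h2)
  rw [Finset.card_range] at hcard
  omega

/-- linear growth -/
theorem linear (hV : Hyp V δ) {g : G} {N : ℕ} (hN : 1 ≤ N) (hm : 6 * δ + 2 ≤ md V (g ^ N))
    (x : V) (m : ℕ) : m ≤ N * d x (g ^ m • x) := by
  have key : ∀ M : ℕ, M * 1 ≤ N * d x (g ^ M • x) + N * (N * d x (g • x) + 1) := by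
    intro M
    have e := Nat.div_add_mod M N
    have hs := Nat.mod_lt M (show 0 < N by omega)
    set q := M / N with hq
    set s := M % N with hs'
    have h1 := hV.l4 hm x q
    rw [← pow_mul] at h1
    have h2 : q * 1 ≤ q * (md V (g ^ N) - 6 * δ) := Nat.mul_le_mul_left q (by omega)
    have h3 := tri x (g ^ M • x) (g ^ (N * q) • x)
    have h4 : d (g ^ M • x) (g ^ (N * q) • x) = d x (g ^ s • x) := by
      rw [GMet.symm, ← e, pow_add, mul_smul, isom]
    have h5 := disp_pow g x s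
    have h6 : s * d x (g • x) ≤ N * d x (g • x) := Nat.mul_le_mul_right _ (by omega)
    have h7 : N * q ≤ N * (d x (g ^ M • x) + N * d x (g • x)) :=
      Nat.mul_le_mul_left N (by omega)
    have h8 : N * (d x (g ^ M • x) + N * d x (g • x)) + N =
      N * d x (g ^ M • x) + N * (N * d x (g • x) + 1) := by ring
    omega
  have := stable key x m
  omega

/-- Gromov products along an orbit are bounded -/
theorem gp (hV : Hyp V δ) {h : G} {y : V} {m : ℕ} (hy : d y (h • y) = m)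
    (h2 : 2 * m ≤ d y (h • h • y) + 4 * δ) (hm : 7 * δ < m) (a b : ℕ) :
    d y (h ^ a • y) + d y (h ^ b • y) ≤ d y (h ^ (a + b) • y) + 8 * δ := by
  cases b with
  | zero => rw [pow_zero, one_smul, d_self]; simp
  | succ b =>
    have q := hV y (h ^ (a + 1) • y) (h ^ a • y) (h ^ (a + (b + 1)) • y)
    have e1 : d (h ^ a • y) (h ^ (a + (b + 1)) • y) = d y (h ^ (b + 1) • y) := by
      rw [pow_add, mul_smul, isom]
    have e2 : d (h ^ (a + 1) • y) (h ^ (a + (b + 1)) • y) = d y (h ^ b • y) := by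
      rw [show a + (b + 1) = (a + 1) + b by ring, pow_add h (a + 1) b, mul_smul, isom]
    have e3 : d (h ^ (a + 1) • y) (h ^ a • y) = m := by
      rw [GMet.symm, pow_succ, mul_smul, isom, hy]
    rw [e1, e2, e3] at q
    have p1 := (hV.l4_path hy h2 (by omega) a).2
    have p2 := (hV.l4_path hy h2 (by omega) b).2
    omega

/-- points between two points of the orbit are close to the orbit -/
theorem qc_pos (hV : Hyp V δ) {h : G} {y : V} {m : ℕ} (hy : d y (h • y) = m)
    (h2 : 2 * m ≤ d y (h • h • y) + 4 * δ) (hm : 7 * δ < m) (n : ℕ) {z : V}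
    (hz : Bt y z (h ^ n • y)) : ∃ j : ℕ, d z (h ^ j • y) ≤ m + 10 * δ := by
  classical
  set P : ℕ → Prop := fun j => d y (h ^ j • y) ≤ d y z with hP
  have hP0 : P 0 := by rw [hP]; simp only [pow_zero, one_smul, d_self]; omega
  set j := Nat.findGreatest P n with hj
  have hPj : P j := Nat.findGreatest_spec (Nat.zero_le n) hP0
  have hjn : j ≤ n := Nat.findGreatest_le n
  refine ⟨j, ?_⟩
  have hPj' : d y (h ^ j • y) ≤ d y z := hPj
  rcases Nat.eq_or_lt_of_le hjn with h3 | h3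
  · rw [h3] at hPj'
    rw [h3]
    unfold Bt at hz
    omega
  · have h4 : ¬ P (j + 1) := Nat.findGreatest_is_greatest (Nat.lt_succ_self j) h3
    have h4' : d y z < d y (h ^ (j + 1) • y) := not_le.1 h4
    have h5 : d y (h ^ (j + 1) • y) ≤ d y (h ^ j • y) + m := by
      have t := tri y (h ^ j • y) (h ^ (j + 1) • y)
      have e : d (h ^ j • y) (h ^ (j + 1) • y) = m := by
        rw [pow_succ, mul_smul, isom, hy]
      omega
    have q := hV.h1 hz (h ^ j • y)
    have g1 := gp hV hy h2 hm j (n - j)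
    have e1 : d (h ^ j • y) (h ^ n • y) = d y (h ^ (n - j) • y) := by
      have : h ^ n = h ^ j * h ^ (n - j) := by rw [← pow_add]; congr 1; omega
      rw [this, mul_smul, isom]
    rw [show j + (n - j) = n by omega] at g1
    have s1 := GMet.symm (h ^ j • y) y
    have s2 := GMet.symm (h ^ j • y) z
    unfold Bt at hz
    omega

theorem qc_int (hV : Hyp V δ) {h : G} {y : V} {m : ℕ} (hy : d y (h • y) = m)
    (h2 : 2 * m ≤ d y (h • h • y) + 4 * δ) (hm : 7 * δ < m) (i k : ℤ) {z : V}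
    (hz : Bt (h ^ i • y) z (h ^ k • y)) : ∃ j : ℤ, d z (h ^ j • y) ≤ m + 10 * δ := by
  have key : ∀ i k : ℤ, i ≤ k → ∀ z, Bt (h ^ i • y) z (h ^ k • y) →
      ∃ j : ℤ, d z (h ^ j • y) ≤ m + 10 * δ := by
    intro i k hik z hz
    obtain ⟨n, hn⟩ := Int.eq_ofNat_of_zero_le (sub_nonneg.2 hik)
    have hz' := hz.smul (h ^ (-i))
    rw [← mul_smul, ← mul_smul, ← zpow_add, ← zpow_add, neg_add_cancel, zpow_zero, one_smul,
      show -i + k = n by omega, zpow_natCast] at hz'
    obtain ⟨j, hj⟩ := qc_pos hV hy h2 hm n hz'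
    refine ⟨i + j, ?_⟩
    have e := isom (h ^ i) (h ^ (-i) • z) (h ^ j • y)
    rw [← mul_smul, ← zpow_add, add_neg_cancel, zpow_zero, one_smul] at e
    rw [zpow_add, mul_smul, zpow_natCast, e]
    exact hj
  rcases le_total i k with h0 | h0
  · exact key i k h0 z hz
  · exact key k i h0 z hz.symm'

/-- quasiconvexity of the orbits -/
theorem qc_orb (hV : Hyp V δ) {g : G} {N : ℕ} (hN : 1 ≤ N) (hm : 7 * δ + 2 ≤ md V (g ^ N))
    (x : V) : ∃ θ : ℕ, QC θ (orb g x) := by
  have hne : Nonempty V := ⟨x⟩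
  obtain ⟨y, hy⟩ := exists_md (V := V) (g ^ N)
  set m := md V (g ^ N) with hmdef
  have h2 := hV.l4_two hy (by omega)
  set K := N * d x (g • x) + d x y with hK
  have near : ∀ a : ℤ, ∃ q : ℤ, d (g ^ a • x) ((g ^ N) ^ q • y) ≤ K := by
    intro a
    refine ⟨a / N, ?_⟩
    have hN0 : (0 : ℤ) < N := by exact_mod_cast hN
    have e := Int.mul_ediv_add_emod a N
    have hs0 := Int.emod_nonneg a hN0.ne'
    have hs1 := Int.emod_lt_of_pos a hN0
    set q := a / (N : ℤ) with hq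
    set s := a % (N : ℤ) with hs
    have e1 : g ^ a = (g ^ N) ^ q * g ^ s := by
      rw [← zpow_natCast g N, ← zpow_mul, ← zpow_add, e]
    rw [e1, mul_smul, isom]
    have t := tri (g ^ s • x) x y
    have d1 := disp_zpow g x s
    have d2 : s.natAbs * d x (g • x) ≤ N * d x (g • x) := Nat.mul_le_mul_right _ (by omega)
    have s1 := GMet.symm (g ^ s • x) x
    omega
  refine ⟨8 * δ + 2 * K + m + 10 * δ, ?_⟩
  rintro _ ⟨a, rfl⟩ _ ⟨b, rfl⟩ z hz
  obtain ⟨q, hq⟩ := near a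
  obtain ⟨q', hq'⟩ := near b
  obtain ⟨u, hu, hzu⟩ := hV.slim _ _ ((g ^ N) ^ q' • y) z hz
  rcases hu with hu | hu
  · obtain ⟨v, hv, huv⟩ := hV.slim _ _ ((g ^ N) ^ q • y) u hu
    have t1 := tri z u v
    rcases hv with hv | hv
    · refine ⟨g ^ a • x, zpow_mem_orb g x a, ?_⟩
      have := hv.d_left_le
      have t2 := tri z v (g ^ a • x)
      have s2 := GMet.symm v (g ^ a • x)
      omega
    · obtain ⟨j, hj⟩ := qc_int hV hy h2 (by omega) q q' hv
      refine ⟨(g ^ N) ^ j • x, ?_, ?_⟩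
      · rw [← zpow_natCast g N, ← zpow_mul]
        exact zpow_mem_orb g x _
      · have t2 := tri z v ((g ^ N) ^ j • x)
        have t3 := tri v ((g ^ N) ^ j • y) ((g ^ N) ^ j • x)
        have e3 : d ((g ^ N) ^ j • y) ((g ^ N) ^ j • x) = d y x := isom _ _ _
        have s3 := GMet.symm y x
        omega
  · refine ⟨g ^ b • x, zpow_mem_orb g x b, ?_⟩
    have := hu.d_right_le
    have t2 := tri z u (g ^ b • x)
    have s2 := GMet.symm ((g ^ N) ^ q' • y) (g ^ b • x)
    omega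

end

end DI

/-- BLOCK DICH -/
theorem dich : DichStmt := by
  intro G V _ _ _ H g hg
  obtain ⟨δ, hV⟩ := H.hyp
  have : IsomAct G V := ⟨H.isom⟩
  obtain ⟨N, hN, hm⟩ := DI.exists_pow H hV g hg (7 * δ + 2)
  exact ⟨⟨N, hN, fun x m => DI.linear hV hN (by omega) x m⟩, fun x => DI.qc_orb hV hN hm x⟩

end TSq
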