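import Pool.Agent.Work.TSQ.Interface
import Pool.Agent.Work.MP_50f8f6_al.S1Final

/-!
# Block S1X
-/

namespace TSq
open FrobP GMet

theorem s1x_of (B0 : S1.B0Stmt) (B1a : S1.B1aStmt) (B1b : S1.B1bStmt) (B2 : S1.B2Stmt)
    (E : S1.E2Stmt) : S1xStmt := by
  obtain ⟨k0, h0, H0⟩ := B0
  obtain ⟨ka, ha, Ha⟩ := B1a
  obtain ⟨kb, hb, Hb⟩ := B1b
  obtain ⟨k2, h2, H2⟩ := B2
  obtain ⟨s, D, hB⟩ := bowditch (h0 + ha + hb + h2)
  obtain ⟨kE, K0, hE⟩ := E s D
  refine ⟨s, k0 + ka + kb + k2 + kE, K0, D, ?_⟩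
  intro V ι _ C θ hF hR
  have e0 : k0 * θ ≤ C.R := le_trans (Nat.mul_le_mul_right _ (by omega)) hR
  have ea : ka * θ ≤ C.R := le_trans (Nat.mul_le_mul_right _ (by omega)) hR
  have eb : kb * θ ≤ C.R := le_trans (Nat.mul_le_mul_right _ (by omega)) hR
  have e2 : k2 * θ ≤ C.R := le_trans (Nat.mul_le_mul_right _ (by omega)) hR
  have eE : kE * θ ≤ C.R := le_trans (Nat.mul_le_mul_right _ (by omega)) hR
  have H0' := H0 V ι C θ hF e0
  have Ha' := Ha V ι C θ hF ea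
  have Hb' := Hb V ι C θ hF eb
  have H2' := H2 V ι C θ hF e2
  have key := hB (Cone C) (S1.LL C) ?_ ?_ ?_
  · refine ⟨key.1, hE V ι C θ hF eE key.1 key.2, ?_⟩
    intro x y z hxy hz
    apply key.2 (Cone.base C x) (Cone.base C y) (Cone.base C z)
    refine Or.inl ⟨z, ⟨hz, ?_⟩, rfl⟩
    intro i hi
    exfalso
    obtain ⟨-, -, h3⟩ := hi
    rcases h3 with h3 | h3 | h3
    · have : S1.lv C i (Cone.base C x) = 0 := rfl
      omega
    · have : S1.lv C i (Cone.base C y) = 0 := rfl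
      omega
    · have h4 : d (S1.av C i (Cone.base C x)) (S1.av C i (Cone.base C y)) ≤ prd (C.Y i) x y :=
        le_prd (S1.pj_spec C i x) (S1.pj_spec C i y)
      have h5 := hxy i
      simp only [Nat.sub_self, pow_zero, one_mul] at h3
      omega
  · intro v w
    refine ⟨(H0' v w).1, ?_⟩
    refine Relation.ReflTransGen.mono ?_ _ _ (H0' v w).2
    intro a b hab
    exact ⟨hab.1, hab.2.1, by have := hab.2.2; omega⟩
  · intro v w u z hz
    rcases hz with ⟨z, hz, rfl⟩ | ⟨i, k, h1, h2, rfl⟩ | ⟨i, k, h1, h2, rfl⟩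
    · obtain ⟨z', hz', hd⟩ := Hb' v w u z hz
      exact ⟨z', hz', by omega⟩
    · obtain ⟨z', hz', hd⟩ := Ha' v w u i k h1 h2
      exact ⟨z', hz', by omega⟩
    · obtain ⟨z', hz', hd⟩ := Ha' w v u i k (S1.InArch.symm C h1) h2
      refine ⟨z', ?_, by omega⟩
      rcases hz' with hz' | hz'
      · exact Or.inr (S1.LLm_symm C hz')
      · exact Or.inl (S1.LLm_symm C hz')
  · intro v w hvw z hz
    have := H2' v w hvw z hz
    omega

theorem s1x : S1xStmt :=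
  s1x_of S1.s1_b0 (S1.b1a S1.s1_f1 S1.s1_f2 (stmt_B1b S1.s1_f1)) (stmt_B1b S1.s1_f1) s1B2 s1E2

end TSq
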