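import Pool.Agent.Work.TSQ.R0
import Pool.Agent.Work.TSQ.S1x
import Pool.Agent.Work.MP_50f8f6_al.ConeGeo2

/-!
# Block GEO: the class is stable under quotients by deep subgroups
-/

namespace TSq
open FrobP GMet

section cob
variable {G V : Type} [Group G] [GMet V] [MulAction G V]

/-- `Q` acts coboundedly on `Y` -/
theorem RD.cobQ {a : G} {H : Subgroup G} {Y : Set V} {θ : ℕ} (hR : RD a H Y θ)
    (isom : ∀ (g : G) (x y : V), d (g • x) (g • y) = d x y) {Q : Subgroup G} {T : ℕ}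
    (hD : Deep V H Q T) : ∃ D : ℕ, ∀ x ∈ Y, ∀ y ∈ Y, ∃ q ∈ Q, d x (q • y) ≤ D := by
  obtain ⟨D, hD'⟩ := hR.cob
  obtain ⟨y0, hy0⟩ := hR.ne
  -- finitely many cosets
  have hfin : Finite (H ⧸ Q.subgroupOf H) := by
    have : (Q.subgroupOf H).FiniteIndex := ⟨hD.fi⟩
    infer_instance
  haveI := Fintype.ofFinite (H ⧸ Q.subgroupOf H)
  -- bound of the displacement of `y0` by the representatives
  let f : H ⧸ Q.subgroupOf H → ℕ := fun c => d y0 (((Quotient.out c : H) : G)⁻¹ • y0)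
  have hf : ∀ c, f c ≤ ∑ c, f c := fun c => Finset.single_le_sum (fun _ _ => Nat.zero_le _)
    (Finset.mem_univ c)
  set D1 := ∑ c, f c with hD1
  have key : ∀ x ∈ Y, ∃ q ∈ Q, d x (q • y0) ≤ D + D1 := by
    intro x hx
    obtain ⟨h, hh, hd⟩ := hD' x hx y0 hy0
    -- `h⁻¹ = o * q`
    let h' : H := ⟨h, hh⟩
    let c : H ⧸ Q.subgroupOf H := ((h'⁻¹ : H) : H ⧸ Q.subgroupOf H)
    set o : H := Quotient.out c with ho
    have h1 : o⁻¹ * h'⁻¹ ∈ Q.subgroupOf H := QuotientGroup.eq.1 (QuotientGroup.out_eq' c)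
    have h2 : (o : G)⁻¹ * h⁻¹ ∈ Q := by
      have := Subgroup.mem_subgroupOf.1 h1
      simpa [h'] using this
    refine ⟨h * (o : G), ?_, ?_⟩
    · have := Q.inv_mem h2
      rwa [mul_inv_rev, inv_inv, inv_inv] at this
    · have h3 := hf c
      have h4 : f c = d y0 ((o : G)⁻¹ • y0) := rfl
      have h5 := tri x (h • y0) ((h * (o : G)) • y0)
      rw [mul_smul, isom] at h5
      have h6 : d y0 ((o : G) • y0) = d y0 ((o : G)⁻¹ • y0) := by
        have := isom (o : G)⁻¹ y0 ((o : G) • y0)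
        rw [inv_smul_smul] at this
        rw [← this, GMet.symm]
      rw [mul_smul]
      omega
  refine ⟨2 * (D + D1), ?_⟩
  intro x hx y hy
  obtain ⟨q1, hq1, hd1⟩ := key x hx
  obtain ⟨q2, hq2, hd2⟩ := key y hy
  refine ⟨q1 * q2⁻¹, Q.mul_mem hq1 (Q.inv_mem hq2), ?_⟩
  have h1 := tri x (q1 • y0) ((q1 * q2⁻¹) • y)
  rw [mul_smul, isom] at h1
  have h2 := isom q2 y0 (q2⁻¹ • y)
  rw [smul_inv_smul] at h2
  have h3 := GMet.symm (q2 • y0) y
  rw [mul_smul]
  omega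

/-- `Q` acts coboundedly on all translates -/
theorem RD.cobI {a : G} {H : Subgroup G} {Y : Set V} {θ : ℕ} (hR : RD a H Y θ)
    (isom : ∀ (g : G) (x y : V), d (g • x) (g • y) = d x y) {Q : Subgroup G} {T : ℕ}
    (hD : Deep V H Q T) : ∃ D : ℕ, ∀ i : G ⧸ H, ∀ x ∈ rdY H Y i, ∀ y ∈ rdY H Y i,
      ∃ q ∈ rdQ H Q i, d x (q • y) ≤ D := by
  obtain ⟨D, hD'⟩ := hR.cobQ isom hD
  refine ⟨D, ?_⟩
  intro i x hx y hy
  obtain ⟨g, rfl⟩ := QuotientGroup.mk_surjective i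
  have hx' := (hR.mem_rdY g x).1 hx
  have hy' := (hR.mem_rdY g y).1 hy
  obtain ⟨q, hq, hd⟩ := hD' _ hx' _ hy'
  refine ⟨g * q * g⁻¹, (hD.mem_rdQ g _).2 ?_, ?_⟩
  · have e : g⁻¹ * (g * q * g⁻¹) * g = q := by group
    rw [e]; exact hq
  · have h1 := isom g (g⁻¹ • x) (q • g⁻¹ • y)
    rw [smul_inv_smul] at h1
    rw [mul_smul, mul_smul]
    omega

end cob

section lift
variable {G V ι : Type} [Group G] [GMet V] [MulAction G V] [MulAction G ι] [IsomAct G V]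

/-- lifting paths of the cone-off, rotating at the apices -/
theorem lift_path (C : ConeData V ι) [ConeAct G C] (Hs : ι → Subgroup G)
    (hfix : ∀ i, ∀ h ∈ Hs i, h • i = i) {D : ℕ}
    (hD : ∀ i, ∀ x ∈ C.Y i, ∀ y ∈ C.Y i, ∃ q ∈ Hs i, d x (q • y) ≤ D) :
    ∀ (n : ℕ) (v w : Cone C), d v w = n → ∀ x ∈ v.Bs,
      ∃ m ∈ NN Hs, ∃ y ∈ (m • w).Bs, d x y ≤ n * (D + 2 ^ C.ρ * C.R) := by
  intro n
  induction n with
  | zero =>
    intro v w h x hx
    have : v = w := eq_of_d v w h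
    subst this
    exact ⟨1, (NN Hs).one_mem, x, by rwa [one_smul], by rw [d_self]; omega⟩
  | succ n ih =>
    intro v w h x hx
    obtain ⟨u, hu, hvu⟩ := exists_bt v w (k := 1) (by omega)
    have huw : d u w = n := by unfold Bt at hu; omega
    by_cases hv : ∃ i, v = Cone.apex C i
    · obtain ⟨i, rfl⟩ := hv
      have hd : d u (Cone.apex C i) = 1 := by rw [GMet.symm]; exact hvu
      obtain ⟨y1, hy1, hue⟩ := Cone.edge_apex C (Cone.edge_of_d_eq_one hd)
      have hxi : x ∈ C.Y i := hx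
      obtain ⟨q, hq, hdq⟩ := hD i x hxi y1 hy1
      have hb : q • y1 ∈ (q • u).Bs := by
        apply S3.bs_smul C q u
        rw [hue]; rfl
      obtain ⟨m, hm, y, hy, hdy⟩ := ih (q • u) (q • w) (by rw [IsomAct.isom]; exact huw) _ hb
      refine ⟨m * q, (NN Hs).mul_mem hm (S3.mem_NN hq), y, by rwa [mul_smul], ?_⟩
      have := tri x (q • y1) y
      rw [add_mul n 1, one_mul]
      omega
    · push Not at hv
      by_cases hua : ∃ i, u = Cone.apex C i
      · obtain ⟨i, rfl⟩ := hua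
        obtain ⟨y1, hy1, hve⟩ := Cone.edge_apex C (Cone.edge_of_d_eq_one hvu)
        have hxy : x = y1 := by
          rw [hve] at hx; exact hx
        have hb : x ∈ (Cone.apex C i).Bs := by
          rw [hxy]; exact hy1
        obtain ⟨m, hm, y, hy, hdy⟩ := ih _ w huw x hb
        refine ⟨m, hm, y, hy, ?_⟩
        rw [add_mul n 1, one_mul]
        omega
      · push Not at hua
        obtain ⟨y1, hy1⟩ := Cone.bs_nonempty C u
        have e1 := Cone.edge_bs C hv hua (Cone.edge_of_d_eq_one hvu) hx hy1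
        obtain ⟨m, hm, y, hy, hdy⟩ := ih u w huw y1 hy1
        refine ⟨m, hm, y, hy, ?_⟩
        have := tri x y1 y
        rw [add_mul n 1, one_mul]
        omega

/-- properness of the quotient action at the base vertex -/
theorem prop_base (C : ConeData V ι) [ConeAct G C] (Hs : ι → Subgroup G) (N : Subgroup G)
    [N.Normal] (hN : NN Hs = N) (hfix : ∀ i, ∀ h ∈ Hs i, h • i = i) {D : ℕ}
    (hD : ∀ i, ∀ x ∈ C.Y i, ∀ y ∈ C.Y i, ∃ q ∈ Hs i, d x (q • y) ≤ D) (x0 : V)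
    (hprop : ∀ r : ℕ, {g : G | d x0 (g • x0) ≤ r}.Finite) (r : ℕ) :
    {γ : G ⧸ N | d (QM.mk N (Cone.base C x0)) (γ • QM.mk N (Cone.base C x0)) ≤ r}.Finite := by
  apply ((hprop (r * (D + 2 ^ C.ρ * C.R))).image (fun g : G => (g : G ⧸ N))).subset
  intro γ hγ
  obtain ⟨g, rfl⟩ := QuotientGroup.mk_surjective γ
  have hγ' : d (QM.mk N (Cone.base C x0)) (QM.mk N (g • Cone.base C x0)) ≤ r := hγ
  obtain ⟨w, hw, hd⟩ := QM.exists_tight N (Cone.base C x0) (QM.mk N (g • Cone.base C x0))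
  obtain ⟨n, hn, hnw⟩ := (QM.mk_eq_iff N).1 hw.symm
  obtain ⟨m, hm, y, hy, hdy⟩ := lift_path C Hs hfix hD _ (Cone.base C x0) w rfl x0 rfl
  rw [hN] at hm
  refine ⟨m * n * g, ?_, ?_⟩
  · have hmw : m • w = Cone.base C ((m * n * g) • x0) := by
      rw [← hnw, Cone.smul_base, Cone.smul_base, Cone.smul_base, mul_smul, mul_smul]
    rw [hmw] at hy
    have hy' : y = (m * n * g) • x0 := hy
    rw [hy'] at hdy
    change d x0 ((m * n * g) • x0) ≤ _
    refine hdy.trans (Nat.mul_le_mul_right _ ?_)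
    omega
  · change ((m * n * g : G) : G ⧸ N) = (g : G ⧸ N)
    rw [eq_comm, QuotientGroup.eq]
    have h1 : g⁻¹ * (m * n) * g ∈ N := by
      have := Subgroup.Normal.conj_mem (H := N) inferInstance _ (N.mul_mem hm hn) g⁻¹
      rwa [inv_inv] at this
    have e : g⁻¹ * (m * n * g) = g⁻¹ * (m * n) * g := by group
    rw [e]; exact h1

end lift

section line
variable {G V ι : Type} [Group G] [GMet V] [MulAction G V] [MulAction G ι] [IsomAct G V]

/-- the hypotheses for the study of the quasi-line of `a` in the quotient -/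
structure LH (C : ConeData V ι) [ConeAct G C] (Hs : ι → Subgroup G) (N : Subgroup G) (a : G)
    (x0 : V) (θ T τ s K0 D1 La θa r : ℕ) : Prop where
  hN : NN Hs = N
  rot : Rot G C Hs θ T
  all : AllRed C Hs τ
  slim : Slim (Cone C) s
  slimQ : Slim (QM N (Cone C)) s
  e2 : E2 C K0
  s1x : ∀ x y z : V, (∀ i, prd (C.Y i) x y ≤ C.R) → Bt x z y →
      ∃ q, Bt (Cone.base C x) q (Cone.base C y) ∧ d (Cone.base C z) q ≤ D1
  line : ∀ (i : ι) (m n : ℤ), prd (C.Y i) (a ^ m • x0) (a ^ n • x0) ≤ La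
  qc : QC θa (orb a x0)
  lin : ∀ (x : V) (m : ℕ), m ≤ r * d x (a ^ m • x)
  hLa : La ≤ C.R
  hτ : La + K0 * (2 ^ C.ρ * C.R) < τ
  hRa : θa + r * (2 * θa + 1) * d x0 (a • x0) ≤ C.R
  he0 : d x0 (a • x0) ≤ C.R

/-- orbit points: distances -/
theorem d_zpow (a : G) (x0 : V) (l l' : ℤ) :
    d (a ^ l • x0) (a ^ l' • x0) = d x0 (a ^ (l' - l).natAbs • x0) := by
  have h1 : d (a ^ l • x0) (a ^ l' • x0) = d x0 (a ^ (l' - l) • x0) := by
    have := IsomAct.isom (a ^ l) x0 (a ^ (l' - l) • x0)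
    rw [← mul_smul, ← zpow_add] at this
    rw [← this]; congr 2; congr 1; ring
  rw [h1]
  rcases Int.natAbs_eq (l' - l) with h | h
  · conv_lhs => rw [h]
    rw [zpow_natCast]
  · conv_lhs => rw [h]
    have := IsomAct.isom (a ^ (l' - l).natAbs) x0 (a ^ (-((l' - l).natAbs : ℤ)) • x0)
    rw [zpow_neg, zpow_natCast, smul_inv_smul] at this
    rw [zpow_neg, zpow_natCast, ← this, GMet.symm]

theorem d_pow_le (a : G) (x0 : V) : ∀ n : ℕ, d x0 (a ^ n • x0) ≤ n * d x0 (a • x0) := by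
  intro n
  induction n with
  | zero => rw [pow_zero, one_smul, d_self]; omega
  | succ n ih =>
    have h1 := tri x0 (a ^ n • x0) (a ^ (n + 1) • x0)
    rw [pow_succ, mul_smul, IsomAct.isom] at h1
    rw [pow_succ, mul_smul, add_mul, one_mul]
    omega

/-- in `V`: the orbit of `a` stays close to intervals between its points -/
theorem orbit_near {a : G} {x0 : V} {θa r : ℕ} (qc : QC θa (orb a x0))
    (lin : ∀ (x : V) (m : ℕ), m ≤ r * d x (a ^ m • x)) {i l j : ℤ} (hi : i ≤ l) (hj : l ≤ j) :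
    ∃ z, Bt (a ^ i • x0) z (a ^ j • x0) ∧
      d z (a ^ l • x0) ≤ θa + r * (2 * θa + 1) * d x0 (a • x0) := by
  obtain ⟨u, v, hu, hv, ⟨k1, hk1, hd1⟩, ⟨k2, hk2, hd2⟩, huv⟩ :=
    exists_switch (x := a ^ i • x0) (y := a ^ j • x0)
      (fun z => ∃ k : ℤ, k ≤ l ∧ d z (a ^ k • x0) ≤ θa)
      (fun z => ∃ k : ℤ, l ≤ k ∧ d z (a ^ k • x0) ≤ θa)
      ⟨i, hi, by rw [d_self]; omega⟩ ⟨j, hj, by rw [d_self]; omega⟩
      (fun z hz => by
        obtain ⟨w, ⟨k, rfl⟩, hw⟩ := qc _ ⟨i, rfl⟩ _ ⟨j, rfl⟩ z hz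
        rcases le_total k l with h | h
        · exact Or.inl ⟨k, h, hw⟩
        · exact Or.inr ⟨k, h, hw⟩)
  refine ⟨u, hu, ?_⟩
  have h1 : d (a ^ k1 • x0) (a ^ k2 • x0) ≤ 2 * θa + 1 := by
    have t1 := tri (a ^ k1 • x0) u (a ^ k2 • x0)
    have t2 := tri u v (a ^ k2 • x0)
    rw [GMet.symm (a ^ k1 • x0) u] at t1
    omega
  have h2 : (k2 - k1).natAbs ≤ r * (2 * θa + 1) := by
    have e1 := lin x0 (k2 - k1).natAbs
    rw [← d_zpow a x0 k1 k2] at e1
    exact e1.trans (Nat.mul_le_mul_left _ h1)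
  have h3 : d (a ^ k1 • x0) (a ^ l • x0) ≤ r * (2 * θa + 1) * d x0 (a • x0) := by
    rw [d_zpow]
    refine (d_pow_le a x0 _).trans (Nat.mul_le_mul_right _ ?_)
    refine le_trans ?_ h2
    omega
  have t3 := tri u (a ^ k1 • x0) (a ^ l • x0)
  omega

/-- points of the quasi-line in the quotient -/
def XX (C : ConeData V ι) (N : Subgroup G) [ConeAct G C] (a : G) (x0 : V) (l : ℤ) :
    QM N (Cone C) := QM.mk N (Cone.base C (a ^ l • x0))

variable {C : ConeData V ι} [ConeAct G C] {Hs : ι → Subgroup G} {N : Subgroup G} {a : G}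
  {x0 : V} {θ T τ s K0 D1 La θa r : ℕ}

/-- the quotient distance of two points of the line -/
theorem LH.d_XX (h : LH C Hs N a x0 θ T τ s K0 D1 La θa r) (l l' : ℤ) :
    d (XX C N a x0 l) (XX C N a x0 l') =
      d (Cone.base C (a ^ l • x0)) (Cone.base C (a ^ l' • x0)) := by
  apply le_antisymm
  · exact QM.d_mk_le N _ _
  · obtain ⟨w, hw, hd⟩ := QM.exists_tight N (Cone.base C (a ^ l • x0)) (XX C N a x0 l')
    obtain ⟨n, hn, hnw⟩ := (QM.mk_eq_iff N).1 hw.symm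
    rw [← h.hN] at hn
    have h1 := s3d G V ι C Hs θ T τ K0 h.rot h.all h.e2 (a ^ l • x0) (a ^ l' • x0)
      (fun i => by have := h.line i l l'; have := h.hτ; omega) n hn
    have h2 : d (XX C N a x0 l) (XX C N a x0 l') = d (Cone.base C (a ^ l • x0)) w := hd.symm
    rw [h2, ← hnw]
    exact h1

/-- the class of a point of the interval -/
theorem LH.bt_mk (h : LH C Hs N a x0 θ T τ s K0 D1 La θa r) {i j : ℤ} {q : Cone C}
    (hq : Bt (Cone.base C (a ^ i • x0)) q (Cone.base C (a ^ j • x0))) :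
    Bt (XX C N a x0 i) (QM.mk N q) (XX C N a x0 j) ∧
      d (XX C N a x0 i) (QM.mk N q) = d (Cone.base C (a ^ i • x0)) q := by
  have h1 := h.d_XX i j
  have h2 : d (XX C N a x0 i) (QM.mk N q) ≤ d (Cone.base C (a ^ i • x0)) q := QM.d_mk_le N _ _
  have h3 : d (QM.mk N q) (XX C N a x0 j) ≤ d q (Cone.base C (a ^ j • x0)) := QM.d_mk_le N _ _
  have h4 := tri (XX C N a x0 i) (QM.mk N q) (XX C N a x0 j)
  unfold Bt at hq ⊢
  constructor <;> omega

/-- the points of the line are close to the intervals -/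
theorem LH.near (h : LH C Hs N a x0 θ T τ s K0 D1 La θa r) {i l j : ℤ} (hi : i ≤ l)
    (hj : l ≤ j) : ∃ q, Bt (XX C N a x0 i) q (XX C N a x0 j) ∧
      d (XX C N a x0 l) q ≤ 1 + D1 := by
  obtain ⟨z, hz, hd⟩ := orbit_near h.qc h.lin hi hj
  obtain ⟨q, hq, hdq⟩ := h.s1x _ _ z (fun i' => (h.line i' i j).trans h.hLa) hz
  refine ⟨QM.mk N q, (h.bt_mk hq).1, ?_⟩
  have h1 : d (Cone.base C (a ^ l • x0)) (Cone.base C z) ≤ 1 := by
    apply Cone.base_le C 1
    rw [GMet.symm, one_mul]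
    exact hd.trans h.hRa
  have h2 : d (XX C N a x0 l) (QM.mk N q) ≤ d (Cone.base C (a ^ l • x0)) q := QM.d_mk_le N _ _
  have h3 := tri (Cone.base C (a ^ l • x0)) (Cone.base C z) q
  omega

/-- the line is quasiconvex in the quotient -/
theorem LH.qcX (h : LH C Hs N a x0 θ T τ s K0 D1 La θa r) {i j : ℤ} {q : QM N (Cone C)}
    (hq : Bt (XX C N a x0 i) q (XX C N a x0 j)) :
    ∃ l : ℤ, d q (XX C N a x0 l) ≤ 3 * D1 + 2 + 4 * (3 * s + 1) := by
  have hD := h.d_XX i j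
  set b1 := Cone.base C (a ^ i • x0) with hb1
  set b2 := Cone.base C (a ^ j • x0) with hb2
  set k := d (XX C N a x0 i) q with hk
  have hkle : k ≤ d b1 b2 := by rw [← hD]; exact hq.d_left_le
  obtain ⟨q', hq', hkq'⟩ := exists_bt b1 b2 hkle
  have hmk := h.bt_mk hq'
  have hyp := h.slim.hyp
  have hypQ := h.slimQ.hyp
  -- `q` is close to the class of `q'`
  have e1 : d q (QM.mk N q') ≤ 2 * (3 * s + 1) := by
    have := hypQ.pp (XX C N a x0 i) (XX C N a x0 j) q (QM.mk N q')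
    have h2 := hmk.1
    have h3 := hmk.2
    rw [← hb1] at h3
    unfold Bt at h2 hq
    omega
  -- a point of the interval in `V`
  obtain ⟨u, v, hu, hv, ⟨q1, hq1, hd1, hl1⟩, ⟨q2, hq2, hd2, hl2⟩, huv⟩ :=
    exists_switch (x := a ^ i • x0) (y := a ^ j • x0)
      (fun z => ∃ p, Bt b1 p b2 ∧ d (Cone.base C z) p ≤ D1 ∧ d b1 p ≤ k)
      (fun z => ∃ p, Bt b1 p b2 ∧ d (Cone.base C z) p ≤ D1 ∧ k ≤ d b1 p)
      ⟨b1, Bt.left _ _, by rw [← hb1, d_self]; omega, by rw [d_self]; omega⟩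
      ⟨b2, Bt.right _ _, by rw [← hb2, d_self]; omega, hkle⟩
      (fun z hz => by
        obtain ⟨p, hp, hdp⟩ := h.s1x _ _ z (fun i' => (h.line i' i j).trans h.hLa) hz
        rcases le_total (d b1 p) k with h' | h'
        · exact Or.inl ⟨p, hp, hdp, h'⟩
        · exact Or.inr ⟨p, hp, hdp, h'⟩)
  have e2 : d (Cone.base C u) (Cone.base C v) ≤ 1 := by
    apply Cone.base_le C 1
    have := C.hR
    omega
  have e3 : d q1 q2 ≤ 2 * D1 + 1 := by
    have t1 := tri q1 (Cone.base C u) q2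
    have t2 := tri (Cone.base C u) (Cone.base C v) q2
    have s1 := GMet.symm q1 (Cone.base C u)
    omega
  have e4 : d q1 q' ≤ (2 * D1 + 1) + 2 * (3 * s + 1) := by
    have p1 := hyp.pp b1 b2 q1 q'
    have t1 := tri b1 q1 q2
    unfold Bt at hq1 hq' hq2
    omega
  obtain ⟨w, ⟨l, rfl⟩, hw⟩ := h.qc _ ⟨i, rfl⟩ _ ⟨j, rfl⟩ u hu
  have e5 : d (Cone.base C u) (Cone.base C (a ^ l • x0)) ≤ 1 := by
    apply Cone.base_le C 1
    have := h.hRa
    omega
  refine ⟨l, ?_⟩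
  have e6 : d (QM.mk N q') (XX C N a x0 l) ≤ d q' (Cone.base C (a ^ l • x0)) :=
    QM.d_mk_le N _ _
  have t1 := tri q' q1 (Cone.base C (a ^ l • x0))
  have t2 := tri q1 (Cone.base C u) (Cone.base C (a ^ l • x0))
  have t3 := tri q (QM.mk N q') (XX C N a x0 l)
  have s1 := GMet.symm q' q1
  have s2 := GMet.symm q1 (Cone.base C u)
  omega

/-- distances in `V` along the line -/
theorem LH.dV (h : LH C Hs N a x0 θ T τ s K0 D1 La θa r) (l l' : ℤ) :
    d (a ^ l • x0) (a ^ l' • x0) ≤ d (XX C N a x0 l) (XX C N a x0 l') *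
      (La + 2 * (K0 * (2 ^ C.ρ * C.R)) + 2 ^ C.ρ * C.R) := by
  rw [h.d_XX]
  exact Cone.d_le_of_angles' C h.e2 _ _ (fun i => h.line i l l')

/-- linear growth in the quotient -/
theorem LH.growth (h : LH C Hs N a x0 θ T τ s K0 D1 La θa r) (l l' : ℤ) :
    (l' - l).natAbs ≤ r * (La + 2 * (K0 * (2 ^ C.ρ * C.R)) + 2 ^ C.ρ * C.R) *
      d (XX C N a x0 l) (XX C N a x0 l') := by
  have h1 := h.lin x0 (l' - l).natAbs
  rw [← d_zpow a x0 l l'] at h1
  refine h1.trans ?_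
  have h2 := Nat.mul_le_mul_left r (h.dV l l')
  refine h2.trans (le_of_eq ?_)
  ring

theorem LH.step_le (h : LH C Hs N a x0 θ T τ s K0 D1 La θa r) (l : ℤ) :
    d (XX C N a x0 l) (XX C N a x0 (l + 1)) ≤ 1 := by
  rw [h.d_XX]
  apply Cone.base_le C 1
  rw [d_zpow, one_mul]
  have e : (l + 1 - l).natAbs = 1 := by omega
  rw [e, pow_one]
  exact h.he0

section quot
variable [N.Normal]

theorem XX_smul (k l : ℤ) : ((a : G ⧸ N) ^ k) • XX C N a x0 l = XX C N a x0 (k + l) := by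
  have e : ((a : G ⧸ N) ^ k) = ((a ^ k : G) : G ⧸ N) := (QuotientGroup.mk_zpow N a k).symm
  rw [e]
  change QM.mk N (a ^ k • Cone.base C (a ^ l • x0)) = _
  rw [Cone.smul_base, ← mul_smul, ← zpow_add]
  rfl

/-- conjugates with commensurable powers have close lines -/
theorem LH.close (h : LH C Hs N a x0 θ T τ s K0 D1 La θa r) {γ : G ⧸ N} {m n : ℤ} (hm : 0 < m)
    (hγ : γ * (a : G ⧸ N) ^ n * γ⁻¹ = (a : G ⧸ N) ^ m) (l : ℤ) :
    ∃ k : ℤ, d (XX C N a x0 l) (γ • XX C N a x0 k) ≤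
      (1 + D1) + 2 * s + (3 * D1 + 2 + 4 * (3 * s + 1)) := by
  set c2 := r * (La + 2 * (K0 * (2 ^ C.ρ * C.R)) + 2 ^ C.ρ * C.R) with hc2
  set Δ0 := d (XX C N a x0 0) (γ • XX C N a x0 0) with hΔ0
  set J : ℕ := l.natAbs + c2 * ((1 + D1) + 2 * s + Δ0 + 1) + 1 with hJ
  -- the relation for multiples
  have hrel : ∀ t : ℤ, γ * (a : G ⧸ N) ^ (n * t) = (a : G ⧸ N) ^ (m * t) * γ := by
    intro t
    have h1 : (γ * (a : G ⧸ N) ^ n * γ⁻¹) ^ t = γ * ((a : G ⧸ N) ^ n) ^ t * γ⁻¹ := conj_zpow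
    rw [hγ, ← zpow_mul, ← zpow_mul] at h1
    rw [h1, inv_mul_cancel_right]
  have hend : ∀ t : ℤ, d (XX C N a x0 (m * t)) (γ • XX C N a x0 (n * t)) = Δ0 := by
    intro t
    have e1 : XX C N a x0 (m * t) = ((a : G ⧸ N) ^ (m * t)) • XX C N a x0 0 := by
      rw [XX_smul, add_zero]
    have e2 : γ • XX C N a x0 (n * t) = ((a : G ⧸ N) ^ (m * t)) • γ • XX C N a x0 0 := by
      have : XX C N a x0 (n * t) = ((a : G ⧸ N) ^ (n * t)) • XX C N a x0 0 := by
        rw [XX_smul, add_zero]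
      rw [this, ← mul_smul, hrel, mul_smul]
    rw [e1, e2, IsomAct.isom]
  have hmJ : (J : ℤ) ≤ m * J := by nlinarith
  obtain ⟨q, hq, hdq⟩ := h.near (i := m * (-(J : ℤ))) (l := l) (j := m * J)
    (by rw [mul_neg]; omega) (by omega)
  have far : ∀ t : ℤ, (J : ℤ) ≤ |t| → (1 + D1) + 2 * s + Δ0 + 1 ≤
      d (XX C N a x0 l) (XX C N a x0 t) := by
    intro t ht
    have h1 := h.growth l t
    rw [← hc2] at h1
    have h2 : c2 * ((1 + D1) + 2 * s + Δ0 + 1) < (t - l).natAbs := by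
      have : ((l.natAbs : ℕ) : ℤ) = |l| := Int.natCast_natAbs l
      have h3 : ((t - l).natAbs : ℤ) = |t - l| := Int.natCast_natAbs _
      have h4 : |t| - |l| ≤ |t - l| := abs_sub_abs_le_abs_sub t l
      zify
      rw [hJ] at ht
      push_cast at ht
      linarith
    have h3 : c2 * ((1 + D1) + 2 * s + Δ0 + 1) < c2 * d (XX C N a x0 l) (XX C N a x0 t) :=
      lt_of_lt_of_le h2 h1
    exact (lt_of_mul_lt_mul_left h3 (Nat.zero_le _)).le
  have hJ0 : (0 : ℤ) ≤ J := Int.natCast_nonneg _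
  have f1 := far (m * (-(J : ℤ))) (by
    rw [mul_neg, abs_neg, abs_of_nonneg (by positivity)]; exact hmJ)
  have f2 := far (m * J) (by rw [abs_of_nonneg (by positivity)]; exact hmJ)
  have g1 := hend (-(J : ℤ))
  have g2 := hend J
  set A := XX C N a x0 (m * (-(J : ℤ))) with hA
  set B := XX C N a x0 (m * J) with hB
  set A' := γ • XX C N a x0 (n * (-(J : ℤ))) with hA'
  set B' := γ • XX C N a x0 (n * J) with hB'
  obtain ⟨u, hu, hdu⟩ := h.slimQ A B A' q hq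
  have tA := tri (XX C N a x0 l) q A
  have tB := tri (XX C N a x0 l) q B
  rcases hu with hu | hu
  · exfalso
    have t1 := tri q u A
    have t2 := hu.d_left_le
    rw [GMet.symm A u] at t2
    omega
  · obtain ⟨u', hu', hdu'⟩ := h.slimQ A' B B' u hu
    rcases hu' with hu' | hu'
    · -- the good case
      have hb : Bt (XX C N a x0 (n * (-(J : ℤ)))) (γ⁻¹ • u') (XX C N a x0 (n * J)) := by
        have e1 := IsomAct.isom γ⁻¹ A' u'
        have e2 := IsomAct.isom γ⁻¹ u' B'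
        have e3 := IsomAct.isom γ⁻¹ A' B'
        rw [hA', inv_smul_smul] at e1 e3
        rw [hB', inv_smul_smul] at e2 e3
        unfold Bt at hu' ⊢
        rw [hA', hB'] at hu'
        omega
      obtain ⟨k, hk⟩ := h.qcX hb
      refine ⟨k, ?_⟩
      have e1 := IsomAct.isom γ (γ⁻¹ • u') (XX C N a x0 k)
      rw [smul_inv_smul] at e1
      have t1 := tri (XX C N a x0 l) q (γ • XX C N a x0 k)
      have t2 := tri q u (γ • XX C N a x0 k)
      have t3 := tri u u' (γ • XX C N a x0 k)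
      omega
    · exfalso
      have t1 := tri q u B
      have t2 := tri u u' B
      have t3 := hu'.d_right_le
      rw [GMet.symm B' B] at t3
      omega

/-- malnormality in the quotient -/
theorem LH.mal (h : LH C Hs N a x0 θ T τ s K0 D1 La θa r) (hM : Mal a)
    (hprop : ∀ r : ℕ, {g : G | d x0 (g • x0) ≤ r}.Finite) {K2 : ℕ}
    (hK2 : (1 + D1) + 2 * s + (3 * D1 + 2 + 4 * (3 * s + 1)) ≤ K2) (hρ : K2 ≤ C.ρ)
    (hτ : 2 * (K2 * (2 ^ C.ρ * C.R)) +
      (2 * K2 + 1) * (La + 2 * (K0 * (2 ^ C.ρ * C.R)) + 2 ^ C.ρ * C.R) +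
      d x0 (a • x0) + 16 * θ < τ)
    {γ : G ⧸ N} (hcl : ∀ l : ℤ, ∃ k : ℤ, d (XX C N a x0 l) (γ • XX C N a x0 k) ≤ K2) :
    γ ∈ Subgroup.zpowers (a : G ⧸ N) := by
  obtain ⟨g, rfl⟩ := QuotientGroup.mk_surjective γ
  set E1 := K2 * (2 ^ C.ρ * C.R) with hE1
  set E2 := (2 * K2 + 1) * (La + 2 * (K0 * (2 ^ C.ρ * C.R)) + 2 ^ C.ρ * C.R) with hE2
  -- lift
  have hlift : ∀ l : ℤ, ∃ (k : ℤ) (n : G), n ∈ N ∧
      d (XX C N a x0 l) ((g : G ⧸ N) • XX C N a x0 k) ≤ K2 ∧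
      d (a ^ l • x0) (n • g • a ^ k • x0) ≤ E1 := by
    intro l
    obtain ⟨k, hk⟩ := hcl l
    have e : (g : G ⧸ N) • XX C N a x0 k = QM.mk N (Cone.base C (g • a ^ k • x0)) := rfl
    rw [e] at hk
    obtain ⟨w, hw, hd⟩ := QM.exists_tight N (Cone.base C (a ^ l • x0))
      (QM.mk N (Cone.base C (g • a ^ k • x0)))
    obtain ⟨n, hn, hnw⟩ := (QM.mk_eq_iff N).1 hw.symm
    refine ⟨k, n, hn, by rw [e]; exact hk, ?_⟩
    have h1 : d (Cone.base C (a ^ l • x0)) (Cone.base C (n • g • a ^ k • x0)) ≤ K2 := by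
      rw [← hnw, Cone.smul_base] at hd
      rw [hd]; exact hk
    apply Cone.avoid C h1 (fun j => ?_) rfl rfl
    have := Cone.d_base_apex C j (a ^ l • x0)
    omega
  choose k n hnN hdk hdn using hlift
  have hconst : ∀ l : ℕ, n l = n 0 := by
    intro l
    induction l with
    | zero => rfl
    | succ l ih =>
      rw [← ih]
      by_contra hne
      have hmem : n ((l + 1 : ℕ) : ℤ) * (n l)⁻¹ ∈ NN Hs := by
        rw [h.hN]; exact N.mul_mem (hnN _) (N.inv_mem (hnN _))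
      have hne1 : n ((l + 1 : ℕ) : ℤ) * (n l)⁻¹ ≠ 1 := by
        intro he
        exact hne (mul_inv_eq_one.1 he)
      have h1 := s3c G V ι C Hs θ T τ h.rot h.all _ hmem hne1 (n l • g • a ^ k ((l + 1 : ℕ) : ℤ) • x0)
      have e1 : (n ((l + 1 : ℕ) : ℤ) * (n l)⁻¹) • n l • g • a ^ k ((l + 1 : ℕ) : ℤ) • x0 =
          n ((l + 1 : ℕ) : ℤ) • g • a ^ k ((l + 1 : ℕ) : ℤ) • x0 := by
        rw [mul_smul, inv_smul_smul]
      rw [e1] at h1
      have h2 := hdn l
      have h3 := hdn ((l + 1 : ℕ) : ℤ)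
      have h4 : d (a ^ (l : ℤ) • x0) (a ^ ((l + 1 : ℕ) : ℤ) • x0) = d x0 (a • x0) := by
        rw [d_zpow]
        have : (((l + 1 : ℕ) : ℤ) - (l : ℤ)).natAbs = 1 := by push_cast; omega
        rw [this, pow_one]
      have h5 : d (XX C N a x0 (k l)) (XX C N a x0 (k ((l + 1 : ℕ) : ℤ))) ≤ 2 * K2 + 1 := by
        have i1 := IsomAct.isom (g : G ⧸ N) (XX C N a x0 (k l)) (XX C N a x0 (k ((l + 1 : ℕ) : ℤ)))
        have t1 := tri ((g : G ⧸ N) • XX C N a x0 (k l)) (XX C N a x0 l)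
          ((g : G ⧸ N) • XX C N a x0 (k ((l + 1 : ℕ) : ℤ)))
        have t2 := tri (XX C N a x0 l) (XX C N a x0 ((l : ℤ) + 1))
          ((g : G ⧸ N) • XX C N a x0 (k ((l + 1 : ℕ) : ℤ)))
        have s1 := GMet.symm ((g : G ⧸ N) • XX C N a x0 (k l)) (XX C N a x0 l)
        have h6 := hdk l
        have h7 := hdk ((l + 1 : ℕ) : ℤ)
        have h8 := h.step_le l
        have e3 : ((l + 1 : ℕ) : ℤ) = (l : ℤ) + 1 := by push_cast; ring
        rw [e3] at h7 i1 t1 t2 ⊢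
        omega
      have h6 : d (a ^ k l • x0) (a ^ k ((l + 1 : ℕ) : ℤ) • x0) ≤ E2 :=
        (h.dV _ _).trans (Nat.mul_le_mul_right _ h5)
      have h7 : d (n l • g • a ^ k ((l + 1 : ℕ) : ℤ) • x0) (n l • g • a ^ k l • x0) ≤ E2 := by
        rw [IsomAct.isom, IsomAct.isom, GMet.symm]; exact h6
      have t1 := tri (n l • g • a ^ k ((l + 1 : ℕ) : ℤ) • x0) (n l • g • a ^ k l • x0)
        (n ((l + 1 : ℕ) : ℤ) • g • a ^ k ((l + 1 : ℕ) : ℤ) • x0)
      have t2 := tri (n l • g • a ^ k l • x0) (a ^ (l : ℤ) • x0)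
        (n ((l + 1 : ℕ) : ℤ) • g • a ^ k ((l + 1 : ℕ) : ℤ) • x0)
      have t3 := tri (a ^ (l : ℤ) • x0) (a ^ ((l + 1 : ℕ) : ℤ) • x0)
        (n ((l + 1 : ℕ) : ℤ) • g • a ^ k ((l + 1 : ℕ) : ℤ) • x0)
      have s1 := GMet.symm (n l • g • a ^ k l • x0) (a ^ (l : ℤ) • x0)
      omega
  -- pigeonhole
  let f : ℕ → {x : G | d x0 (x • x0) ≤ E1} := fun l =>
    ⟨a ^ (-(l : ℤ)) * (n 0 * g) * a ^ (k l), by
      have h1 := hdn l
      rw [hconst l] at h1
      have h2 := IsomAct.isom (a ^ (-(l : ℤ))) (a ^ (l : ℤ) • x0) (n 0 • g • a ^ k l • x0)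
      rw [← mul_smul, ← zpow_add, neg_add_cancel, zpow_zero, one_smul] at h2
      change d x0 ((a ^ (-(l : ℤ)) * (n 0 * g) * a ^ (k l)) • x0) ≤ E1
      rw [mul_smul, mul_smul, mul_smul, h2]
      exact h1⟩
  haveI : Finite {x : G | d x0 (x • x0) ≤ E1} := (hprop E1).to_subtype
  obtain ⟨l, l', hll, hf⟩ := Finite.exists_ne_map_eq_of_infinite f
  have hf' : a ^ (-(l : ℤ)) * (n 0 * g) * a ^ (k l) = a ^ (-(l' : ℤ)) * (n 0 * g) * a ^ (k l') :=
    congrArg Subtype.val hf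
  have hconj : (n 0 * g) * a ^ (k l - k l') * (n 0 * g)⁻¹ = a ^ ((l : ℤ) - l') := by
    have h1 : (n 0 * g) * a ^ (k l) = a ^ ((l : ℤ) - l') * ((n 0 * g) * a ^ (k l')) := by
      calc (n 0 * g) * a ^ (k l) = a ^ (l : ℤ) * (a ^ (-(l : ℤ)) * (n 0 * g) * a ^ (k l)) := by
            group
        _ = a ^ (l : ℤ) * (a ^ (-(l' : ℤ)) * (n 0 * g) * a ^ (k l')) := by rw [hf']
        _ = _ := by
            rw [← mul_assoc, ← mul_assoc, ← zpow_add, sub_eq_add_neg]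
            group
    rw [zpow_sub, ← mul_assoc, h1]
    group
  have hknl : k l - k l' ≠ 0 := by
    intro he
    rw [he, zpow_zero, mul_one, mul_inv_cancel] at hconj
    apply hM.inf
    rw [isOfFinOrder_iff_zpow_eq_one]
    refine ⟨(l : ℤ) - l', ?_, hconj.symm⟩
    intro h0
    apply hll
    omega
  obtain ⟨t, ht⟩ := Subgroup.mem_zpowers_iff.1 (hM.mal (n 0 * g) _ _ hknl hconj)
  refine Subgroup.mem_zpowers_iff.2 ⟨t, ?_⟩
  rw [← QuotientGroup.mk_zpow, ht, QuotientGroup.eq]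
  have e : (n 0 * g)⁻¹ * g = g⁻¹ * (n 0)⁻¹ * g := by group
  rw [e]
  have := Subgroup.Normal.conj_mem (H := N) inferInstance _ (N.inv_mem (hnN 0)) g⁻¹
  rwa [inv_inv] at this

/-- infinite order in the quotient -/
theorem LH.inf (h : LH C Hs N a x0 θ T τ s K0 D1 La θa r) (hM : ¬ IsOfFinOrder a) :
    ¬ IsOfFinOrder (a : G ⧸ N) := by
  intro hf
  rw [isOfFinOrder_iff_pow_eq_one] at hf
  obtain ⟨n, hn, hn1⟩ := hf
  rw [← QuotientGroup.mk_pow] at hn1
  have hmem : a ^ n ∈ N := (QuotientGroup.eq_one_iff _).1 hn1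
  rw [← h.hN] at hmem
  have hne : a ^ n ≠ 1 := by
    intro he
    exact hM (isOfFinOrder_iff_pow_eq_one.2 ⟨n, hn, he⟩)
  have hred := h.all _ hmem x0
  have hl : ∀ i, prd (C.Y i) x0 (a ^ n • x0) ≤ La := by
    intro i
    have h1 := h.line i 0 n
    rwa [zpow_zero, one_smul, zpow_natCast] at h1
  generalize a ^ n = b at hred hl hne
  cases hred with
  | one => exact absurd rfl hne
  | step _ h' i _ hh hprd _ =>
    have h1 := hl i
    have h2 := h.hτ
    omega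

end quot

end line

/-- BLOCK GEO -/
theorem geo (hDi : DichStmt) : GeoStmt := by
  obtain ⟨s, K, K0, D1, hS1⟩ := s1x
  obtain ⟨K2', hS2⟩ := s2Stmt
  intro G V _ _ _ hG a hM H Y θ hR
  haveI : IsomAct G V := ⟨hG.isom⟩
  obtain ⟨x0, Dc, hcob⟩ := hG.cob
  obtain ⟨⟨r, hr1, hlin⟩, hqc⟩ := hDi G V hG a hM.inf
  obtain ⟨θa, hθa⟩ := hqc x0
  obtain ⟨La, hLa⟩ := hR.line x0
  set e0 := d x0 (a • x0) with he0
  set K2 := (1 + D1) + 2 * s + (3 * D1 + 2 + 4 * (3 * s + 1)) with hK2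
  set R := K * θ + La + θa + r * (2 * θa + 1) * e0 + e0 + 1 with hRdef
  have hρ1 : 1 ≤ K2 := by omega
  have hR1 : 1 ≤ R := by omega
  set B := 2 ^ K2 * R with hB
  set c1 := La + 2 * (K0 * B) + B with hc1
  set τ := 4 * (K0 * B) + La + K0 * B + 2 * (K2 * B) + (2 * K2 + 1) * c1 + e0 + 16 * θ + 1
    with hτ
  refine ⟨4 * τ + K2' * θ, ?_⟩
  intro Q hQ
  let C : ConeData V (G ⧸ H) := rdCone H Y hR.ne K2 R hρ1 hR1
  have hCR : C.R = R := rfl
  have hCρ : C.ρ = K2 := rfl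
  have hBC : 2 ^ C.ρ * C.R = B := rfl
  have hrot : Rot G C (rdQ H Q) θ (4 * τ + K2' * θ) := hR.rot hQ K2 R hρ1 hR1
  obtain ⟨hsl, hE2, hx⟩ := hS1 V (G ⧸ H) C θ hrot.fam (by rw [hCR]; omega)
  have hall0 := hS2 G V (G ⧸ H) C (rdQ H Q) θ _ hrot (by omega)
  have hall : AllRed C (rdQ H Q) τ := by
    intro n hn x
    have h1 := hall0 n hn x
    have h2 : τ ≤ (4 * τ + K2' * θ) / 4 := by omega
    clear hall0
    induction h1 with
    | one => exact Red.one
    | step n h i hi hh hp _ ih =>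
      exact Red.step n h i hi hh (h2.trans hp) (ih ((NN (rdQ H Q)).mul_mem (S3.mem_NN hh) hn))
  have hN : NN (rdQ H Q) = Subgroup.normalClosure (Q : Set G) := hQ.nn
  have hslQ : Slim (QM (Subgroup.normalClosure (Q : Set G)) (Cone C)) s := by
    rw [← hN]
    exact s3a G V (G ⧸ H) C (rdQ H Q) θ _ τ s K0 hrot hall hE2 hsl
      (by rw [hBC]; omega)
  set N := Subgroup.normalClosure (Q : Set G) with hNdef
  have hLH : LH C (rdQ H Q) N a x0 θ (4 * τ + K2' * θ) τ s K0 D1 La θa r :=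
    { hN := hN
      rot := hrot
      all := hall
      slim := hsl
      slimQ := hslQ
      e2 := hE2
      s1x := hx
      line := by
        intro i m n
        obtain ⟨g, rfl⟩ := QuotientGroup.mk_surjective i
        change prd (rdY H Y (g : G ⧸ H)) _ _ ≤ La
        rw [prd_rdY hR.inv]
        exact hLa g⁻¹ m n
      qc := hθa
      lin := hlin
      hLa := by rw [hCR]; omega
      hτ := by rw [hBC]; omega
      hRa := by rw [hCR, ← he0]; omega
      he0 := by rw [hCR]; omega }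
  refine ⟨⟨QM N (Cone C), inferInstance, inferInstance, ?_⟩, ?_⟩
  · refine ⟨fun g x y => IsomAct.isom g x y, ⟨QM.mk N (Cone.base C x0)⟩,
      ⟨_, hslQ.hyp⟩, ?_, ?_⟩
    · -- proper
      intro x' r'
      obtain ⟨D, hD⟩ := hR.cobI hG.isom hQ
      have h1 := prop_base C (rdQ H Q) N hN hrot.fix hD x0 (hG.prop x0)
        (r' + 2 * d (QM.mk N (Cone.base C x0)) x')
      refine h1.subset ?_
      intro γ hγ
      have hγ' : d x' (γ • x') ≤ r' := hγ
      change d (QM.mk N (Cone.base C x0)) (γ • QM.mk N (Cone.base C x0)) ≤ _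
      have t1 := tri (QM.mk N (Cone.base C x0)) x' (γ • QM.mk N (Cone.base C x0))
      have t2 := tri x' (γ • x') (γ • QM.mk N (Cone.base C x0))
      have i1 := IsomAct.isom γ x' (QM.mk N (Cone.base C x0))
      have s1 := GMet.symm x' (QM.mk N (Cone.base C x0))
      omega
    · -- cobounded
      refine ⟨QM.mk N (Cone.base C x0), K2 + 1 + Dc, ?_⟩
      intro y'
      obtain ⟨v, rfl⟩ := QM.mk_surj N y'
      obtain ⟨x, hxv⟩ := Cone.bs_nonempty C v
      obtain ⟨g, hg⟩ := hcob x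
      refine ⟨(g : G ⧸ N), ?_⟩
      have e : (g : G ⧸ N) • QM.mk N (Cone.base C x0) = QM.mk N (Cone.base C (g • x0)) := rfl
      rw [e]
      have h1 := QM.d_mk_le N v (Cone.base C (g • x0))
      have h2 : d v (Cone.base C x) ≤ K2 + 1 := by
        by_cases hv : ∃ i, v = Cone.apex C i
        · obtain ⟨i, rfl⟩ := hv
          have h3 : x ∈ C.Y i := hxv
          have := Cone.base_apex C h3
          rw [GMet.symm]; omega
        · push Not at hv
          have := Cone.d_base_le C hv hxv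
          omega
      have h3 : d (Cone.base C x) (Cone.base C (g • x0)) ≤ Dc := by
        apply Cone.base_le C Dc
        calc d x (g • x0) ≤ Dc := hg
          _ = Dc * 1 := (mul_one _).symm
          _ ≤ Dc * C.R := Nat.mul_le_mul_left _ hR1
      have t1 := tri v (Cone.base C x) (Cone.base C (g • x0))
      omega
  · refine ⟨hLH.inf hM.inf, ?_⟩
    intro γ m n hn hγ
    have hinf := hLH.inf hM.inf
    have hm0 : m ≠ 0 := by
      rintro rfl
      rw [zpow_zero] at hγ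
      apply hinf
      rw [isOfFinOrder_iff_zpow_eq_one]
      refine ⟨n, hn, ?_⟩
      have h3 : (a : G ⧸ N) ^ n = γ⁻¹ * (γ * (a : G ⧸ N) ^ n * γ⁻¹) * γ := by group
      rw [h3, hγ]; group
    have hτ' : 2 * (K2 * (2 ^ C.ρ * C.R)) +
        (2 * K2 + 1) * (La + 2 * (K0 * (2 ^ C.ρ * C.R)) + 2 ^ C.ρ * C.R) +
        d x0 (a • x0) + 16 * θ < τ := by
      rw [hBC, ← hc1]
      omega
    apply hLH.mal hM (hG.prop x0) (K2 := K2) (le_of_eq hK2.symm) (le_of_eq hCρ.symm) hτ'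
    rcases lt_or_gt_of_ne hm0 with hneg | hpos
    · have hγ' : γ * (a : G ⧸ N) ^ (-n) * γ⁻¹ = (a : G ⧸ N) ^ (-m) := by
        rw [zpow_neg, zpow_neg, ← hγ, mul_inv_rev, mul_inv_rev, inv_inv, mul_assoc]
      intro l
      exact hLH.close (by omega) hγ' l
    · intro l
      exact hLH.close hpos hγ l

end TSq
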