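import Pool.Agent.Work.TSQ.Interface

/-!
# Block HCUT: equivariant labellings of `G` by formal tripods
-/

namespace TSq
open FrobP GMet

/-! ### The pointer lemma -/

theorem pointer {W : Type} (Γ : SimpleGraph W) (R : W → W → Prop)
    (hf : ∀ p q q', R p q → R p q' → q = q') (ht : ∀ p q, Γ.Adj p q → R p q ∨ R q p)
    {u v : W} (p : Γ.Walk u v) (hp : p.IsPath) (hu : ∀ w, R u w → w ∉ p.support) :
    v = u ∨ ∃ w, R v w := by
  induction p with
  | nil => exact Or.inl rfl
  | @cons u w v h q ih =>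
    rw [SimpleGraph.Walk.cons_isPath_iff] at hp
    rcases ht u w h with h1 | h1
    · exact absurd (by simp) (hu w h1)
    · rcases ih hp.1 (fun w' hw' => by rw [hf w w' u hw' h1]; exact hp.2) with h2 | h2
      · right; rw [h2]; exact ⟨u, h1⟩
      · exact Or.inr h2

/-- following the pointers of `R` away from the sink of `R'` gives an injective path -/
theorem run_inj {W : Type} (Γ : SimpleGraph W) (R R' : W → W → Prop)
    (hR : ∀ p q, R p q → Γ.Adj p q) (ha : ∀ p q, R p q → ¬ R q p)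
    (hf : ∀ p q q', R' p q → R' p q' → q = q') (ht : ∀ p q, Γ.Adj p q → R' p q ∨ R' q p)
    (f : ℕ → W) (h0 : ∀ w, ¬ R' (f 0) w) (hs : ∀ i, R (f i) (f (i + 1))) :
    (∀ i, R' (f (i + 1)) (f i)) ∧ Function.Injective f := by
  have h1 : ∀ i, R' (f (i + 1)) (f i) := by
    intro i
    induction i with
    | zero =>
      rcases ht _ _ (hR _ _ (hs 0)) with h | h
      · exact absurd h (h0 _)
      · exact h
    | succ i ih =>
      rcases ht _ _ (hR _ _ (hs (i + 1))) with h | h
      · exfalso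
        have e := hf _ _ _ h ih
        have h2 := hs (i + 1)
        rw [e] at h2
        exact ha _ _ (hs i) h2
      · exact h
  refine ⟨h1, ?_⟩
  have key : ∀ i j, f i = f (i + (j + 1)) → False := by
    intro i
    induction i with
    | zero =>
      intro j h
      rw [zero_add] at h
      have := h1 j
      rw [← h] at this
      exact h0 _ this
    | succ i ih =>
      intro j h
      apply ih j
      have e1 := h1 i
      have e2 := h1 (i + (j + 1))
      have e3 : i + 1 + (j + 1) = i + (j + 1) + 1 := by omega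
      rw [h, e3] at e1
      exact hf _ _ _ e1 e2
  intro i j hij
  by_contra hne
  rcases Nat.lt_or_gt_of_ne hne with h | h
  · exact key i (j - i - 1) (by rw [hij]; congr 1; omega)
  · exact key j (i - j - 1) (by rw [← hij]; congr 1; omega)

namespace HCut

/-- the free group of rank two -/
abbrev F2 : Type := FreeGroup (Fin 2)

/-- the formal letters `1, x, y` -/
def τ : Fin 3 → F2 := ![1, FreeGroup.of 0, FreeGroup.of 1]

theorem τ_inj : Function.Injective τ := by
  intro i j h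
  fin_cases i <;> fin_cases j <;> first | rfl | (exfalso; revert h; decide)

/-- offsets -/
def off (k : ℤ) : Fin 3 → ℤ := ![0, 4 * k, 12 * k]

/-- cells -/
def cell (k s n : ℤ) : Fin 3 := if -s < n then 0 else if -(4 * k) - s < n then 1 else 2

theorem cell_near {k s n D : ℤ} (hs : k ≤ s) (hs' : s < 3 * k) (hD : D < k) {t : Fin 3}
    (h : |n + off k t| ≤ D) : cell k s n = t := by
  rw [abs_le] at h
  unfold cell
  fin_cases t <;> simp [off] at h
  · rw [if_pos (by linarith)]; rfl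
  · rw [if_neg (by linarith), if_pos (by linarith)]; rfl
  · rw [if_neg (by linarith), if_neg (by linarith)]; rfl

theorem cell_far {k s n : ℤ} (hs : k ≤ s) (hs' : s < 3 * k) {t : Fin 3} (h : cell k s n ≠ t) :
    k ≤ |n + off k t| := by
  by_contra hc
  push Not at hc
  apply h
  exact cell_near (D := |n + off k t|) hs hs' hc le_rfl

/-- data -/
structure HC {G : Type} [Group G] (a : G) (pos : G → ℤ) (Δ : ℤ) (tt : Fin 3 → G) (φ : F2 →* G)
    (k D : ℤ) : Prop where
  ps : PS a pos Δ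
  t0 : tt 0 = 1
  nt : ∀ i j, i ≠ j → (tt i)⁻¹ * tt j ∉ Subgroup.zpowers a
  hφ : ∀ t, φ (τ t) = tt t * a ^ off k t
  hD : ∀ i j, |pos ((tt i)⁻¹ * tt j)| + Δ ≤ D
  hk : D + Δ < k

variable {G : Type} [Group G] {a : G} {pos : G → ℤ} {Δ : ℤ} {tt : Fin 3 → G} {φ : F2 →* G}
  {k D : ℤ}

/-- position on the formal line `z` -/
def Q (pos : G → ℤ) (φ : F2 →* G) (z : F2) (g : G) : ℤ := pos ((φ z)⁻¹ * g)

theorem shift_zpow (h : PS a pos Δ) (n : ℤ) (g : G) : pos (a ^ n * g) = pos g + n := by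
  have hn : ∀ (m : ℕ) (g : G), pos (a ^ m * g) = pos g + m := by
    intro m
    induction m with
    | zero => intro g; simp
    | succ m ih =>
      intro g
      rw [pow_succ', mul_assoc, h.shift, ih]; push_cast; ring
  cases n with
  | ofNat m => simpa using hn m g
  | negSucc m =>
    have := hn (m + 1) (a ^ (Int.negSucc m) * g)
    rw [zpow_negSucc, mul_inv_cancel_left] at this
    rw [zpow_negSucc, this]
    push_cast [Int.negSucc_eq]
    ring

/-- the position on a line of the tripod `u` -/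
theorem HC.Q_eq (h : HC a pos Δ tt φ k D) (u : F2) (t : Fin 3) (g : G) :
    Q pos φ (u * τ t) g + off k t = pos ((tt t)⁻¹ * ((φ u)⁻¹ * g)) := by
  unfold Q
  have e : (φ (u * τ t))⁻¹ * g = a ^ (-off k t) * ((tt t)⁻¹ * ((φ u)⁻¹ * g)) := by
    rw [map_mul, h.hφ, zpow_neg]; group
  rw [e, shift_zpow h.ps]
  ring

/-- at most one of the three positions of a tripod is large -/
theorem HC.two (h : HC a pos Δ tt φ k D) (u : F2) (g : G) {i j : Fin 3} (hij : i ≠ j) :
    |Q pos φ (u * τ i) g + off k i| ≤ D ∨ |Q pos φ (u * τ j) g + off k j| ≤ D := by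
  rw [h.Q_eq, h.Q_eq]
  have hb := h.ps.behr _ (h.nt i j hij) ((tt i)⁻¹ * ((φ u)⁻¹ * g))
  have e : ((tt i)⁻¹ * tt j)⁻¹ * ((tt i)⁻¹ * ((φ u)⁻¹ * g)) = (tt j)⁻¹ * ((φ u)⁻¹ * g) := by
    group
  have e2 : ((tt i)⁻¹ * tt j)⁻¹ = (tt j)⁻¹ * tt i := by group
  rw [e, e2] at hb
  have h1 := h.hD i j
  have h2 := h.hD j i
  rcases hb with hb | hb
  · left
    have := abs_add_le (pos ((tt i)⁻¹ * ((φ u)⁻¹ * g)) - pos ((tt i)⁻¹ * tt j))
      (pos ((tt i)⁻¹ * tt j))
    rw [sub_add_cancel] at this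
    linarith
  · right
    have := abs_add_le (pos ((tt j)⁻¹ * ((φ u)⁻¹ * g)) - pos ((tt j)⁻¹ * tt i))
      (pos ((tt j)⁻¹ * tt i))
    rw [sub_add_cancel] at this
    linarith

/-- the graph of tripods (`inl`) and lines (`inr`) -/
def Γ : SimpleGraph (F2 ⊕ F2) where
  Adj p q := (∃ u t, p = .inl u ∧ q = .inr (u * τ t)) ∨ (∃ u t, q = .inl u ∧ p = .inr (u * τ t))
  symm := ⟨fun _ _ h => h.symm⟩
  loopless := ⟨by rintro p (⟨u, t, h1, h2⟩ | ⟨u, t, h1, h2⟩) <;> (subst h1; simp at h2)⟩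

/-- pointers of `g` -/
def R (pos : G → ℤ) (φ : F2 →* G) (k s : ℤ) (g : G) (p q : F2 ⊕ F2) : Prop :=
  (∃ u t, p = .inl u ∧ q = .inr (u * τ t) ∧ cell k s (Q pos φ (u * τ t) g) ≠ t) ∨
  (∃ u t, q = .inl u ∧ p = .inr (u * τ t) ∧ cell k s (Q pos φ (u * τ t) g) = t)

/-- sinks -/
def Snk (pos : G → ℤ) (φ : F2 →* G) (k s : ℤ) (g : G) (u : F2) : Prop :=
  ∀ t, cell k s (Q pos φ (u * τ t) g) = t

theorem R_adj {s : ℤ} {g : G} {p q : F2 ⊕ F2} (h : R pos φ k s g p q) : Γ.Adj p q := by
  rcases h with ⟨u, t, h1, h2, -⟩ | ⟨u, t, h1, h2, -⟩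
  · exact Or.inl ⟨u, t, h1, h2⟩
  · exact Or.inr ⟨u, t, h1, h2⟩

theorem R_total {s : ℤ} (g : G) {p q : F2 ⊕ F2} (h : Γ.Adj p q) :
    R pos φ k s g p q ∨ R pos φ k s g q p := by
  rcases h with ⟨u, t, h1, h2⟩ | ⟨u, t, h1, h2⟩ <;>
    by_cases hc : cell k s (Q pos φ (u * τ t) g) = t
  · exact Or.inr (Or.inr ⟨u, t, h1, h2, hc⟩)
  · exact Or.inl (Or.inl ⟨u, t, h1, h2, hc⟩)
  · exact Or.inl (Or.inr ⟨u, t, h1, h2, hc⟩)
  · exact Or.inr (Or.inl ⟨u, t, h1, h2, hc⟩)

theorem HC.R_fun (h : HC a pos Δ tt φ k D) {s : ℤ} (hs : k ≤ s) (hs' : s < 3 * k) (g : G)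
    (p q q' : F2 ⊕ F2) (h1 : R pos φ k s g p q) (h2 : R pos φ k s g p q') : q = q' := by
  have hD : D < k := by have := h.hk; have := h.ps.nn; linarith
  rcases h1 with ⟨u, t, rfl, rfl, hc⟩ | ⟨u, t, rfl, rfl, hc⟩ <;>
    rcases h2 with ⟨u', t', e1, e2, hc'⟩ | ⟨u', t', e1, e2, hc'⟩
  · obtain rfl := Sum.inl.inj e1
    rw [e2]
    by_contra hne
    have htt : t ≠ t' := by rintro rfl; exact hne rfl
    rcases h.two u g htt with hh | hh
    · exact hc (cell_near hs hs' hD hh)
    · exact hc' (cell_near hs hs' hD hh)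
  · exact absurd e2 (by simp)
  · exact absurd e1 (by simp)
  · have e3 := Sum.inr.inj e2
    rw [e1]
    rw [e3] at hc
    have : t = t' := hc.symm.trans hc'
    subst this
    exact congrArg _ (mul_right_cancel e3)

theorem R_asymm {s : ℤ} {g : G} {p q : F2 ⊕ F2} (h1 : R pos φ k s g p q) :
    ¬ R pos φ k s g q p := by
  rintro h2
  rcases h1 with ⟨u, t, rfl, rfl, hc⟩ | ⟨u, t, rfl, rfl, hc⟩ <;>
    rcases h2 with ⟨u', t', e1, e2, hc'⟩ | ⟨u', t', e1, e2, hc'⟩
  · exact absurd e1 (by simp)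
  · obtain rfl := Sum.inl.inj e1
    have := mul_left_cancel (Sum.inr.inj e2)
    obtain rfl := τ_inj this
    exact hc hc'
  · obtain rfl := Sum.inl.inj e1
    have := mul_left_cancel (Sum.inr.inj e2)
    obtain rfl := τ_inj this
    exact hc' hc
  · exact absurd e1 (by simp)

theorem snk_iff {s : ℤ} {g : G} {u : F2} :
    Snk pos φ k s g u ↔ ∀ w, ¬ R pos φ k s g (.inl u) w := by
  constructor
  · rintro h w (⟨u', t, e, -, hc⟩ | ⟨u', t, -, e, -⟩)
    · obtain rfl := Sum.inl.inj e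
      exact hc (h t)
    · exact absurd e (by simp)
  · intro h t
    by_contra hc
    exact h _ (Or.inl ⟨u, t, rfl, rfl, hc⟩)

/-- connectedness -/
theorem reach_inl (u : F2) : Γ.Reachable (.inl 1) (.inl u) := by
  -- translation
  have tr : ∀ (g : F2) (p q : F2 ⊕ F2), Γ.Adj p q →
      Γ.Adj (Sum.map (g * ·) (g * ·) p) (Sum.map (g * ·) (g * ·) q) := by
    rintro g p q (⟨u, t, rfl, rfl⟩ | ⟨u, t, rfl, rfl⟩)
    · exact Or.inl ⟨g * u, t, rfl, by simp [mul_assoc]⟩
    · exact Or.inr ⟨g * u, t, rfl, by simp [mul_assoc]⟩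
  have tr' : ∀ (g u v : F2), Γ.Reachable (.inl u) (.inl v) →
      Γ.Reachable (.inl (g * u)) (.inl (g * v)) := by
    intro g u v h
    let f : Γ →g Γ := ⟨Sum.map (g * ·) (g * ·), fun {p q} h => tr g p q h⟩
    exact h.map f
  have gen : ∀ i : Fin 2, Γ.Reachable (.inl 1) (.inl (FreeGroup.of i)) := by
    intro i
    have h1 : Γ.Adj (.inl 1) (.inr (FreeGroup.of i)) := by
      fin_cases i
      · exact Or.inl ⟨1, 1, rfl, by simp [τ]⟩
      · exact Or.inl ⟨1, 2, rfl, by simp [τ]⟩
    have h2 : Γ.Adj (.inl (FreeGroup.of i)) (.inr (FreeGroup.of i)) :=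
      Or.inl ⟨_, 0, rfl, by simp [τ]⟩
    exact h1.reachable.trans h2.symm.reachable
  induction u using FreeGroup.induction_on with
  | C1 => exact SimpleGraph.Reachable.refl _
  | of i => exact gen i
  | inv_of i _ =>
    have := tr' (FreeGroup.of i)⁻¹ _ _ (gen i)
    rw [mul_one, inv_mul_cancel] at this
    exact this.symm
  | mul u v hu hv =>
    have := tr' u _ _ hv
    rw [mul_one] at this
    exact hu.trans this

theorem HC.snk_unique (h : HC a pos Δ tt φ k D) {s : ℤ} (hs : k ≤ s) (hs' : s < 3 * k) {g : G}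
    {u u' : F2} (h1 : Snk pos φ k s g u) (h2 : Snk pos φ k s g u') : u' = u := by
  obtain ⟨p, hp⟩ := ((reach_inl u).symm.trans (reach_inl u')).exists_isPath
  rcases pointer Γ (R pos φ k s g) (h.R_fun hs hs' g) (fun p q => R_total g) p hp
    (fun w hw => absurd hw (snk_iff.1 h1 w)) with h3 | ⟨w, hw⟩
  · exact Sum.inl.inj h3
  · exact absurd hw (snk_iff.1 h2 w)

theorem HC.pos_zpow (h : HC a pos Δ tt φ k D) (n : ℤ) : pos (a ^ n) = n := by
  have := shift_zpow h.ps n 1
  rw [mul_one, h.ps.one] at this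
  rw [this]; ring

/-- the explicit sinks -/
theorem HC.snk_line (h : HC a pos Δ tt φ k D) {s : ℤ} (hs : k ≤ s) (hs' : s < 3 * k)
    (z : F2) (n : ℤ) : Snk pos φ k s (φ z * a ^ n) (z * (τ (cell k s n))⁻¹) := by
  have hD : D < k := by have := h.hk; have := h.ps.nn; linarith
  intro t
  by_cases ht : t = cell k s n
  · subst ht
    rw [inv_mul_cancel_right]
    unfold Q
    rw [inv_mul_cancel_left, h.pos_zpow]
  · apply cell_near hs hs' hD
    rw [h.Q_eq]
    set c := cell k s n with hc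
    have e : (tt t)⁻¹ * ((φ (z * (τ c)⁻¹))⁻¹ * (φ z * a ^ n)) =
        ((tt t)⁻¹ * tt c) * a ^ (off k c + n) := by
      rw [map_mul, map_inv, h.hφ, zpow_add]; group
    rw [e]
    have h1 := h.ps.line _ (h.nt t c ht) (off k c + n) 0
    rw [zpow_zero, mul_one] at h1
    have h2 := h.hD t c
    have := abs_add_le (pos ((tt t)⁻¹ * tt c * a ^ (off k c + n)) - pos ((tt t)⁻¹ * tt c))
      (pos ((tt t)⁻¹ * tt c))
    rw [sub_add_cancel] at this
    linarith

theorem HC.snk_one (h : HC a pos Δ tt φ k D) {s : ℤ} (hs : k ≤ s) (hs' : s < 3 * k) :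
    Snk pos φ k s 1 1 := by
  have h1 := h.snk_line hs hs' 1 0
  have e : cell k s 0 = 0 := by
    unfold cell
    have := h.hk
    have := h.ps.nn
    have h2 := h.hD 0 0
    have := abs_nonneg (pos ((tt 0)⁻¹ * tt 0))
    rw [if_pos (by linarith)]
  rw [e] at h1
  simpa [τ] using h1

/-- different formal lines are different lines -/
theorem HC.line_inj (h : HC a pos Δ tt φ k D) {z z' : F2}
    (he : (φ z : Ln a) = (φ z' : Ln a)) : z = z' := by
  have hk0 : 0 < k := by
    have := h.hk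
    have := h.ps.nn
    have h2 := h.hD 0 0
    have := abs_nonneg (pos ((tt 0)⁻¹ * tt 0))
    linarith
  obtain ⟨j, hj⟩ := Subgroup.mem_zpowers_iff.1 (QuotientGroup.eq.1 he)
  have e1 : φ z' = φ z * a ^ j := by rw [hj, mul_inv_cancel_left]
  -- a far point of the line
  have h1 := h.snk_line (s := k) le_rfl (by linarith) z (|j|)
  have h2 := h.snk_line (s := k) le_rfl (by linarith) z' (|j| - j)
  have e2 : φ z' * a ^ (|j| - j) = φ z * a ^ |j| := by
    rw [e1, mul_assoc, ← zpow_add]; congr 2; ring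
  have c1 : cell k k (|j|) = 0 := by
    unfold cell; rw [if_pos (by have := abs_nonneg j; linarith)]
  have c2 : cell k k (|j| - j) = 0 := by
    unfold cell; rw [if_pos (by have := le_abs_self j; linarith)]
  rw [e2, c2] at h2
  rw [c1] at h1
  have := h.snk_unique le_rfl (by linarith) h1 h2
  exact (mul_right_cancel this).symm

/-- position of `1` on the lines -/
theorem HC.near_one (h : HC a pos Δ tt φ k D) {s : ℤ} (hs : k ≤ s) (hs' : s < 3 * k) (u : F2)
    (t : Fin 3) (hc : cell k s (Q pos φ (u * τ t) 1) = t) :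
    |Q pos φ (u * τ t) 1 + off k t| ≤ D := by
  have hD : D < k := by have := h.hk; have := h.ps.nn; linarith
  by_cases hu : Snk pos φ k s 1 u
  · obtain rfl := h.snk_unique hs hs' (h.snk_one hs hs') hu
    rw [h.Q_eq]
    have := h.hD t 0
    rw [h.t0, mul_one] at this
    rw [map_one, inv_one, mul_one, mul_one]
    have := h.ps.nn
    linarith
  · unfold Snk at hu
    push Not at hu
    obtain ⟨t', ht'⟩ := hu
    have hne : t ≠ t' := by rintro rfl; exact ht' hc
    rcases h.two u 1 hne with hh | hh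
    · exact hh
    · exact absurd (cell_near hs hs' hD hh) ht'

/-- existence of sinks -/
theorem HC.exists_snk (h : HC a pos Δ tt φ k D) {s : ℤ} (hs : k ≤ s) (hs' : s < 3 * k) (g : G) :
    ∃ u, Snk pos φ k s g u := by
  by_contra hno
  push Not at hno
  -- every vertex points somewhere
  have hnx : ∀ p : F2 ⊕ F2, ∃ q, R pos φ k s g p q := by
    rintro (u | z)
    · have := hno u
      rw [snk_iff] at this
      push Not at this
      exact this
    · set t := cell k s (Q pos φ z g) with ht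
      refine ⟨.inl (z * (τ t)⁻¹), Or.inr ⟨z * (τ t)⁻¹, t, rfl, ?_, ?_⟩⟩
      · rw [inv_mul_cancel_right]
      · rw [inv_mul_cancel_right]
  choose nx hnx using hnx
  set f : ℕ → F2 ⊕ F2 := fun n => nx^[n] (.inl 1) with hf
  have hf1 : ∀ i, f (i + 1) = nx (f i) := fun i => by
    simp only [hf]; rw [Function.iterate_succ_apply']
  have hfs : ∀ i, R pos φ k s g (f i) (f (i + 1)) := fun i => by rw [hf1]; exact hnx _
  obtain ⟨hback, hinj⟩ := run_inj Γ (R pos φ k s g) (R pos φ k s 1) (fun _ _ => R_adj)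
    (fun _ _ => R_asymm) (h.R_fun hs hs' 1) (fun _ _ => R_total 1) f
    (snk_iff.1 (h.snk_one hs hs')) hfs
  -- parity
  have hpar : ∀ i, ∃ u, f (2 * i) = .inl u := by
    intro i
    induction i with
    | zero => exact ⟨1, rfl⟩
    | succ i ih =>
      obtain ⟨u, hu⟩ := ih
      have h1 := hfs (2 * i)
      have h2 := hfs (2 * i + 1)
      rw [hu] at h1
      rcases h1 with ⟨u', t, e1, e2, -⟩ | ⟨u', t, e1, e2, -⟩
      · rw [e2] at h2
        rcases h2 with ⟨u'', t', e3, -, -⟩ | ⟨u'', t', e3, e4, -⟩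
        · exact absurd e3 (by simp)
        · exact ⟨u'', by rw [show 2 * (i + 1) = 2 * i + 1 + 1 by ring]; exact e3⟩
      · exact absurd e2 (by simp)
  have hline : ∀ i, ∃ z, f (2 * i + 1) = .inr z ∧ Δ < |Q pos φ z g - Q pos φ z 1| := by
    intro i
    obtain ⟨u, hu⟩ := hpar i
    have h1 := hfs (2 * i)
    have h3 := hback (2 * i)
    rw [hu] at h1 h3
    rcases h1 with ⟨u', t, e1, e2, hc⟩ | ⟨u', t, e1, e2, -⟩
    · obtain rfl := Sum.inl.inj e1
      refine ⟨_, e2, ?_⟩
      rw [e2] at h3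
      rcases h3 with ⟨u'', t', e3, -, -⟩ | ⟨u'', t', e3, e4, hc'⟩
      · exact absurd e3 (by simp)
      · obtain rfl := Sum.inl.inj e3
        have := τ_inj (mul_left_cancel (Sum.inr.inj e4))
        subst this
        have n1 := h.near_one hs hs' _ _ hc'
        have n2 := cell_far hs hs' hc
        have n3 := h.hk
        have n4 := abs_sub_abs_le_abs_sub (Q pos φ (u * τ t) g + off k t)
          (Q pos φ (u * τ t) 1 + off k t)
        have n5 : Q pos φ (u * τ t) g + off k t - (Q pos φ (u * τ t) 1 + off k t) =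
          Q pos φ (u * τ t) g - Q pos φ (u * τ t) 1 := by ring
        rw [n5] at n4
        linarith
    · exact absurd e2 (by simp)
  choose z hz1 hz2 using hline
  have hzinj : Function.Injective z := by
    intro i j hij
    have : f (2 * i + 1) = f (2 * j + 1) := by rw [hz1, hz1, hij]
    have := hinj this
    omega
  -- infinitely many lines
  have hfin := h.ps.fin g 1
  have hinf : (Set.range fun i : ℕ => (φ (z i) : Ln a)).Infinite := by
    apply Set.infinite_range_of_injective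
    intro i j hij
    exact hzinj (h.line_inj hij)
  apply hinf
  refine hfin.subset ?_
  rintro _ ⟨i, rfl⟩
  exact ⟨φ (z i), rfl, hz2 i⟩

/-- the sink -/
theorem HC.equiv {s : ℤ} {g : G} {u z : F2} (hu : Snk pos φ k s g u) :
    Snk pos φ k s (φ z * g) (z * u) := by
  intro t
  have e : Q pos φ (z * u * τ t) (φ z * g) = Q pos φ (u * τ t) g := by
    unfold Q
    congr 1
    rw [mul_assoc, map_mul]; group
  rw [e]; exact hu t

/-- a line on which `g` is far from the clusters determines the sinks -/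
theorem HC.mid (h : HC a pos Δ tt φ k D) {s : ℤ} (hs : k ≤ s) (hs' : s < 3 * k) {z : F2} {g : G}
    (hm : ∀ t, D < |Q pos φ z g + off k t|) :
    Snk pos φ k s g (z * (τ (cell k s (Q pos φ z g)))⁻¹) := by
  have hD : D < k := by have := h.hk; have := h.ps.nn; linarith
  set c := cell k s (Q pos φ z g) with hc
  intro t
  by_cases ht : t = c
  · rw [ht, inv_mul_cancel_right]
  · rcases h.two (z * (τ c)⁻¹) g ht with hh | hh
    · exact cell_near hs hs' hD hh
    · rw [inv_mul_cancel_right] at hh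
      have := hm c
      linarith

/-- the values of `s` for which a threshold lies between two values of a set of small diameter -/
theorem card_between (S : Set ℕ) (p : ℕ → ℤ → Prop) (L : ℕ)
    (hd : ∀ s ∈ S, ∀ s' ∈ S, s ≤ s' → s' < s + L) : S.Finite ∧ S.ncard ≤ L := by
  rcases S.eq_empty_or_nonempty with rfl | hne
  · simp
  · classical
    have hmin := Nat.sInf_mem hne
    have hsub : S ⊆ (Finset.Ico (sInf S) (sInf S + L) : Finset ℕ) := by
      intro s hs
      rw [Finset.coe_Ico, Set.mem_Ico]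
      exact ⟨Nat.sInf_le hs, hd _ hmin _ hs (Nat.sInf_le hs)⟩
    refine ⟨(Finset.finite_toSet _).subset hsub, ?_⟩
    refine (Set.ncard_le_ncard hsub (Finset.finite_toSet _)).trans ?_
    rw [Set.ncard_coe_finset, Nat.card_Ico]
    omega

/-- if two numbers are in different cells then a threshold lies between them -/
theorem cell_ne {k s n n' : ℤ} (h : cell k s n ≠ cell k s n') :
    (n ≤ -s ∧ -s < n') ∨ (n' ≤ -s ∧ -s < n) ∨
    (n ≤ -(4 * k) - s ∧ -(4 * k) - s < n') ∨ (n' ≤ -(4 * k) - s ∧ -(4 * k) - s < n) := by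
  by_contra hc
  push Not at hc
  obtain ⟨h1, h2, h3, h4⟩ := hc
  apply h
  unfold cell
  by_cases c1 : -s < n
  · have c2 : -s < n' := by by_contra hh; push Not at hh; linarith [h2 hh]
    rw [if_pos c1, if_pos c2]
  · have c2 : ¬ -s < n' := fun hh => by push Not at c1; linarith [h1 c1]
    rw [if_neg c1, if_neg c2]
    by_cases c3 : -(4 * k) - s < n
    · have c4 : -(4 * k) - s < n' := by by_contra hh; push Not at hh; linarith [h4 hh]
      rw [if_pos c3, if_pos c4]
    · have c4 : ¬ -(4 * k) - s < n' := fun hh => by push Not at c3; linarith [h3 c3]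
      rw [if_neg c3, if_neg c4]

end HCut

open HCut

theorem hcut : HCutStmt := by
  classical
  intro G _ a pos Δ hM hps v w hv hw hvw L
  set tt : Fin 3 → G := ![1, v, w] with htt
  set D : ℤ := Δ + ∑ i, ∑ j, |pos ((tt i)⁻¹ * tt j)| with hD
  have hDD : ∀ i j, |pos ((tt i)⁻¹ * tt j)| + Δ ≤ D := by
    intro i j
    have h1 : |pos ((tt i)⁻¹ * tt j)| ≤ ∑ j, |pos ((tt i)⁻¹ * tt j)| :=
      Finset.single_le_sum (f := fun j => |pos ((tt i)⁻¹ * tt j)|) (fun _ _ => abs_nonneg _)
        (Finset.mem_univ j)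
    have h2 : ∑ j, |pos ((tt i)⁻¹ * tt j)| ≤ ∑ i, ∑ j, |pos ((tt i)⁻¹ * tt j)| :=
      Finset.single_le_sum (f := fun i => ∑ j, |pos ((tt i)⁻¹ * tt j)|)
        (fun _ _ => Finset.sum_nonneg fun _ _ => abs_nonneg _) (Finset.mem_univ i)
    rw [hD]; linarith
  have hD0 : 0 ≤ D := by
    have := hDD 0 0
    have := abs_nonneg (pos ((tt 0)⁻¹ * tt 0))
    have := hps.nn
    linarith
  refine ⟨(D + Δ).toNat + 2 * L + 1, fun k hk => ?_⟩
  have hkZ : D + Δ + 2 * L < k := by
    have h1 : D + Δ ≤ ((D + Δ).toNat : ℤ) := Int.self_le_toNat _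
    have h2 : (((D + Δ).toNat + 2 * L + 1 : ℕ) : ℤ) ≤ k := by exact_mod_cast hk
    push_cast at h2
    linarith
  set φ := phi a v w k with hφ
  have hx : φ (FreeGroup.of 0) = v * a ^ (4 * k) := by
    rw [hφ, phi, FreeGroup.lift_apply_of]; rfl
  have hy : φ (FreeGroup.of 1) = w * a ^ (12 * k) := by
    rw [hφ, phi, FreeGroup.lift_apply_of]; rfl
  have H : HC a pos Δ tt φ (k : ℤ) D := by
    refine ⟨hps, rfl, ?_, ?_, hDD, by linarith⟩
    · have inv : ∀ g : G, g ∉ Subgroup.zpowers a → g⁻¹ ∉ Subgroup.zpowers a := fun g hg h =>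
        hg (by have := Subgroup.inv_mem _ h; rwa [inv_inv] at this)
      have hwv : w⁻¹ * v ∉ Subgroup.zpowers a := by
        have := inv _ hvw
        rwa [mul_inv_rev, inv_inv] at this
      intro i j hij
      fin_cases i <;> fin_cases j <;> simp [htt] at hij ⊢
      · exact hv
      · exact hw
      · exact hv
      · exact hvw
      · exact hw
      · exact hwv
    · intro t
      fin_cases t
      · simp [τ, htt, off]
      · change φ (FreeGroup.of 0) = v * a ^ (4 * (k : ℤ))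
        rw [hx]
        norm_cast
      · change φ (FreeGroup.of 1) = w * a ^ (12 * (k : ℤ))
        rw [hy]
        norm_cast
  -- ranges
  have hr : ∀ s ∈ Finset.Ico k (3 * k), (k : ℤ) ≤ s ∧ (s : ℤ) < 3 * k := by
    intro s hs
    rw [Finset.mem_Ico] at hs
    constructor
    · exact_mod_cast hs.1
    · exact_mod_cast hs.2
  have hex : ∀ s ∈ Finset.Ico k (3 * k), ∀ g, ∃ u, Snk pos φ k s g u := fun s hs g =>
    H.exists_snk (hr s hs).1 (hr s hs).2 g
  set c : ℕ → G → F2 := fun s g =>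
    if h : s ∈ Finset.Ico k (3 * k) then (hex s h g).choose else 1 with hc
  have hcs : ∀ s ∈ Finset.Ico k (3 * k), ∀ g, Snk pos φ k s g (c s g) := by
    intro s hs g
    simp only [hc, dif_pos hs]
    exact (hex s hs g).choose_spec
  have hcu : ∀ s ∈ Finset.Ico k (3 * k), ∀ g u, Snk pos φ k s g u → c s g = u := by
    intro s hs g u hu
    exact H.snk_unique (hr s hs).1 (hr s hs).2 hu (hcs s hs g)
  refine ⟨c, ?_, ?_, ?_⟩
  · intro s hs u g
    exact hcu s hs _ _ (HC.equiv (hcs s hs g))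
  · intro A hA
    -- a bad value
    by_cases hbad : ∃ s0, s0 ∈ Finset.Ico k (3 * k) ∧ ∃ g ∈ A, ∃ g' ∈ A, c s0 g ≠ c s0 g'
    swap
    · push Not at hbad
      have : {s | s ∈ Finset.Ico k (3 * k) ∧ ∃ g ∈ A, ∃ g' ∈ A, c s g ≠ c s g'} = ∅ := by
        ext s
        simp only [Set.mem_ofPred_eq, Set.mem_empty_iff_false, iff_false, not_and]
        rintro hs ⟨g, hg, g', hg', h⟩
        exact h (hbad s hs g hg g' hg')
      rw [this]; simp
    obtain ⟨s0, hs0, g0, hg0, g0', hg0', hne⟩ := hbad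
    obtain ⟨hk1, hk2⟩ := hr s0 hs0
    -- a line with different cells
    obtain ⟨z, hz⟩ : ∃ z, cell k s0 (Q pos φ z g0) ≠ cell k s0 (Q pos φ z g0') := by
      by_contra hcon
      push Not at hcon
      apply hne
      have h1 := hcs s0 hs0 g0
      refine (hcu s0 hs0 g0' _ fun t => ?_).symm
      rw [← hcon]; exact h1 t
    have hAz : ∀ g ∈ A, ∀ g' ∈ A, |Q pos φ z g - Q pos φ z g'| ≤ L := fun g hg g' hg' =>
      hA g hg g' hg' z
    -- everybody is in the middle
    have hmid : ∀ g ∈ A, ∀ t, D < |Q pos φ z g + off k t| := by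
      intro g hg t
      have hfar : (k : ℤ) - L ≤ |Q pos φ z g0 + off k t| := by
        by_cases ht : cell k s0 (Q pos φ z g0) = t
        · have h1 := cell_far hk1 hk2 (t := t) (fun h => hz (ht.trans h.symm))
          have h2 := hAz g0' hg0' g0 hg0
          have h3 := abs_add_le (Q pos φ z g0' - Q pos φ z g0) (Q pos φ z g0 + off k t)
          have h4 : Q pos φ z g0' - Q pos φ z g0 + (Q pos φ z g0 + off k t) =
            Q pos φ z g0' + off k t := by ring
          rw [h4] at h3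
          linarith
        · have h1 := cell_far hk1 hk2 ht
          have : (0 : ℤ) ≤ L := Nat.cast_nonneg L
          linarith
      have h2 := hAz g0 hg0 g hg
      have h3 := abs_add_le (Q pos φ z g0 - Q pos φ z g) (Q pos φ z g + off k t)
      have h4 : Q pos φ z g0 - Q pos φ z g + (Q pos φ z g + off k t) =
        Q pos φ z g0 + off k t := by ring
      rw [h4] at h3
      have := hps.nn
      linarith
    have hsnk : ∀ s ∈ Finset.Ico k (3 * k), ∀ g ∈ A,
        c s g = z * (τ (cell k s (Q pos φ z g)))⁻¹ := by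
      intro s hs g hg
      exact hcu s hs g _ (H.mid (hr s hs).1 (hr s hs).2 (hmid g hg))
    -- the two kinds of bad values
    set S1 : Set ℕ := {s | ∃ g ∈ A, ∃ g' ∈ A, Q pos φ z g ≤ -(s : ℤ) ∧ -(s : ℤ) < Q pos φ z g'}
    set S2 : Set ℕ := {s | ∃ g ∈ A, ∃ g' ∈ A, Q pos φ z g ≤ -(4 * (k : ℤ)) - s ∧
      -(4 * (k : ℤ)) - s < Q pos φ z g'}
    have hS1 : S1.Finite ∧ S1.ncard ≤ L := by
      apply card_between S1 (fun _ _ => True)
      rintro s ⟨-, -, g', hg', -, h1⟩ s' ⟨g, hg, -, -, h2, -⟩ -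
      have h3 := hAz g' hg' g hg
      rw [abs_le] at h3
      have h4 : (s' : ℤ) < s + L := by linarith
      exact_mod_cast h4
    have hS2 : S2.Finite ∧ S2.ncard ≤ L := by
      apply card_between S2 (fun _ _ => True)
      rintro s ⟨-, -, g', hg', -, h1⟩ s' ⟨g, hg, -, -, h2, -⟩ -
      have h3 := hAz g' hg' g hg
      rw [abs_le] at h3
      have h4 : (s' : ℤ) < s + L := by linarith
      exact_mod_cast h4
    have hsub : {s | s ∈ Finset.Ico k (3 * k) ∧ ∃ g ∈ A, ∃ g' ∈ A, c s g ≠ c s g'} ⊆ S1 ∪ S2 := by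
      rintro s ⟨hs, g, hg, g', hg', h⟩
      rw [hsnk s hs g hg, hsnk s hs g' hg'] at h
      have h1 : cell k s (Q pos φ z g) ≠ cell k s (Q pos φ z g') := by
        intro h2; rw [h2] at h; exact h rfl
      rcases cell_ne h1 with h2 | h2 | h2 | h2
      · exact Or.inl ⟨g, hg, g', hg', h2.1, h2.2⟩
      · exact Or.inl ⟨g', hg', g, hg, h2.1, h2.2⟩
      · exact Or.inr ⟨g, hg, g', hg', h2.1, h2.2⟩
      · exact Or.inr ⟨g', hg', g, hg, h2.1, h2.2⟩
    refine (Set.ncard_le_ncard hsub (hS1.1.union hS2.1)).trans ?_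
    refine (Set.ncard_union_le _ _).trans ?_
    have := hS1.2
    have := hS2.2
    omega
  · intro s hs u n
    rw [hcu s hs _ _ (H.snk_line (hr s hs).1 (hr s hs).2 u n)]
    unfold cell
    have e : -(4 * k : ℤ) - s = -(4 * (k : ℤ)) - s := by ring
    by_cases c1 : -(s : ℤ) < n
    · rw [if_pos c1, if_pos c1]; simp [τ]
    · rw [if_neg c1, if_neg c1]
      by_cases c2 : -(4 * (k : ℤ)) - s < n
      · rw [if_pos c2, if_pos c2]; simp [τ]
      · rw [if_neg c2, if_neg c2]; simp [τ]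

end TSq
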