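import Pool.Agent.Work.TSQ.R0

/-!
# Block LAB: labellings in terms of relator data
-/

namespace TSq
open FrobP GMet

theorem lab_of (NC : NCutStmt) : LabStmt := by
  obtain ⟨K, hK⟩ := NC
  obtain ⟨K2, hK2⟩ := FrobP.s2Stmt
  intro G V _ _ _ hG a H Y θ hR x0 L r0
  haveI : IsomAct G V := ⟨hG.isom⟩
  refine ⟨K * (θ + L), fun n => ⟨K * (θ + L + r0 + n) + K2 * θ + 4 * θ + 4, fun Q hd => ?_⟩⟩
  set T0 := K * (θ + L + r0 + n) + K2 * θ + 4 * θ + 4 with hT0
  have hrot := hR.rot hd 1 1 le_rfl le_rfl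
  set C := rdCone H Y hR.ne 1 1 le_rfl le_rfl with hC
  obtain ⟨c, c1, c2, c3, c4⟩ := hK G V (G ⧸ H) C (rdQ H Q) θ T0 L r0 n x0 hrot (by omega)
  have hprd : ∀ (p p' : V) (D : ℕ), (∀ i, prd (C.Y i) p p' ≤ D) ↔
      ∀ g : G, prd Y (g • p) (g • p') ≤ D := by
    intro p p' D
    constructor
    · intro h g
      have := h ((g⁻¹ : G) : G ⧸ H)
      change prd (rdY H Y ((g⁻¹ : G) : G ⧸ H)) p p' ≤ D at this
      rwa [prd_rdY hR.inv, inv_inv] at this
    · intro h i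
      obtain ⟨g, rfl⟩ := QuotientGroup.mk_surjective i
      change prd (rdY H Y (g : G ⧸ H)) p p' ≤ D
      rw [prd_rdY hR.inv]
      exact h g⁻¹
  refine ⟨c, ?_, ?_, ?_, ?_, ?_⟩
  · intro t ht m hm p
    exact c1 t ht m (by rw [hd.nn]; exact hm) p
  · intro t ht p g hg
    have := c2 t ht p g hg
    rwa [hd.nn] at this
  · intro A hA
    exact c3 A fun p hp p' hp' => (hprd p p' L).2 (hA p hp p' hp')
  · intro t ht p hp
    exact c4 t ht p ((hprd x0 p r0).2 hp)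
  · intro m hm g hg
    have hall := hK2 G V (G ⧸ H) C (rdQ H Q) θ T0 hrot (by omega)
    have h1 := s3b G V (G ⧸ H) C (rdQ H Q) θ T0 (T0 / 4) hrot hall (by omega) m
      (by rw [hd.nn]; exact hm) (g : G ⧸ H) hg
    exact (hd.mem_rdQ g m).1 h1

end TSq
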