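import Pool.Agent.Work.TSQ.Tar

/-!
# MP_ab148e_al: block LIM (helper79)
-/

namespace TSq

open Finset

namespace Lim

/-- `Done` is stable under homomorphisms -/
theorem Done.map {G G' : Type} [Group G] [Group G'] {π : F3 →* G} (ψ : G →* G') {t : Task}
    (h : Done G π t) : Done G' (ψ.comp π) t := by
  have hz : ∀ g : G, g ∈ Subgroup.zpowers (π fa) →
      ψ g ∈ Subgroup.zpowers (ψ (π fa)) := by
    intro g hg
    obtain ⟨i, rfl⟩ := Subgroup.mem_zpowers_iff.1 hg
    exact Subgroup.mem_zpowers_iff.2 ⟨i, by rw [map_zpow]⟩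
  cases t with
  | u g =>
    rcases h with h | ⟨h, m, n, hn, hm, e⟩
    · exact Or.inl (ψ.isOfFinOrder h)
    · refine Or.inr ⟨ψ h, m, n, hn, hm, ?_⟩
      simp only [MonoidHom.comp_apply]
      rw [← map_zpow, e, map_mul, map_mul, map_zpow, map_inv]
  | e j v w =>
    rcases h with h | h | h | h | ⟨k, m, hk, hm, h⟩
    · exact Or.inl h
    · exact Or.inr (Or.inl (hz _ h))
    · exact Or.inr (Or.inr (Or.inl (hz _ h)))
    · refine Or.inr (Or.inr (Or.inr (Or.inl ?_)))
      have := hz _ h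
      rw [map_mul, map_inv] at this
      exact this
    · refine Or.inr (Or.inr (Or.inr (Or.inr ⟨k, m, hk, hm, ?_⟩)))
      refine (h.image ψ).subset ?_
      have e : Subgroup.closure {ψ (π v) * (ψ (π fa)) ^ k,
          ψ (π w) * (ψ (π fa)) ^ m} =
          (Subgroup.closure {π v * (π fa) ^ k,
            π w * (π fa) ^ m}).map ψ := by
        rw [MonoidHom.map_closure, Set.image_pair]
        simp only [map_mul, map_zpow]
      intro x hx
      simp only [MonoidHom.comp_apply] at hx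
      rw [e] at hx
      exact hx

instance : Countable F3 := by
  unfold F3
  infer_instance

instance : Countable Task := by
  have : Function.Injective (fun t : Task => (match t with
    | .u g => Sum.inl g
    | .e j v w => Sum.inr (j, v, w) : F3 ⊕ (ℕ × F3 × F3))) := by
    intro s t h
    cases s <;> cases t <;> simp_all
  exact this.countable

instance : Nonempty Task := ⟨.u 1⟩

/-- the ratio at stage `l` -/
def rr (l : ℕ) : ℚ := 1 + 1 / ((l : ℚ) + 2)

theorem rr_pos (l : ℕ) : 0 < rr l := by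
  unfold rr; positivity

theorem rr_lt (l : ℕ) : rr (l + 1) < rr l := by
  unfold rr
  push_cast
  have h1 : (0 : ℚ) < (l : ℚ) + 2 := by positivity
  have : 1 / ((l : ℚ) + 1 + 2) < 1 / ((l : ℚ) + 2) := by
    apply one_div_lt_one_div_of_lt h1
    linarith
  linarith

theorem one_le_rr (l : ℕ) : 1 ≤ rr l := by
  unfold rr
  have : 0 ≤ 1 / ((l : ℚ) + 2) := by positivity
  linarith

/-- a stage with its index -/
structure St where
  G : Type
  [grp : Group G]
  π : F3 →* G
  l : ℕ
  h : Stg G π (rr l)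

attribute [instance] St.grp

theorem exists_next (O : OneStepStmt) (t : Task) (s : St) :
    ∃ s' : St, s'.l = s.l + 1 ∧ (∀ g, s.π g = 1 → s'.π g = 1) ∧ Done s'.G s'.π t := by
  obtain ⟨G', _, ρ, h1, h2⟩ := O s.G s.π (rr s.l) (rr (s.l + 1)) s.h (rr_pos _) (rr_lt _) t
  refine ⟨⟨G', ρ.comp s.π, s.l + 1, h1⟩, rfl, ?_, h2⟩
  intro g hg
  simp only [MonoidHom.comp_apply]
  rw [hg, map_one]

theorem card_image_le_of_factor {α β γ : Type} [DecidableEq β] [DecidableEq γ] (S : Finset α)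
    (f : α → β) (g : α → γ) (h : ∀ s ∈ S, ∀ s' ∈ S, g s = g s' → f s = f s') :
    (S.image f).card ≤ (S.image g).card := by
  classical
  rcases S.eq_empty_or_nonempty with rfl | ⟨s0, -⟩
  · simp
  · let k : γ → β := fun y => if hy : ∃ s ∈ S, g s = y then f hy.choose else f s0
    have : S.image f ⊆ (S.image g).image k := by
      intro x hx
      obtain ⟨s, hs, rfl⟩ := mem_image.1 hx
      refine mem_image.2 ⟨g s, mem_image_of_mem _ hs, ?_⟩
      have hy : ∃ s' ∈ S, g s' = g s := ⟨s, hs, rfl⟩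
      simp only [k]
      rw [dif_pos hy]
      exact h _ hy.choose_spec.1 _ hs hy.choose_spec.2
    exact (card_le_card this).trans card_image_le

theorem mem_nb {G G2 M : Type} [Group G] [Group G2] {a : G} {e : Fin 3 → G} {f : Fin 3 → G2}
    {π : Ln a × G2 → M} {F : Finset (G × G2)} {m : M} :
    m ∈ nb a e f π F ↔ ∃ p ∈ F, ∃ i, π (nd a e f p i) = m := by
  classical
  unfold nb
  simp only [mem_biUnion, mem_image, mem_univ, true_and]

theorem nb_eq {G G2 M : Type} [Group G] [Group G2] (a : G) (e : Fin 3 → G) (f : Fin 3 → G2)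
    (π : Ln a × G2 → M) [DecidableEq M] (F : Finset (G × G2)) :
    nb a e f π F = (F ×ˢ (univ : Finset (Fin 3))).image (fun q => π (nd a e f q.1 q.2)) := by
  ext n
  rw [mem_nb]
  simp only [mem_image, mem_product, mem_univ, and_true, Prod.exists]
  constructor
  · rintro ⟨x, y, hp, i, hi⟩
    exact ⟨x, y, i, hp, hi⟩
  · rintro ⟨x, y, i, hp, hi⟩
    exact ⟨x, y, hp, i, hi⟩

/-- `WW` contains the Hall condition -/
theorem hallR_of_WW {G G2 : Type} [Group G] [Group G2] {a : G} {e : Fin 3 → G} {f : Fin 3 → G2}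
    {κ : ℚ} (h : WW a e f κ) : HallR a e f κ := by
  intro F
  have h1 := h (fun _ => ln a 1) F
  have e1 : (wd (fun _ : Fin 3 => ln a 1) : Ln a × G2 → Ln a × G2) = id := by
    funext n
    unfold wd
    by_cases hn : n.1 ∈ Set.range (fun _ : Fin 3 => ln a 1)
    · rw [if_pos hn]
      obtain ⟨_, hn⟩ := hn
      exact Prod.ext hn rfl
    · rw [if_neg hn]; rfl
  rwa [e1] at h1

end Lim

open Lim

/-- BLOCK LIM -/
theorem lim (O : OneStepStmt) (hBG : BaseGeoStmt) (hBW : BaseWStmt) :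
    ∃ (G : Type) (_ : Group G) (π : F3 →* G), Function.Surjective π ∧ Mal (π fa) ∧
      HallR (π fa) (π ∘ fe) (π ∘ fe) 1 ∧ ∀ t : Task, Done G π t := by
  classical
  obtain ⟨t, ht⟩ := exists_surjective_nat Task
  -- the sequence
  choose nx hnx using fun (t : Task) (s : St) => exists_next O t s
  obtain ⟨hg, hm⟩ := hBG
  let s0 : St := ⟨F3, MonoidHom.id F3, 0, ⟨Function.surjective_id, hg, hm, by
    have : rr 0 = 3 / 2 := by unfold rr; norm_num
    rw [this]; exact hBW⟩⟩
  obtain ⟨f, hf⟩ : ∃ f : ℕ → St, ∀ n, f (n + 1) = nx (t n) (f n) :=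
    ⟨fun n => Nat.rec s0 (fun n s => nx (t n) s) n, fun n => rfl⟩
  have hker1 : ∀ (n : ℕ) (g : F3), (f n).π g = 1 → (f (n + 1)).π g = 1 := by
    intro n g hg
    rw [hf]; exact (hnx (t n) (f n)).2.1 g hg
  have hker : ∀ m n : ℕ, m ≤ n → ∀ g : F3, (f m).π g = 1 → (f n).π g = 1 := by
    intro m n hmn g hg
    induction hmn with
    | refl => exact hg
    | step _ ih => exact hker1 _ _ ih
  -- the limit kernel
  let K : Subgroup F3 :=
    { carrier := {g | ∃ n, (f n).π g = 1}
      one_mem' := ⟨0, map_one _⟩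
      mul_mem' := by
        rintro g h ⟨n, hn⟩ ⟨m, hm⟩
        refine ⟨max n m, ?_⟩
        rw [map_mul, hker n _ (le_max_left _ _) g hn, hker m _ (le_max_right _ _) h hm, one_mul]
      inv_mem' := by
        rintro g ⟨n, hn⟩
        exact ⟨n, by rw [map_inv, hn, inv_one]⟩ }
  have hKm : ∀ g : F3, g ∈ K ↔ ∃ n, (f n).π g = 1 := fun g => Iff.rfl
  have hKn : K.Normal := ⟨by
    rintro g ⟨n, hn⟩ h
    exact ⟨n, by rw [map_mul, map_mul, hn, mul_one, map_inv, mul_inv_cancel]⟩⟩
  let π : F3 →* F3 ⧸ K := QuotientGroup.mk' K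
  have hπs : Function.Surjective π := QuotientGroup.mk'_surjective K
  have hπ1 : ∀ g h : F3, π g = π h → ∃ n, (f n).π g = (f n).π h := by
    intro g h hgh
    have : g⁻¹ * h ∈ K := QuotientGroup.eq.1 hgh
    obtain ⟨n, hn⟩ := (hKm _).1 this
    refine ⟨n, ?_⟩
    rw [map_mul, map_inv] at hn
    exact inv_mul_eq_one.1 hn
  have hup : ∀ m n : ℕ, m ≤ n → ∀ g h : F3, (f m).π g = (f m).π h → (f n).π g = (f n).π h := by
    intro m n hmn g h hgh
    have h1 : (f m).π (g⁻¹ * h) = 1 := by rw [map_mul, map_inv, hgh, inv_mul_cancel]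
    have h2 := hker m n hmn _ h1
    rw [map_mul, map_inv] at h2
    exact inv_mul_eq_one.1 h2
  have hdown : ∀ n (g h : F3), (f n).π g = (f n).π h → π g = π h := by
    intro n g h hgh
    refine QuotientGroup.eq.2 ⟨n, ?_⟩
    rw [map_mul, map_inv, hgh, inv_mul_cancel]
  -- the maps from the stages
  have hψ : ∀ n, ∃ ψ : (f n).G →* F3 ⧸ K, ψ.comp (f n).π = π := by
    intro n
    refine ⟨(QuotientGroup.map (f n).π.ker K (MonoidHom.id F3) (fun g hg => ⟨n, hg⟩)).comp
      (QuotientGroup.quotientKerEquivOfSurjective (f n).π (f n).h.surj).symm.toMonoidHom, ?_⟩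
    ext g
    simp only [MonoidHom.comp_apply]
    have h1 : (QuotientGroup.quotientKerEquivOfSurjective (f n).π (f n).h.surj).symm
        ((f n).π (FreeGroup.of g)) = ((FreeGroup.of g : F3) : F3 ⧸ (f n).π.ker) := by
      rw [MulEquiv.symm_apply_eq]
      rfl
    change QuotientGroup.map (f n).π.ker K (MonoidHom.id F3) _
      ((QuotientGroup.quotientKerEquivOfSurjective (f n).π (f n).h.surj).symm
        ((f n).π (FreeGroup.of g))) = _
    rw [h1]
    rfl
  refine ⟨F3 ⧸ K, inferInstance, π, hπs, ⟨?_, ?_⟩, ?_, ?_⟩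
  · -- infinite order
    intro hfin
    rw [isOfFinOrder_iff_pow_eq_one] at hfin
    obtain ⟨n, hn, h1⟩ := hfin
    rw [← map_pow, ← map_one π] at h1
    obtain ⟨m, hm⟩ := hπ1 _ _ h1
    rw [map_pow, map_one] at hm
    exact (f m).h.mal.inf (isOfFinOrder_iff_pow_eq_one.2 ⟨n, hn, hm⟩)
  · -- malnormal
    intro g m n hn hg
    obtain ⟨g', rfl⟩ := hπs g
    rw [← map_zpow, ← map_zpow, ← map_inv, ← map_mul, ← map_mul] at hg
    obtain ⟨l, hl⟩ := hπ1 _ _ hg
    rw [map_mul, map_mul, map_zpow, map_zpow, map_inv] at hl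
    have h1 := (f l).h.mal.mal _ m n hn hl
    obtain ⟨i, hi⟩ := Subgroup.mem_zpowers_iff.1 h1
    rw [← map_zpow] at hi
    refine Subgroup.mem_zpowers_iff.2 ⟨i, ?_⟩
    rw [← map_zpow]
    exact hdown l _ _ hi
  · -- Hall
    intro F
    rw [one_mul]
    -- lifts
    choose σ hσ using hπs
    let S : Finset ((F3 × F3) × Fin 3) :=
      (F.image fun p => (σ p.1, σ p.2)) ×ˢ (univ : Finset (Fin 3))
    let ν : (F3 × F3) × Fin 3 → Ln (π fa) × (F3 ⧸ K) := fun q =>
      nd (π fa) (π ∘ fe) (π ∘ fe) (π q.1.1, π q.1.2) q.2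
    let νl : (l : ℕ) → (F3 × F3) × Fin 3 → Ln ((f l).π fa) × (f l).G := fun l q =>
      nd ((f l).π fa) ((f l).π ∘ fe) ((f l).π ∘ fe) ((f l).π q.1.1, (f l).π q.1.2) q.2
    have hpair : ∀ q q' : (F3 × F3) × Fin 3, ∃ l0, ν q = ν q' → ∀ l ≥ l0, νl l q = νl l q' := by
      intro q q'
      by_cases h : ν q = ν q'
      · have h1 : ln (π fa) (π q.1.1 * π (fe q.2)) = ln (π fa) (π q'.1.1 * π (fe q'.2)) :=
          congrArg Prod.fst h
        have h2 : π q.1.2 * π (fe q.2) = π q'.1.2 * π (fe q'.2) := congrArg Prod.snd h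
        rw [← map_mul, ← map_mul] at h1 h2
        unfold ln at h1
        rw [QuotientGroup.eq, Subgroup.mem_zpowers_iff] at h1
        obtain ⟨i, hi⟩ := h1
        rw [← map_inv, ← map_mul, ← map_zpow] at hi
        obtain ⟨l1, hl1⟩ := hπ1 _ _ hi
        obtain ⟨l2, hl2⟩ := hπ1 _ _ h2
        refine ⟨max l1 l2, fun _ l hl => ?_⟩
        have h3 := hup l1 l ((le_max_left _ _).trans hl) _ _ hl1
        have h4 := hup l2 l ((le_max_right _ _).trans hl) _ _ hl2
        apply Prod.ext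
        · change ln ((f l).π fa) ((f l).π q.1.1 * (f l).π (fe q.2)) =
            ln ((f l).π fa) ((f l).π q'.1.1 * (f l).π (fe q'.2))
          unfold ln
          rw [← map_mul, ← map_mul, QuotientGroup.eq, Subgroup.mem_zpowers_iff]
          exact ⟨i, by rw [← map_inv, ← map_mul, ← map_zpow]; exact h3⟩
        · change (f l).π q.1.2 * (f l).π (fe q.2) = (f l).π q'.1.2 * (f l).π (fe q'.2)
          rw [← map_mul, ← map_mul]
          exact h4
      · exact ⟨0, fun h' => absurd h' h⟩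
    choose l0 hl0 using hpair
    obtain ⟨l, hl⟩ : ∃ l, ∀ q ∈ S, ∀ q' ∈ S, l0 q q' ≤ l :=
      ⟨(S ×ˢ S).sup fun q => l0 q.1 q.2, fun q hq q' hq' =>
        le_sup (f := fun q : ((F3 × F3) × Fin 3) × ((F3 × F3) × Fin 3) => l0 q.1 q.2)
          (b := (q, q')) (mem_product.2 ⟨hq, hq'⟩)⟩
    -- Hall at stage `l`
    let Fl : Finset ((f l).G × (f l).G) := F.image fun p => ((f l).π (σ p.1), (f l).π (σ p.2))
    have hcard : Fl.card = F.card := by
      apply card_image_of_injective
      intro p p' hpp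
      have h1 := congrArg Prod.fst hpp
      have h2 := congrArg Prod.snd hpp
      simp only at h1 h2
      have h3 := hdown l _ _ h1
      have h4 := hdown l _ _ h2
      rw [hσ, hσ] at h3 h4
      exact Prod.ext h3 h4
    have hall := hallR_of_WW (f l).h.w Fl
    rw [hcard] at hall
    have h1 : (F.card : ℚ) ≤ rr (f l).l * F.card := by
      have h2 := one_le_rr (f l).l
      nlinarith [Nat.cast_nonneg (α := ℚ) F.card]
    refine (h1.trans hall).trans ?_
    norm_cast
    have e1 : nb ((f l).π fa) ((f l).π ∘ fe) ((f l).π ∘ fe) id Fl = S.image (νl l) := by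
      ext n
      rw [mem_nb]
      simp only [mem_image, mem_product, mem_univ, and_true, S, Fl]
      constructor
      · rintro ⟨q, ⟨p, hp, hpq⟩, i, rfl⟩
        refine ⟨((σ p.1, σ p.2), i), ⟨p, hp, rfl⟩, ?_⟩
        rw [← hpq]
        rfl
      · rintro ⟨q, ⟨p, hp, hpq⟩, rfl⟩
        refine ⟨((f l).π (σ p.1), (f l).π (σ p.2)), ⟨p, hp, rfl⟩, q.2, ?_⟩
        simp only [νl]
        rw [← hpq]
        rfl
    have e2 : nb (π fa) (π ∘ fe) (π ∘ fe) id F = S.image ν := by
      ext n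
      rw [mem_nb]
      simp only [mem_image, mem_product, mem_univ, and_true, S]
      constructor
      · rintro ⟨p, hp, i, rfl⟩
        refine ⟨((σ p.1, σ p.2), i), ⟨p, hp, rfl⟩, ?_⟩
        simp only [ν]
        rw [hσ, hσ]
        rfl
      · rintro ⟨q, ⟨p, hp, hpq⟩, rfl⟩
        refine ⟨p, hp, q.2, ?_⟩
        simp only [ν]
        rw [← hpq]
        simp only
        rw [hσ, hσ]
        rfl
    rw [e1, e2]
    refine card_image_le_of_factor S (νl l) ν fun q hq q' hq' h => ?_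
    exact hl0 q q' h l (hl q hq q' hq')
  · -- tasks
    intro s
    obtain ⟨n, rfl⟩ := ht s
    obtain ⟨ψ, hψ⟩ := hψ (n + 1)
    have h1 : Done (f (n + 1)).G (f (n + 1)).π (t n) := by
      rw [hf n]; exact (hnx (t n) (f n)).2.2
    have h2 := Done.map ψ h1
    rw [hψ] at h2
    exact h2

/-- BLOCK FIN -/
theorem finStmt : FinStmt := by
  intro O hBG hBW
  obtain ⟨G, _, π, hπ, hM, hH, hD⟩ := lim O hBG hBW
  exact ⟨G, inferInstance, 5, Tar.parad_of_hall hM.inf hH, Tar.noParad (Tar.allFl π hπ hM hD)⟩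

end TSq
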