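import Pool.Agent.Work.TSQ.LongDef
import Pool.Agent.Work.TSQ.Lim

/-!
# MP_ab148e_al: blocks LINE and LONG (helper79)
-/

namespace TSq

open Finset Lim

set_option linter.unusedSectionVars false

namespace Long

variable {G G2 : Type} [Group G] [Group G2] {a : G} {e : Fin 3 → G} {f : Fin 3 → G2}

/-- left translation of the first coordinate -/
def tr (t : G) (p : G × G2) : G × G2 := (t * p.1, p.2)

theorem tr_inj (t : G) : Function.Injective (tr (G2 := G2) t) := by
  intro p q h
  have h1 : t * p.1 = t * q.1 := congrArg Prod.fst h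
  have h2 : (tr t p).2 = (tr t q).2 := by rw [h]
  exact Prod.ext (mul_left_cancel h1) h2

/-- LINE, in `Finset` form -/
theorem line [DecidableEq (Ln a)] (ha : ¬ IsOfFinOrder a) {κ : ℚ} (hH : HallR a e f κ) (l : Ln a)
    (F : Finset (G × G2)) :
    κ * F.card ≤ ((nb a e f id F).filter fun n => n.1 ≠ l).card := by
  classical
  obtain ⟨h, rfl⟩ := QuotientGroup.mk_surjective l
  change κ * F.card ≤ ((nb a e f id F).filter fun n => n.1 ≠ ln a h).card
  -- forbidden exponents
  have hinj : ∀ i j : ℤ, a ^ i = a ^ j → i = j := fun i j h =>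
    injective_zpow_iff_not_isOfFinOrder.2 ha h
  obtain ⟨M, hM⟩ : ∃ M : ℕ, ∀ m : ℤ, (M : ℤ) ≤ |m| → ∀ p ∈ F, ∀ q ∈ F,
      h * a ^ m * h⁻¹ * p.1 ≠ q.1 := by
    have hfin : {m : ℤ | ∃ p ∈ F, ∃ q ∈ F, h * a ^ m * h⁻¹ * p.1 = q.1}.Finite := by
      have hsub : {m : ℤ | ∃ p ∈ F, ∃ q ∈ F, h * a ^ m * h⁻¹ * p.1 = q.1} ⊆
          ⋃ p ∈ F, ⋃ q ∈ F, {m : ℤ | h * a ^ m * h⁻¹ * p.1 = q.1} := by
        rintro m ⟨p, hp, q, hq, hm⟩
        simp only [Set.mem_iUnion]
        exact ⟨p, hp, q, hq, hm⟩
      refine Set.Finite.subset ?_ hsub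
      refine F.finite_toSet.biUnion fun p _ => F.finite_toSet.biUnion fun q _ => ?_
      apply Set.Subsingleton.finite
      intro m hm m' hm'
      have hm : h * a ^ m * h⁻¹ * p.1 = q.1 := hm
      have hm' : h * a ^ m' * h⁻¹ * p.1 = q.1 := hm'
      rw [← hm'] at hm
      exact hinj _ _ (mul_left_cancel (mul_right_cancel (mul_right_cancel hm)))
    obtain ⟨M, hM⟩ : ∃ M : ℕ, ∀ m ∈ hfin.toFinset, m.natAbs < M :=
      ⟨hfin.toFinset.sup Int.natAbs + 1, fun m hm => Nat.lt_succ_of_le (le_sup hm)⟩
    refine ⟨M, fun m hm p hp q hq hpq => ?_⟩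
    have := hM m (hfin.mem_toFinset.2 ⟨p, hp, q, hq, hpq⟩)
    rw [Int.abs_eq_natAbs] at hm
    omega
  set N := nb a e f id F with hN
  -- the key inequality for `Z` translates
  have key : ∀ Z : ℕ, κ * (Z * F.card : ℕ) ≤
      ((N.filter fun n => n.1 = ln a h).card + Z * (N.filter fun n => n.1 ≠ ln a h).card : ℕ) := by
    intro Z
    let t : ℕ → G := fun i => h * a ^ ((i * M : ℕ) : ℤ) * h⁻¹
    let Fs : Finset (G × G2) := (range Z).biUnion fun i => F.image (tr (t i))
    by_cases hM0 : M = 0
    · -- then `F` is empty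
      have hF : F = ∅ := by
        rw [eq_empty_iff_forall_notMem]
        intro p hp
        have := hM 0 (by rw [hM0]; simp) p hp p hp
        apply this
        simp
      subst hF
      simp only [card_empty, mul_zero, Nat.cast_zero]
      positivity
    have hcard : Fs.card = Z * F.card := by
      rw [card_biUnion]
      · simp only [card_image_of_injective _ (tr_inj _), sum_const, card_range, smul_eq_mul]
      · intro i _ j _ hij
        change Disjoint _ _
        rw [Finset.disjoint_left]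
        intro x hx hx'
        obtain ⟨p, hp, hpx⟩ := mem_image.1 hx
        obtain ⟨q, hq, hqx⟩ := mem_image.1 hx'
        rw [← hpx] at hqx
        have h1 : t j * q.1 = t i * p.1 := congrArg Prod.fst hqx
        refine hM (((i * M : ℕ) : ℤ) - ((j * M : ℕ) : ℤ)) ?_ p hp q hq ?_
        · have h2 : ((i * M : ℕ) : ℤ) - ((j * M : ℕ) : ℤ) = ((i : ℤ) - j) * M := by
            push_cast; ring
          rw [h2, abs_mul]
          have h3 : 1 ≤ |(i : ℤ) - j| := by
            apply Int.one_le_abs
            intro h0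
            apply hij
            omega
          have h4 : |(M : ℤ)| = M := Nat.abs_cast M
          rw [h4]
          nlinarith [Int.natCast_nonneg M]
        · have h2 : q.1 = (t j)⁻¹ * (t i * p.1) := by rw [← h1]; group
          rw [h2]
          simp only [t]
          rw [zpow_sub]
          have h5 : a ^ ((i * M : ℕ) : ℤ) * (a ^ ((j * M : ℕ) : ℤ))⁻¹ =
              (a ^ ((j * M : ℕ) : ℤ))⁻¹ * a ^ ((i * M : ℕ) : ℤ) := by
            rw [← zpow_neg, ← zpow_add, ← zpow_add, add_comm]
          rw [h5]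
          group
    have hsub : nb a e f id Fs ⊆ (N.filter fun n => n.1 = ln a h) ∪
        (range Z).biUnion fun i => (N.filter fun n => n.1 ≠ ln a h).image
          fun n => (((t i) • n.1 : Ln a), n.2) := by
      intro n hn
      obtain ⟨p, hp, j, rfl⟩ := mem_nb.1 hn
      obtain ⟨i, hi, hp⟩ := mem_biUnion.1 hp
      obtain ⟨q, hq, rfl⟩ := mem_image.1 hp
      have e1 : (nd a e f (tr (t i) q) j) = ((t i) • (nd a e f q j).1, (nd a e f q j).2) := by
        apply Prod.ext
        · change ln a (t i * q.1 * e j) = t i • ln a (q.1 * e j)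
          unfold ln
          rw [mul_assoc]
          rfl
        · rfl
      have hmem : nd a e f q j ∈ N := mem_nb.2 ⟨q, hq, j, rfl⟩
      simp only [id]
      rw [e1, mem_union]
      by_cases hl : (nd a e f q j).1 = ln a h
      · left
        have e2 : (t i) • (nd a e f q j).1 = (nd a e f q j).1 := by
          rw [hl]
          change ln a (t i * h) = ln a h
          unfold ln
          rw [QuotientGroup.eq]
          have : (t i * h)⁻¹ * h = (a ^ ((i * M : ℕ) : ℤ))⁻¹ := by
            simp only [t]; group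
          rw [this]
          exact Subgroup.inv_mem _ (Subgroup.zpow_mem_zpowers _ _)
        rw [e2]
        exact mem_filter.2 ⟨hmem, hl⟩
      · right
        exact mem_biUnion.2 ⟨i, hi, mem_image.2 ⟨_, mem_filter.2 ⟨hmem, hl⟩, rfl⟩⟩
    have h1 := hH Fs
    rw [hcard] at h1
    refine h1.trans ?_
    exact_mod_cast (card_le_card hsub).trans ((card_union_le _ _).trans
      (Nat.add_le_add_left (card_biUnion_le_card_mul _ _ _ fun i _ => card_image_le) _ |>.trans
        (by rw [card_range])))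
  by_contra hcon
  push Not at hcon
  set δ := κ * F.card - (N.filter fun n => n.1 ≠ ln a h).card with hδ
  have hδ0 : 0 < δ := by rw [hδ]; linarith
  obtain ⟨Z, hZ⟩ := exists_nat_gt (((N.filter fun n => n.1 = ln a h).card : ℚ) / δ)
  have h2 := key Z
  push_cast at h2
  rw [div_lt_iff₀ hδ0] at hZ
  rw [hδ] at hZ
  nlinarith

theorem hj3' : ∀ i j : Fin 3, j ≠ i → j = i + 1 ∨ j = i + 2 := by decide

/-- reflexivity of adjacency -/
theorem adjL_refl (he : e 0 = 1) (l : Ln a) : AdjL a e l l := by
  obtain ⟨g, rfl⟩ := QuotientGroup.mk_surjective l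
  refine ⟨g, 0, 0, ?_, ?_⟩ <;> rw [he, mul_one] <;> rfl

theorem rch_refl (he : e 0 = 1) (n : ℕ) (l : Ln a) : Rch a e n l l :=
  ⟨fun _ => l, rfl, rfl, fun _ _ => adjL_refl he l⟩

theorem rch_succ {n : ℕ} {l l' l'' : Ln a} (h : Rch a e n l l') (h' : AdjL a e l' l'') :
    Rch a e (n + 1) l l'' := by
  obtain ⟨c, h0, hn, hc⟩ := h
  refine ⟨fun k => if k ≤ n then c k else l'', ?_, ?_, ?_⟩
  · simp only [Nat.zero_le, if_true]; exact h0
  · simp
  · intro k hk
    rcases Nat.lt_or_ge k n with h1 | h1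
    · simp only [if_pos (Nat.le_of_lt h1), if_pos (Nat.succ_le_of_lt h1)]
      exact hc k h1
    · have hkn : k = n := by omega
      subst hkn
      simp only [le_refl, if_true]
      rw [if_neg (by omega), hn]
      exact h'

theorem rch_mono (he : e 0 = 1) {n m : ℕ} (hnm : n ≤ m) {l l' : Ln a} (h : Rch a e n l l') :
    Rch a e m l l' := by
  induction hnm with
  | refl => exact h
  | step _ ih => exact rch_succ ih (adjL_refl he _)

end Long

open Long

/-- BLOCK LINE -/
theorem lineStmt : LineStmt := by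
  classical
  intro G G2 _ _ a e f κ hM _ hH l F
  have h := line (a := a) hM.inf hH l F
  have e1 : ({n | n ∈ nb a e f id F ∧ n.1 ≠ l} : Set (Ln a × G2)) =
      ((nb a e f id F).filter fun n => n.1 ≠ l : Finset (Ln a × G2)) := by
    ext n
    simp
  rw [e1, Set.ncard_coe_finset]
  exact h

/-- BLOCK LONG -/
theorem longStmt : LongStmt := by
  classical
  intro G G2 _ _ a e f κ hM he hκ hH ρ hρ P i hP F
  -- low lines
  let Lw : ℕ → Ln a → Prop := fun s l => Rch a e s (P i) l
  let cut : ℕ → G × G2 → Prop := fun s p =>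
    (∃ j, Lw s (nd a e f p j).1) ∧ ∃ j, ¬ Lw s (nd a e f p j).1
  have hcut : ∀ s s' p, s < s' → cut s p → ¬ cut s' p := by
    rintro s s' p hss ⟨⟨j, hj⟩, -⟩ ⟨-, j', hj'⟩
    apply hj'
    have h1 : Rch a e (s + 1) (P i) (nd a e f p j').1 :=
      rch_succ hj ⟨p.1, j, j', rfl, rfl⟩
    exact rch_mono he hss h1
  -- choice of the level
  obtain ⟨s, hs, hsc⟩ : ∃ s ∈ range ρ, ρ * (F.filter fun p => cut s p).card ≤ F.card := by
    apply exists_le_of_sum_le (nonempty_range_iff.2 (by omega))
    rw [← mul_sum, ← card_biUnion]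
    · rw [sum_const, card_range, smul_eq_mul]
      apply Nat.mul_le_mul_left
      apply card_le_card
      intro p hp
      obtain ⟨_, _, hp⟩ := mem_biUnion.1 hp
      exact (mem_filter.1 hp).1
    · intro s _ s' _ hss
      change Disjoint _ _
      rw [Finset.disjoint_left]
      intro p hp hp'
      rcases Nat.lt_or_ge s s' with h | h
      · exact hcut s s' p h (mem_filter.1 hp).2 (mem_filter.1 hp').2
      · exact hcut s' s p (by omega) (mem_filter.1 hp').2 (mem_filter.1 hp).2
  rw [mem_range] at hs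
  let F1 : Finset (G × G2) := F.filter fun p => ∀ j, Lw s (nd a e f p j).1
  let F2 : Finset (G × G2) := F.filter fun p => ∀ j, ¬ Lw s (nd a e f p j).1
  have hsum : F.card ≤ F1.card + F2.card + (F.filter fun p => cut s p).card := by
    have hsub : F ⊆ (F1 ∪ F2) ∪ F.filter fun p => cut s p := by
      intro p hp
      rw [mem_union, mem_union]
      by_cases h1 : ∀ j, Lw s (nd a e f p j).1
      · left; left; exact mem_filter.2 ⟨hp, h1⟩
      · by_cases h2 : ∀ j, ¬ Lw s (nd a e f p j).1
        · left; right; exact mem_filter.2 ⟨hp, h2⟩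
        · right
          push Not at h1 h2
          exact mem_filter.2 ⟨hp, h2, h1⟩
    exact (card_le_card hsub).trans ((card_union_le _ _).trans
      (Nat.add_le_add_right (card_union_le _ _) _))
  -- the two other lines
  have hj3 : ∀ j : Fin 3, j ≠ i → j = i + 1 ∨ j = i + 2 := hj3' i
  let N1 : Finset (Ln a × G2) := (nb a e f id F1).filter fun n => n.1 ≠ P i
  let N2 : Finset (Ln a × G2) := (nb a e f id F2).filter fun n => n.1 ≠ P (i + 1)
  have hN1 : κ * F1.card ≤ N1.card := line hM.inf hH (P i) F1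
  have hN2 : κ * F2.card ≤ N2.card := line hM.inf hH (P (i + 1)) F2
  have low1 : ∀ n ∈ N1, Lw s n.1 := by
    intro n hn
    obtain ⟨p, hp, j, hj⟩ := mem_nb.1 (mem_filter.1 hn).1
    rw [← hj]
    exact (mem_filter.1 hp).2 j
  have low2 : ∀ n ∈ N2, ¬ Lw s n.1 := by
    intro n hn
    obtain ⟨p, hp, j, hj⟩ := mem_nb.1 (mem_filter.1 hn).1
    rw [← hj]
    exact (mem_filter.1 hp).2 j
  have sp1 : ∀ n ∈ N1, n.1 ∉ Set.range P := by
    rintro n hn ⟨j, hj⟩
    by_cases hji : j = i
    · subst hji
      exact (mem_filter.1 hn).2 hj.symm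
    · apply hP j hji
      rw [hj]
      exact rch_mono he (by omega) (low1 n hn)
  have sp2 : ∀ n ∈ N2, n.1 ∈ Set.range P → n.1 = P (i + 2) := by
    rintro n hn ⟨j, hj⟩
    by_cases hji : j = i
    · subst hji
      exfalso
      apply low2 n hn
      rw [← hj]
      exact rch_refl he _ _
    · rcases hj3 j hji with rfl | rfl
      · exact absurd hj.symm (mem_filter.1 hn).2
      · exact hj.symm
  have hdis : Disjoint N1 N2 := by
    rw [Finset.disjoint_left]
    intro n h1 h2
    exact low2 n h2 (low1 n h1)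
  have hwd1 : ∀ n : Ln a × G2, n.1 ∉ Set.range P → wd P n = n := by
    intro n hn
    unfold wd
    rw [if_neg hn]
  have hwd2 : ∀ n : Ln a × G2, n.1 ∈ Set.range P → wd P n = (P 0, n.2) := by
    intro n hn
    unfold wd
    rw [if_pos hn]
  have hcard : (N1 ∪ N2).card ≤ (nb a e f (wd P) F).card := by
    apply card_le_card_of_injOn (wd P)
    · intro n hn
      rw [mem_coe, mem_union] at hn
      rw [mem_coe]
      rcases hn with hn | hn
      · obtain ⟨p, hp, j, hj⟩ := mem_nb.1 (mem_filter.1 hn).1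
        exact mem_nb.2 ⟨p, (mem_filter.1 hp).1, j, by rw [← hj]; rfl⟩
      · obtain ⟨p, hp, j, hj⟩ := mem_nb.1 (mem_filter.1 hn).1
        exact mem_nb.2 ⟨p, (mem_filter.1 hp).1, j, by rw [← hj]; rfl⟩
    · intro n hn n' hn' hnn
      have hsp : ∀ m ∈ (N1 ∪ N2 : Finset (Ln a × G2)), m.1 ∈ Set.range P → m.1 = P (i + 2) := by
        intro m hm hmP
        rcases mem_union.1 hm with hm | hm
        · exact absurd hmP (sp1 m hm)
        · exact sp2 m hm hmP
      by_cases h1 : n.1 ∈ Set.range P
      · by_cases h2 : n'.1 ∈ Set.range P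
        · rw [hwd2 _ h1, hwd2 _ h2] at hnn
          have h3 : n.2 = n'.2 := (Prod.ext_iff.1 hnn).2
          exact Prod.ext ((hsp n hn h1).trans (hsp n' hn' h2).symm) h3
        · exfalso
          rw [hwd2 _ h1, hwd1 _ h2] at hnn
          apply h2
          rw [← hnn]
          exact ⟨0, rfl⟩
      · by_cases h2 : n'.1 ∈ Set.range P
        · exfalso
          rw [hwd1 _ h1, hwd2 _ h2] at hnn
          apply h1
          rw [hnn]
          exact ⟨0, rfl⟩
        · rwa [hwd1 _ h1, hwd1 _ h2] at hnn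
  rw [card_union_of_disjoint hdis] at hcard
  have h1 : (N1.card : ℚ) + N2.card ≤ (nb a e f (wd P) F).card := by exact_mod_cast hcard
  have hρ0 : (0 : ℚ) < ρ := by exact_mod_cast hρ
  have h2 : (ρ : ℚ) * (F.filter fun p => cut s p).card ≤ F.card := by exact_mod_cast hsc
  have h3 : (F.card : ℚ) ≤ F1.card + F2.card + (F.filter fun p => cut s p).card := by
    exact_mod_cast hsum
  have h4 : ((F.filter fun p => cut s p).card : ℚ) ≤ 1 / ρ * F.card := by
    rw [one_div, inv_mul_eq_div, le_div_iff₀ hρ0, mul_comm]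
    exact h2
  calc (1 - 1 / (ρ : ℚ)) * κ * F.card = κ * ((F.card : ℚ) - 1 / ρ * F.card) := by ring
    _ ≤ κ * (F1.card + F2.card) := by
        apply mul_le_mul_of_nonneg_left _ hκ
        linarith
    _ = κ * F1.card + κ * F2.card := by ring
    _ ≤ N1.card + N2.card := add_le_add hN1 hN2
    _ ≤ _ := h1

end TSq
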