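import Pool.Agent.Work.TSQ.Interface
import Pool.Agent.Work.MP_50f8f6_al_helper59.S2

/-!
# Block NCUT: equivariant labellings for rotation families (helper90)
-/

set_option linter.unusedSectionVars false

namespace TSq
open FrobP FrobP.S2 GMet

/-- equivariant choice for a free partial action -/
theorem exists_equiv_choice {G X V : Type} [Group G] [MulAction G X] [MulAction G V]
    (M : Subgroup G) (O : Set X) (hO : ∀ m ∈ M, ∀ o ∈ O, m • o ∈ O)
    (hfree : ∀ m ∈ M, ∀ o ∈ O, m • o = o → m = 1) (P : X → V → Prop)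
    (hP : ∀ o ∈ O, ∃ v, P o v) (hPe : ∀ m ∈ M, ∀ o ∈ O, ∀ v, P o v → P (m • o) (m • v))
    (v0 : V) :
    ∃ w : X → V, (∀ o ∈ O, P o (w o)) ∧ ∀ m ∈ M, ∀ o ∈ O, w (m • o) = m • w o := by
  classical
  let q : X → Quotient (MulAction.orbitRel M X) := fun o => Quotient.mk _ o
  let r : X → X := fun o => (q o).out
  have hr : ∀ o, ∃ m ∈ M, m • r o = o := by
    intro o
    have h1 : q (r o) = q o := Quotient.out_eq (q o)
    have h2 : r o ∈ MulAction.orbit M o := MulAction.orbitRel_apply.1 (Quotient.exact h1)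
    obtain ⟨⟨m, hm⟩, h3⟩ := h2
    refine ⟨m⁻¹, M.inv_mem hm, ?_⟩
    rw [← h3]
    change m⁻¹ • m • o = o
    rw [inv_smul_smul]
  have hrO : ∀ o ∈ O, r o ∈ O := by
    intro o ho
    obtain ⟨m, hm, h⟩ := hr o
    have := hO m⁻¹ (M.inv_mem hm) o ho
    rw [← h, inv_smul_smul] at this
    exact this
  have hre : ∀ m ∈ M, ∀ o, r (m • o) = r o := by
    intro m hm o
    have : q (m • o) = q o := by
      apply Quotient.sound
      change (MulAction.orbitRel M X).r (m • o) o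
      exact MulAction.orbitRel_apply.2 ⟨⟨m, hm⟩, rfl⟩
    change (q (m • o)).out = (q o).out
    rw [this]
  choose μ hμM hμ using hr
  have hP' : ∀ o, ∃ v, o ∈ O → P o v := by
    intro o
    by_cases ho : o ∈ O
    · obtain ⟨v, hv⟩ := hP o ho
      exact ⟨v, fun _ => hv⟩
    · exact ⟨v0, fun h => absurd h ho⟩
  choose w0 hw0 using hP'
  refine ⟨fun o => μ o • w0 (r o), ?_, ?_⟩
  · intro o ho
    have h1 := hPe (μ o) (hμM o) (r o) (hrO o ho) _ (hw0 (r o) (hrO o ho))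
    rwa [hμ o] at h1
  · intro m hm o ho
    have h1 : μ (m • o) = m * μ o := by
      have h2 : (μ (m • o))⁻¹ * (m * μ o) = 1 := by
        apply hfree _ (M.mul_mem (M.inv_mem (hμM _)) (M.mul_mem hm (hμM _))) (r o) (hrO o ho)
        have e1 := hμ (m • o)
        rw [hre m hm o] at e1
        rw [mul_smul, mul_smul, hμ o, inv_smul_eq_iff]
        exact e1.symm
      have := congrArg (fun z => μ (m • o) * z) h2
      simpa using this.symm
    change μ (m • o) • w0 (r (m • o)) = m • μ o • w0 (r o)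
    rw [h1, hre m hm o, mul_smul]

section ncut

variable {G V ι : Type} [Group G] [GMet V] [MulAction G V] [MulAction G ι] [IsomAct G V]
variable {C : ConeData V ι} [ConeAct G C] {H : ι → Subgroup G} {θ T : ℕ}

theorem lact_mul (g h : G) (ℓ : ι ⊕ G) : lact (g * h) ℓ = lact g (lact h ℓ) := by
  cases ℓ with
  | inl i => simp only [lact, mul_smul]
  | inr x => simp only [lact, mul_assoc]

theorem lact_one (ℓ : ι ⊕ G) : lact (1 : G) ℓ = ℓ := by
  cases ℓ with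
  | inl i => simp only [lact, one_smul]
  | inr x => simp only [lact, one_mul]

/-- labels for a windmill group -/
structure LabS (C : ConeData V ι) (M : Subgroup G) (S : Set ι) (x0 : V) (L r0 n : ℕ)
    (c : ℕ → V → ι ⊕ G) : Prop where
  val : ∀ t < n, ∀ p, (∃ i ∈ S, c t p = .inl i) ∨ (∃ m ∈ M, c t p = .inr m)
  eqv : ∀ t < n, ∀ m ∈ M, ∀ p, c t (m • p) = lact m (c t p)
  close : ∀ A : Set V, (∀ p ∈ A, ∀ p' ∈ A, ∀ i ∈ S, prd (C.Y i) p p' ≤ L) →
    {t | t < n ∧ ∃ p ∈ A, ∃ p' ∈ A, c t p ≠ c t p'}.ncard ≤ L + 1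
  base : ∀ t < n, ∀ p, (∀ i ∈ S, prd (C.Y i) x0 p ≤ r0) → c t p = .inr 1

section step

variable {W : Set V} {M : Subgroup G} {S : Set ι} {w : ι → V}

/-- the chosen points `w o` of the windmill near `Y o` -/
structure WCh (C : ConeData V ι) (M : Subgroup G) (O : Set ι) (W : Set V) (θ : ℕ) (w : ι → V) :
    Prop where
  mem : ∀ o ∈ O, w o ∈ W
  near : ∀ o ∈ O, ∃ y ∈ C.Y o, d y (w o) ≤ 26 * θ
  eqv : ∀ m ∈ M, ∀ o ∈ O, w (m • o) = m • w o

theorem exists_WCh (hR : Rot G C H θ T) (hT : 10000 * θ ≤ T) (hW : Wind C H θ T W M S) :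
    ∃ w : ι → V, WCh C M (OO C θ W S) W θ w := by
  obtain ⟨w0, hw0⟩ := hW.ne
  obtain ⟨w, h1, h2⟩ := exists_equiv_choice (V := V) M (OO C θ W S)
    (fun m hm o ho => OO_inv hW hm ho)
    (fun m hm o ho h => by
      by_contra hne
      exact stab hR hT hW hm hne ho.1 h)
    (fun o v => v ∈ W ∧ ∃ y ∈ C.Y o, d y v ≤ 26 * θ)
    (fun o ho => by
      obtain ⟨-, y, hy, v, hv, hd⟩ := ho
      exact ⟨v, hv, y, hy, hd⟩)
    (fun m hm o ho v hv => by
      obtain ⟨hv1, y, hy, hd⟩ := hv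
      refine ⟨hW.mW m hm v hv1, m • y, ConeAct.mem m o y hy, ?_⟩
      rw [IsomAct.isom]; exact hd) w0
  exact ⟨w, fun o ho => (h1 o ho).1, fun o ho => (h1 o ho).2, h2⟩

/-- projection distance of `p` to the copy `g W` seen from `Z` -/
noncomputable def ev (C : ConeData V ι) (w : ι → V) (g : G) (Z : ι) (p : V) : ℕ :=
  prd (C.Y Z) p (g • w (g⁻¹ • Z))

/-- `ev` depends only on the coset `g M` -/
theorem ev_coset (hw : WCh C M (OO C θ W S) W θ w) {g m : G} (hm : m ∈ M)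
    {Z : ι} (hZ : g⁻¹ • Z ∈ OO C θ W S) (p : V) : ev C w (g * m) Z p = ev C w g Z p := by
  unfold ev
  have h1 : (g * m)⁻¹ • Z = m⁻¹ • g⁻¹ • Z := by rw [mul_inv_rev, mul_smul]
  rw [h1, hw.eqv m⁻¹ (M.inv_mem hm) _ hZ, mul_smul, smul_inv_smul]

theorem ev_smul (g n : G) (Z : ι) (p : V) : ev C w (n * g) (n • Z) (n • p) = ev C w g Z p := by
  unfold ev
  have h1 : (n * g)⁻¹ • n • Z = g⁻¹ • Z := by rw [mul_inv_rev, mul_smul, inv_smul_smul]
  rw [h1, mul_smul, prd_smulC]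

theorem ev_lip (hR : Rot G C H θ T) (g : G) (Z : ι) (p p' : V) :
    ev C w g Z p ≤ prd (C.Y Z) p p' + ev C w g Z p' := hR.fam.prd_tri Z _ _ _

/-- (a) -/
theorem ev_bb (hR : Rot G C H θ T) (hW : Wind C H θ T W M S)
    (hw : WCh C M (OO C θ W S) W θ w) {g : G} {Z Z2 : ι} (hne : Z2 ≠ Z)
    (hZ : g⁻¹ • Z ∈ OO C θ W S) (hZ2 : g⁻¹ • Z2 ∈ OO C θ W S) {p : V}
    (hl : 652 * θ < ev C w g Z2 p) : ev C w g Z p ≤ 678 * θ := by
  refine bb hR hW hne hZ hZ2 ?_ hl ?_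
  · rw [inv_smul_smul]; exact hw.mem _ hZ2
  · rw [inv_smul_smul]; exact hw.mem _ hZ

/-- (b) -/
theorem ev_far (hR : Rot G C H θ T) {g : G} {Z : ι} {k : G} (hk : k ∈ H Z) (hk1 : k ≠ 1)
    (p : V) : T ≤ ev C w g Z p + ev C w (k * g) Z p := by
  have e1 := big_prd hR hk hk1 (g • w (g⁻¹ • Z))
  have t := hR.fam.prd_tri Z (g • w (g⁻¹ • Z)) p (k • g • w (g⁻¹ • Z))
  rw [prd_symm (g • w (g⁻¹ • Z)) p] at t
  have e2 : ev C w (k * g) Z p = prd (C.Y Z) p (k • g • w (g⁻¹ • Z)) := by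
    unfold ev
    have h1 : (k * g)⁻¹ • Z = g⁻¹ • Z := by
      rw [mul_inv_rev, mul_smul, hR.fix Z k⁻¹ ((H Z).inv_mem hk)]
    rw [h1, mul_smul]
  rw [e2]
  exact e1.trans t

/-- (c) -/
theorem ev_near (hR : Rot G C H θ T) (hW : Wind C H θ T W M S)
    (hw : WCh C M (OO C θ W S) W θ w) {g : G}
    (hg : g ∈ MM H M (OO C θ W S)) {p : V} (hp : Near W (MM H M (OO C θ W S)) p g) {Z : ι}
    (hZ : g⁻¹ • Z ∈ OO C θ W S) {k : G} (hk : k ∈ H Z) (hk1 : k ≠ 1) :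
    T ≤ 2 * (ev C w (k * g) Z p + 600 * θ) + 16 * θ := by
  have := f3 hR hW hg hp hZ hk hk1 (w := g • w (g⁻¹ • Z)) (by
    rw [inv_smul_smul]; exact hw.mem _ hZ)
  have e2 : ev C w (k * g) Z p = prd (C.Y Z) p (k • g • w (g⁻¹ • Z)) := by
    unfold ev
    have h1 : (k * g)⁻¹ • Z = g⁻¹ • Z := by
      rw [mul_inv_rev, mul_smul, hR.fix Z k⁻¹ ((H Z).inv_mem hk)]
    rw [h1, mul_smul]
  rw [e2]
  exact this

/-- `p` is away from the end of the chain, seen from the last centre -/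
def Away (C : ConeData V ι) (H : ι → Subgroup G) (O : Set ι) (w : ι → V) (τ : ℕ) (p : V)
    (g' : G) : Prop :=
  ∃ Z, g'⁻¹ • Z ∈ O ∧ τ < ev C w g' Z p ∧ ∃ k ∈ H Z, ev C w (k * g') Z p ≤ τ

/-- propagation along chains -/
theorem prop (hR : Rot G C H θ T) (hW : Wind C H θ T W M S)
    (hw : WCh C M (OO C θ W S) W θ w) {τ : ℕ} (h1 : 678 * θ ≤ τ) (h2 : 2 * τ < T) {g' : G}
    {p : V} : ∀ (L : ℕ) (g : G) (Z : ι) (k : G), g ∈ MM H M (OO C θ W S) →
      FS H M (OO C θ W S) L g g' Z k → ev C w g Z p ≤ τ →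
      Away C H (OO C θ W S) w τ p g' := by
  intro L
  induction L with
  | zero =>
    intro g Z k hg h hev
    have hm : (k * g)⁻¹ * g' ∈ M := h.nx.1
    set m := (k * g)⁻¹ * g' with hmdef
    have e : g' = k * g * m := by rw [hmdef]; group
    have hZ' : g'⁻¹ • Z ∈ OO C θ W S := by
      have := OO_inv hW (M.inv_mem hm) (h.adj' hR)
      rw [← mul_smul] at this
      rw [e, mul_inv_rev]; exact this
    refine ⟨Z, hZ', ?_, k⁻¹, (H Z).inv_mem h.hk, ?_⟩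
    · rw [e, ev_coset hw hm (h.adj' hR)]
      have := ev_far (C := C) (w := w) hR (g := g) h.hk h.k1 p
      omega
    · have e2 : k⁻¹ * g' = g * m := by rw [e]; group
      rw [e2, ev_coset hw hm h.adj]
      exact hev
  | succ L ih =>
    intro g Z k hg h hev
    obtain ⟨Z2, k2, h3, hne⟩ := h.next
    have hkg := MM_mul hR hg h
    have hfar := ev_far (C := C) (w := w) hR (g := g) h.hk h.k1 p
    refine ih (k * g) Z2 k2 hkg h3 ?_
    have := ev_bb hR hW hw hne.symm h3.adj (h.adj' hR) (p := p) (by omega)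
    omega

/-- sink copy -/
def Sink (C : ConeData V ι) (O : Set ι) (w : ι → V) (τ : ℕ) (p : V) (g : G) : Prop :=
  ∀ Z, g⁻¹ • Z ∈ O → ev C w g Z p ≤ τ

/-- sink centre -/
def DSink (C : ConeData V ι) (H : ι → Subgroup G) (O : Set ι) (w : ι → V) (τ : ℕ) (p : V)
    (g : G) (Z : ι) : Prop :=
  g⁻¹ • Z ∈ O ∧ ∀ k ∈ H Z, τ < ev C w (k * g) Z p

theorem DSink.one {O : Set ι} {τ : ℕ} {p : V} {g : G} {Z : ι} (h : DSink C H O w τ p g Z) :
    τ < ev C w g Z p := by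
  have := h.2 1 (one_mem _)
  rwa [one_mul] at this

/-- an `Away` copy is no sink, and its centre is no sink centre -/
theorem Away.not_sink {O : Set ι} {τ : ℕ} {p : V} {g : G} (h : Away C H O w τ p g) :
    ¬ Sink C O w τ p g := by
  rintro h'
  obtain ⟨Z, h1, h2, -⟩ := h
  have := h' Z h1
  omega

theorem Away.not_dsink (hR : Rot G C H θ T) (hW : Wind C H θ T W M S)
    (hw : WCh C M (OO C θ W S) W θ w) {τ : ℕ} (hτ : 678 * θ ≤ τ) {p : V} {g : G} {Z : ι}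
    (h : Away C H (OO C θ W S) w τ p g) : ¬ DSink C H (OO C θ W S) w τ p g Z := by
  rintro h'
  obtain ⟨Z', h1, h2, k, hk, h3⟩ := h
  by_cases hZ : Z' = Z
  · subst hZ
    have := h'.2 k hk
    omega
  · have h4 := h'.one
    have := ev_bb hR hW hw hZ h'.1 h1 (p := p) (by omega)
    omega

theorem sink_sink (hR : Rot G C H θ T) (hW : Wind C H θ T W M S)
    (hw : WCh C M (OO C θ W S) W θ w) {τ : ℕ} (h1 : 678 * θ ≤ τ) (h2 : 2 * τ < T) {p : V}
    {g g' : G} (hg : g ∈ MM H M (OO C θ W S)) (hg' : g' ∈ MM H M (OO C θ W S))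
    (hs : Sink C (OO C θ W S) w τ p g) (hs' : Sink C (OO C θ W S) w τ p g') :
    g⁻¹ * g' ∈ M := by
  obtain ⟨L, hL⟩ := exists_minCh hR hW hg hg'
  rcases L with _ | L
  · exact hL.1
  · obtain ⟨Z, k, h⟩ := exists_FS hL
    exact absurd hs' (prop hR hW hw h1 h2 L g Z k hg h (hs Z h.adj)).not_sink

theorem sink_dsink (hR : Rot G C H θ T) (hW : Wind C H θ T W M S)
    (hw : WCh C M (OO C θ W S) W θ w) {τ : ℕ} (h1 : 678 * θ ≤ τ) (h2 : 2 * τ < T) {p : V}
    {g g' : G} {Z' : ι} (hg : g ∈ MM H M (OO C θ W S)) (hg' : g' ∈ MM H M (OO C θ W S))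
    (hs : Sink C (OO C θ W S) w τ p g) (hs' : DSink C H (OO C θ W S) w τ p g' Z') : False := by
  obtain ⟨L, hL⟩ := exists_minCh hR hW hg hg'
  rcases L with _ | L
  · have hm : g⁻¹ * g' ∈ M := hL.1
    have e : g' = g * (g⁻¹ * g') := by group
    have hZ : g⁻¹ • Z' ∈ OO C θ W S := by
      have := OO_inv hW hm hs'.1
      rw [← mul_smul] at this
      have e2 : g⁻¹ * g' * g'⁻¹ = g⁻¹ := by group
      rwa [e2] at this
    have h3 := hs Z' hZ
    have h4 := hs'.one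
    rw [e, ev_coset hw hm hZ] at h4
    omega
  · obtain ⟨Z, k, h⟩ := exists_FS hL
    exact (prop hR hW hw h1 h2 L g Z k hg h (hs Z h.adj)).not_dsink hR hW hw h1 hs'

theorem dsink_dsink (hR : Rot G C H θ T) (hW : Wind C H θ T W M S)
    (hw : WCh C M (OO C θ W S) W θ w) {τ : ℕ} (h1 : 678 * θ ≤ τ) (h2 : 2 * τ < T) {p : V}
    {g g' : G} {Z Z' : ι} (hg : g ∈ MM H M (OO C θ W S)) (hg' : g' ∈ MM H M (OO C θ W S))
    (hs : DSink C H (OO C θ W S) w τ p g Z) (hs' : DSink C H (OO C θ W S) w τ p g' Z') :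
    Z = Z' := by
  obtain ⟨L, hL⟩ := exists_minCh hR hW hg hg'
  rcases L with _ | L
  · have hm : g⁻¹ * g' ∈ M := hL.1
    have e : g' = g * (g⁻¹ * g') := by group
    have hZ : g⁻¹ • Z' ∈ OO C θ W S := by
      have := OO_inv hW hm hs'.1
      rw [← mul_smul] at this
      have e2 : g⁻¹ * g' * g'⁻¹ = g⁻¹ := by group
      rwa [e2] at this
    have h4 := hs'.one
    rw [e, ev_coset hw hm hZ] at h4
    by_contra hne
    have := ev_bb hR hW hw hne hZ hs.1 (p := p) (by have := hs.one; omega)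
    omega
  · obtain ⟨Z1, k, h⟩ := exists_FS hL
    by_cases hZ1 : Z1 = Z
    · subst hZ1
      have h3 := hs.2 k h.hk
      rcases L with _ | L
      · have hm : (k * g)⁻¹ * g' ∈ M := h.nx.1
        have e : g' = k * g * ((k * g)⁻¹ * g') := by group
        have hZ : (k * g)⁻¹ • Z' ∈ OO C θ W S := by
          have := OO_inv hW hm hs'.1
          rw [← mul_smul] at this
          have e2 : (k * g)⁻¹ * g' * g'⁻¹ = (k * g)⁻¹ := by group
          rwa [e2] at this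
        have h4 := hs'.one
        rw [e, ev_coset hw hm hZ] at h4
        by_contra hne
        have := ev_bb hR hW hw hne hZ (h.adj' hR) (p := p) (by omega)
        omega
      · obtain ⟨Z2, k2, h5, hne⟩ := h.next
        exfalso
        have h6 := ev_bb hR hW hw hne.symm h5.adj (h.adj' hR) (p := p) (by omega)
        exact (prop hR hW hw h1 h2 L (k * g) Z2 k2 (MM_mul hR hg h) h5
          (by omega)).not_dsink hR hW hw h1 hs'
    · exfalso
      have h6 := ev_bb hR hW hw (Ne.symm hZ1) h.adj hs.1 (p := p) (by have := hs.one; omega)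
      exact (prop hR hW hw h1 h2 L g Z1 k hg h (by omega)).not_dsink hR hW hw h1 hs'


/-! ### the replaced point -/

open Classical in
/-- the replaced point -/
noncomputable def rpg (C : ConeData V ι) (O : Set ι) (w : ι → V) (M0 : ℕ) (g : G) (p : V) : V :=
  if h : ∃ Z, g⁻¹ • Z ∈ O ∧ M0 < ev C w g Z p then g • w (g⁻¹ • h.choose) else p

theorem rpg_self {O : Set ι} {M0 : ℕ} {g : G} {p : V}
    (h : ∀ Z, g⁻¹ • Z ∈ O → ev C w g Z p ≤ M0) : rpg C O w M0 g p = p := by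
  unfold rpg
  rw [dif_neg]
  rintro ⟨Z, h1, h2⟩
  have := h Z h1
  omega

theorem rpg_eq (hR : Rot G C H θ T) (hW : Wind C H θ T W M S)
    (hw : WCh C M (OO C θ W S) W θ w) {M0 : ℕ} (hM0 : 678 * θ ≤ M0) {g : G} {p : V} {Z : ι}
    (hZ : g⁻¹ • Z ∈ OO C θ W S) (h : M0 < ev C w g Z p) :
    rpg C (OO C θ W S) w M0 g p = g • w (g⁻¹ • Z) := by
  have hex : ∃ Z, g⁻¹ • Z ∈ OO C θ W S ∧ M0 < ev C w g Z p := ⟨Z, hZ, h⟩
  unfold rpg
  rw [dif_pos hex]
  have hc := hex.choose_spec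
  have : hex.choose = Z := by
    by_contra hne
    have := ev_bb hR hW hw hne hZ hc.1 (p := p) (by omega)
    omega
  rw [this]

theorem adj_coset (hW : Wind C H θ T W M S) {g m : G} (hm : m ∈ M) {Z : ι} :
    (g * m)⁻¹ • Z ∈ OO C θ W S ↔ g⁻¹ • Z ∈ OO C θ W S := by
  have e : (g * m)⁻¹ • Z = m⁻¹ • g⁻¹ • Z := by rw [mul_inv_rev, mul_smul]
  rw [e]
  constructor
  · intro h
    have := OO_inv hW hm h
    rwa [smul_inv_smul] at this
  · intro h
    exact OO_inv hW (M.inv_mem hm) h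

theorem rpg_coset (hR : Rot G C H θ T) (hW : Wind C H θ T W M S)
    (hw : WCh C M (OO C θ W S) W θ w) {M0 : ℕ} (hM0 : 678 * θ ≤ M0) {g m : G} (hm : m ∈ M)
    (p : V) : rpg C (OO C θ W S) w M0 (g * m) p = rpg C (OO C θ W S) w M0 g p := by
  by_cases hex : ∃ Z, g⁻¹ • Z ∈ OO C θ W S ∧ M0 < ev C w g Z p
  · obtain ⟨Z, h1, h2⟩ := hex
    have h1' : (g * m)⁻¹ • Z ∈ OO C θ W S := (adj_coset hW hm).2 h1
    have h2' : M0 < ev C w (g * m) Z p := by rwa [ev_coset hw hm h1]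
    rw [rpg_eq hR hW hw hM0 h1 h2, rpg_eq hR hW hw hM0 h1' h2']
    have e : (g * m)⁻¹ • Z = m⁻¹ • g⁻¹ • Z := by rw [mul_inv_rev, mul_smul]
    rw [e, hw.eqv m⁻¹ (M.inv_mem hm) _ h1, mul_smul, smul_inv_smul]
  · rw [rpg_self, rpg_self]
    · intro Z hZ
      by_contra hcon
      exact hex ⟨Z, hZ, by omega⟩
    · intro Z hZ
      rw [adj_coset hW hm] at hZ
      rw [ev_coset hw hm hZ]
      by_contra hcon
      exact hex ⟨Z, hZ, by omega⟩

theorem adj_smul {O : Set ι} {g n : G} {Z : ι} : (n * g)⁻¹ • n • Z ∈ O ↔ g⁻¹ • Z ∈ O := by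
  rw [mul_inv_rev, mul_smul, inv_smul_smul]

theorem rpg_smul (hR : Rot G C H θ T) (hW : Wind C H θ T W M S)
    (hw : WCh C M (OO C θ W S) W θ w) {M0 : ℕ} (hM0 : 678 * θ ≤ M0) {g n : G}
    (p : V) : rpg C (OO C θ W S) w M0 (n * g) (n • p) = n • rpg C (OO C θ W S) w M0 g p := by
  by_cases hex : ∃ Z, g⁻¹ • Z ∈ OO C θ W S ∧ M0 < ev C w g Z p
  · obtain ⟨Z, h1, h2⟩ := hex
    have h1' : (n * g)⁻¹ • n • Z ∈ OO C θ W S := adj_smul.2 h1
    have h2' : M0 < ev C w (n * g) (n • Z) (n • p) := by rwa [ev_smul]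
    rw [rpg_eq hR hW hw hM0 h1 h2, rpg_eq hR hW hw hM0 h1' h2', mul_inv_rev, mul_smul,
      mul_smul, inv_smul_smul]
  · rw [rpg_self, rpg_self]
    · intro Z hZ
      by_contra hcon
      exact hex ⟨Z, hZ, by omega⟩
    · intro Z hZ
      have hZ' : g⁻¹ • n⁻¹ • Z ∈ OO C θ W S := by
        rw [mul_inv_rev, mul_smul] at hZ; exact hZ
      have e := ev_smul (C := C) (w := w) g n (n⁻¹ • Z) p
      rw [smul_inv_smul] at e
      rw [e]
      by_contra hcon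
      exact hex ⟨_, hZ', by omega⟩

/-- the invariant `near` -/
def NearS (C : ConeData V ι) (θ : ℕ) (W : Set V) (S : Set ι) : Prop :=
  ∀ i ∈ S, ∃ y ∈ C.Y i, ∃ w ∈ W, d y w ≤ 26 * θ

theorem rpg_one (hR : Rot G C H θ T) (hW : Wind C H θ T W M S) (hN : NearS C θ W S)
    (hw : WCh C M (OO C θ W S) W θ w) {g : G} {Z : ι}
    (hZ : g⁻¹ • Z ∈ OO C θ W S) {i : ι} (hi : i ∈ S) {p : V} (hp : 1000 * θ < ev C w g Z p) :
    prd (C.Y (g • i)) (g • w (g⁻¹ • Z)) p ≤ 77 * θ := by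
  have h1θ := hR.fam.one_le
  obtain ⟨y, hy, w1, hw1, hd⟩ := hN i hi
  obtain ⟨y0, hy0, hd0⟩ := hw.near _ hZ
  have hne : Z ≠ g • i := by
    rintro rfl
    rw [inv_smul_smul] at hZ
    exact hZ.1 hi
  have hgy : g • y ∈ C.Y (g • i) := ConeAct.mem g i y hy
  have hgy0 : g • y0 ∈ C.Y Z := by
    have := ConeAct.mem (C := C) g _ _ hy0
    rwa [smul_inv_smul] at this
  have e1 : prd (C.Y Z) (g • w (g⁻¹ • Z)) (g • w1) ≤ 600 * θ := by
    refine pr_copy hW hZ.1 ?_ ?_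
    · rw [inv_smul_smul]; exact hw.mem _ hZ
    · rwa [inv_smul_smul]
  have e2 := hR.fam.prd_lip Z (g • w1) (g • y)
  rw [IsomAct.isom, GMet.symm w1 y] at e2
  have hp' : 1000 * θ < prd (C.Y Z) p (g • w (g⁻¹ • Z)) := hp
  have t1 := hR.fam.prd_tri Z p (g • y) (g • w (g⁻¹ • Z))
  have t2 := hR.fam.prd_tri Z (g • w (g⁻¹ • Z)) (g • w1) (g • y)
  rw [prd_symm (g • y) (g • w (g⁻¹ • Z))] at t1
  have e3 : prd (C.Y (g • i)) p (g • y0) ≤ 35 * θ :=
    hR.fam.behr hne hgy (by omega) hgy0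
  have e4 := hR.fam.prd_lip (g • i) (g • y0) (g • w (g⁻¹ • Z))
  rw [IsomAct.isom] at e4
  have t3 := hR.fam.prd_tri (g • i) p (g • y0) (g • w (g⁻¹ • Z))
  rw [prd_symm (g • w (g⁻¹ • Z)) p]
  omega

theorem rpg_close (hR : Rot G C H θ T) (hW : Wind C H θ T W M S) (hN : NearS C θ W S)
    (hw : WCh C M (OO C θ W S) W θ w) {M0 L : ℕ} (hL : 77 * θ ≤ L) (hM0 : L + 1000 * θ ≤ M0)
    {g : G} (hg : g ∈ MM H M (OO C θ W S)) {p1 p2 : V}
    (hp : ∀ i ∈ SS H M (OO C θ W S) S, prd (C.Y i) p1 p2 ≤ L) {i : ι} (hi : i ∈ S) :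
    prd (C.Y (g • i)) (rpg C (OO C θ W S) w M0 g p1) (rpg C (OO C θ W S) w M0 g p2) ≤ L := by
  have h1θ := hR.fam.one_le
  have hlip : ∀ Z, g⁻¹ • Z ∈ OO C θ W S → ev C w g Z p1 ≤ L + ev C w g Z p2 ∧
      ev C w g Z p2 ≤ L + ev C w g Z p1 := by
    intro Z hZ
    have h1 := hp Z ⟨g, hg, Or.inr hZ⟩
    have h2 := ev_lip (w := w) hR g Z p1 p2
    have h3 := ev_lip (w := w) hR g Z p2 p1
    rw [prd_symm p2 p1] at h3
    omega
  by_cases h1 : ∃ Z, g⁻¹ • Z ∈ OO C θ W S ∧ M0 < ev C w g Z p1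
  · obtain ⟨Z1, hZ1, hv1⟩ := h1
    rw [rpg_eq hR hW hw (by omega) hZ1 hv1]
    by_cases h2 : ∃ Z, g⁻¹ • Z ∈ OO C θ W S ∧ M0 < ev C w g Z p2
    · obtain ⟨Z2, hZ2, hv2⟩ := h2
      rw [rpg_eq hR hW hw (by omega) hZ2 hv2]
      have : Z1 = Z2 := by
        by_contra hne
        have h3 := ev_bb hR hW hw hne hZ2 hZ1 (p := p1) (by omega)
        have := hlip Z2 hZ2
        omega
      subst this
      have := hR.fam.prd_self (g • i) (g • w (g⁻¹ • Z1))
      omega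
    · rw [rpg_self (p := p2)]
      · have h3 := hlip Z1 hZ1
        have := rpg_one hR hW hN hw hZ1 hi (p := p2) (by omega)
        omega
      · intro Z hZ
        by_contra hcon
        exact h2 ⟨Z, hZ, by omega⟩
  · rw [rpg_self (p := p1)]
    · by_cases h2 : ∃ Z, g⁻¹ • Z ∈ OO C θ W S ∧ M0 < ev C w g Z p2
      · obtain ⟨Z2, hZ2, hv2⟩ := h2
        rw [rpg_eq hR hW hw (by omega) hZ2 hv2, prd_symm]
        have h3 := hlip Z2 hZ2
        have := rpg_one hR hW hN hw hZ2 hi (p := p1) (by omega)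
        omega
      · rw [rpg_self (p := p2)]
        · exact hp (g • i) ⟨g, hg, Or.inl (by rwa [inv_smul_smul])⟩
        · intro Z hZ
          by_contra hcon
          exact h2 ⟨Z, hZ, by omega⟩
    · intro Z hZ
      by_contra hcon
      exact h1 ⟨Z, hZ, by omega⟩

/-! ### new labels -/

/-- the new labels as a relation -/
def NL (C : ConeData V ι) (H : ι → Subgroup G) (M : Subgroup G) (O : Set ι) (w : ι → V)
    (c : ℕ → V → ι ⊕ G) (M0 t0 t : ℕ) (p : V) (ℓ : ι ⊕ G) : Prop :=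
  (∃ g ∈ MM H M O, Sink C O w (t0 + t) p g ∧ ℓ = lact g (c t (g⁻¹ • rpg C O w M0 g p))) ∨
  (∃ g ∈ MM H M O, ∃ Z, DSink C H O w (t0 + t) p g Z ∧ ℓ = .inl Z)

theorem NL_exists (hR : Rot G C H θ T) (hW : Wind C H θ T W M S)
    (hw : WCh C M (OO C θ W S) W θ w) (c : ℕ → V → ι ⊕ G) {M0 t0 t : ℕ}
    (hT2 : 2 * (t0 + t + 600 * θ) + 16 * θ < T) (p : V) :
    ∃ ℓ, NL C H M (OO C θ W S) w c M0 t0 t p ℓ := by
  obtain ⟨g, hg, hp⟩ := exists_near hW.ne (MM H M (OO C θ W S)) p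
  by_cases hs : Sink C (OO C θ W S) w (t0 + t) p g
  · exact ⟨_, Or.inl ⟨g, hg, hs, rfl⟩⟩
  · unfold Sink at hs
    push Not at hs
    obtain ⟨Z, hZ, hv⟩ := hs
    refine ⟨.inl Z, Or.inr ⟨g, hg, Z, ⟨hZ, ?_⟩, rfl⟩⟩
    intro k hk
    by_cases hk1 : k = 1
    · subst hk1; rwa [one_mul]
    · have := ev_near hR hW hw hg hp hZ hk hk1
      omega

theorem NL_unique (hR : Rot G C H θ T) (hW : Wind C H θ T W M S)
    (hw : WCh C M (OO C θ W S) W θ w) {c : ℕ → V → ι ⊕ G} {M0 t0 t : ℕ}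
    (hM0 : 678 * θ ≤ M0) (ht : 678 * θ ≤ t0) (hT2 : 2 * (t0 + t) < T)
    (hc : ∀ m ∈ M, ∀ p, c t (m • p) = lact m (c t p)) {p : V} {ℓ ℓ' : ι ⊕ G}
    (h : NL C H M (OO C θ W S) w c M0 t0 t p ℓ) (h' : NL C H M (OO C θ W S) w c M0 t0 t p ℓ') :
    ℓ = ℓ' := by
  rcases h with ⟨g, hg, hs, rfl⟩ | ⟨g, hg, Z, hs, rfl⟩
  · rcases h' with ⟨g', hg', hs', rfl⟩ | ⟨g', hg', Z', hs', rfl⟩
    · have hm := sink_sink hR hW hw (by omega) hT2 hg hg' hs hs'
      have e : g' = g * (g⁻¹ * g') := by group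
      set m := g⁻¹ * g' with hmdef
      rw [e, rpg_coset hR hW hw hM0 hm, mul_inv_rev, mul_smul, hc m⁻¹ (M.inv_mem hm), ← lact_mul]
      congr 1
      group
    · exact absurd hs' (fun h => sink_dsink hR hW hw (by omega) hT2 hg hg' hs h)
  · rcases h' with ⟨g', hg', hs', rfl⟩ | ⟨g', hg', Z', hs', rfl⟩
    · exact absurd hs (fun h => sink_dsink hR hW hw (by omega) hT2 hg' hg hs' h)
    · rw [dsink_dsink hR hW hw (by omega) hT2 hg hg' hs hs']

theorem NL_smul (hR : Rot G C H θ T) (hW : Wind C H θ T W M S)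
    (hw : WCh C M (OO C θ W S) W θ w) {c : ℕ → V → ι ⊕ G} {M0 t0 t : ℕ}
    (hM0 : 678 * θ ≤ M0) {n : G} (hn : n ∈ MM H M (OO C θ W S)) {p : V} {ℓ : ι ⊕ G}
    (h : NL C H M (OO C θ W S) w c M0 t0 t p ℓ) :
    NL C H M (OO C θ W S) w c M0 t0 t (n • p) (lact n ℓ) := by
  rcases h with ⟨g, hg, hs, rfl⟩ | ⟨g, hg, Z, hs, rfl⟩
  · refine Or.inl ⟨n * g, mul_mem hn hg, ?_, ?_⟩
    · intro Z hZ
      have hZ' : g⁻¹ • n⁻¹ • Z ∈ OO C θ W S := by
        rw [mul_inv_rev, mul_smul] at hZ; exact hZ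
      have e := ev_smul (C := C) (w := w) g n (n⁻¹ • Z) p
      rw [smul_inv_smul] at e
      rw [e]
      exact hs _ hZ'
    · rw [rpg_smul hR hW hw hM0, mul_inv_rev, mul_smul, inv_smul_smul, lact_mul]
  · refine Or.inr ⟨n * g, mul_mem hn hg, n • Z, ⟨adj_smul.2 hs.1, ?_⟩, rfl⟩
    intro k hk
    have hk' : n⁻¹ * k * n ∈ H Z := (Rot.mem_iff hR n k Z).1 hk
    have := hs.2 _ hk'
    have e := ev_smul (C := C) (w := w) (n⁻¹ * k * n * g) n Z p
    have e2 : n * (n⁻¹ * k * n * g) = k * (n * g) := by group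
    rw [e2] at e
    rw [e]
    exact this

open Classical in
/-- the new labels -/
noncomputable def nc (C : ConeData V ι) (H : ι → Subgroup G) (M : Subgroup G) (O : Set ι)
    (w : ι → V) (c : ℕ → V → ι ⊕ G) (M0 t0 t : ℕ) (p : V) : ι ⊕ G :=
  if h : ∃ ℓ, NL C H M O w c M0 t0 t p ℓ then h.choose else .inr 1

theorem nc_eq (hR : Rot G C H θ T) (hW : Wind C H θ T W M S)
    (hw : WCh C M (OO C θ W S) W θ w) {c : ℕ → V → ι ⊕ G} {M0 t0 t : ℕ}
    (hM0 : 678 * θ ≤ M0) (ht : 678 * θ ≤ t0) (hT2 : 2 * (t0 + t) < T)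
    (hc : ∀ m ∈ M, ∀ p, c t (m • p) = lact m (c t p)) {p : V} {ℓ : ι ⊕ G}
    (h : NL C H M (OO C θ W S) w c M0 t0 t p ℓ) :
    nc C H M (OO C θ W S) w c M0 t0 t p = ℓ := by
  have hex : ∃ ℓ, NL C H M (OO C θ W S) w c M0 t0 t p ℓ := ⟨ℓ, h⟩
  unfold nc
  rw [dif_pos hex]
  exact NL_unique hR hW hw hM0 ht hT2 hc hex.choose_spec h

theorem near_next (hN : NearS C θ W S) :
    NearS C θ (S2.WW H M (OO C θ W S) W) (SS H M (OO C θ W S) S) := by
  rintro i ⟨g, hg, h⟩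
  have key : ∃ y ∈ C.Y (g⁻¹ • i), ∃ w ∈ W, d y w ≤ 26 * θ := by
    rcases h with h | h
    · exact hN _ h
    · exact h.2
  obtain ⟨y, hy, w, hw, hd⟩ := key
  refine ⟨g • y, ?_, g • w, ?_, ?_⟩
  · have := ConeAct.mem (C := C) g _ _ hy
    rwa [smul_inv_smul] at this
  · have h1 : g • w ∈ AA H M (OO C θ W S) W :=
      ⟨g, hg, g • w, by rwa [inv_smul_smul], by rw [d_self]; omega⟩
    exact ⟨_, h1, _, h1, Bt.left _ _⟩
  · rw [IsomAct.isom]; exact hd

theorem step_close (hR : Rot G C H θ T) (hW : Wind C H θ T W M S) (hN : NearS C θ W S)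
    (hw : WCh C M (OO C θ W S) W θ w) {c : ℕ → V → ι ⊕ G} {x0 : V} {L r0 n M0 t0 : ℕ}
    (hc : LabS C M S x0 L r0 n c) (hL : 77 * θ ≤ L) (hM0 : L + r0 + 1000 * θ ≤ M0)
    (ht0 : M0 + 2 * L < t0) (hTT : 4 * (t0 + n + 2 * L + 1000 * θ) ≤ T) (A : Set V)
    (hA : ∀ p ∈ A, ∀ p' ∈ A, ∀ i ∈ SS H M (OO C θ W S) S, prd (C.Y i) p p' ≤ L) :
    {t | t < n ∧ ∃ p ∈ A, ∃ p' ∈ A, nc C H M (OO C θ W S) w c M0 t0 t p ≠
      nc C H M (OO C θ W S) w c M0 t0 t p'}.ncard ≤ L + 1 := by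
  have h1θ := hR.fam.one_le
  have hnc : ∀ t < n, ∀ p ℓ, NL C H M (OO C θ W S) w c M0 t0 t p ℓ →
      nc C H M (OO C θ W S) w c M0 t0 t p = ℓ := fun t ht p ℓ h =>
    nc_eq hR hW hw (by omega) (by omega) (by omega) (hc.eqv t ht) h
  have hlip : ∀ g ∈ MM H M (OO C θ W S), ∀ Z, g⁻¹ • Z ∈ OO C θ W S → ∀ p ∈ A, ∀ p' ∈ A,
      ev C w g Z p ≤ L + ev C w g Z p' := by
    intro g hg Z hZ p hp p' hp'
    have h1 := hA p hp p' hp' Z ⟨g, hg, Or.inr hZ⟩
    have h2 := ev_lip (w := w) hR g Z p p'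
    omega
  by_cases hmid : ∃ p ∈ A, ∃ g ∈ MM H M (OO C θ W S), ∃ Z, g⁻¹ • Z ∈ OO C θ W S ∧
      t0 ≤ L + ev C w g Z p ∧ ev C w g Z p ≤ t0 + n + L
  · obtain ⟨p, hp, g, hg, Z, hZ, hv1, hv2⟩ := hmid
    have hne : {v | ∃ p' ∈ A, ev C w g Z p' = v}.Nonempty := ⟨_, p, hp, rfl⟩
    obtain ⟨pm, hpm, hpmv⟩ := Nat.sInf_mem hne
    set v0 := sInf {v | ∃ p' ∈ A, ev C w g Z p' = v} with hv0
    have hmin : ∀ p' ∈ A, v0 ≤ ev C w g Z p' := fun p' hp' => Nat.sInf_le ⟨p', hp', rfl⟩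
    have hmax : ∀ p' ∈ A, ev C w g Z p' ≤ L + v0 := fun p' hp' => by
      rw [← hpmv]; exact hlip g hg Z hZ p' hp' pm hpm
    have hsub : {t | t < n ∧ ∃ p ∈ A, ∃ p' ∈ A, nc C H M (OO C θ W S) w c M0 t0 t p ≠
        nc C H M (OO C θ W S) w c M0 t0 t p'} ⊆ (Finset.Ico (v0 - t0) (v0 + L - t0) : Set ℕ) := by
      rintro t ⟨htn, p1, hp1, p2, hp2, hneq⟩
      rw [Finset.mem_coe, Finset.mem_Ico]
      by_contra hcon
      apply hneq
      by_cases hlow : t0 + t < v0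
      · -- all `DSink`
        have key : ∀ p' ∈ A, nc C H M (OO C θ W S) w c M0 t0 t p' = .inl Z := by
          intro p' hp'
          apply hnc t htn
          refine Or.inr ⟨g, hg, Z, ⟨hZ, ?_⟩, rfl⟩
          intro k hk
          have h3 := hmin p' hp'
          by_cases hk1 : k = 1
          · subst hk1; rw [one_mul]; omega
          · have h4 := ev_far (C := C) (w := w) hR (g := g) hk hk1 p'
            have h5 := hmax p' hp'
            have h6 := hmin p hp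
            omega
        rw [key p1 hp1, key p2 hp2]
      · have hhigh : v0 + L ≤ t0 + t := by omega
        have key : ∀ p' ∈ A, nc C H M (OO C θ W S) w c M0 t0 t p' =
            lact g (c t (g⁻¹ • g • w (g⁻¹ • Z))) := by
          intro p' hp'
          apply hnc t htn
          have h3 := hlip g hg Z hZ p hp p' hp'
          refine Or.inl ⟨g, hg, ?_, ?_⟩
          · intro Z' hZ'
            by_cases hZZ : Z = Z'
            · subst hZZ
              have := hmax p' hp'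
              omega
            · have := ev_bb hR hW hw hZZ hZ' hZ (p := p') (by omega)
              omega
          · rw [rpg_eq hR hW hw (by omega) hZ (by omega)]
        rw [key p1 hp1, key p2 hp2]
    refine (Set.ncard_le_ncard hsub (Finset.finite_toSet _)).trans ?_
    rw [Set.ncard_coe_finset, Nat.card_Ico]
    omega
  · push Not at hmid
    by_cases hAe : A.Nonempty
    · obtain ⟨p0, hp0⟩ := hAe
      obtain ⟨g, hg, hnear⟩ := exists_near hW.ne (MM H M (OO C θ W S)) p0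
      by_cases hfar : ∃ Z, g⁻¹ • Z ∈ OO C θ W S ∧ t0 ≤ L + ev C w g Z p0
      · obtain ⟨Z, hZ, hv⟩ := hfar
        have hv2 := hmid p0 hp0 g hg Z hZ hv
        have key : ∀ t < n, ∀ p' ∈ A, nc C H M (OO C θ W S) w c M0 t0 t p' = .inl Z := by
          intro t htn p' hp'
          apply hnc t htn
          refine Or.inr ⟨g, hg, Z, ⟨hZ, ?_⟩, rfl⟩
          intro k hk
          by_cases hk1 : k = 1
          · subst hk1; rw [one_mul]
            have := hlip g hg Z hZ p0 hp0 p' hp'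
            omega
          · have h4 := ev_near hR hW hw hg hnear hZ hk hk1
            have hkg : k * g ∈ MM H M (OO C θ W S) := mul_mem (H_le hR hg hZ hk) hg
            have hkZ : (k * g)⁻¹ • Z ∈ OO C θ W S := by
              rw [mul_inv_rev, mul_smul, hR.fix Z k⁻¹ ((H Z).inv_mem hk)]
              exact hZ
            have := hlip (k * g) hkg Z hkZ p0 hp0 p' hp'
            omega
        have : {t | t < n ∧ ∃ p ∈ A, ∃ p' ∈ A, nc C H M (OO C θ W S) w c M0 t0 t p ≠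
            nc C H M (OO C θ W S) w c M0 t0 t p'} = ∅ := by
          ext t
          simp only [Set.mem_ofPred_eq, Set.mem_empty_iff_false, iff_false]
          rintro ⟨htn, p1, hp1, p2, hp2, hneq⟩
          apply hneq
          rw [key t htn p1 hp1, key t htn p2 hp2]
        rw [this, Set.ncard_empty]
        omega
      · push Not at hfar
        have key : ∀ t < n, ∀ p' ∈ A, nc C H M (OO C θ W S) w c M0 t0 t p' =
            lact g (c t (g⁻¹ • rpg C (OO C θ W S) w M0 g p')) := by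
          intro t htn p' hp'
          apply hnc t htn
          refine Or.inl ⟨g, hg, ?_, rfl⟩
          intro Z hZ
          have h1 := hfar Z hZ
          have h2 := hlip g hg Z hZ p' hp' p0 hp0
          omega
        have hcl := hc.close {q | ∃ p' ∈ A, g⁻¹ • rpg C (OO C θ W S) w M0 g p' = q} (by
          rintro _ ⟨p1, hp1, rfl⟩ _ ⟨p2, hp2, rfl⟩ i hi
          have h1 := rpg_close hR hW hN hw hL (M0 := M0) (by omega) hg (hA p1 hp1 p2 hp2) hi
          rw [← prd_smulC C g, smul_inv_smul, smul_inv_smul]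
          exact h1)
        refine (Set.ncard_le_ncard ?_ ((Set.finite_lt_nat n).subset fun t ht => ht.1)).trans hcl
        rintro t ⟨htn, p1, hp1, p2, hp2, hneq⟩
        refine ⟨htn, _, ⟨p1, hp1, rfl⟩, _, ⟨p2, hp2, rfl⟩, ?_⟩
        intro h
        apply hneq
        rw [key t htn p1 hp1, key t htn p2 hp2, h]
    · have : {t | t < n ∧ ∃ p ∈ A, ∃ p' ∈ A, nc C H M (OO C θ W S) w c M0 t0 t p ≠
          nc C H M (OO C θ W S) w c M0 t0 t p'} = ∅ := by
        ext t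
        simp only [Set.mem_ofPred_eq, Set.mem_empty_iff_false, iff_false]
        rintro ⟨htn, p1, hp1, -⟩
        exact hAe ⟨p1, hp1⟩
      rw [this, Set.ncard_empty]
      omega

theorem step_lab (hR : Rot G C H θ T) (hW : Wind C H θ T W M S) (hN : NearS C θ W S)
    (hw : WCh C M (OO C θ W S) W θ w) {c : ℕ → V → ι ⊕ G} {x0 : V} (hx0 : x0 ∈ W)
    {L r0 n M0 t0 : ℕ}
    (hc : LabS C M S x0 L r0 n c) (hL : 77 * θ ≤ L) (hM0 : L + r0 + 1000 * θ ≤ M0)
    (ht0 : M0 + 2 * L < t0) (hTT : 4 * (t0 + n + 2 * L + 1000 * θ) ≤ T) :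
    LabS C (MM H M (OO C θ W S)) (SS H M (OO C θ W S) S) x0 L r0 n
      (nc C H M (OO C θ W S) w c M0 t0) ∧
    ∀ t < n, ∀ p ∈ W, nc C H M (OO C θ W S) w c M0 t0 t p = c t p := by
  have h1θ := hR.fam.one_le
  have hnc : ∀ t < n, ∀ p ℓ, NL C H M (OO C θ W S) w c M0 t0 t p ℓ →
      nc C H M (OO C θ W S) w c M0 t0 t p = ℓ := fun t ht p ℓ h =>
    nc_eq hR hW hw (by omega) (by omega) (by omega) (hc.eqv t ht) h
  have hex : ∀ t < n, ∀ p, ∃ ℓ, NL C H M (OO C θ W S) w c M0 t0 t p ℓ := fun t ht p =>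
    NL_exists hR hW hw c (by omega) p
  have hone : ∀ t < n, ∀ p, (∀ Z, (1 : G)⁻¹ • Z ∈ OO C θ W S → ev C w (1 : G) Z p ≤ M0) →
      nc C H M (OO C θ W S) w c M0 t0 t p = c t p := by
    intro t ht p hp
    apply hnc t ht
    refine Or.inl ⟨1, one_mem _, fun Z hZ => (hp Z hZ).trans (by omega), ?_⟩
    rw [rpg_self hp, lact_one, inv_one, one_smul]
  refine ⟨⟨?_, ?_, ?_, ?_⟩, ?_⟩
  · intro t ht p
    obtain ⟨ℓ, hℓ⟩ := hex t ht p
    rw [hnc t ht p ℓ hℓ]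
    rcases hℓ with ⟨g, hg, hs, rfl⟩ | ⟨g, hg, Z, hs, rfl⟩
    · rcases hc.val t ht (g⁻¹ • rpg C (OO C θ W S) w M0 g p) with ⟨i, hi, h⟩ | ⟨m, hm, h⟩
      · refine Or.inl ⟨g • i, ⟨g, hg, Or.inl (by rwa [inv_smul_smul])⟩, ?_⟩
        rw [h]; rfl
      · refine Or.inr ⟨g * m, mul_mem hg (M_le_MM M _ hm), ?_⟩
        rw [h]; rfl
    · exact Or.inl ⟨Z, ⟨g, hg, Or.inr hs.1⟩, rfl⟩
  · intro t ht m hm p
    obtain ⟨ℓ, hℓ⟩ := hex t ht p
    rw [hnc t ht p ℓ hℓ]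
    exact hnc t ht _ _ (NL_smul hR hW hw (by omega) hm hℓ)
  · intro A hA
    exact step_close hR hW hN hw hc hL hM0 ht0 hTT A hA
  · intro t ht p hp
    have hSS : ∀ i ∈ S, i ∈ SS H M (OO C θ W S) S := fun i hi =>
      ⟨1, one_mem _, Or.inl (by rwa [inv_one, one_smul])⟩
    rw [hone t ht p ?_]
    · exact hc.base t ht p fun i hi => hp i (hSS i hi)
    · intro Z hZ
      have h1 := hp Z ⟨1, one_mem _, Or.inr hZ⟩
      have h2 : prd (C.Y Z) x0 ((1 : G) • w ((1 : G)⁻¹ • Z)) ≤ 600 * θ := by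
        refine pr_copy (g := 1) hW hZ.1 ?_ ?_
        · rwa [inv_one, one_smul]
        · rw [inv_smul_smul]; exact hw.mem _ hZ
      have t1 := hR.fam.prd_tri Z p x0 ((1 : G) • w ((1 : G)⁻¹ • Z))
      rw [prd_symm p x0] at t1
      unfold ev
      omega
  · intro t ht p hp
    apply hone t ht
    intro Z hZ
    have h2 : prd (C.Y Z) p ((1 : G) • w ((1 : G)⁻¹ • Z)) ≤ 600 * θ := by
      refine pr_copy (g := 1) hW hZ.1 ?_ ?_
      · rwa [inv_one, one_smul]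
      · rw [inv_smul_smul]; exact hw.mem _ hZ
    unfold ev
    omega

end step

/-! ### the limit -/

/-- the state of the recursion -/
structure NSt (C : ConeData V ι) (H : ι → Subgroup G) (θ T : ℕ) (x0 : V) (L r0 n : ℕ) where
  W : Set V
  M : Subgroup G
  S : Set ι
  c : ℕ → V → ι ⊕ G
  h : Wind C H θ T W M S
  near : NearS C θ W S
  hx0 : x0 ∈ W
  lab : LabS C M S x0 L r0 n c
  hN : M ≤ NN H

theorem NSt.next (hR : Rot G C H θ T) (hT : 10000 * θ ≤ T) {x0 : V} {L r0 n M0 t0 : ℕ}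
    (hL : 77 * θ ≤ L) (hM0 : L + r0 + 1000 * θ ≤ M0)
    (ht0 : M0 + 2 * L < t0) (hTT : 4 * (t0 + n + 2 * L + 1000 * θ) ≤ T)
    (s : NSt C H θ T x0 L r0 n) : ∃ s' : NSt C H θ T x0 L r0 n,
      s'.W = S2.WW H s.M (OO C θ s.W s.S) s.W ∧ s'.M = MM H s.M (OO C θ s.W s.S) ∧
      ∀ t < n, ∀ p ∈ s.W, s'.c t p = s.c t p := by
  obtain ⟨w, hw⟩ := exists_WCh hR hT s.h
  obtain ⟨h1, h2⟩ := step_lab hR s.h s.near hw s.hx0 s.lab hL hM0 ht0 hTT
  refine ⟨⟨_, _, _, _, s.h.next hR hT, near_next s.near, ?_, h1, ?_⟩, rfl, rfl, h2⟩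
  · exact WW_sub s.hx0 (by rw [d_self]; omega)
  · unfold MM
    rw [Subgroup.closure_le]
    rintro g (hg | hg)
    · exact s.hN hg
    · simp only [Set.mem_iUnion] at hg
      obtain ⟨i, -, hg⟩ := hg
      exact Subgroup.subset_closure (Set.mem_iUnion.2 ⟨i, hg⟩)

theorem NSt.zero (hR : Rot G C H θ T) (x0 : V) (L r0 n : ℕ) :
    ∃ s : NSt C H θ T x0 L r0 n, x0 ∈ s.W := by
  refine ⟨⟨{x0}, ⊥, ∅, fun _ _ => .inr 1, wind0 hR x0, ?_, rfl, ?_, bot_le⟩, rfl⟩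
  · intro i hi
    exact absurd hi (Set.notMem_empty i)
  · refine ⟨?_, ?_, ?_, ?_⟩
    · intro t _ p
      exact Or.inr ⟨1, one_mem _, rfl⟩
    · intro t _ m hm p
      rw [Subgroup.mem_bot] at hm
      subst hm
      rw [lact_one]
    · intro A _
      have : {t | t < n ∧ ∃ p ∈ A, ∃ p' ∈ A, ((Sum.inr 1 : ι ⊕ G) ≠ .inr 1)} = ∅ := by
        ext t
        simp
      rw [this, Set.ncard_empty]
      omega
    · intro t _ p _
      rfl

end ncut

theorem ncut : NCutStmt := by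
  refine ⟨20000, ?_⟩
  intro G V ι _ _ _ _ _ C _ H θ T L' r0 n x0 hR hK
  have h1θ := hR.fam.one_le
  have hT : 10000 * θ ≤ T := by omega
  set L := L' + 100 * θ with hLdef
  set M0 := L + r0 + 1000 * θ with hM0def
  set t0 := M0 + 2 * L + 1 with ht0def
  have hnext : ∀ s : NSt C H θ T x0 L r0 n, ∃ s' : NSt C H θ T x0 L r0 n,
      s'.W = S2.WW H s.M (OO C θ s.W s.S) s.W ∧ s'.M = MM H s.M (OO C θ s.W s.S) ∧
      ∀ t < n, ∀ p ∈ s.W, s'.c t p = s.c t p := fun s =>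
    s.next hR hT (M0 := M0) (t0 := t0) (by omega) (by omega) (by omega) (by omega)
  choose nx hnx using hnext
  obtain ⟨s0, hs0⟩ := NSt.zero hR x0 L r0 n
  let f : ℕ → NSt C H θ T x0 L r0 n := fun k => Nat.rec s0 (fun _ s => nx s) k
  have hf : ∀ k, (f (k + 1)).W = S2.WW H (f k).M (OO C θ (f k).W (f k).S) (f k).W ∧
      (f (k + 1)).M = MM H (f k).M (OO C θ (f k).W (f k).S) ∧
      ∀ t < n, ∀ p ∈ (f k).W, (f (k + 1)).c t p = (f k).c t p := fun k => hnx (f k)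
  have hMmono : ∀ a b, a ≤ b → (f a).M ≤ (f b).M := fun a b hab =>
    monotone_nat_of_le_succ (f := fun k => (f k).M)
      (fun k => by rw [(hf k).2.1]; exact M_le_MM _ _) hab
  have hWmono : ∀ a b, a ≤ b → (f a).W ⊆ (f b).W := fun a b hab =>
    monotone_nat_of_le_succ (f := fun k => (f k).W)
      (fun k => by
        intro p hp
        change p ∈ (f (k + 1)).W
        rw [(hf k).1]
        exact WW_sub hp (by rw [d_self]; omega)) hab
  have hagree : ∀ a b, a ≤ b → ∀ t < n, ∀ p ∈ (f a).W, (f b).c t p = (f a).c t p := by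
    intro a b hab
    induction b, hab using Nat.le_induction with
    | base => intro t _ p _; rfl
    | succ b hab ih =>
      intro t ht p hp
      rw [(hf b).2.2 t ht p (hWmono a b hab hp), ih t ht p hp]
  have hcov : ∀ (m : ℕ) (y : V), d x0 y = m → ∃ N, y ∈ (f N).W := by
    intro m
    induction m with
    | zero =>
      intro y hy
      rw [← eq_of_d x0 y hy]
      exact ⟨0, hs0⟩
    | succ m ih =>
      intro y hy
      obtain ⟨z, h1, h2⟩ := geo x0 y m (by omega)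
      obtain ⟨N, hN⟩ := ih z h1
      refine ⟨N + 1, ?_⟩
      rw [(hf N).1]
      exact WW_sub hN (by rw [GMet.symm]; omega)
  have hcov' : ∀ y : V, ∃ N, y ∈ (f N).W := fun y => hcov _ y rfl
  have hrot : ∀ i, ∃ N, H i ≤ (f N).M := by
    intro i
    obtain ⟨y, hy⟩ := C.hY i
    obtain ⟨N, hN⟩ := hcov' y
    by_cases hi : i ∈ (f N).S
    · exact ⟨N, (f N).h.hM i hi⟩
    · refine ⟨N + 1, ?_⟩
      rw [(hf N).2.1]
      exact H_le_MM _ ⟨hi, y, hy, y, hN, by rw [d_self]; omega⟩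
  have hmem : ∀ m ∈ NN H, ∃ N, m ∈ (f N).M := by
    intro m hm
    unfold NN at hm
    induction hm using Subgroup.closure_induction with
    | mem g hg =>
      obtain ⟨i, hi⟩ := Set.mem_iUnion.1 hg
      obtain ⟨N, hN⟩ := hrot i
      exact ⟨N, hN hi⟩
    | one => exact ⟨0, one_mem _⟩
    | mul a b _ _ ha hb =>
      obtain ⟨N, hN⟩ := ha
      obtain ⟨N', hN'⟩ := hb
      exact ⟨max N N', mul_mem (hMmono _ _ (le_max_left _ _) hN)
        (hMmono _ _ (le_max_right _ _) hN')⟩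
    | inv a _ ha =>
      obtain ⟨N, hN⟩ := ha
      exact ⟨N, inv_mem hN⟩
  choose k hk using hcov'
  have hc : ∀ t < n, ∀ (N : ℕ) (p : V), p ∈ (f N).W → (f (k p)).c t p = (f N).c t p := by
    intro t ht N p hp
    have h1 := hagree (k p) (max (k p) N) (le_max_left _ _) t ht p (hk p)
    have h2 := hagree N (max (k p) N) (le_max_right _ _) t ht p hp
    rw [← h1, h2]
  refine ⟨fun t p => (f (k p)).c t p, ?_, ?_, ?_, ?_⟩
  · intro t ht m hm p
    obtain ⟨N, hN⟩ := hmem m hm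
    have h1 : m ∈ (f (max N (k p))).M := hMmono _ _ (le_max_left _ _) hN
    have h2 : p ∈ (f (max N (k p))).W := hWmono _ _ (le_max_right _ _) (hk p)
    change (f (k (m • p))).c t (m • p) = lact m ((f (k p)).c t p)
    rw [hc t ht _ _ h2, hc t ht _ _ ((f (max N (k p))).h.mW m h1 p h2)]
    exact (f (max N (k p))).lab.eqv t ht m h1 p
  · intro t ht p g hg
    change (f (k p)).c t p = .inr g at hg
    rcases (f (k p)).lab.val t ht p with ⟨i, _, h⟩ | ⟨m, hm, h⟩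
    · rw [h] at hg
      exact absurd hg (by simp)
    · rw [h] at hg
      have : m = g := Sum.inr.inj hg
      rw [← this]
      exact (f (k p)).hN hm
  · intro A hA
    set B := {t | t < n ∧ ∃ p ∈ A, ∃ p' ∈ A, (f (k p)).c t p ≠ (f (k p')).c t p'} with hB
    have hBfin : B.Finite := (Set.finite_lt_nat n).subset fun t ht => ht.1
    have hwit : ∀ t, ∃ N : ℕ, t ∈ B → ∃ p ∈ A, ∃ p' ∈ A, p ∈ (f N).W ∧ p' ∈ (f N).W ∧
        (f (k p)).c t p ≠ (f (k p')).c t p' := by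
      intro t
      by_cases ht : t ∈ B
      · obtain ⟨-, p, hp, p', hp', hne⟩ := ht
        exact ⟨max (k p) (k p'), fun _ => ⟨p, hp, p', hp', hWmono _ _ (le_max_left _ _) (hk p),
          hWmono _ _ (le_max_right _ _) (hk p'), hne⟩⟩
      · exact ⟨0, fun h => absurd h ht⟩
    choose ν hν using hwit
    obtain ⟨N, hN⟩ : ∃ N, ∀ t ∈ B, ν t ≤ N := by
      obtain ⟨N, hN⟩ := (hBfin.image ν).bddAbove
      exact ⟨N, fun t ht => hN ⟨t, ht, rfl⟩⟩
    have hcl := (f N).lab.close (A ∩ (f N).W) (fun p hp p' hp' i _ =>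
      (hA p hp.1 p' hp'.1 i).trans (by omega))
    refine (Set.ncard_le_ncard ?_ ((Set.finite_lt_nat n).subset fun t ht => ht.1)).trans
      (hcl.trans (by omega))
    intro t ht
    obtain ⟨p, hp, p', hp', hpW, hpW', hne⟩ := hν t ht
    have h1 := hWmono _ _ (hN t ht) hpW
    have h2 := hWmono _ _ (hN t ht) hpW'
    refine ⟨ht.1, p, ⟨hp, h1⟩, p', ⟨hp', h2⟩, ?_⟩
    rw [hc t ht.1 N p h1, hc t ht.1 N p' h2] at hne
    exact hne
  · intro t ht p hp
    exact (f (k p)).lab.base t ht p fun i _ => hp i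

end TSq
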