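import Pool.Agent.Work.TSQ.Interface
import Pool.Agent.Work.MP_50f8f6_al.Toolkit

/-!
# MP_ab148e_al: overlap of quasiconvex orbits of subgroups
-/

namespace TSq
open FrobP GMet

theorem QC.mono' {V : Type} [GMet V] {θ θ' : ℕ} {Y : Set V} (h : QC θ Y) (hh : θ ≤ θ') :
    QC θ' Y := by
  intro x hx y hy z hz
  obtain ⟨w, hw, hzw⟩ := h x hx y hy z hz
  exact ⟨w, hw, by omega⟩

theorem Hyp.mono' {V : Type} [GMet V] {δ δ' : ℕ} (h : Hyp V δ) (hh : δ ≤ δ') : Hyp V δ' := by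
  intro x y z w
  have := h x y z w
  omega

/-- orbit of a subgroup -/
def sorb {G V : Type} [Group G] [MulAction G V] (A : Subgroup G) (x : V) : Set V :=
  {y | ∃ g ∈ A, g • x = y}

theorem sorb_ne {G V : Type} [Group G] [MulAction G V] (A : Subgroup G) (x : V) :
    (sorb A x).Nonempty := ⟨x, 1, A.one_mem, one_smul _ _⟩

theorem orb_eq {G V : Type} [Group G] [MulAction G V] (u : G) (x : V) :
    orb u x = sorb (Subgroup.zpowers u) x := by
  ext y
  constructor
  · rintro ⟨n, hn⟩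
    exact ⟨u ^ n, Subgroup.zpow_mem_zpowers u n, hn⟩
  · rintro ⟨g, hg, hy⟩
    obtain ⟨n, rfl⟩ := Subgroup.mem_zpowers_iff.1 hg
    exact ⟨n, hy⟩

/-- a point which is almost between `x` and `y` is near the interval -/
theorem near_bt {V : Type} [GMet V] {θ : ℕ} (hV : Hyp V θ) {x y q : V} {e : ℕ}
    (h : d x q + d q y ≤ d x y + e) : ∃ z, Bt x z y ∧ d q z ≤ e + 2 * θ := by
  obtain ⟨z, hz, hd⟩ := exists_bt x y (k := min (d x q) (d x y)) (by omega)
  refine ⟨z, hz, ?_⟩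
  have p := hV.pp x y q z
  unfold Bt at hz
  have t1 := tri x q y
  omega

theorem overlap {G V : Type} [Group G] [GMet V] [MulAction G V] (hG : HG G V)
    (A B : Subgroup G) (x : V) {θA θB : ℕ} (hA : QC θA (sorb A x)) (hB : QC θB (sorb B x)) :
    ∃ K : ℕ, ∀ g : G, (∀ b ∈ B, g * b * g⁻¹ ∈ A → b = 1) →
      ∀ b ∈ B, ∀ b' ∈ B, prd (sorb A x) (g • b • x) (g • b' • x) ≤ K := by
  have : IsomAct G V := ⟨hG.isom⟩
  obtain ⟨δ, hδ⟩ := hG.hyp
  set θ := δ + θA + θB + 1 with hθ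
  have h1 : 1 ≤ θ := by omega
  have hV : Hyp V θ := Hyp.mono' hδ (by omega)
  have qA : QC θ (sorb A x) := QC.mono' hA (by omega)
  have qB : QC θ (sorb B x) := QC.mono' hB (by omega)
  have hfin := hG.prop x (20 * θ)
  set N := hfin.toFinset.card with hN
  refine ⟨8 * θ + N * (2 * θ + 1), fun g hg b hb b' hb' => ?_⟩
  by_contra hlt
  push Not at hlt
  obtain ⟨a0, a1, h0, h0', hD⟩ := exists_prd (sorb_ne A x) (g • b • x) (g • b' • x)
  rw [← hD] at hlt
  have p3 := h0.p3 hV h1 qA h0' (by omega)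
  -- the points
  have key : ∀ j : ℕ, j ≤ N → ∃ (α β : G) (q : V), α ∈ A ∧ β ∈ B ∧
      d x ((α⁻¹ * g * β) • x) ≤ 20 * θ ∧ d a0 q = j * (2 * θ + 1) ∧ d q (α • x) ≤ θ := by
    intro j hj
    have hjle : j * (2 * θ + 1) ≤ N * (2 * θ + 1) := Nat.mul_le_mul_right _ hj
    obtain ⟨q, hq, hqd⟩ := exists_bt a0 a1 (k := j * (2 * θ + 1)) (by omega)
    obtain ⟨y, ⟨α, hα, rfl⟩, hqy⟩ := qA a0 h0.mem a1 h0'.mem q hq
    obtain ⟨z, hz, hqz⟩ := near_bt hV (x := g • b • x) (y := g • b' • x) (q := q)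
      (e := 16 * θ) (by
        have t1 := tri (g • b • x) a0 q
        have t2 := tri q a1 (g • b' • x)
        have s1 := GMet.symm (g • b' • x) a1
        unfold Bt at hq
        omega)
    -- transfer to `sorb B x`
    have hz' : Bt (b • x) (g⁻¹ • z) (b' • x) := by
      have := hz.smul g⁻¹
      rwa [inv_smul_smul, inv_smul_smul] at this
    obtain ⟨w, ⟨β, hβ, rfl⟩, hzw⟩ := qB _ ⟨b, hb, rfl⟩ _ ⟨b', hb', rfl⟩ _ hz'
    refine ⟨α, β, q, hα, hβ, ?_, hqd, hqy⟩
    have e1 : d (g⁻¹ • z) (β • x) = d z (g • β • x) := d_inv_smul g z (β • x)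
    have e2 : d x ((α⁻¹ * g * β) • x) = d (α • x) (g • β • x) := by
      rw [← isom α x ((α⁻¹ * g * β) • x), ← mul_smul, ← mul_smul]
      congr 2
      group
    have t1 := tri (α • x) q (g • β • x)
    have t2 := tri q z (g • β • x)
    have s1 := GMet.symm (α • x) q
    omega
  choose α β q hα hβ hs hq hqα using key
  -- pigeonhole
  have : ∃ j : Fin (N + 1), ∃ j' : Fin (N + 1), j ≠ j' ∧
      (α j (by omega))⁻¹ * g * β j (by omega) = (α j' (by omega))⁻¹ * g * β j' (by omega) := by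
    obtain ⟨j, -, j', -, hne, he⟩ := Finset.exists_ne_map_eq_of_card_lt_of_maps_to
      (s := (Finset.univ : Finset (Fin (N + 1)))) (t := hfin.toFinset)
      (f := fun j => (α j (by omega))⁻¹ * g * β j (by omega))
      (by rw [Finset.card_univ, Fintype.card_fin]; omega)
      (by
        intro j _
        rw [Finset.mem_coe, Set.Finite.mem_toFinset]
        exact hs j (by omega))
    exact ⟨j, j', hne, he⟩
  obtain ⟨j, j', hne, he⟩ := this
  have hc : g * (β j (by omega) * (β j' (by omega))⁻¹) * g⁻¹ =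
      α j (by omega) * (α j' (by omega))⁻¹ := by
    have := congrArg (fun s => α j (by omega) * s * (β j' (by omega))⁻¹ * g⁻¹) he
    simp only at this
    have l1 : α j (by omega) * ((α j (by omega))⁻¹ * g * β j (by omega)) * (β j' (by omega))⁻¹ * g⁻¹
        = g * (β j (by omega) * (β j' (by omega))⁻¹) * g⁻¹ := by group
    have l2 : α j (by omega) * ((α j' (by omega))⁻¹ * g * β j' (by omega)) * (β j' (by omega))⁻¹ * g⁻¹
        = α j (by omega) * (α j' (by omega))⁻¹ := by group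
    rw [← l1, this, l2]
  have h2 := hg _ (B.mul_mem (hβ j (by omega)) (B.inv_mem (hβ j' (by omega))))
    (by rw [hc]; exact A.mul_mem (hα j (by omega)) (A.inv_mem (hα j' (by omega))))
  rw [h2, mul_one, mul_inv_cancel] at hc
  have h3 : α j (by omega) = α j' (by omega) := (mul_inv_eq_one.1 hc.symm)
  have e1 := hqα j (by omega)
  have e2 := hqα j' (by omega)
  rw [← h3] at e2
  have e3 := hq j (by omega)
  have e4 := hq j' (by omega)
  have t1 := tri a0 (q j (by omega)) (q j' (by omega))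
  have t2 := tri a0 (q j' (by omega)) (q j (by omega))
  have t3 := tri (q j (by omega)) (α j (by omega) • x) (q j' (by omega))
  have s1 := GMet.symm (α j (by omega) • x) (q j' (by omega))
  have s2 := GMet.symm (q j (by omega)) (q j' (by omega))
  have hne' : (j : ℕ) ≠ (j' : ℕ) := fun h => hne (Fin.ext h)
  rcases lt_or_gt_of_ne hne' with h | h
  · have : (j : ℕ) * (2 * θ + 1) + (2 * θ + 1) ≤ (j' : ℕ) * (2 * θ + 1) := by
      have : ((j : ℕ) + 1) * (2 * θ + 1) ≤ (j' : ℕ) * (2 * θ + 1) := Nat.mul_le_mul_right _ h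
      linarith [Nat.add_mul (j : ℕ) 1 (2 * θ + 1)]
    omega
  · have : (j' : ℕ) * (2 * θ + 1) + (2 * θ + 1) ≤ (j : ℕ) * (2 * θ + 1) := by
      have : ((j' : ℕ) + 1) * (2 * θ + 1) ≤ (j : ℕ) * (2 * θ + 1) := Nat.mul_le_mul_right _ h
      linarith [Nat.add_mul (j' : ℕ) 1 (2 * θ + 1)]
    omega

/-- BLOCK OVER from BLOCK DICH -/
theorem over_of_dich (D : DichStmt) : OverStmt := by
  intro G V _ _ _ hG u w hu hw x
  obtain ⟨θu, qu⟩ := (D G V hG u hu).2 x
  obtain ⟨θw, qw⟩ := (D G V hG w hw).2 x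
  rw [orb_eq] at qu qw
  obtain ⟨K, hK⟩ := overlap hG _ _ x qu qw
  refine ⟨K, fun g hg m n => ?_⟩
  rw [orb_eq]
  refine hK g ?_ _ (Subgroup.zpow_mem_zpowers w m) _ (Subgroup.zpow_mem_zpowers w n)
  rintro b hb hc
  obtain ⟨p, rfl⟩ := Subgroup.mem_zpowers_iff.1 hb
  obtain ⟨q, hq⟩ := Subgroup.mem_zpowers_iff.1 hc
  by_contra hne
  refine hg p q ?_ hq.symm
  rintro rfl
  exact hne (zpow_zero _)

end TSq
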