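import Pool.Agent.Work.TSQ.Orb

/-!
# Block PS: positions along the `a`-lines
-/

namespace TSq
open FrobP GMet

section
variable {G V : Type} [Group G] [GMet V] [MulAction G V]

/-- the indices of the nearest points -/
def posSet (a : G) (x : V) (g : G) : Set ℤ := {n | Pr (orb a x) (g • x) (a ^ n • x)}

/-- the position of `g` on the line `⟨a⟩` -/
noncomputable def posf (a : G) (x : V) (g : G) : ℤ := sInf (posSet a x g)

variable [IsomAct G V] {a : G} {x : V} {r θ κ : ℕ}

theorem posSet_ne (g : G) : (posSet a x g).Nonempty := by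
  obtain ⟨y, hy⟩ := exists_pr (orb_ne a x) (g • x)
  obtain ⟨n, rfl⟩ := hy.1
  exact ⟨n, hy⟩

theorem posSet_bdd (hlin : ∀ (x : V) (m : ℕ), m ≤ r * d x (a ^ m • x)) (hV : Hyp V θ)
    (h1 : 1 ≤ θ) (hq : QC θ (orb a x)) (g : G) : BddBelow (posSet a x g) := by
  obtain ⟨n, hn⟩ := posSet_ne (a := a) (x := x) g
  refine ⟨n - r * (7 * θ : ℕ), fun m hm => ?_⟩
  have h2 := hn.p2 hV h1 hq hm
  have h3 := lin_zpow hlin x n m
  have h4 : (r : ℤ) * (d (a ^ n • x) (a ^ m • x) : ℕ) ≤ r * (7 * θ : ℕ) := by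
    exact_mod_cast Nat.mul_le_mul_left r h2
  have := le_abs_self (n - m)
  linarith

theorem posf_pr (hlin : ∀ (x : V) (m : ℕ), m ≤ r * d x (a ^ m • x)) (hV : Hyp V θ)
    (h1 : 1 ≤ θ) (hq : QC θ (orb a x)) (g : G) : Pr (orb a x) (g • x) (a ^ posf a x g • x) :=
  Int.csInf_mem (posSet_ne g) (posSet_bdd hlin hV h1 hq g)

theorem posf_shift (hlin : ∀ (x : V) (m : ℕ), m ≤ r * d x (a ^ m • x)) (hV : Hyp V θ)
    (h1 : 1 ≤ θ) (hq : QC θ (orb a x)) (g : G) : posf a x (a * g) = posf a x g + 1 := by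
  have key : ∀ n : ℤ, n ∈ posSet a x g ↔ n + 1 ∈ posSet a x (a * g) := by
    intro n
    have e1 : ∀ y ∈ orb a x, a • y ∈ orb a x := fun y hy => by
      have := (smul_mem_orb a x y 1).2 hy
      rwa [zpow_one] at this
    have e2 : ∀ y ∈ orb a x, a⁻¹ • y ∈ orb a x := fun y hy => by
      have := (smul_mem_orb a x y (-1)).2 hy
      rwa [zpow_neg_one] at this
    unfold posSet
    simp only [Set.mem_ofPred_eq]
    have e3 : a ^ (n + 1) • x = a • a ^ n • x := by
      rw [← mul_smul, add_comm, zpow_add, zpow_one]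
    constructor
    · intro h
      rw [e3, mul_smul]
      exact h.smul a e1 e2
    · intro h
      rw [e3, mul_smul] at h
      have := h.smul (Z := orb a x) a⁻¹ e2 (by rw [inv_inv]; exact e1)
      rwa [inv_smul_smul, inv_smul_smul] at this
  apply le_antisymm
  · apply csInf_le (posSet_bdd hlin hV h1 hq _)
    exact (key _).1 (Int.csInf_mem (posSet_ne g) (posSet_bdd hlin hV h1 hq g))
  · have h2 := Int.csInf_mem (posSet_ne (a * g)) (posSet_bdd hlin hV h1 hq (a * g))
    have h3 : sInf (posSet a x (a * g)) - 1 ∈ posSet a x g := by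
      rw [key, sub_add_cancel]; exact h2
    have h4 := csInf_le (posSet_bdd hlin hV h1 hq g) h3
    unfold posf
    linarith

theorem posf_one (hlin : ∀ (x : V) (m : ℕ), m ≤ r * d x (a ^ m • x)) (hV : Hyp V θ)
    (h1 : 1 ≤ θ) (hq : QC θ (orb a x)) : posf a x 1 = 0 := by
  have h2 := posf_pr hlin hV h1 hq (1 : G)
  rw [one_smul] at h2
  have h3 := h2.eq_of_mem (self_mem_orb a x)
  have h4 := lin_zpow hlin x (posf a x 1) 0
  rw [h3, zpow_zero, one_smul, d_self] at h4
  have := abs_nonneg (posf a x 1 - 0)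
  have h5 : |posf a x 1 - 0| = 0 := by
    push_cast at h4; linarith
  rw [abs_eq_zero] at h5
  linarith

theorem posf_le (hlin : ∀ (x : V) (m : ℕ), m ≤ r * d x (a ^ m • x)) (hV : Hyp V θ)
    (h1 : 1 ≤ θ) (hq : QC θ (orb a x)) (g g' : G) :
    |posf a x g - posf a x g'| ≤ r * prd (orb a x) (g • x) (g' • x) := by
  have h2 := lin_zpow hlin x (posf a x g) (posf a x g')
  have h3 := le_prd (posf_pr hlin hV h1 hq g) (posf_pr hlin hV h1 hq g')
  have h4 : (r : ℤ) * (d (a ^ posf a x g • x) (a ^ posf a x g' • x) : ℕ)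
      ≤ r * (prd (orb a x) (g • x) (g' • x) : ℕ) := by exact_mod_cast Nat.mul_le_mul_left r h3
  linarith

theorem prd_le_posf (hlin : ∀ (x : V) (m : ℕ), m ≤ r * d x (a ^ m • x)) (hV : Hyp V θ)
    (h1 : 1 ≤ θ) (hq : QC θ (orb a x)) (g g' : G) :
    (prd (orb a x) (g • x) (g' • x) : ℤ)
      ≤ |posf a x g - posf a x g'| * d x (a • x) + 14 * θ := by
  obtain ⟨p, q, hp, hq', hd⟩ := exists_prd (orb_ne a x) (g • x) (g' • x)
  have h2 := (posf_pr hlin hV h1 hq g)
  have h3 := (posf_pr hlin hV h1 hq g')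
  have h4 := hp.p2 hV h1 hq h2
  have h5 := hq'.p2 hV h1 hq h3
  have h6 := le_zpow a x (posf a x g) (posf a x g')
  have t1 := tri p (a ^ posf a x g • x) q
  have t2 := tri (a ^ posf a x g • x) (a ^ posf a x g' • x) q
  have s1 := GMet.symm q (a ^ posf a x g' • x)
  have h7 : d p q ≤ d (a ^ posf a x g • x) (a ^ posf a x g' • x) + 14 * θ := by omega
  rw [← hd]
  have h8 : (d p q : ℤ) ≤ d (a ^ posf a x g • x) (a ^ posf a x g' • x) + 14 * θ := by
    exact_mod_cast h7
  linarith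

/-- counting the lines near an interval -/
theorem count_lines (hV : Hyp V θ) (h1 : 1 ≤ θ) (hq : QC θ (orb a x))
    {B : Set G} (hB : B.Finite) (hBd : ∀ g : G, d x (g • x) ≤ 44 * θ → g ∈ B) (g g' : G) :
    {l : Ln a | ∃ y : G, (y : Ln a) = l ∧
      8 * θ < prd (orb a x) ((y⁻¹ * g) • x) ((y⁻¹ * g') • x)}.Finite ∧
    {l : Ln a | ∃ y : G, (y : Ln a) = l ∧
      8 * θ < prd (orb a x) ((y⁻¹ * g) • x) ((y⁻¹ * g') • x)}.ncard
      ≤ B.ncard * (1 + d (g • x) (g' • x)) := by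
  classical
  -- one point of the interval for each distance
  choose z hz using fun k : Fin (d (g • x) (g' • x) + 1) =>
    exists_bt (g • x) (g' • x) (Nat.lt_succ_iff.1 k.2)
  -- the elements near `z k`
  set N : Fin (d (g • x) (g' • x) + 1) → Set G := fun k => {h | d (z k) (h • x) ≤ 20 * θ} with hN
  have hNf : ∀ k, (N k).Finite ∧ (N k).ncard ≤ B.ncard := by
    intro k
    by_cases hne : (N k).Nonempty
    · obtain ⟨h0, hh0⟩ := hne
      have hsub : N k ⊆ (fun b => h0 * b) '' B := by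
        intro h hh
        refine ⟨h0⁻¹ * h, hBd _ ?_, by simp⟩
        have e : d x ((h0⁻¹ * h) • x) = d (h0 • x) (h • x) := by
          rw [mul_smul, ← isom h0 x, smul_inv_smul]
        rw [e]
        have t := tri (h0 • x) (z k) (h • x)
        have s := GMet.symm (h0 • x) (z k)
        have a1 : d (z k) (h0 • x) ≤ 20 * θ := hh0
        have a2 : d (z k) (h • x) ≤ 20 * θ := hh
        omega
      exact ⟨(hB.image _).subset hsub,
        (Set.ncard_le_ncard hsub (hB.image _)).trans (Set.ncard_image_le hB)⟩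
    · rw [Set.not_nonempty_iff_eq_empty] at hne
      rw [hne]
      exact ⟨Set.finite_empty, by simp⟩
  have hsub : {l : Ln a | ∃ y : G, (y : Ln a) = l ∧
      8 * θ < prd (orb a x) ((y⁻¹ * g) • x) ((y⁻¹ * g') • x)} ⊆
      ⋃ k, (fun h : G => (h : Ln a)) '' N k := by
    rintro l ⟨y, rfl, hy⟩
    have e := prd_tr y (orb a x) (g • x) (g' • x)
    rw [← mul_smul, ← mul_smul] at e
    rw [← e] at hy
    obtain ⟨p, q, hp, hq', hd⟩ := exists_prd (tr_ne (g := y) (orb_ne a x)) (g • x) (g' • x)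
    obtain ⟨w, hw, hwp⟩ := hp.p5 hV h1 (qc_tr y hq) hq' (by omega)
    obtain ⟨n, hn⟩ := hp.1
    have hn' : (y * a ^ n) • x = p := by
      rw [mul_smul, hn, smul_inv_smul]
    have hk : d (g • x) w < d (g • x) (g' • x) + 1 := Nat.lt_succ_iff.2 hw.d_left_le
    obtain ⟨hz1, hz2⟩ := hz ⟨_, hk⟩
    simp only at hz2
    refine Set.mem_iUnion.2 ⟨⟨_, hk⟩, y * a ^ n, ?_, ?_⟩
    · change d (z _) ((y * a ^ n) • x) ≤ 20 * θ
      rw [hn']
      have hh := hV.h1 hw (z ⟨_, hk⟩)
      have t := tri (z ⟨_, hk⟩) w p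
      have s1 := GMet.symm (g • x) (z ⟨_, hk⟩)
      unfold Bt at hz1 hw
      omega
    · change ((y * a ^ n : G) : Ln a) = (y : Ln a)
      rw [QuotientGroup.eq]
      have e3 : (y * a ^ n)⁻¹ * y = a ^ (-n) := by
        rw [mul_inv_rev, inv_mul_cancel_right, zpow_neg]
      rw [e3]
      exact Subgroup.zpow_mem_zpowers a _
  have hfin : (⋃ k, (fun h : G => (h : Ln a)) '' N k).Finite :=
    Set.finite_iUnion fun k => (hNf k).1.image _
  refine ⟨hfin.subset hsub, ?_⟩
  refine (Set.ncard_le_ncard hsub hfin).trans ?_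
  have e1 : (⋃ k, (fun h : G => (h : Ln a)) '' N k) =
      ⋃ k ∈ (Finset.univ : Finset (Fin (d (g • x) (g' • x) + 1))), (fun h : G => (h : Ln a)) '' N k := by
    simp
  rw [e1]
  refine (Finset.set_ncard_biUnion_le _ _).trans ?_
  refine (Finset.sum_le_sum fun k _ =>
    (Set.ncard_image_le (hNf k).1).trans (hNf k).2).trans ?_
  simp only [Finset.sum_const, Finset.card_univ, Fintype.card_fin, smul_eq_mul]
  rw [mul_comm, add_comm 1]

end

theorem ps_of (DI : DichStmt) (OV : OverStmt) : PSStmt := by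
  intro G V _ _ _ hG a hM x
  haveI : IsomAct G V := ⟨hG.isom⟩
  obtain ⟨⟨r, hr1, hlin⟩, hqc⟩ := DI G V hG a hM.inf
  obtain ⟨θ0, hθ0⟩ := hqc x
  obtain ⟨δ, hδ⟩ := hG.hyp
  obtain ⟨K, hK⟩ := OV G V hG a a hM.inf hM.inf x
  set θ := θ0 + δ + K + 1 with hθ
  have h1 : 1 ≤ θ := by omega
  have hV : Hyp V θ := hyp_mono hδ (by omega)
  have hq : QC θ (orb a x) := qc_mono hθ0 (by omega)
  have hsm : ∀ y : G, y ∉ Subgroup.zpowers a → ∀ m n : ℤ,
      prd (orb a x) ((y * a ^ m) • x) ((y * a ^ n) • x) ≤ θ := by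
    intro y hy m n
    rw [mul_smul, mul_smul]
    refine (hK y ?_ m n).trans (by omega)
    intro p q hp heq
    exact hy (hM.mal y q p hp heq)
  set pos := posf a x with hpos
  have hB := hG.prop x (44 * θ)
  set B := {g : G | d x (g • x) ≤ 44 * θ} with hBdef
  set Δ : ℤ := r * (35 * θ : ℕ) with hΔ
  have hΔ0 : 0 ≤ Δ := by positivity
  have hle : ∀ (g g' : G) (t : ℕ), prd (orb a x) (g • x) (g' • x) ≤ t →
      |pos g - pos g'| ≤ r * (t : ℤ) := by
    intro g g' t ht
    have h2 := posf_le hlin hV h1 hq g g'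
    have h3 : (r : ℤ) * (prd (orb a x) (g • x) (g' • x) : ℕ) ≤ r * (t : ℕ) := by
      exact_mod_cast Nat.mul_le_mul_left r ht
    linarith
  have hinv : ∀ y : G, y ∉ Subgroup.zpowers a → y⁻¹ ∉ Subgroup.zpowers a := fun y hy h =>
    hy (by have := Subgroup.inv_mem _ h; rwa [inv_inv] at this)
  -- large position difference gives large projection
  have hlarge : ∀ g g' : G, Δ < |pos g - pos g'| → 8 * θ < prd (orb a x) (g • x) (g' • x) := by
    intro g g' h
    by_contra hcon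
    push Not at hcon
    have h2 := hle g g' (35 * θ) (by omega)
    linarith
  have hsub : ∀ g g' : G, {l : Ln a | ∃ y : G, (y : Ln a) = l ∧
      Δ < |pos (y⁻¹ * g) - pos (y⁻¹ * g')|} ⊆ {l : Ln a | ∃ y : G, (y : Ln a) = l ∧
      8 * θ < prd (orb a x) ((y⁻¹ * g) • x) ((y⁻¹ * g') • x)} := by
    rintro g g' l ⟨y, hy, h⟩
    exact ⟨y, hy, hlarge _ _ h⟩
  refine ⟨pos, Δ, r + d x (a • x) + 14 * θ + B.ncard, ⟨?_, ?_, ?_, ?_, ?_, ?_, ?_⟩, ?_, ?_, ?_⟩
  · exact hΔ0
  · exact posf_one hlin hV h1 hq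
  · exact posf_shift hlin hV h1 hq
  · intro y hy m n
    refine (hle _ _ _ (hsm y hy m n)).trans ?_
    rw [hΔ]
    have : (r : ℤ) * (θ : ℕ) ≤ r * (35 * θ : ℕ) := by
      exact_mod_cast Nat.mul_le_mul_left r (by omega)
    exact this
  · intro y hy g
    by_cases hc : prd (orb a x) (g • x) (y • x) ≤ 9 * θ
    · left
      refine (hle _ _ _ hc).trans ?_
      rw [hΔ]
      have : (r : ℤ) * (9 * θ : ℕ) ≤ r * (35 * θ : ℕ) := by
        exact_mod_cast Nat.mul_le_mul_left r (by omega)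
      exact this
    · right
      push Not at hc
      have hb := behr (Y := orb a x) (Z := tr y (orb a x)) (x := g • x) (z := y • x) (y := x)
        hV h1 hq (qc_tr y hq) (orb_ne a x) (tr_ne (orb_ne a x)) ?_ ?_
        (smul_mem_tr.2 (self_mem_orb a x)) hc (self_mem_orb a x)
      · rw [prd_tr, ← mul_smul] at hb
        exact hle (y⁻¹ * g) y⁻¹ _ hb
      · rintro p hp q hq'
        obtain ⟨m, hm⟩ := hp
        obtain ⟨n, hn⟩ := hq'
        have e1 : p = (y * a ^ m) • x := by rw [mul_smul, hm, smul_inv_smul]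
        have e2 : q = (y * a ^ n) • x := by rw [mul_smul, hn, smul_inv_smul]
        rw [e1, e2]; exact hsm y hy m n
      · rintro p ⟨m, rfl⟩ q ⟨n, rfl⟩
        rw [prd_tr, ← mul_smul, ← mul_smul]
        exact hsm _ (hinv y hy) m n
  · intro s
    refine ⟨r * (d x (s • x) + 16 * θ : ℕ), fun g => hle _ _ _ ?_⟩
    have h2 := prd_lip hV h1 hq ((g * s) • x) (g • x)
    have e : d ((g * s) • x) (g • x) = d x (s • x) := by
      rw [mul_smul, isom, GMet.symm]
    rw [e] at h2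
    exact h2
  · intro g g'
    exact (count_lines hV h1 hq hB (fun _ h => h) g g').1.subset (hsub g g')
  · intro g g'
    have h2 := posf_le hlin hV h1 hq g g'
    push_cast
    nlinarith [h2, Nat.cast_nonneg (α := ℤ) (prd (orb a x) (g • x) (g' • x)),
      Nat.cast_nonneg (α := ℤ) (d x (a • x)), Nat.cast_nonneg (α := ℤ) θ,
      Nat.cast_nonneg (α := ℤ) B.ncard, Nat.cast_nonneg (α := ℤ) r]
  · intro g g'
    have h2 := prd_le_posf hlin hV h1 hq g g'
    have h3 := abs_nonneg (posf a x g - posf a x g')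
    push_cast
    nlinarith [h2, Nat.cast_nonneg (α := ℤ) (prd (orb a x) (g • x) (g' • x)),
      Nat.cast_nonneg (α := ℤ) (d x (a • x)), Nat.cast_nonneg (α := ℤ) θ,
      Nat.cast_nonneg (α := ℤ) B.ncard, Nat.cast_nonneg (α := ℤ) r]
  · intro g g'
    obtain ⟨h2, h3⟩ := count_lines hV h1 hq hB (fun _ h => h) g g'
    refine (Set.ncard_le_ncard (hsub g g') h2).trans (h3.trans ?_)
    exact Nat.mul_le_mul_right _ (by omega)

end TSq
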