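import Pool.Agent.Work.TSQ.RDEd
import Pool.Agent.Work.TSQ.Overlap

/-!
# MP_ab148e_al, block RDE: the two-generator groups give relator data
-/

namespace TSq
open FrobP GMet

namespace RDE

/-- the letters of the free group -/
def sF : Fin 3 → FreeGroup (Fin 2) := ![1, FreeGroup.of 0, FreeGroup.of 1]

theorem exists_ev (u : FreeGroup (Fin 2)) : ∃ l, ev sF l = u := by
  induction u using FreeGroup.induction_on with
  | C1 => exact ⟨[], rfl⟩
  | of x =>
    fin_cases x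
    · exact ⟨[(1, 0)], by simp [ev, sF]⟩
    · exact ⟨[(2, 0)], by simp [ev, sF]⟩
  | inv_of x _ =>
    fin_cases x
    · exact ⟨[(0, 1)], by simp [ev, sF]⟩
    · exact ⟨[(0, 2)], by simp [ev, sF]⟩
  | mul x y hx hy =>
    obtain ⟨l, rfl⟩ := hx
    obtain ⟨l', rfl⟩ := hy
    exact ⟨l ++ l', ev_append _ _ _⟩

theorem orb_ne' {G V : Type} [Group G] [MulAction G V] (u : G) (x : V) : (orb u x).Nonempty :=
  ⟨x, 0, by simp⟩

/-- the exponents -/
def mm : Fin 3 → ℤ := ![0, 1, 3]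

/-- the exponents -/
def cc (k : ℤ) (i : Fin 3) : ℤ := 4 * k * mm i

theorem mm_gap : ∀ i j : Fin 3, i ≠ j → 1 ≤ |mm i - mm j| := by decide

theorem mm_typ : ∀ i j i' j' : Fin 3, i ≠ j → i' ≠ j' → mm i - mm j - (mm i' - mm j') = 0 →
    i = i' ∧ j = j' := by decide

theorem exists_TP {G : Type} [Group G] {a : G} {pos : G → ℤ} {Δ : ℤ} (hM : Mal a)
    (hP : PS a pos Δ) (v w : G) (hv : v ∉ Subgroup.zpowers a) (hw : w ∉ Subgroup.zpowers a)
    (hvw : v⁻¹ * w ∉ Subgroup.zpowers a) :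
    ∃ E : ℤ, 1 ≤ E ∧ ∀ k : ℤ, 40 * E ≤ k → TP a pos Δ ![1, v, w] (cc k) E k := by
  classical
  set V : Fin 3 → G := ![1, v, w] with hV
  choose D hD using hP.lip
  obtain ⟨M, hM'⟩ := (Set.finite_range (fun p : Fin 3 × Fin 3 =>
    |D ((V p.1)⁻¹ * V p.2)| + |pos ((V p.1)⁻¹ * V p.2)| + |D (V p.1)| + |D (V p.1)⁻¹| +
      |pos (V p.1)⁻¹|)).bddAbove
  have hb : ∀ i j : Fin 3, |D ((V i)⁻¹ * V j)| + |pos ((V i)⁻¹ * V j)| + |D (V i)| + |D (V i)⁻¹| +
      |pos (V i)⁻¹| ≤ |M| := fun i j => (hM' ⟨(i, j), rfl⟩).trans (le_abs_self M)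
  have nn := hP.nn
  have ab := abs_nonneg M
  refine ⟨|M| + Δ + 1, by linarith, fun k hk => ?_⟩
  have inv : ∀ x : G, x ∉ Subgroup.zpowers a → x⁻¹ ∉ Subgroup.zpowers a := by
    intro x hx h
    exact hx (by simpa using (Subgroup.zpowers a).inv_mem h)
  refine ⟨hP, hM, ?_, ?_, ?_, ?_, ?_, ?_, by linarith, by linarith, hk, ?_, ?_⟩
  · intro i j hij
    fin_cases i <;> fin_cases j
    · exact absurd rfl hij
    · simpa [hV] using hv
    · simpa [hV] using hw
    · simpa [hV] using hv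
    · exact absurd rfl hij
    · simpa [hV] using hvw
    · simpa [hV] using hw
    · have := inv _ hvw
      rw [mul_inv_rev, inv_inv] at this
      simpa [hV] using this
    · exact absurd rfl hij
  · intro i j
    have := hb i j
    have h1 := abs_nonneg (D ((V i)⁻¹ * V j))
    have h2 := abs_nonneg (D (V i))
    have h3 := abs_nonneg (D (V i)⁻¹)
    have h4 := abs_nonneg (pos (V i)⁻¹)
    linarith
  · intro i
    have := hb i i
    have h1 := abs_nonneg (D ((V i)⁻¹ * V i))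
    have h2 := abs_nonneg (D (V i))
    have h3 := abs_nonneg (D (V i)⁻¹)
    have h4 := abs_nonneg (pos ((V i)⁻¹ * V i))
    linarith
  · intro i j g
    have := hb i j
    have h1 := abs_nonneg (pos ((V i)⁻¹ * V j))
    have h2 := abs_nonneg (D (V i))
    have h3 := abs_nonneg (D (V i)⁻¹)
    have h4 := abs_nonneg (pos (V i)⁻¹)
    have h5 := hD ((V i)⁻¹ * V j) g
    have h6 := le_abs_self (D ((V i)⁻¹ * V j))
    linarith
  · intro i g
    have := hb i i
    have h1 := abs_nonneg (pos ((V i)⁻¹ * V i))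
    have h2 := abs_nonneg (D ((V i)⁻¹ * V i))
    have h3 := abs_nonneg (D (V i)⁻¹)
    have h4 := abs_nonneg (pos (V i)⁻¹)
    have h5 := hD (V i) g
    have h6 := le_abs_self (D (V i))
    linarith
  · intro i g
    have := hb i i
    have h1 := abs_nonneg (pos ((V i)⁻¹ * V i))
    have h2 := abs_nonneg (D ((V i)⁻¹ * V i))
    have h3 := abs_nonneg (D (V i))
    have h4 := abs_nonneg (pos (V i)⁻¹)
    have h5 := hD (V i)⁻¹ g
    have h6 := le_abs_self (D (V i)⁻¹)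
    linarith
  · intro i j hij
    have h1 := mm_gap i j hij
    have e : cc k i - cc k j = 4 * k * (mm i - mm j) := by unfold cc; ring
    have hk0 : 0 ≤ 4 * k := by linarith
    rw [e, abs_mul, abs_of_nonneg hk0]
    nlinarith
  · intro i j i' j' h h' hlt
    have e : cc k i - cc k j - (cc k i' - cc k j') = 4 * k * (mm i - mm j - (mm i' - mm j')) := by
      unfold cc; ring
    have hk0 : 0 < 4 * k := by linarith
    rw [e, abs_mul, abs_of_nonneg hk0.le] at hlt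
    apply mm_typ i j i' j' h h'
    have : |mm i - mm j - (mm i' - mm j')| < 1 := by
      by_contra hcon
      push Not at hcon
      nlinarith
    exact Int.abs_lt_one_iff.1 this

theorem phi_sF {G : Type} [Group G] (a v w : G) (k : ℕ) (i : Fin 3) :
    phi a v w k (sF i) = sg a ![1, v, w] (cc k) i := by
  fin_cases i
  · simp [sF, sg, cc, mm]
  · simp only [sF, sg, cc, mm, phi]
    simp
    rw [← zpow_natCast]
    congr 1
  · simp only [sF, sg, cc, mm, phi]
    simp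
    rw [← zpow_natCast]
    congr 1
    push_cast; ring

/-! ### geometry -/

section geo
variable {G V : Type} [Group G] [GMet V] [MulAction G V] [IsomAct G V]
  {a : G} {pos : G → ℤ} {Δ : ℤ} {v : Fin 3 → G} {c : Fin 3 → ℤ} {E k : ℤ}

/-- the interval from `x0` to the end of a path passes near all tripods of the path -/
theorem near_path (T : TP a pos Δ v c E k) {x0 : V} {θ : ℕ} (hV : Hyp V θ) (h1 : 1 ≤ θ)
    (hq : QC θ (orb a x0)) {κ : ℕ}
    (l1 : ∀ g g' : G, |pos g - pos g'| ≤ κ * prd (orb a x0) (g • x0) (g' • x0) + κ)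
    (l2 : ∀ g g' : G, (prd (orb a x0) (g • x0) (g' • x0) : ℤ) ≤ κ * |pos g - pos g'| + κ)
    (hk : κ * (8 * θ) + κ ≤ k) : ∃ C : ℕ, ∀ (A : List (Fin 3 × Fin 3)) (q : Fin 3 × Fin 3)
      (B : List (Fin 3 × Fin 3)) (β : Fin 3), Rd β (A ++ q :: B) →
      ∃ z, Bt x0 z (ev (sg a v c) (A ++ q :: B) • x0) ∧
        d z (ev (sg a v c) (A ++ [q]) • x0) ≤ C := by
  obtain ⟨Cv, hCv⟩ := (Set.finite_range (fun i : Fin 3 => d x0 (v i • x0))).bddAbove
  have hCv' : ∀ i, d x0 (v i • x0) ≤ Cv := fun i => hCv ⟨i, rfl⟩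
  refine ⟨18 * θ + κ + (Cv + (3 * E).natAbs * d x0 (a • x0)), fun A q B β hr => ?_⟩
  rw [rd_append] at hr
  obtain ⟨hA, hAq, hq12, hB⟩ := hr
  have o := T.one
  have b := T.big
  have gp := T.gap q.1 q.2 hq12
  set y := ev (sg a v c) A * v q.1 with hy
  set g2 := y⁻¹ * ev (sg a v c) (A ++ q :: B) with hg2
  have e2 : |pos g2 - (c q.1 - c q.2)| ≤ 3 * E := by
    have h := (T.pp B q 1 hq12 hB ((T.P_one _).trans (by linarith))).1
    have e : g2 = (v q.1)⁻¹ * (ev (sg a v c) (q :: B) * 1) := by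
      rw [hg2, hy, ev_append]; group
    rw [e]; exact h
  have e1 : |pos y⁻¹| ≤ 2 * E := by
    have e : y⁻¹ = (v q.1)⁻¹ * ((ev (sg a v c) A)⁻¹ * 1) := by rw [hy]; group
    rw [e]
    cases A with
    | nil =>
      have := T.P_one q.1
      unfold P at this
      simpa [ev] using this.trans (by linarith)
    | cons p A' =>
      obtain ⟨-, hp, hA'⟩ := hA
      change lst p.2 A' ≠ q.1 at hAq
      rw [lst_eq_lp] at hAq
      exact (T.pp' A' p 1 hp hA' ((T.P_one _).trans (by linarith))).2 _ (Ne.symm hAq)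
  have h8 : 8 * θ < prd (orb a x0) (g2 • x0) (y⁻¹ • x0) := by
    by_contra hcon
    push Not at hcon
    have h3 := l1 g2 y⁻¹
    have h4 : (κ : ℤ) * (prd (orb a x0) (g2 • x0) (y⁻¹ • x0) : ℕ) ≤ κ * (8 * θ : ℕ) := by
      exact_mod_cast Nat.mul_le_mul_left κ hcon
    have t1 := ab (c q.1 - c q.2) (pos g2)
    have t2 := ab (pos g2) (pos y⁻¹)
    rw [abs_sub_comm (pos y⁻¹)] at t2
    push_cast at h4
    linarith
  obtain ⟨a1, b1, ha, hb, hd⟩ := exists_prd (orb_ne' a x0) (g2 • x0) (y⁻¹ • x0)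
  rw [← hd] at h8
  obtain ⟨z, hz, hza⟩ := ha.p5 hV h1 hq hb h8
  have hmem : a ^ pos g2 • x0 ∈ orb a x0 := ⟨_, rfl⟩
  have h5 : d a1 (a ^ pos g2 • x0) ≤ κ := by
    have h6 := le_prd ha (pr_self hmem)
    have h7 := l2 g2 (a ^ pos g2)
    have e : pos (a ^ pos g2) = pos g2 := by
      have := T.ps.zshift (pos g2) 1
      rwa [mul_one, T.ps.one, zero_add] at this
    rw [e, sub_self, abs_zero, mul_zero, zero_add] at h7
    have h7' : prd (orb a x0) (g2 • x0) (a ^ pos g2 • x0) ≤ κ := by exact_mod_cast h7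
    omega
  refine ⟨y • z, ?_, ?_⟩
  · have h6 := (hz.smul y).symm'
    rw [smul_inv_smul, ← mul_smul, hg2, mul_inv_cancel_left] at h6
    exact h6
  · set e : ℤ := pos g2 - (c q.1 - c q.2) with he
    have e3 : y * a ^ pos g2 = ev (sg a v c) (A ++ [q]) * (v q.2 * a ^ e) := by
      rw [ev_append, hy, he]
      simp only [ev, sg]
      rw [zpow_sub, zpow_sub]
      group
    have h6 : d (y • z) (ev (sg a v c) (A ++ [q]) • x0) ≤
        d (y • z) (y • a ^ pos g2 • x0) + d (y • a ^ pos g2 • x0) (ev (sg a v c) (A ++ [q]) • x0) :=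
      tri _ _ _
    have h7 : d (y • z) (y • a ^ pos g2 • x0) ≤ 18 * θ + κ := by
      rw [isom]
      have := tri z a1 (a ^ pos g2 • x0)
      omega
    have h8 : d (y • a ^ pos g2 • x0) (ev (sg a v c) (A ++ [q]) • x0) ≤
        Cv + (3 * E).natAbs * d x0 (a • x0) := by
      rw [← mul_smul, e3, mul_smul, isom, GMet.symm]
      have m1 := disp_mul (v q.2) (a ^ e) x0
      have m2 := disp_zpow a x0 e
      have m3 := hCv' q.2
      have m4 : e.natAbs * d x0 (a • x0) ≤ (3 * E).natAbs * d x0 (a • x0) := by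
        apply Nat.mul_le_mul_right
        rw [abs_le] at e2
        omega
      omega
    omega

/-- the interval from `x0` to the end of a path is near the path -/
theorem qc_path (T : TP a pos Δ v c E k) {x0 : V} {θ : ℕ} (hV : Hyp V θ) (h1 : 1 ≤ θ)
    (hq : QC θ (orb a x0)) {κ : ℕ}
    (l1 : ∀ g g' : G, |pos g - pos g'| ≤ κ * prd (orb a x0) (g • x0) (g' • x0) + κ)
    (l2 : ∀ g g' : G, (prd (orb a x0) (g • x0) (g' • x0) : ℤ) ≤ κ * |pos g - pos g'| + κ)
    (hk : κ * (8 * θ) + κ ≤ k) : ∃ C : ℕ, ∀ (l : List (Fin 3 × Fin 3)) (β : Fin 3), Rd β l →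
      ∀ z, Bt x0 z (ev (sg a v c) l • x0) →
        ∃ A B, l = A ++ B ∧ d z (ev (sg a v c) A • x0) ≤ C := by
  obtain ⟨C, hC⟩ := near_path T hV h1 hq l1 l2 hk
  obtain ⟨C3, hC3⟩ := (Set.finite_range (fun q : Fin 3 × Fin 3 =>
    d x0 ((sg a v c q.1 * (sg a v c q.2)⁻¹) • x0))).bddAbove
  refine ⟨3 * C + C3 + 2 * θ, fun l β hl z hz => ?_⟩
  have key : ∀ (B A : List (Fin 3 × Fin 3)), l = A ++ B → ∀ zA, Bt x0 zA (ev (sg a v c) l • x0) →
      d zA (ev (sg a v c) A • x0) ≤ C → d x0 zA ≤ d x0 z →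
      ∃ A B, l = A ++ B ∧ d z (ev (sg a v c) A • x0) ≤ 3 * C + C3 + 2 * θ := by
    intro B
    induction B with
    | nil =>
      intro A hA zA hzA h2 h3
      rw [List.append_nil] at hA
      subst hA
      refine ⟨l, [], by simp, ?_⟩
      have p := hV.pp x0 (ev (sg a v c) l • x0) z zA
      have t := tri z zA (ev (sg a v c) l • x0)
      unfold Bt at *
      omega
    | cons q B ih =>
      intro A hA zA hzA h2 h3
      obtain ⟨z1, hz1, h4⟩ := hC A q B β (by rw [← hA]; exact hl)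
      rw [← hA] at hz1
      by_cases h5 : d x0 z1 ≤ d x0 z
      · exact ih (A ++ [q]) (by rw [hA]; simp) z1 hz1 h4 h5
      · refine ⟨A, q :: B, hA, ?_⟩
        have p := hV.pp x0 (ev (sg a v c) l • x0) z zA
        have t1 := tri z zA (ev (sg a v c) A • x0)
        have t2 := tri x0 zA z1
        have t3 := tri zA (ev (sg a v c) A • x0) z1
        have t4 := tri (ev (sg a v c) A • x0) (ev (sg a v c) (A ++ [q]) • x0) z1
        have s1 := GMet.symm (ev (sg a v c) (A ++ [q]) • x0) z1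
        have h6 : d (ev (sg a v c) A • x0) (ev (sg a v c) (A ++ [q]) • x0) ≤ C3 := by
          have : ev (sg a v c) (A ++ [q]) = ev (sg a v c) A * (sg a v c q.1 * (sg a v c q.2)⁻¹) := by
            rw [ev_append]; simp [ev]
          rw [this, mul_smul, isom]
          exact hC3 ⟨q, rfl⟩
        unfold Bt at *
        omega
  exact key l [] rfl x0 (Bt.left _ _) (by simp [ev, d_self]) (by rw [d_self]; omega)

end geo

end RDE

open RDE in
/-- BLOCK RDE -/
theorem rde_of (PSs : PSStmt) (DI : DichStmt) : RDEStmt := by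
  intro G V _ _ _ hG a hM v w hv hw hvw
  have : IsomAct G V := ⟨hG.isom⟩
  obtain ⟨x0⟩ := hG.ne
  obtain ⟨pos, Δ, κ, hP, l1, l2, -⟩ := PSs G V hG a hM x0
  obtain ⟨δ, hδ⟩ := hG.hyp
  obtain ⟨θa, hθa⟩ := (DI G V hG a hM.inf).2 x0
  set θ := δ + θa + 1 with hθ
  have h1 : 1 ≤ θ := by omega
  have hV : Hyp V θ := Hyp.mono' hδ (by omega)
  have hq : QC θ (orb a x0) := QC.mono' hθa (by omega)
  obtain ⟨E, hE, hTP⟩ := exists_TP hM hP v w hv hw hvw
  refine ⟨(40 * E).toNat + (κ * (8 * θ) + κ), fun k hk => ?_⟩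
  have T := hTP k (by omega)
  set φ := phi a v w k with hφ
  set c := cc (k : ℤ) with hc
  set vv : Fin 3 → G := ![1, v, w] with hvv
  have hev : ∀ l, φ (ev sF l) = ev (sg a vv c) l := by
    intro l
    rw [map_ev]
    congr 1
    ext i
    exact phi_sF a v w k i
  have hmem : ∀ l, ev (sg a vv c) l ∈ φ.range := fun l => ⟨_, hev l⟩
  -- cyclically reduced conjugates
  have hcr : ∀ u : FreeGroup (Fin 2), u ≠ 1 → ∃ (u1 : FreeGroup (Fin 2)) (l : _), CR l ∧
      ev (sg a vv c) l = φ u1 * φ u * (φ u1)⁻¹ := by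
    intro u hu
    obtain ⟨u1, l, h2, h3⟩ := exists_cr sF exists_ev u hu
    refine ⟨u1, l, h2, ?_⟩
    rw [← hev, h3]; simp
  -- injectivity
  have hinj : Function.Injective φ := by
    rw [injective_iff_map_eq_one]
    intro u hu
    by_contra hne
    obtain ⟨u1, l, h2, h3⟩ := hcr u hne
    cases l with
    | nil => exact h2.1 rfl
    | cons p l =>
      apply T.ne_one h2
      rw [h3, hu]; group
  -- no element is conjugate to a power of `a`
  have hnc : ∀ g : G, ∀ b ∈ Subgroup.zpowers a, g * b * g⁻¹ ∈ φ.range → b = 1 := by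
    intro g b hb hmem'
    obtain ⟨m, rfl⟩ := Subgroup.mem_zpowers_iff.1 hb
    obtain ⟨u, hu⟩ := hmem'
    by_cases hu1 : u = 1
    · subst hu1
      rw [map_one] at hu
      have : a ^ m = g⁻¹ * (g * a ^ m * g⁻¹) * g := by group
      rw [this, ← hu]; group
    · exfalso
      obtain ⟨u1, l, h2, h3⟩ := hcr u hu1
      cases l with
      | nil => exact h2.1 rfl
      | cons p l =>
        apply T.nocomm h2 (φ u1 * g) m
        rw [h3, hu]; group
  -- malnormality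
  have hmal : ∀ g : G, g ∉ φ.range → ∀ b ∈ φ.range, g * b * g⁻¹ ∈ φ.range → b = 1 := by
    rintro g hg b ⟨u, rfl⟩ ⟨u', hu'⟩
    by_contra hb
    have hu : u ≠ 1 := by rintro rfl; exact hb (map_one _)
    have hu1' : u' ≠ 1 := by
      rintro rfl
      rw [map_one] at hu'
      apply hb
      have : φ u = g⁻¹ * (g * φ u * g⁻¹) * g := by group
      rw [this, ← hu']; group
    obtain ⟨u1, l, h2, h3⟩ := hcr u hu
    obtain ⟨u2, l', h4, h5⟩ := hcr u' hu1'
    obtain ⟨A, m, h6⟩ := T.maln h4 h2 (φ u2 * g * (φ u1)⁻¹) (by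
      rw [h3, h5, hu']; group)
    apply hg
    have h7 : g = (φ u2)⁻¹ * (φ u2 * g * (φ u1)⁻¹) * φ u1 := by group
    rw [h7, h6]
    refine φ.range.mul_mem (φ.range.mul_mem (φ.range.inv_mem ⟨_, rfl⟩) (φ.range.mul_mem
      (φ.range.inv_mem (hmem A)) (φ.range.zpow_mem (hmem l) m))) ⟨_, rfl⟩
  -- quasiconvexity
  obtain ⟨C, hC⟩ := qc_path T hV h1 hq l1 l2 (by
    have : (κ * (8 * θ) + κ : ℕ) ≤ k := by omega
    exact_mod_cast this)
  have hqc : QC C (sorb φ.range x0) := by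
    rintro _ ⟨g1, hg1, rfl⟩ _ ⟨g2, hg2, rfl⟩ z hz
    have h2 := hz.smul g1⁻¹
    rw [inv_smul_smul] at h2
    obtain ⟨u, hu⟩ := φ.range.mul_mem (φ.range.inv_mem hg1) hg2
    obtain ⟨l0, hl0⟩ := exists_ev u
    obtain ⟨l, h3, -, β, h4⟩ := exists_nf sF l0
    have h5 : ev (sg a vv c) l = g1⁻¹ * g2 := by rw [← hev, h3, hl0, hu]
    rw [← mul_smul, ← h5] at h2
    obtain ⟨A, B, -, h6⟩ := hC l β h4 _ h2
    refine ⟨g1 • ev (sg a vv c) A • x0, ⟨g1 * ev (sg a vv c) A, φ.range.mul_mem hg1 (hmem A),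
      mul_smul _ _ _⟩, ?_⟩
    rwa [d_inv_smul] at h6
  have hqa : QC θa (sorb (Subgroup.zpowers a) x0) := by rw [← orb_eq]; exact hθa
  obtain ⟨K1, hK1⟩ := overlap hG φ.range φ.range x0 hqc hqc
  obtain ⟨K2, hK2⟩ := overlap hG φ.range (Subgroup.zpowers a) x0 hqc hqa
  set Θ := θ + C + K1 + 1 with hΘ
  have hVΘ : Hyp V Θ := Hyp.mono' hV (by omega)
  have hqΘ : QC Θ (sorb φ.range x0) := QC.mono' hqc (by omega)
  refine ⟨hinj, ⟨sorb φ.range x0, Θ, ⟨by omega, hVΘ, sorb_ne _ _, ?_, hqΘ, ?_, ?_, ?_⟩⟩, ?_⟩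
  · rintro h hh _ ⟨g, hg, rfl⟩
    exact ⟨h * g, φ.range.mul_mem hh hg, mul_smul _ _ _⟩
  · rintro g hg _ ⟨b, hb, rfl⟩ _ ⟨b', hb', rfl⟩
    exact (hK1 g (hmal g hg) b hb b' hb').trans (by omega)
  · refine ⟨0, ?_⟩
    rintro _ ⟨b, hb, rfl⟩ _ ⟨b', hb', rfl⟩
    refine ⟨b * b'⁻¹, φ.range.mul_mem hb (φ.range.inv_mem hb'), ?_⟩
    rw [← mul_smul, inv_mul_cancel_right, d_self]
  · intro x
    refine ⟨K2 + 2 * (d x x0 + 16 * Θ), fun g m n => ?_⟩
    have p1 := prd_tri (sorb_ne φ.range x0) (g • a ^ m • x) (g • a ^ m • x0) (g • a ^ n • x)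
    have p2 := prd_tri (sorb_ne φ.range x0) (g • a ^ m • x0) (g • a ^ n • x0) (g • a ^ n • x)
    have p3 := prd_lip hVΘ (by omega) hqΘ (g • a ^ m • x) (g • a ^ m • x0)
    have p4 := prd_lip hVΘ (by omega) hqΘ (g • a ^ n • x0) (g • a ^ n • x)
    have p5 := hK2 g (hnc g) _ (Subgroup.zpow_mem_zpowers a m) _ (Subgroup.zpow_mem_zpowers a n)
    rw [isom, isom] at p3 p4
    rw [GMet.symm x0 x] at p4
    omega
  · intro S0
    have hfin := hG.prop x0 (S0 + 16 * Θ)
    have hfin2 : {u : FreeGroup (Fin 2) | u ≠ 1 ∧ d x0 (φ u • x0) ≤ S0 + 16 * Θ}.Finite := by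
      apply Set.Finite.subset (hfin.preimage (f := φ) hinj.injOn)
      rintro u ⟨-, hu⟩
      exact hu
    refine ⟨hfin2.toFinset, by simp, fun Q' hn hS q hq hq1 x => ?_⟩
    by_contra hlt
    push Not at hlt
    obtain ⟨y, hy⟩ := exists_pr (sorb_ne φ.range x0) x
    obtain ⟨h, ⟨u, rfl⟩, rfl⟩ := hy.1
    have hy2 : Pr (sorb φ.range x0) (φ q • x) (φ q • φ u • x0) := by
      apply hy.smul (φ q)
      · rintro _ ⟨g, hg, rfl⟩
        exact ⟨φ q * g, φ.range.mul_mem ⟨_, rfl⟩ hg, mul_smul _ _ _⟩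
      · rintro _ ⟨g, hg, rfl⟩
        exact ⟨(φ q)⁻¹ * g, φ.range.mul_mem (φ.range.inv_mem ⟨_, rfl⟩) hg, mul_smul _ _ _⟩
    have p4 := hy.p4 hVΘ (by omega) hqΘ hy2
    rw [disp_smul] at p4
    have hq' : u⁻¹ * q * u ∈ Q' := by
      have := hn.conj_mem q hq u⁻¹
      rwa [inv_inv] at this
    have hne : u⁻¹ * q * u ≠ 1 := by
      intro h
      apply hq1
      have : q = u * (u⁻¹ * q * u) * u⁻¹ := by group
      rw [this, h]; group
    apply hS (u⁻¹ * q * u) _ hq'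
    rw [Set.Finite.mem_toFinset]
    refine ⟨hne, ?_⟩
    rw [map_mul, map_mul, map_inv]
    omega

end TSq
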