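import Pool.Agent.Work.TSQ.R0
import Pool.Agent.Work.MP_50f8f6_al.Toolkit

/-!
# Orbits of cyclic groups, translates of sets
-/

namespace TSq
open FrobP GMet

section basic
variable {V : Type} [GMet V] {δ δ' : ℕ}

theorem hyp_mono (h : Hyp V δ) (hd : δ ≤ δ') : Hyp V δ' := by
  intro x y z w
  have := h x y z w
  omega

theorem qc_mono {Y : Set V} (h : QC δ Y) (hd : δ ≤ δ') : QC δ' Y := by
  intro x hx y hy z hz
  obtain ⟨w, hw, h1⟩ := h x hx y hy z hz
  exact ⟨w, hw, by omega⟩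

end basic

section tr
variable {G V : Type} [Group G] [GMet V] [MulAction G V]

/-- translate of a set -/
def tr (g : G) (Y : Set V) : Set V := {v | g⁻¹ • v ∈ Y}

theorem mem_tr {g : G} {Y : Set V} {v : V} : v ∈ tr g Y ↔ g⁻¹ • v ∈ Y := Iff.rfl

theorem smul_mem_tr {g : G} {Y : Set V} {v : V} : g • v ∈ tr g Y ↔ v ∈ Y := by
  rw [mem_tr, inv_smul_smul]

theorem prd_tr [IsomAct G V] (g : G) (Y : Set V) (x y : V) :
    prd (tr g Y) x y = prd Y (g⁻¹ • x) (g⁻¹ • y) := by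
  have h1 : ∀ y ∈ Y, g • y ∈ tr g Y := fun y hy => smul_mem_tr.2 hy
  have h2 : ∀ z ∈ tr g Y, g⁻¹ • z ∈ Y := fun z hz => hz
  have := prd_smul (Y := Y) (Z := tr g Y) g h1 h2 (g⁻¹ • x) (g⁻¹ • y)
  rwa [smul_inv_smul, smul_inv_smul] at this

theorem qc_tr [IsomAct G V] {θ : ℕ} (g : G) {Y : Set V} (h : QC θ Y) : QC θ (tr g Y) := by
  intro x hx y hy z hz
  obtain ⟨w, hw, hd⟩ := h _ hx _ hy (g⁻¹ • z) (hz.smul g⁻¹)
  refine ⟨g • w, smul_mem_tr.2 hw, ?_⟩
  have e := IsomAct.isom g (g⁻¹ • z) w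
  rw [smul_inv_smul] at e
  omega

theorem tr_ne {g : G} {Y : Set V} (h : Y.Nonempty) : (tr g Y).Nonempty := by
  obtain ⟨y, hy⟩ := h
  exact ⟨g • y, smul_mem_tr.2 hy⟩

theorem smul_mem_orb (u : G) (x v : V) (n : ℤ) : u ^ n • v ∈ orb u x ↔ v ∈ orb u x := by
  constructor
  · rintro ⟨m, hm⟩
    refine ⟨-n + m, ?_⟩
    rw [zpow_add, mul_smul, hm, zpow_neg, inv_smul_smul]
  · rintro ⟨m, hm⟩
    exact ⟨n + m, by rw [zpow_add, mul_smul, hm]⟩

theorem self_mem_orb (u : G) (x : V) : x ∈ orb u x := ⟨0, by simp⟩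

theorem zpow_mem_orb (u : G) (x : V) (n : ℤ) : u ^ n • x ∈ orb u x := ⟨n, rfl⟩

theorem orb_ne (u : G) (x : V) : (orb u x).Nonempty := ⟨x, self_mem_orb u x⟩

/-- invariance of projection distances -/
theorem prd_orb_zpow [IsomAct G V] (u : G) (x p q : V) (n : ℤ) :
    prd (orb u x) (u ^ n • p) (u ^ n • q) = prd (orb u x) p q :=
  prd_smul (u ^ n) (fun y hy => (smul_mem_orb u x y n).2 hy)
    (fun z hz => by rw [← zpow_neg]; exact (smul_mem_orb u x z (-n)).2 hz) p q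

/-- linear growth for integer exponents -/
theorem lin_zpow [IsomAct G V] {u : G} {r : ℕ} (h : ∀ (x : V) (m : ℕ), m ≤ r * d x (u ^ m • x))
    (x : V) (m n : ℤ) : |m - n| ≤ r * d (u ^ m • x) (u ^ n • x) := by
  have key : ∀ m n : ℤ, n ≤ m → |m - n| ≤ r * d (u ^ m • x) (u ^ n • x) := by
    intro m n hmn
    obtain ⟨k, hk⟩ := Int.eq_ofNat_of_zero_le (sub_nonneg.2 hmn)
    have e1 : m = n + k := by omega
    have h1 := h x k
    have e2 : d (u ^ m • x) (u ^ n • x) = d x (u ^ k • x) := by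
      rw [GMet.symm, e1, zpow_add, mul_smul, IsomAct.isom, zpow_natCast]
    rw [hk, e2, abs_of_nonneg (by positivity)]
    exact_mod_cast h1
  rcases le_total n m with h1 | h1
  · exact key m n h1
  · rw [abs_sub_comm, GMet.symm]; exact key n m h1

theorem le_zpow [IsomAct G V] (u : G) (x : V) (m n : ℤ) :
    (d (u ^ m • x) (u ^ n • x) : ℤ) ≤ |m - n| * d x (u • x) := by
  have e : d (u ^ m • x) (u ^ n • x) = d x (u ^ (n - m) • x) := by
    have : u ^ n = u ^ m * u ^ (n - m) := by rw [← zpow_add]; congr 1; ring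
    rw [this, mul_smul, IsomAct.isom]
  have h := disp_zpow u x (n - m)
  rw [e, abs_sub_comm]
  calc (d x (u ^ (n - m) • x) : ℤ) ≤ ((n - m).natAbs * d x (u • x) : ℕ) := by exact_mod_cast h
    _ = |n - m| * d x (u • x) := by rw [Nat.cast_mul, Int.natCast_natAbs]

end tr

end TSq
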