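import Pool.Agent.Work.TSQ.Interface

/-!
# Block RDU, split in two halves
-/

namespace TSq
open FrobP GMet

/-- BLOCK RDU-A: the elementary closure of `u` gives relator data. -/
def RduAStmt : Prop := ∀ (G V : Type) [Group G] [GMet V] [MulAction G V], HG G V →
  ∀ a : G, Mal a → ∀ u : G, ¬ IsOfFinOrder u →
  (∀ (h : G) (m n : ℤ), n ≠ 0 → m ≠ 0 → u ^ n ≠ h * a ^ m * h⁻¹) →
  ∃ (H : Subgroup G) (Y : Set V) (θ M0 : ℕ), RD a H Y θ ∧ u ∈ H ∧
    (Subgroup.zpowers u).relIndex H ≠ 0 ∧ 1 ≤ M0 ∧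
    ∀ h ∈ H, h * u ^ M0 * h⁻¹ = u ^ M0 ∨ h * u ^ M0 * h⁻¹ = (u ^ M0)⁻¹

/-- BLOCK RDU-B: large powers of `u` cost little. -/
def RduBStmt : Prop := ∀ (G V : Type) [Group G] [GMet V] [MulAction G V], HG G V →
  ∀ a : G, Mal a → ∀ u : G, ¬ IsOfFinOrder u →
  (∀ (h : G) (m n : ℤ), n ≠ 0 → m ≠ 0 → u ^ n ≠ h * a ^ m * h⁻¹) →
  ∀ (e : Fin 3 → G) (η : ℚ), 0 < η → η < 1 → ∃ M1 : ℕ, ∀ M : ℕ, M1 ≤ M →
    Tr1 a e (Subgroup.zpowers (u ^ M)) η ∧ Tr2 e (Subgroup.zpowers (u ^ M)) η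

theorem rdu_of (DI : DichStmt) (A : RduAStmt) (B : RduBStmt) : RDUStmt := by
  intro G V _ _ _ hG a ha u hu hc
  obtain ⟨H, Y, θ, M0, hRD, huH, hfi, hM0, hinv⟩ := A G V hG a ha u hu hc
  obtain ⟨⟨r, hr, hlin⟩, -⟩ := DI G V hG u hu
  refine ⟨H, Y, θ, hRD, fun e T η h0 h1 => ?_⟩
  obtain ⟨M1, hM1⟩ := B G V hG a ha u hu hc e η h0 h1
  -- the exponent
  set K := M1 + r * T + 1 with hK
  set M := M0 * K with hM
  have hKM : K ≤ M := Nat.le_mul_of_pos_left _ hM0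
  have hM1' : 1 ≤ M := by omega
  obtain ⟨t1, t2⟩ := hM1 M (by omega)
  refine ⟨Subgroup.zpowers (u ^ M), ⟨?_, ?_, ?_, ?_⟩, ⟨M, hM1', Subgroup.mem_zpowers _⟩, t1, t2⟩
  · rw [Subgroup.zpowers_le]; exact H.pow_mem huH M
  · intro h hh q hq
    obtain ⟨j, rfl⟩ := Subgroup.mem_zpowers_iff.1 hq
    have e1 : h * (u ^ M) ^ j * h⁻¹ = (h * u ^ M0 * h⁻¹) ^ ((K : ℤ) * j) := by
      rw [conj_zpow, zpow_mul, zpow_natCast, ← pow_mul]
    rw [e1]
    have e2 : (u ^ M0) ^ ((K : ℤ) * j) = (u ^ M) ^ j := by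
      rw [zpow_mul, zpow_natCast, ← pow_mul]
    rcases hinv h hh with h2 | h2
    · rw [h2, e2]; exact Subgroup.zpow_mem_zpowers _ j
    · rw [h2, inv_zpow, e2]; exact Subgroup.inv_mem _ (Subgroup.zpow_mem_zpowers _ j)
  · -- finite index
    have h3 : (Subgroup.zpowers (u ^ M)).relIndex (Subgroup.zpowers u) ≠ 0 := by
      have hFI : ((Subgroup.zpowers (u ^ M)).subgroupOf (Subgroup.zpowers u)).FiniteIndex := by
        have : Finite (Subgroup.zpowers u ⧸
            (Subgroup.zpowers (u ^ M)).subgroupOf (Subgroup.zpowers u)) := by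
          let f : Fin M → Subgroup.zpowers u ⧸
              (Subgroup.zpowers (u ^ M)).subgroupOf (Subgroup.zpowers u) := fun i =>
            ((⟨u ^ (i : ℕ), Subgroup.npow_mem_zpowers u i⟩ : Subgroup.zpowers u) : _)
          apply Finite.of_surjective f
          intro c
          obtain ⟨⟨x, hx⟩, rfl⟩ := QuotientGroup.mk_surjective c
          obtain ⟨n, rfl⟩ := Subgroup.mem_zpowers_iff.1 hx
          have hMpos : (0 : ℤ) < M := by exact_mod_cast hM1'
          have hn0 := Int.emod_nonneg n hMpos.ne'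
          have hn1 := Int.emod_lt_of_pos n hMpos
          obtain ⟨i, hi⟩ := Int.eq_ofNat_of_zero_le hn0
          refine ⟨⟨i, by omega⟩, ?_⟩
          apply QuotientGroup.eq.2
          rw [Subgroup.mem_subgroupOf]
          refine Subgroup.mem_zpowers_iff.2 ⟨n / M, ?_⟩
          change (u ^ M) ^ (n / (M : ℤ)) = (u ^ i)⁻¹ * u ^ n
          have e4 : n = i + M * (n / M) := by rw [← hi]; exact (Int.emod_add_mul_ediv n M).symm
          conv_rhs => rw [e4, zpow_add, zpow_natCast, inv_mul_cancel_left]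
          rw [zpow_mul, zpow_natCast]
        exact Subgroup.finiteIndex_of_finite_quotient
      exact hFI.index_ne_zero
    rw [← Subgroup.relIndex_mul_relIndex _ (Subgroup.zpowers u) H ?_ ?_]
    · exact mul_ne_zero h3 hfi
    · rw [Subgroup.zpowers_le]; exact Subgroup.npow_mem_zpowers u M
    · rw [Subgroup.zpowers_le]; exact huH
  · haveI : IsomAct G V := ⟨hG.isom⟩
    intro q hq hq1 x
    obtain ⟨j, rfl⟩ := Subgroup.mem_zpowers_iff.1 hq
    have hj : j ≠ 0 := by rintro rfl; exact hq1 (zpow_zero _)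
    have hnat : ∀ m : ℕ, M ≤ m → T ≤ d x (u ^ m • x) := by
      intro m hm
      by_contra hlt
      push Not at hlt
      have h2 := hlin x m
      have h3 : r * d x (u ^ m • x) ≤ r * T := Nat.mul_le_mul_left r hlt.le
      omega
    have hMj : M ≤ M * j.natAbs := Nat.le_mul_of_pos_right _ (Int.natAbs_pos.2 hj)
    rcases Int.natAbs_eq j with h4 | h4
    · rw [h4, zpow_natCast, ← pow_mul]; exact hnat _ hMj
    · rw [h4, zpow_neg, zpow_natCast, ← pow_mul]
      have h5 := hnat _ hMj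
      have h6 : d x ((u ^ (M * j.natAbs))⁻¹ • x) = d x (u ^ (M * j.natAbs) • x) := by
        rw [← IsomAct.isom (u ^ (M * j.natAbs)) x, smul_inv_smul, GMet.symm]
      rw [h6]; exact h5

end TSq
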