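import Pool.Agent.Work.TSQ.Overlap
import Pool.Agent.Work.TSQ.Orb
import Pool.Agent.Work.TSQ.RduDef

/-!
# Block RDU-A: the elementary closure of an element of infinite order gives relator data
-/

namespace TSq
open FrobP GMet

namespace RA

section near
variable {V : Type} [GMet V] {θ C : ℕ} {Y Z : Set V}

/-- nearest points in a set and in a coarsely dense subset -/
theorem pr_sub (hV : Hyp V θ) (h1 : 1 ≤ θ) (hY : QC θ Y) (hZY : Z ⊆ Y)
    (hYZ : ∀ y ∈ Y, ∃ z ∈ Z, d y z ≤ C) {p a b : V} (ha : Pr Y p a) (hb : Pr Z p b) :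
    d a b ≤ C + 7 * θ := by
  obtain ⟨z, hz, hd⟩ := hYZ a ha.1
  have e1 := ha.p1 hV h1 hY (hZY hb.1)
  have e2 := hb.2 z hz
  have t := tri p a z
  omega

theorem prd_sub (hV : Hyp V θ) (h1 : 1 ≤ θ) (hY : QC θ Y) (hZY : Z ⊆ Y)
    (hYZ : ∀ y ∈ Y, ∃ z ∈ Z, d y z ≤ C) (hZ : Z.Nonempty) (p q : V) :
    prd Y p q ≤ prd Z p q + 2 * (C + 7 * θ) := by
  apply prd_le
  intro a b ha hb
  obtain ⟨a', ha'⟩ := exists_pr hZ p
  obtain ⟨b', hb'⟩ := exists_pr hZ q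
  have e1 := pr_sub hV h1 hY hZY hYZ ha ha'
  have e2 := pr_sub hV h1 hY hZY hYZ hb hb'
  have e3 := le_prd ha' hb'
  have t1 := tri a a' b
  have t2 := tri a' b' b
  have s := GMet.symm b' b
  omega

/-- quadrilaterals -/
theorem quad (hV : Hyp V θ) {x y z : V} (x' y' : V) (hz : Bt x z y) :
    ∃ u, (Bt x u x' ∨ Bt x' u y' ∨ Bt y' u y) ∧ d z u ≤ 8 * θ := by
  obtain ⟨u, hu, h1⟩ := hV.slim x y x' z hz
  rcases hu with hu | hu
  · exact ⟨u, Or.inl hu, by omega⟩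
  · obtain ⟨v, hv, h2⟩ := hV.slim x' y y' u hu
    have t := tri z u v
    rcases hv with hv | hv
    · exact ⟨v, Or.inr (Or.inl hv), by omega⟩
    · exact ⟨v, Or.inr (Or.inr hv), by omega⟩

/-- a set in which a quasiconvex subset is coarsely dense is quasiconvex -/
theorem qc_sup (hV : Hyp V θ) (hZ : QC θ Z) (hZY : Z ⊆ Y)
    (hYZ : ∀ y ∈ Y, ∃ z ∈ Z, d y z ≤ C) : QC (9 * θ + C) Y := by
  intro x hx y hy z hz
  obtain ⟨x', hx', h1⟩ := hYZ x hx
  obtain ⟨y', hy', h2⟩ := hYZ y hy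
  obtain ⟨u, hu, h3⟩ := quad hV x' y' hz
  rcases hu with hu | hu | hu
  · refine ⟨x', hZY hx', ?_⟩
    have t := tri z u x'
    have := hu.d_right_le
    omega
  · obtain ⟨w, hw, h4⟩ := hZ x' hx' y' hy' u hu
    exact ⟨w, hZY hw, by have t := tri z u w; omega⟩
  · refine ⟨y', hZY hy', ?_⟩
    have := hu.d_left_le
    have t := tri z u y'
    have s1 := GMet.symm u y'
    have s2 := GMet.symm y' y
    omega

end near

section orbit
variable {G V : Type} [Group G] [GMet V] [MulAction G V] [IsomAct G V]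
  {u : G} {x : V} {r θ : ℕ}

/-- `x` is close to every interval between points of the orbit on its two sides -/
theorem near_orb (hlin : ∀ (x : V) (m : ℕ), m ≤ r * d x (u ^ m • x)) (hq : QC θ (orb u x))
    {i j : ℤ} (hi : i ≤ 0) (hj : 0 ≤ j) :
    ∃ z, Bt (u ^ i • x) z (u ^ j • x) ∧ d x z ≤ θ + r * (2 * θ + 1) * d x (u • x) := by
  obtain ⟨z, z', hz, hz', ⟨l, hl, h1⟩, ⟨l', hl', h2⟩, h3⟩ :=
    exists_switch (x := u ^ i • x) (y := u ^ j • x)
      (fun z => ∃ l : ℤ, l ≤ 0 ∧ d z (u ^ l • x) ≤ θ)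
      (fun z => ∃ l : ℤ, 0 ≤ l ∧ d z (u ^ l • x) ≤ θ)
      ⟨i, hi, by rw [d_self]; omega⟩ ⟨j, hj, by rw [d_self]; omega⟩
      (fun z hz => by
        obtain ⟨y, ⟨l, rfl⟩, hy⟩ := hq _ (zpow_mem_orb u x i) _ (zpow_mem_orb u x j) z hz
        rcases le_total l 0 with h | h
        · exact Or.inl ⟨l, h, hy⟩
        · exact Or.inr ⟨l, h, hy⟩)
  refine ⟨z, hz, ?_⟩
  have h4 : d (u ^ l • x) (u ^ l' • x) ≤ 2 * θ + 1 := by
    have t1 := tri (u ^ l • x) z (u ^ l' • x)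
    have t2 := tri z z' (u ^ l' • x)
    have s1 := GMet.symm (u ^ l • x) z
    omega
  have h5 := lin_zpow hlin x l l'
  have h6 : |l| ≤ r * (2 * θ + 1 : ℕ) := by
    have h7 : (r : ℤ) * (d (u ^ l • x) (u ^ l' • x) : ℕ) ≤ r * (2 * θ + 1 : ℕ) := by
      exact_mod_cast Nat.mul_le_mul_left r h4
    have h8 : |l| ≤ |l - l'| := by
      rw [abs_of_nonpos hl, abs_of_nonpos (by omega)]; omega
    linarith
  have h7 := le_zpow u x 0 l
  rw [zpow_zero, one_smul, zero_sub, abs_neg] at h7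
  have h8 : (d x (u ^ l • x) : ℤ) ≤ (r * (2 * θ + 1) * d x (u • x) : ℕ) := by
    refine h7.trans ?_
    have := mul_le_mul_of_nonneg_right h6 (Nat.cast_nonneg (α := ℤ) (d x (u • x)))
    push_cast at this ⊢
    linarith
  have h9 : d x (u ^ l • x) ≤ r * (2 * θ + 1) * d x (u • x) := by exact_mod_cast h8
  have t := tri x (u ^ l • x) z
  have s := GMet.symm (u ^ l • x) z
  omega

/-- elements commensurating `⟨u⟩` move `x` close to the orbit -/
theorem near_comm (hV : Hyp V θ) (hr : 1 ≤ r)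
    (hlin : ∀ (x : V) (m : ℕ), m ≤ r * d x (u ^ m • x)) (hq : QC θ (orb u x))
    {h : G} {p q : ℤ} (hp : 0 < p) (hh : h * u ^ p * h⁻¹ = u ^ q) :
    ∃ l : ℤ, d (h • x) (u ^ l • x) ≤ (θ + r * (2 * θ + 1) * d x (u • x)) + 9 * θ := by
  set D0 := d (h • x) x with hD0
  set C1 := θ + r * (2 * θ + 1) * d x (u • x) with hC1
  set J : ℕ := r * (D0 + 8 * θ + C1 + 1) with hJ
  have hpJ : (J : ℤ) ≤ p * J := by nlinarith [Nat.cast_nonneg (α := ℤ) J]
  have hJ0 : (0 : ℤ) ≤ J := Nat.cast_nonneg J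
  have hfar : ∀ n : ℤ, (J : ℤ) ≤ |n| → D0 + 8 * θ + C1 + 1 ≤ d x (u ^ n • x) := by
    intro n hn
    have h1 := lin_zpow hlin x 0 n
    rw [zpow_zero, one_smul, zero_sub, abs_neg] at h1
    have h2 : J ≤ r * d x (u ^ n • x) := by exact_mod_cast hn.trans h1
    rw [hJ] at h2
    exact Nat.le_of_mul_le_mul_left h2 hr
  have e0 : ∀ j : ℤ, h * u ^ (p * j) = u ^ (q * j) * h := by
    intro j
    rw [zpow_mul, zpow_mul, ← hh, conj_zpow]; group
  have e1 : ∀ j : ℤ, h • u ^ (p * j) • x = u ^ (q * j) • h • x := by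
    intro j
    rw [← mul_smul, e0, mul_smul]
  have f1 : ∀ j : ℤ, d (h • u ^ (p * j) • x) (u ^ (q * j) • x) = D0 := by
    intro j
    rw [e1, isom]
  obtain ⟨z, hz, hd⟩ := near_orb hlin hq (i := p * (-J)) (j := p * J) (by linarith)
    (by linarith)
  have hz' := hz.smul h
  obtain ⟨v, hv, h8⟩ := quad hV (u ^ (q * (-J)) • x) (u ^ (q * J) • x) hz'
  have i1 := isom h (u ^ (p * (-(J : ℤ))) • x) z
  have i2 := isom h z (u ^ (p * (J : ℤ)) • x)
  have i3 := isom h x z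
  rcases hv with hv | hv | hv
  · exfalso
    have g1 := hfar (p * (-J)) (by rw [mul_neg, abs_neg, abs_of_nonneg (by linarith)]; exact hpJ)
    have g2 := f1 (-(J : ℤ))
    have g3 := hv.d_left_le
    have t1 := tri (h • u ^ (p * (-(J : ℤ))) • x) v (h • z)
    have t2 := tri x z (u ^ (p * (-(J : ℤ))) • x)
    have s1 := GMet.symm v (h • z)
    have s2 := GMet.symm z (u ^ (p * (-(J : ℤ))) • x)
    omega
  · obtain ⟨y, ⟨l, rfl⟩, hy⟩ := hq _ (zpow_mem_orb u x (q * (-J))) _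
      (zpow_mem_orb u x (q * J)) v hv
    refine ⟨l, ?_⟩
    have t1 := tri (h • x) (h • z) (u ^ l • x)
    have t2 := tri (h • z) v (u ^ l • x)
    omega
  · exfalso
    have g1 := hfar (p * J) (by rw [abs_of_nonneg (by linarith)]; exact hpJ)
    have g2 := f1 J
    have g3 := hv.d_right_le
    have t1 := tri (h • z) v (h • u ^ (p * (J : ℤ)) • x)
    have t2 := tri x z (u ^ (p * (J : ℤ)) • x)
    have s1 := GMet.symm (h • u ^ (p * (J : ℤ)) • x) (u ^ (q * (J : ℤ)) • x)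
    omega

end orbit

/-! ### the commensurator of `⟨u⟩` -/

section group
variable {G : Type} [Group G]

/-- the commensurator of `⟨u⟩` -/
def comm (u : G) : Subgroup G where
  carrier := {g | ∃ p q : ℤ, 0 < p ∧ q ≠ 0 ∧ g * u ^ p * g⁻¹ = u ^ q}
  one_mem' := ⟨1, 1, by norm_num, by norm_num, by group⟩
  mul_mem' := by
    rintro g h ⟨p, q, hp, hq, e⟩ ⟨p', q', hp', hq', e'⟩
    refine ⟨p' * p, q' * q, mul_pos hp' hp, mul_ne_zero hq' hq, ?_⟩
    have e1 : g * h * u ^ (p' * p) * (g * h)⁻¹ = g * (h * u ^ p' * h⁻¹) ^ p * g⁻¹ := by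
      rw [conj_zpow, zpow_mul]; group
    rw [e1, e', ← zpow_mul, mul_comm q' p, zpow_mul, ← conj_zpow, e, ← zpow_mul, mul_comm]
  inv_mem' := by
    rintro g ⟨p, q, hp, hq, e⟩
    rcases lt_or_gt_of_ne hq with h | h
    · refine ⟨-q, -p, by omega, by omega, ?_⟩
      rw [zpow_neg, ← e, zpow_neg]; group
    · refine ⟨q, p, h, by omega, ?_⟩
      rw [← e]; group

theorem mem_comm {u g : G} : g ∈ comm u ↔
    ∃ p q : ℤ, 0 < p ∧ q ≠ 0 ∧ g * u ^ p * g⁻¹ = u ^ q := Iff.rfl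

theorem self_mem_comm (u : G) : u ∈ comm u := ⟨1, 1, by norm_num, by norm_num, by group⟩

theorem zpow_eq_iff {u : G} (hu : ¬ IsOfFinOrder u) {i j : ℤ} (h : u ^ i = u ^ j) : i = j :=
  (injective_zpow_iff_not_isOfFinOrder.2 hu) h

/-- `g` outside of the commensurator: no relations -/
theorem no_rel {u g : G} (hu : ¬ IsOfFinOrder u) (hg : g ∉ comm u) (p q : ℤ) (hp : p ≠ 0) :
    g * u ^ p * g⁻¹ ≠ u ^ q := by
  intro e
  have hq : q ≠ 0 := by
    rintro rfl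
    rw [zpow_zero] at e
    have e1 : u ^ p = u ^ (0 : ℤ) := by
      rw [zpow_zero]
      have : u ^ p = g⁻¹ * (g * u ^ p * g⁻¹) * g := by group
      rw [this, e]; group
    exact hp (zpow_eq_iff hu e1)
  rcases lt_or_gt_of_ne hp with h | h
  · refine hg ⟨-p, -q, by omega, by omega, ?_⟩
    rw [zpow_neg, zpow_neg, ← e]; group
  · exact hg ⟨p, q, h, hq, e⟩

/-- a common exponent -/
theorem exists_M0 {u : G} (hu : ¬ IsOfFinOrder u) {H : Subgroup G} (huH : u ∈ H)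
    (hfi : (Subgroup.zpowers u).relIndex H ≠ 0) :
    ∃ M0 : ℕ, 1 ≤ M0 ∧ ∀ h ∈ H, h * u ^ M0 * h⁻¹ = u ^ M0 ∨ h * u ^ M0 * h⁻¹ = (u ^ M0)⁻¹ := by
  classical
  have hex : ∃ P : ℕ, 0 < P ∧ ∀ h ∈ H, ∃ j : ℤ, h * u ^ P * h⁻¹ = u ^ j := by
    have hF : ((Subgroup.zpowers u).subgroupOf H).FiniteIndex := ⟨hfi⟩
    have hN : ((Subgroup.zpowers u).subgroupOf H).normalCore.index ≠ 0 :=
      Subgroup.FiniteIndex.index_ne_zero
    obtain ⟨P, hP, -, hPN⟩ := Subgroup.exists_pow_mem_of_index_ne_zero hN ⟨u, huH⟩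
    refine ⟨P, hP, fun h hh => ?_⟩
    have h1 := (Subgroup.normalCore_normal ((Subgroup.zpowers u).subgroupOf H)).conj_mem _ hPN
      ⟨h, hh⟩
    have h2 := Subgroup.normalCore_le _ h1
    rw [Subgroup.mem_subgroupOf] at h2
    obtain ⟨j, hj⟩ := Subgroup.mem_zpowers_iff.1 h2
    exact ⟨j, hj.symm⟩
  set M0 := Nat.find hex with hM
  obtain ⟨hM0, hM0'⟩ := Nat.find_spec hex
  rw [← hM] at hM0 hM0'
  have hMpos : (0 : ℤ) < M0 := by exact_mod_cast hM0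
  have hdvd : ∀ k : ℤ, (∀ h ∈ H, ∃ j : ℤ, h * u ^ k * h⁻¹ = u ^ j) → (M0 : ℤ) ∣ k := by
    intro k hk
    have h0 := Int.emod_nonneg k hMpos.ne'
    have h1 := Int.emod_lt_of_pos k hMpos
    obtain ⟨m, hm⟩ := Int.eq_ofNat_of_zero_le h0
    by_contra hnd
    have hm0 : 0 < m := by
      rcases Nat.eq_zero_or_pos m with h | h
      · exfalso
        rw [h] at hm
        exact hnd (Int.dvd_of_emod_eq_zero (by rw [hm]; rfl))
      · exact h
    refine Nat.find_min hex (m := m) (by omega) ⟨hm0, fun h hh => ?_⟩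
    obtain ⟨j, hj⟩ := hk h hh
    obtain ⟨j', hj'⟩ := hM0' h hh
    refine ⟨j - j' * (k / M0), ?_⟩
    have e4 : (m : ℤ) = k - M0 * (k / M0) := by
      rw [← hm]; have := Int.emod_add_mul_ediv k M0; linarith
    have e5 : u ^ m = u ^ k * ((u ^ M0) ^ (k / (M0 : ℤ)))⁻¹ := by
      rw [← zpow_natCast, e4, zpow_sub, zpow_mul, zpow_natCast]
    rw [e5, zpow_sub, ← hj, zpow_mul, ← hj', conj_zpow]
    group
  have key : ∀ h ∈ H, ∃ a : ℤ, h * u ^ M0 * h⁻¹ = u ^ (M0 * a : ℤ) := by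
    intro h hh
    obtain ⟨k, hk⟩ := hM0' h hh
    have : (M0 : ℤ) ∣ k := hdvd k fun g hg => by
      obtain ⟨j, hj⟩ := hM0' (g * h) (H.mul_mem hg hh)
      refine ⟨j, ?_⟩
      rw [← hk, ← hj]; group
    obtain ⟨a, rfl⟩ := this
    exact ⟨a, hk⟩
  refine ⟨M0, hM0, fun h hh => ?_⟩
  obtain ⟨a, ha⟩ := key h hh
  obtain ⟨b, hb⟩ := key h⁻¹ (H.inv_mem hh)
  have e6 : u ^ (M0 : ℤ) = u ^ (M0 * (b * a) : ℤ) := by
    have e7 : u ^ (M0 : ℤ) = h⁻¹ * (h * u ^ M0 * h⁻¹) * h := by rw [zpow_natCast]; group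
    have e8 : h⁻¹ * u ^ (M0 * a : ℤ) * h = (h⁻¹ * u ^ M0 * h⁻¹⁻¹) ^ a := by
      rw [conj_zpow, zpow_mul, zpow_natCast, inv_inv]
    rw [e7, ha, e8, hb, ← zpow_mul, mul_assoc]
  have e7 := zpow_eq_iff hu e6
  have e8 : b * a = 1 := by
    have : (M0 : ℤ) * 1 = M0 * (b * a) := by rw [mul_one]; exact e7
    exact (mul_left_cancel₀ hMpos.ne' this).symm
  rcases Int.eq_one_or_neg_one_of_mul_eq_one' e8 with ⟨-, h2⟩ | ⟨-, h2⟩
  · left; rw [ha, h2, mul_one, zpow_natCast]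
  · right; rw [ha, h2, mul_neg, mul_one, zpow_neg, zpow_natCast]

end group

end RA

open RA in
theorem rduA (DI : DichStmt) : RduAStmt := by
  intro G V _ _ _ hG a ha u hu hc
  have : IsomAct G V := ⟨hG.isom⟩
  obtain ⟨x⟩ := hG.ne
  obtain ⟨⟨r, hr, hlin⟩, hqc⟩ := DI G V hG u hu
  obtain ⟨θ0, hθ0⟩ := hqc x
  obtain ⟨δ, hδ⟩ := hG.hyp
  set θ := θ0 + δ + 1 with hθ
  have h1 : 1 ≤ θ := by omega
  have hV : Hyp V θ := hyp_mono hδ (by omega)
  have hq : QC θ (orb u x) := qc_mono hθ0 (by omega)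
  set C := (θ + r * (2 * θ + 1) * d x (u • x)) + 9 * θ with hC
  set H := comm u with hH
  have huH : u ∈ H := self_mem_comm u
  -- points of the `H`-orbit are close to the `u`-orbit
  have hnear : ∀ h ∈ H, ∃ l : ℤ, d (h • x) (u ^ l • x) ≤ C := by
    rintro h ⟨p, q, hp, -, e⟩
    exact near_comm hV hr hlin hq hp e
  -- finite index
  have hfi : (Subgroup.zpowers u).relIndex H ≠ 0 := by
    have hB := hG.prop x C
    have hF : Finite {b : G // b ∈ {g : G | d x (g • x) ≤ C} ∧ b ∈ H} :=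
      (hB.subset (fun b hb => hb.1) : ({b : G | b ∈ {g : G | d x (g • x) ≤ C} ∧ b ∈ H}).Finite)
    have hFI : ((Subgroup.zpowers u).subgroupOf H).FiniteIndex := by
      have : Finite (H ⧸ (Subgroup.zpowers u).subgroupOf H) := by
        let f : {b : G // b ∈ {g : G | d x (g • x) ≤ C} ∧ b ∈ H} →
            H ⧸ (Subgroup.zpowers u).subgroupOf H := fun b =>
          ((⟨b.1⁻¹, H.inv_mem b.2.2⟩ : H) : _)
        apply Finite.of_surjective f
        intro c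
        obtain ⟨⟨h, hh⟩, rfl⟩ := QuotientGroup.mk_surjective c
        obtain ⟨l, hl⟩ := hnear h⁻¹ (H.inv_mem hh)
        refine ⟨⟨(u ^ l)⁻¹ * h⁻¹, ?_, H.mul_mem (H.inv_mem (H.zpow_mem huH l)) (H.inv_mem hh)⟩, ?_⟩
        · change d x (((u ^ l)⁻¹ * h⁻¹) • x) ≤ C
          rw [mul_smul, ← isom (u ^ l) x, smul_inv_smul, GMet.symm]
          exact hl
        · apply QuotientGroup.eq.2
          rw [Subgroup.mem_subgroupOf]
          refine Subgroup.mem_zpowers_iff.2 ⟨-l, ?_⟩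
          change u ^ (-l) = (((u ^ l)⁻¹ * h⁻¹)⁻¹)⁻¹ * h
          rw [zpow_neg]; group
      exact Subgroup.finiteIndex_of_finite_quotient
    exact hFI.index_ne_zero
  obtain ⟨M0, hM0, hM0'⟩ := exists_M0 hu huH hfi
  -- overlaps
  have OV := over_of_dich DI
  obtain ⟨K1, hK1⟩ := OV G V hG u u hu hu x
  obtain ⟨K2, hK2⟩ := OV G V hG u a hu ha.inf x
  set Y := sorb H x with hY
  have hZY : orb u x ⊆ Y := by
    rintro y ⟨n, rfl⟩
    exact ⟨u ^ n, H.zpow_mem huH n, rfl⟩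
  have hYZ : ∀ y ∈ Y, ∃ z ∈ orb u x, d y z ≤ C := by
    rintro y ⟨h, hh, rfl⟩
    obtain ⟨l, hl⟩ := hnear h hh
    exact ⟨_, zpow_mem_orb u x l, hl⟩
  -- the constant
  set Θ := K1 + 100 * (θ + C) with hΘ
  have h1' : 1 ≤ Θ := by omega
  have hV' : Hyp V Θ := hyp_mono hV (by omega)
  have hqY' : QC (9 * θ + C) Y := qc_sup hV hq hZY hYZ
  have hqY : QC Θ Y := qc_mono hqY' (by omega)
  have hV2 : Hyp V (9 * θ + C) := hyp_mono hV (by omega)
  have hsub : ∀ p q : V, prd Y p q ≤ prd (orb u x) p q + 2 * (C + 7 * (9 * θ + C)) :=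
    prd_sub hV2 (by omega) hqY' hZY hYZ (orb_ne u x)
  refine ⟨H, Y, Θ, M0, ⟨h1', hV', sorb_ne H x, ?_, hqY, ?_, ?_, ?_⟩, huH, hfi, hM0, hM0'⟩
  · rintro h hh y ⟨g, hg, rfl⟩
    exact ⟨h * g, H.mul_mem hh hg, by rw [mul_smul]⟩
  · intro g hg y hy y' hy'
    obtain ⟨z, ⟨m, rfl⟩, hz⟩ := hYZ y hy
    obtain ⟨z', ⟨n, rfl⟩, hz'⟩ := hYZ y' hy'
    have e1 := hK1 g (no_rel hu hg) m n
    have e2 := hsub (g • y) (g • y')
    have e3 := FrobP.prd_tri (orb_ne u x) (g • y) (g • u ^ m • x) (g • y')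
    have e4 := FrobP.prd_tri (orb_ne u x) (g • u ^ m • x) (g • u ^ n • x) (g • y')
    have e5 := prd_lip hV h1 hq (g • y) (g • u ^ m • x)
    have e6 := prd_lip hV h1 hq (g • u ^ n • x) (g • y')
    rw [isom] at e5 e6
    have s := GMet.symm (u ^ n • x) y'
    omega
  · refine ⟨0, ?_⟩
    rintro y ⟨g, hg, rfl⟩ y' ⟨g', hg', rfl⟩
    refine ⟨g * g'⁻¹, H.mul_mem hg (H.inv_mem hg'), ?_⟩
    rw [mul_smul, inv_smul_smul, d_self]
  · intro x0
    refine ⟨K2 + 2 * d x0 x + 2 * (C + 7 * (9 * θ + C)) + 32 * θ, fun g m n => ?_⟩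
    have e1 := hK2 g ?_ m n
    · have e2 := hsub (g • a ^ m • x0) (g • a ^ n • x0)
      have e3 := FrobP.prd_tri (orb_ne u x) (g • a ^ m • x0) (g • a ^ m • x) (g • a ^ n • x0)
      have e4 := FrobP.prd_tri (orb_ne u x) (g • a ^ m • x) (g • a ^ n • x) (g • a ^ n • x0)
      have e5 := prd_lip hV h1 hq (g • a ^ m • x0) (g • a ^ m • x)
      have e6 := prd_lip hV h1 hq (g • a ^ n • x) (g • a ^ n • x0)
      rw [isom, isom] at e5 e6
      have s := GMet.symm x x0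
      omega
    · intro p q hp e
      rcases eq_or_ne q 0 with h | h
      · rw [h, zpow_zero] at e
        have e1 : a ^ p = a ^ (0 : ℤ) := by
          rw [zpow_zero]
          have : a ^ p = g⁻¹ * (g * a ^ p * g⁻¹) * g := by group
          rw [this, e]; group
        exact hp (zpow_eq_iff ha.inf e1)
      · exact hc g p q h hp e.symm

end TSq
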