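import Pool.Agent.Work.TSQ.RduDef
import Pool.Agent.Work.TSQ.PSb

/-!
# Block RDU-B: large powers of `u` cost little

Labels `⌊(posu g + t) / M⌋` for a position function `posu` with `posu (u g) = posu g + 1`.
-/

namespace TSq
open FrobP GMet

namespace RB

/-- the values of `t` for which the interval `[c - L, c + L]` is cut -/
def bad (M L : ℕ) (c : ℤ) : Finset ℕ :=
  (Finset.range M).filter fun t => (c - L + t) / (M : ℤ) ≠ (c + L + t) / (M : ℤ)

theorem bad_card (M L : ℕ) (hM : 1 ≤ M) (c : ℤ) : (bad M L c).card ≤ 2 * L := by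
  classical
  have hM0 : (0 : ℤ) < M := by exact_mod_cast hM
  have h := Finset.card_le_card_of_injOn (s := bad M L c) (t := Finset.range (2 * L))
    (fun t => ((c + L + t) / (M : ℤ) * M - (c - L + t) - 1).toNat) ?_ ?_
  · rwa [Finset.card_range] at h
  · intro t ht
    have ht2 := (Finset.mem_filter.1 (Finset.mem_coe.1 ht)).2
    have a1 : (c - L + t) / (M : ℤ) < (c + L + t) / (M : ℤ) :=
      lt_of_le_of_ne (Int.ediv_le_ediv hM0 (by omega)) ht2
    have a2 : (c + L + t) / (M : ℤ) * M ≤ c + L + t := Int.ediv_mul_le _ hM0.ne'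
    have a3 : c - L + t < (c + L + t) / (M : ℤ) * M := by
      rw [← Int.ediv_lt_iff_lt_mul hM0]; exact a1
    rw [Finset.mem_coe, Finset.mem_range]
    simp only
    omega
  · intro t ht t' ht' heq
    obtain ⟨ht1, ht2⟩ := Finset.mem_filter.1 (Finset.mem_coe.1 ht)
    obtain ⟨ht1', ht2'⟩ := Finset.mem_filter.1 (Finset.mem_coe.1 ht')
    rw [Finset.mem_range] at ht1 ht1'
    have a1 : (c - L + t) / (M : ℤ) < (c + L + t) / (M : ℤ) :=
      lt_of_le_of_ne (Int.ediv_le_ediv hM0 (by omega)) ht2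
    have a3 : c - L + t < (c + L + t) / (M : ℤ) * M := by
      rw [← Int.ediv_lt_iff_lt_mul hM0]; exact a1
    have b1 : (c - L + t') / (M : ℤ) < (c + L + t') / (M : ℤ) :=
      lt_of_le_of_ne (Int.ediv_le_ediv hM0 (by omega)) ht2'
    have b3 : c - L + t' < (c + L + t') / (M : ℤ) * M := by
      rw [← Int.ediv_lt_iff_lt_mul hM0]; exact b1
    simp only at heq
    have h3 : ((c + L + t) / (M : ℤ) - (c + L + t') / (M : ℤ)) * M = (t : ℤ) - t' := by
      rw [sub_mul]
      omega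
    have h4 : (c + L + t) / (M : ℤ) = (c + L + t') / (M : ℤ) := by
      by_contra hne
      rcases lt_or_gt_of_ne hne with h5 | h5
      · have : ((c + L + t) / (M : ℤ) - (c + L + t') / (M : ℤ)) * M ≤ -1 * M :=
          mul_le_mul_of_nonneg_right (by omega) hM0.le
        omega
      · have : 1 * (M : ℤ) ≤ ((c + L + t) / (M : ℤ) - (c + L + t') / (M : ℤ)) * M :=
          mul_le_mul_of_nonneg_right (by omega) hM0.le
        omega
    rw [h4, sub_self, zero_mul] at h3
    omega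

/-- not cut: all values in the interval have the same label -/
theorem label_eq {M L : ℕ} (hM : 1 ≤ M) {c : ℤ} {t : ℕ} (ht : t < M) (h : t ∉ bad M L c) {p : ℤ}
    (hp : |p - c| ≤ L) : (p + t) / (M : ℤ) = (c + t) / (M : ℤ) := by
  have hM0 : (0 : ℤ) < M := by exact_mod_cast hM
  have h1 : (c - L + t) / (M : ℤ) = (c + L + t) / (M : ℤ) := by
    by_contra hne
    exact h (Finset.mem_filter.2 ⟨Finset.mem_range.2 ht, hne⟩)
  rw [abs_le] at hp
  have a1 : (c - L + t) / (M : ℤ) ≤ (p + t) / (M : ℤ) := Int.ediv_le_ediv hM0 (by omega)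
  have a2 : (p + t) / (M : ℤ) ≤ (c + L + t) / (M : ℤ) := Int.ediv_le_ediv hM0 (by omega)
  have a3 : (c - L + t) / (M : ℤ) ≤ (c + t) / (M : ℤ) := Int.ediv_le_ediv hM0 (by omega)
  have a4 : (c + t) / (M : ℤ) ≤ (c + L + t) / (M : ℤ) := Int.ediv_le_ediv hM0 (by omega)
  omega

/-- a value of `t` which cuts few elements of `F` -/
theorem exists_t {α : Type} (F : Finset α) (M L : ℕ) (hM : 1 ≤ M) (c : α → ℤ) :
    ∃ t < M, (F.filter fun p => t ∈ bad M L (c p)).card * M ≤ 2 * L * F.card := by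
  classical
  by_contra hcon
  push Not at hcon
  have h1 : ∑ t ∈ Finset.range M, (F.filter fun p => t ∈ bad M L (c p)).card ≤
      2 * L * F.card := by
    have h2 : ∑ t ∈ Finset.range M, (F.filter fun p => t ∈ bad M L (c p)).card =
        ∑ p ∈ F, ((Finset.range M).filter fun t => t ∈ bad M L (c p)).card :=
      Finset.sum_card_bipartiteAbove_eq_sum_card_bipartiteBelow (fun t p => t ∈ bad M L (c p))
    rw [h2]
    calc ∑ p ∈ F, ((Finset.range M).filter fun t => t ∈ bad M L (c p)).card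
        ≤ ∑ _p ∈ F, 2 * L := Finset.sum_le_sum fun p _ => by
          refine (Finset.card_le_card ?_).trans (bad_card M L hM (c p))
          intro t ht
          exact (Finset.mem_filter.1 ht).2
      _ = 2 * L * F.card := by rw [Finset.sum_const, smul_eq_mul, mul_comm]
  have h3 : ∑ t ∈ Finset.range M, 2 * L * F.card <
      ∑ t ∈ Finset.range M, (F.filter fun p => t ∈ bad M L (c p)).card * M :=
    Finset.sum_lt_sum_of_nonempty ⟨0, Finset.mem_range.2 (by omega)⟩ fun t ht =>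
      hcon t (Finset.mem_range.1 ht)
  rw [Finset.sum_const, Finset.card_range, smul_eq_mul, ← Finset.sum_mul] at h3
  have h4 := Nat.mul_le_mul_right M h1
  rw [mul_comm M] at h3
  omega

theorem mem_nb {G G2 M : Type} [Group G] [Group G2] (a : G) (e : Fin 3 → G) (f : Fin 3 → G2)
    (π : Ln a × G2 → M) (F : Finset (G × G2)) (m : M) :
    m ∈ nb a e f π F ↔ ∃ p ∈ F, ∃ i, π (nd a e f p i) = m := by
  unfold nb
  simp only [Finset.mem_biUnion, Finset.mem_image, Finset.mem_univ, true_and]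

theorem ww_hall {G G2 : Type} [Group G] [Group G2] {a : G} {e : Fin 3 → G} {f : Fin 3 → G2} {κ : ℚ}
    (h : WW a e f κ) (F : Finset (G × G2)) : κ * F.card ≤ (nb a e f id F).card := by
  classical
  have h1 := h (fun _ => ln a 1) F
  have h2 : (wd fun _ : Fin 3 => ln a 1 : Ln a × G2 → Ln a × G2) = id := by
    funext n
    unfold wd
    split_ifs with h3
    · obtain ⟨i, hi⟩ := h3
      exact Prod.ext hi rfl
    · rfl
  rw [h2] at h1
  exact h1

/-- the arithmetic at the end -/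
theorem final {M L F F' : ℕ} {η κ : ℚ} (hκ : 0 ≤ κ) (hM : 2 * (L : ℚ) ≤ η * M) (hM1 : 1 ≤ M)
    (h : (F - F') * M ≤ 2 * L * F) (hF : F' ≤ F) {n : ℕ} (hn : κ * F' ≤ n) :
    (1 - η) * κ * F ≤ n := by
  have hM0 : (0 : ℚ) < M := by exact_mod_cast hM1
  have h1 : ((F : ℚ) - F') * M ≤ 2 * L * F := by
    have : (((F - F') * M : ℕ) : ℚ) ≤ ((2 * L * F : ℕ) : ℚ) := by exact_mod_cast h
    rw [Nat.cast_mul, Nat.cast_sub hF] at this
    push_cast at this
    exact this
  have h2 : ((F : ℚ) - F') * M ≤ η * F * M := by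
    have : 2 * (L : ℚ) * F ≤ η * M * F := mul_le_mul_of_nonneg_right hM (Nat.cast_nonneg _)
    linarith
  have h3 : (F : ℚ) - F' ≤ η * F := le_of_mul_le_mul_right h2 hM0
  have h4 : (1 - η) * F ≤ F' := by linarith
  calc (1 - η) * κ * F = κ * ((1 - η) * F) := by ring
    _ ≤ κ * F' := mul_le_mul_of_nonneg_left h4 hκ
    _ ≤ n := hn

section
variable {G : Type} [Group G] {u : G} {posu : G → ℤ} {M : ℕ}

theorem label_shift (hshift : ∀ (j : ℤ) (g : G), posu (u ^ j * g) = posu g + j) (hM : 1 ≤ M)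
    (t : ℕ) (j : ℤ) (g : G) :
    (posu ((u ^ M) ^ j * g) + t) / (M : ℤ) = (posu g + t) / (M : ℤ) + j := by
  have hM0 : (M : ℤ) ≠ 0 := by exact_mod_cast (by omega : M ≠ 0)
  rw [← zpow_natCast, ← zpow_mul, hshift]
  have : posu g + (M : ℤ) * j + t = posu g + t + j * M := by ring
  rw [this, Int.add_mul_ediv_right _ _ hM0]

theorem tr1 (a : G) (e : Fin 3 → G) {L : ℕ} {η : ℚ}
    (hshift : ∀ (j : ℤ) (g : G), posu (u ^ j * g) = posu g + j)
    (hL : ∀ (g : G) (i : Fin 3) (n : ℤ), |posu (g * e i * a ^ n) - posu g| ≤ L) (hM : 1 ≤ M)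
    (hη : 2 * (L : ℚ) ≤ η * M) : Tr1 a e (Subgroup.zpowers (u ^ M)) η := by
  classical
  intro G2 _ f κ hκ hW F hF
  obtain ⟨t, ht, hcut⟩ := exists_t F M L hM (fun p => posu p.1)
  set lb : G → ℤ := fun g => (posu g + t) / (M : ℤ) with hlb
  have hsh : ∀ (j : ℤ) (g : G), lb ((u ^ M) ^ j * g) = lb g + j := fun j g =>
    label_shift hshift hM t j g
  set F' := F.filter fun p => t ∉ bad M L (posu p.1) with hF'
  set ψ : G × G2 → G × G2 := fun p => ((u ^ M) ^ (-lb p.1) * p.1, p.2) with hψ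
  have hinj : Set.InjOn ψ F' := by
    intro p hp p' hp' h
    have h1 : (u ^ M) ^ (-lb p.1) * p.1 = (u ^ M) ^ (-lb p'.1) * p'.1 := (Prod.ext_iff.1 h).1
    have h2 : p.2 = p'.2 := (Prod.ext_iff.1 h).2
    refine hF p (Finset.mem_filter.1 (Finset.mem_coe.1 hp)).1 p'
      (Finset.mem_filter.1 (Finset.mem_coe.1 hp')).1 h2 ((u ^ M) ^ (lb p'.1 - lb p.1))
      (Subgroup.zpow_mem_zpowers _ _) ?_
    have h3 : (u ^ M) ^ (lb p'.1 - lb p.1) = (u ^ M) ^ lb p'.1 * (u ^ M) ^ (-lb p.1) := by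
      rw [← zpow_add]; rfl
    rw [h3, mul_assoc, h1, ← mul_assoc, ← zpow_add, add_neg_cancel, zpow_zero, one_mul]
  set F2 := F'.image ψ with hF2
  have hcard : F2.card = F'.card := Finset.card_image_of_injOn hinj
  have hz : ∀ p ∈ F', ∀ (i : Fin 3) (n : ℤ), lb ((ψ p).1 * e i * a ^ n) = 0 := by
    intro p hp i n
    have h1 : (ψ p).1 * e i * a ^ n = (u ^ M) ^ (-lb p.1) * (p.1 * e i * a ^ n) := by
      rw [hψ]; simp only [mul_assoc]
    rw [h1, hsh]
    have h2 : lb (p.1 * e i * a ^ n) = lb p.1 :=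
      label_eq hM ht (Finset.mem_filter.1 hp).2 (hL p.1 i n)
    rw [h2]; ring
  have hH := ww_hall hW F2
  rw [hcard] at hH
  refine final (M := M) (L := L) (F := F.card) (F' := F'.card) hκ hη hM ?_
    (Finset.card_filter_le _ _) (hH.trans ?_)
  · have h1 := Finset.card_filter_add_card_filter_not (s := F) (fun p => t ∈ bad M L (posu p.1))
    have h2 : F.card - F'.card = (F.filter fun p => t ∈ bad M L (posu p.1)).card := by
      rw [hF']; omega
    rw [h2]; exact hcut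
  · have := Finset.card_le_card_of_injOn (s := nb a e f id F2)
      (t := nb a e f (Prod.map (Quotient.mk (MulAction.orbitRel
        (Subgroup.zpowers (u ^ M)) (Ln a))) id) F)
      (Prod.map (Quotient.mk (MulAction.orbitRel (Subgroup.zpowers (u ^ M)) (Ln a))) id) ?_ ?_
    · exact_mod_cast this
    · intro m hm
      obtain ⟨p2, hp2, i, rfl⟩ := (mem_nb _ _ _ _ _ _).1 (Finset.mem_coe.1 hm)
      obtain ⟨p, hp, rfl⟩ := Finset.mem_image.1 hp2
      refine Finset.mem_coe.2 ((mem_nb _ _ _ _ _ _).2 ⟨p, (Finset.mem_filter.1 hp).1, i, ?_⟩)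
      refine Prod.ext ?_ rfl
      refine (Quotient.sound (s := MulAction.orbitRel (Subgroup.zpowers (u ^ M)) (Ln a)) ?_).symm
      refine ⟨⟨(u ^ M) ^ (-lb p.1), Subgroup.zpow_mem_zpowers _ _⟩, ?_⟩
      change ln a ((u ^ M) ^ (-lb p.1) * (p.1 * e i)) = ln a ((u ^ M) ^ (-lb p.1) * p.1 * e i)
      rw [mul_assoc]
    · intro m hm m' hm' heq
      obtain ⟨p2, hp2, i, rfl⟩ := (mem_nb _ _ _ _ _ _).1 (Finset.mem_coe.1 hm)
      obtain ⟨p, hp, rfl⟩ := Finset.mem_image.1 hp2
      obtain ⟨p2', hp2', i', rfl⟩ := (mem_nb _ _ _ _ _ _).1 (Finset.mem_coe.1 hm')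
      obtain ⟨p', hp', rfl⟩ := Finset.mem_image.1 hp2'
      have h1 := congrArg Prod.fst heq
      have h2 := congrArg Prod.snd heq
      have h3 : (MulAction.orbitRel (Subgroup.zpowers (u ^ M)) (Ln a))
          (ln a ((ψ p).1 * e i)) (ln a ((ψ p').1 * e i')) :=
        Quotient.exact (s := MulAction.orbitRel (Subgroup.zpowers (u ^ M)) (Ln a)) h1
      obtain ⟨⟨q, hq⟩, hq2⟩ := h3
      obtain ⟨j, rfl⟩ := Subgroup.mem_zpowers_iff.1 hq
      have h4 : ln a ((u ^ M) ^ j * ((ψ p').1 * e i')) = ln a ((ψ p).1 * e i) := hq2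
      obtain ⟨n, hn⟩ := Subgroup.mem_zpowers_iff.1 (QuotientGroup.eq.1 h4)
      have h5 : (ψ p).1 * e i = (u ^ M) ^ j * ((ψ p').1 * e i' * a ^ n) := by
        rw [hn]; group
      have h6 := hz p hp i 0
      rw [zpow_zero, mul_one, h5, hsh, hz p' hp' i' n, zero_add] at h6
      rw [h6, zpow_zero, one_mul] at h4
      exact Prod.ext h4.symm h2

theorem tr2 (e : Fin 3 → G) {L : ℕ} {η : ℚ}
    (hshift : ∀ (j : ℤ) (g : G), posu (u ^ j * g) = posu g + j)
    (hL : ∀ (g : G) (i : Fin 3), |posu (g * e i) - posu g| ≤ L) (hM : 1 ≤ M)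
    (hη : 2 * (L : ℚ) ≤ η * M) : Tr2 e (Subgroup.zpowers (u ^ M)) η := by
  classical
  intro G1 _ a1 e1 κ hκ hW P F hF
  obtain ⟨t, ht, hcut⟩ := exists_t F M L hM (fun p => posu p.2)
  set lb : G → ℤ := fun g => (posu g + t) / (M : ℤ) with hlb
  have hsh : ∀ (j : ℤ) (g : G), lb ((u ^ M) ^ j * g) = lb g + j := fun j g =>
    label_shift hshift hM t j g
  set F' := F.filter fun p => t ∉ bad M L (posu p.2) with hF'
  set ψ : G1 × G → G1 × G := fun p => (p.1, (u ^ M) ^ (-lb p.2) * p.2) with hψ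
  have hinj : Set.InjOn ψ F' := by
    intro p hp p' hp' h
    have h1 : (u ^ M) ^ (-lb p.2) * p.2 = (u ^ M) ^ (-lb p'.2) * p'.2 := (Prod.ext_iff.1 h).2
    have h2 : p.1 = p'.1 := (Prod.ext_iff.1 h).1
    refine hF p (Finset.mem_filter.1 (Finset.mem_coe.1 hp)).1 p'
      (Finset.mem_filter.1 (Finset.mem_coe.1 hp')).1 h2 ((u ^ M) ^ (lb p'.2 - lb p.2))
      (Subgroup.zpow_mem_zpowers _ _) ?_
    have h3 : (u ^ M) ^ (lb p'.2 - lb p.2) = (u ^ M) ^ lb p'.2 * (u ^ M) ^ (-lb p.2) := by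
      rw [← zpow_add]; rfl
    rw [h3, mul_assoc, h1, ← mul_assoc, ← zpow_add, add_neg_cancel, zpow_zero, one_mul]
  set F2 := F'.image ψ with hF2
  have hcard : F2.card = F'.card := Finset.card_image_of_injOn hinj
  have hz : ∀ p ∈ F', ∀ (i : Fin 3), lb ((ψ p).2 * e i) = 0 := by
    intro p hp i
    have h1 : (ψ p).2 * e i = (u ^ M) ^ (-lb p.2) * (p.2 * e i) := by
      rw [hψ]; simp only [mul_assoc]
    rw [h1, hsh]
    have h2 : lb (p.2 * e i) = lb p.2 :=
      label_eq hM ht (Finset.mem_filter.1 hp).2 (hL p.2 i)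
    rw [h2]; ring
  have hH := hW P F2
  rw [hcard] at hH
  refine final (M := M) (L := L) (F := F.card) (F' := F'.card) hκ hη hM ?_
    (Finset.card_filter_le _ _) (hH.trans ?_)
  · have h1 := Finset.card_filter_add_card_filter_not (s := F) (fun p => t ∈ bad M L (posu p.2))
    have h2 : F.card - F'.card = (F.filter fun p => t ∈ bad M L (posu p.2)).card := by
      rw [hF']; omega
    rw [h2]; exact hcut
  · have hw2 : ∀ n : Ln a1 × G, (wd P n).2 = n.2 := by
      intro n; unfold wd; split_ifs <;> rfl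
    have hw1 : ∀ n n' : Ln a1 × G, n.1 = n'.1 → (wd P n).1 = (wd P n').1 := by
      intro n n' h; unfold wd; rw [h]; split_ifs
      · rfl
      · exact h
    have := Finset.card_le_card_of_injOn (s := nb a1 e1 e (wd P) F2)
      (t := nb a1 e1 e (fun m => Prod.map id (Quotient.mk (MulAction.orbitRel
        (Subgroup.zpowers (u ^ M)) G)) (wd P m)) F)
      (Prod.map id (Quotient.mk (MulAction.orbitRel (Subgroup.zpowers (u ^ M)) G))) ?_ ?_
    · exact_mod_cast this
    · intro m hm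
      obtain ⟨p2, hp2, i, rfl⟩ := (mem_nb _ _ _ _ _ _).1 (Finset.mem_coe.1 hm)
      obtain ⟨p, hp, rfl⟩ := Finset.mem_image.1 hp2
      refine Finset.mem_coe.2 ((mem_nb _ _ _ _ _ _).2 ⟨p, (Finset.mem_filter.1 hp).1, i, ?_⟩)
      refine Prod.ext (hw1 _ _ rfl) ?_
      change Quotient.mk (MulAction.orbitRel (Subgroup.zpowers (u ^ M)) G)
        ((wd P (nd a1 e1 e p i)).2) = Quotient.mk _ ((wd P (nd a1 e1 e (ψ p) i)).2)
      rw [hw2, hw2]
      refine (Quotient.sound (s := MulAction.orbitRel (Subgroup.zpowers (u ^ M)) G) ?_).symm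
      refine ⟨⟨(u ^ M) ^ (-lb p.2), Subgroup.zpow_mem_zpowers _ _⟩, ?_⟩
      change (u ^ M) ^ (-lb p.2) * (p.2 * e i) = (u ^ M) ^ (-lb p.2) * p.2 * e i
      rw [mul_assoc]
    · intro m hm m' hm' heq
      obtain ⟨p2, hp2, i, rfl⟩ := (mem_nb _ _ _ _ _ _).1 (Finset.mem_coe.1 hm)
      obtain ⟨p, hp, rfl⟩ := Finset.mem_image.1 hp2
      obtain ⟨p2', hp2', i', rfl⟩ := (mem_nb _ _ _ _ _ _).1 (Finset.mem_coe.1 hm')
      obtain ⟨p', hp', rfl⟩ := Finset.mem_image.1 hp2'
      have h1 := congrArg Prod.fst heq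
      have h2 := congrArg Prod.snd heq
      have h1' : (wd P (nd a1 e1 e (ψ p) i)).1 = (wd P (nd a1 e1 e (ψ p') i')).1 := h1
      have h2' : Quotient.mk (MulAction.orbitRel (Subgroup.zpowers (u ^ M)) G)
        ((wd P (nd a1 e1 e (ψ p) i)).2) = Quotient.mk _ ((wd P (nd a1 e1 e (ψ p') i')).2) := h2
      rw [hw2, hw2] at h2'
      obtain ⟨⟨q, hq⟩, hq2⟩ :=
        Quotient.exact (s := MulAction.orbitRel (Subgroup.zpowers (u ^ M)) G) h2'
      obtain ⟨j, rfl⟩ := Subgroup.mem_zpowers_iff.1 hq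
      have h4 : (u ^ M) ^ j * ((ψ p').2 * e i') = (ψ p).2 * e i := hq2
      have h6 := hz p hp i
      rw [← h4, hsh, hz p' hp' i', zero_add] at h6
      rw [h6, zpow_zero, one_mul] at h4
      refine Prod.ext h1' ?_
      rw [hw2, hw2]
      exact h4.symm

end

end RB

theorem rduB (DI : DichStmt) (OV : OverStmt) : RduBStmt := by
  intro G V _ _ _ hG a ha u hu hc e η h0 h1
  haveI : IsomAct G V := ⟨hG.isom⟩
  obtain ⟨x, -, -⟩ := hG.cob
  obtain ⟨⟨r, hr1, hlin⟩, hqc⟩ := DI G V hG u hu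
  obtain ⟨θ0, hθ0⟩ := hqc x
  obtain ⟨δ, hδ⟩ := hG.hyp
  obtain ⟨K, hK⟩ := OV G V hG u a hu ha.inf x
  set θ := θ0 + δ + 1 with hθ
  have h1' : 1 ≤ θ := by omega
  have hV : Hyp V θ := hyp_mono hδ (by omega)
  have hq : QC θ (orb u x) := qc_mono hθ0 (by omega)
  set posu := posf u x with hpos
  have hshift1 : ∀ g : G, posu (u * g) = posu g + 1 := posf_shift hlin hV h1' hq
  have hshiftn : ∀ (n : ℕ) (g : G), posu (u ^ n * g) = posu g + n := by
    intro n
    induction n with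
    | zero => intro g; simp
    | succ n ih =>
      intro g
      rw [pow_succ', mul_assoc, hshift1, ih]; push_cast; ring
  have hshift : ∀ (j : ℤ) (g : G), posu (u ^ j * g) = posu g + j := by
    intro j g
    rcases Int.eq_nat_or_neg j with ⟨n, rfl | rfl⟩
    · rw [zpow_natCast]; exact hshiftn n g
    · have := hshiftn n (u ^ (-(n : ℤ)) * g)
      rw [← mul_assoc, ← zpow_natCast, ← zpow_add, add_neg_cancel, zpow_zero, one_mul] at this
      rw [this]; ring
  have hle : ∀ (g g' : G) (t : ℕ), prd (orb u x) (g • x) (g' • x) ≤ t →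
      |posu g - posu g'| ≤ (r * t : ℕ) := by
    intro g g' t ht
    have h2 := posf_le hlin hV h1' hq g g'
    have h3 : (r : ℤ) * (prd (orb u x) (g • x) (g' • x) : ℕ) ≤ (r * t : ℕ) := by
      exact_mod_cast Nat.mul_le_mul_left r ht
    linarith
  have hline : ∀ (g : G) (n : ℤ), |posu (g * a ^ n) - posu g| ≤ (r * K : ℕ) := by
    intro g n
    have h2 := hK g (fun p q hp heq => by
      by_cases hq0 : q = 0
      · rw [hq0, zpow_zero] at heq
        have h3 : a ^ p = 1 := by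
          have : a ^ p = g⁻¹ * (g * a ^ p * g⁻¹) * g := by group
          rw [this, heq]; group
        apply ha.inf
        rw [isOfFinOrder_iff_zpow_eq_one]
        exact ⟨p, hp, h3⟩
      · exact hc g p q hq0 hp heq.symm) n 0
    rw [zpow_zero, one_smul, ← mul_smul] at h2
    exact hle _ _ _ h2
  have hlip : ∀ (s g : G), |posu (g * s) - posu g| ≤ (r * (d x (s • x) + 16 * θ) : ℕ) := by
    intro s g
    apply hle
    have h2 := prd_lip hV h1' hq ((g * s) • x) (g • x)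
    have e : d ((g * s) • x) (g • x) = d x (s • x) := by
      rw [mul_smul, isom, GMet.symm]
    rwa [e] at h2
  set L : ℕ := r * K + ∑ i, r * (d x (e i • x) + 16 * θ) with hL
  have hLi : ∀ i, r * (d x (e i • x) + 16 * θ) ≤ ∑ i, r * (d x (e i • x) + 16 * θ) := fun i =>
    Finset.single_le_sum (f := fun i => r * (d x (e i • x) + 16 * θ)) (fun _ _ => Nat.zero_le _)
      (Finset.mem_univ i)
  have hL2 : ∀ (g : G) (i : Fin 3), |posu (g * e i) - posu g| ≤ L := by
    intro g i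
    refine (hlip (e i) g).trans ?_
    have := hLi i
    exact_mod_cast (by omega : r * (d x (e i • x) + 16 * θ) ≤ L)
  have hL1 : ∀ (g : G) (i : Fin 3) (n : ℤ), |posu (g * e i * a ^ n) - posu g| ≤ L := by
    intro g i n
    have a1 := hline (g * e i) n
    have a2 := hlip (e i) g
    have a3 := abs_sub_le (posu (g * e i * a ^ n)) (posu (g * e i)) (posu g)
    have a4 := hLi i
    have a5 : ((r * K : ℕ) : ℤ) + ((r * (d x (e i • x) + 16 * θ) : ℕ) : ℤ) ≤ L := by
      exact_mod_cast (by omega : r * K + r * (d x (e i • x) + 16 * θ) ≤ L)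
    linarith
  obtain ⟨M1, hM1⟩ := exists_nat_gt (2 * (L : ℚ) / η)
  refine ⟨M1 + 1, fun M hM => ?_⟩
  have hη : 2 * (L : ℚ) ≤ η * M := by
    rw [div_lt_iff₀ h0] at hM1
    have h5 : (M1 : ℚ) ≤ M := by exact_mod_cast (by omega : M1 ≤ M)
    nlinarith
  exact ⟨RB.tr1 a e hshift hL1 (by omega) hη, RB.tr2 e hshift hL2 (by omega) hη⟩

end TSq
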