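import Pool.Agent.Work.TSQ.Interface

/-!
# Block RESFIN: free groups are residually finite
-/

namespace TSq

section
variable {α : Type} [DecidableEq α]

/-- all suffixes, as group elements -/
def sufs (L : List (α × Bool)) : Set (FreeGroup α) :=
  {g | ∃ L' ∈ L.tails, FreeGroup.mk L' = g}

theorem sufs_finite (L : List (α × Bool)) : (sufs L).Finite := by
  have : sufs L = (fun L' => FreeGroup.mk L') '' {L' | L' ∈ L.tails} := by
    ext g; simp [sufs]
  rw [this]
  exact (List.finite_toSet L.tails).image _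

theorem exists_perm (B : Set (FreeGroup α)) (hB : B.Finite) (x : FreeGroup α) :
    ∃ σ : Equiv.Perm B, ∀ b b' : B, x * b = b' → σ b = b' := by
  classical
  haveI : Finite B := hB
  haveI := Fintype.ofFinite B
  let e : {b : B // x * (b : FreeGroup α) ∈ B} ≃ {b : B // x⁻¹ * (b : FreeGroup α) ∈ B} :=
    { toFun := fun b => ⟨⟨x * (b.1 : FreeGroup α), b.2⟩, by simp⟩
      invFun := fun b => ⟨⟨x⁻¹ * (b.1 : FreeGroup α), b.2⟩, by simp⟩
      left_inv := by intro b; ext; simp
      right_inv := by intro b; ext; simp }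
  refine ⟨e.extendSubtype, fun b b' h => ?_⟩
  have hb : x * (b : FreeGroup α) ∈ B := by rw [h]; exact b'.2
  rw [Equiv.extendSubtype_apply_of_mem e b hb]
  ext
  exact h

theorem resFin_gen (S : Finset (FreeGroup α)) (hS : 1 ∉ S) :
    ∃ Q' : Subgroup (FreeGroup α), Q'.Normal ∧ Q'.index ≠ 0 ∧ ∀ u ∈ S, u ∉ Q' := by
  classical
  set B : Set (FreeGroup α) := {1} ∪ ⋃ u ∈ S, sufs u.toWord with hBdef
  have hBf : B.Finite :=
    (Set.finite_singleton _).union (S.finite_toSet.biUnion fun u _ => sufs_finite _)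
  have h1 : (1 : FreeGroup α) ∈ B := Or.inl rfl
  choose σ hσ using fun x : α => exists_perm B hBf (FreeGroup.of x)
  set f : FreeGroup α →* Equiv.Perm B := FreeGroup.lift σ with hf
  have key : ∀ L : List (α × Bool), sufs L ⊆ B → ∀ h : FreeGroup.mk L ∈ B,
      f (FreeGroup.mk L) ⟨1, h1⟩ = ⟨FreeGroup.mk L, h⟩ := by
    intro L
    induction L with
    | nil =>
      intro _ h
      have : (FreeGroup.mk ([] : List (α × Bool))) = 1 := rfl
      simp [this]
    | cons l L ih =>
      intro hs h
      obtain ⟨x, b⟩ := l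
      have hs' : sufs L ⊆ B := by
        rintro g ⟨L', hL', rfl⟩
        exact hs ⟨L', by simp only [List.tails_cons, List.mem_cons]; right; exact hL', rfl⟩
      have hL : FreeGroup.mk L ∈ B := hs' ⟨L, by simp, rfl⟩
      have e1 : FreeGroup.mk ((x, b) :: L) = FreeGroup.mk [(x, b)] * FreeGroup.mk L := by
        rw [FreeGroup.mul_mk]; rfl
      have e2 : f (FreeGroup.mk ((x, b) :: L)) ⟨1, h1⟩
          = f (FreeGroup.mk [(x, b)]) ⟨FreeGroup.mk L, hL⟩ := by
        rw [e1, map_mul, Equiv.Perm.mul_apply, ih hs' hL]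
      rw [e2]
      cases b with
      | true =>
        have e3 : (FreeGroup.mk [(x, true)] : FreeGroup α) = FreeGroup.of x := rfl
        rw [e3, hf, FreeGroup.lift_apply_of]
        apply hσ
        rw [← e3, ← e1]
      | false =>
        have e3 : (FreeGroup.mk [(x, false)] : FreeGroup α) = (FreeGroup.of x)⁻¹ := rfl
        rw [e3, map_inv, hf, FreeGroup.lift_apply_of, Equiv.Perm.inv_eq_iff_eq]
        symm
        apply hσ
        change FreeGroup.of x * FreeGroup.mk ((x, false) :: L) = FreeGroup.mk L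
        rw [e1, e3, mul_inv_cancel_left]
  refine ⟨f.ker, inferInstance, ?_, ?_⟩
  · haveI : Finite B := hBf
    haveI := Subgroup.finiteIndex_ker f
    exact Subgroup.FiniteIndex.index_ne_zero
  · intro u hu hk
    have hsub : sufs u.toWord ⊆ B := fun g hg =>
      Or.inr (Set.mem_biUnion hu hg)
    have hmem : FreeGroup.mk u.toWord ∈ B := hsub ⟨u.toWord, by simp, rfl⟩
    have h2 := key u.toWord hsub hmem
    have h4 : f (FreeGroup.mk u.toWord) = 1 := by
      rw [FreeGroup.mk_toWord]; exact MonoidHom.mem_ker.1 hk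
    rw [h4] at h2
    have h3 : (1 : FreeGroup α) = FreeGroup.mk u.toWord := by
      have := congrArg Subtype.val h2
      simpa using this
    rw [FreeGroup.mk_toWord] at h3
    exact hS (h3 ▸ hu)

end

theorem resFin : ResFinStmt := fun S hS => resFin_gen S hS

end TSq
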