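import Pool.Agent.Work.TSQ.TrN0

/-!
# Block TRN1: the invariant passes to the quotient on the first coordinate (helper75)
-/

namespace TSq
open FrobP GMet Finset

section core
variable {G G2 : Type} [Group G] [Group G2] {H Q N : Subgroup G} [N.Normal]

omit [N.Normal] in
theorem lactH_mul (g h : G) (y : (G ⧸ H) ⊕ G) : lact (g * h) y = lact g (lact h y) := by
  cases y with
  | inl i => simp only [lact, mul_smul]
  | inr u => simp only [lact, mul_assoc]

omit [N.Normal] in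
theorem lactH_one (y : (G ⧸ H) ⊕ G) : lact (1 : G) y = y := by
  cases y with
  | inl i => simp only [lact, one_smul]
  | inr u => simp only [lact, one_mul]

/-- one labelling of `G` -/
structure LabD (H Q N : Subgroup G) (C : G → (G ⧸ H) ⊕ G) : Prop where
  eqv : ∀ m ∈ N, ∀ g, C (m * g) = lact m (C g)
  mem : ∀ g h, C g = .inr h → h ∈ N
  stab : ∀ m ∈ N, ∀ g : G, m • (g : G ⧸ H) = (g : G ⧸ H) → g⁻¹ * m * g ∈ Q
  le : ∀ q ∈ Q, q ∈ N

/-- the set of labels of the lifts of a claw -/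
def cls (N : Subgroup G) (C : G → (G ⧸ H) ⊕ G) (q : G ⧸ N) : Set ((G ⧸ H) ⊕ G) :=
  {y | ∃ g : G, (g : G ⧸ N) = q ∧ C g = y}

theorem cls_eq {C : G → (G ⧸ H) ⊕ G} (hC : LabD H Q N C) {q q' : G ⧸ N} {g g' : G}
    (hg : (g : G ⧸ N) = q) (hg' : (g' : G ⧸ N) = q') (h : C g = C g') :
    cls N C q = cls N C q' := by
  subst hg hg'
  have key : ∀ g g' : G, C g = C g' → cls N C (g : G ⧸ N) ⊆ cls N C (g' : G ⧸ N) := by
    rintro g g' h y ⟨u, hu, rfl⟩
    obtain ⟨m, hm, rfl⟩ := (mk_eq_iff N g u).1 hu.symm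
    refine ⟨m * g', ((mk_eq_iff N g' _).2 ⟨m, hm, rfl⟩).symm, ?_⟩
    rw [hC.eqv m hm, hC.eqv m hm, h]
  exact Set.Subset.antisymm (key _ _ h) (key _ _ h.symm)

/-- one class of claws -/
theorem core1 {C : G → (G ⧸ H) ⊕ G} (hC : LabD H Q N C) {a : G} {e : Fin 3 → G}
    {f : Fin 3 → G2} {κ η : ℚ} (h0 : 0 ≤ κ) (hη : 0 ≤ η) (w : Fin 3 → G)
    (hw : ∀ i, C (w i) = .inr 1) (hWW : WW a e f κ) (hHQ : HallQ a e f Q ((1 - η) * κ))
    (F : Finset ((G ⧸ N) × G2))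
    (hF : ∀ p ∈ F, ∀ g : G, (g : G ⧸ N) = p.1 → ∀ (i : Fin 3) (n : ℤ), C (g * e i * a ^ n) = C g)
    (y : (G ⧸ H) ⊕ G) (hy : ∀ p ∈ F, ∃ g : G, (g : G ⧸ N) = p.1 ∧ C g = y) :
    (1 - η) * κ * F.card ≤ (nb (a : G ⧸ N) (fun i => (e i : G ⧸ N)) f
      (wd fun i => ln (a : G ⧸ N) (w i : G ⧸ N)) F).card := by
  classical
  -- general fact on lines
  have fact : ∀ p ∈ F, ∀ g : G, (g : G ⧸ N) = p.1 → ∀ (i : Fin 3) (m : G), m ∈ N → ∀ k : ℤ,
      C (m * (g * e i) * a ^ k) = lact m (C g) := by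
    intro p hp g hg i m hm k
    rw [mul_assoc, hC.eqv m hm, hF p hp g hg i k]
  cases y with
  | inr m0 =>
    -- lifts with label `inr 1`
    have hy' : ∀ p ∈ F, ∃ g : G, (g : G ⧸ N) = p.1 ∧ C g = .inr 1 := by
      intro p hp
      obtain ⟨g, hg, hc⟩ := hy p hp
      have hm : m0 ∈ N := hC.mem _ _ hc
      refine ⟨m0⁻¹ * g, ?_, ?_⟩
      · rw [← hg]
        exact ((mk_eq_iff N g _).2 ⟨m0⁻¹, N.inv_mem hm, rfl⟩).symm
      · rw [hC.eqv _ (N.inv_mem hm), hc]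
        simp [lact]
    choose! s hs1 hs2 using hy'
    have hη' : (1 - η) * κ * F.card ≤ κ * F.card := by
      apply mul_le_mul_of_nonneg_right _ (Nat.cast_nonneg _)
      nlinarith
    refine hη'.trans ?_
    apply pull_hall (a := a) (e := e) (f := f) (π := wd fun i => ln a (w i)) F
      (fun p => (s p, p.2)) (hWW _ _)
    · intro p hp p' hp' he
      rw [Prod.mk.injEq] at he
      exact Prod.ext (by rw [← hs1 p hp, ← hs1 p' hp', he.1]) he.2
    · intro p hp p' hp' i j he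
      have hrange : ∀ p ∈ F, ∀ i : Fin 3,
          ln (a : G ⧸ N) (p.1 * (e i : G ⧸ N)) ∈
            Set.range (fun k : Fin 3 => ln (a : G ⧸ N) (w k : G ⧸ N)) →
          ln a (s p * e i) ∈ Set.range fun k : Fin 3 => ln a (w k) := by
        rintro p hp i ⟨k, hk⟩
        rw [← hs1 p hp] at hk
        obtain ⟨m, hm, n, h⟩ := (ln_mk_eq_iff N a (s p * e i) (w k)).1 hk.symm
        have h1 := fact p hp (s p) (hs1 p hp) i m hm n
        rw [← h, hw k, hs2 p hp] at h1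
        simp only [lact, mul_one, Sum.inr.injEq] at h1
        rw [← h1, one_mul] at h
        exact ⟨k, ((ln_eq_iff a _ _).2 ⟨n, h⟩).symm⟩
      rw [wd_eq_iff] at he ⊢
      refine ⟨he.1, ?_⟩
      rcases he.2 with h | ⟨h, h'⟩
      · left
        have h2 : ln (a : G ⧸ N) (p.1 * (e i : G ⧸ N)) = ln (a : G ⧸ N) (p'.1 * (e j : G ⧸ N)) := h
        rw [← hs1 p hp, ← hs1 p' hp'] at h2
        obtain ⟨m, hm, n, h⟩ := (ln_mk_eq_iff N a (s p * e i) (s p' * e j)).1 h2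
        have h1 := fact p hp (s p) (hs1 p hp) i m hm n
        have h3 := hF p' hp' (s p') (hs1 p' hp') j 0
        rw [zpow_zero, mul_one] at h3
        rw [← h, h3, hs2 p hp, hs2 p' hp'] at h1
        simp only [lact, mul_one, Sum.inr.injEq] at h1
        rw [← h1, one_mul] at h
        exact (ln_eq_iff a _ _).2 ⟨n, h⟩
      · exact Or.inr ⟨hrange p hp i h, hrange p' hp' j h'⟩
  | inl i0 =>
    obtain ⟨γ, rfl⟩ := QuotientGroup.mk_surjective i0
    choose! s hs1 hs2 using hy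
    apply pull_hall (a := a) (e := e) (f := f)
      (π := Prod.map (Quotient.mk (MulAction.orbitRel Q (Ln a))) id) F
      (fun p => (γ⁻¹ * s p, p.2)) (hHQ _ _)
    · intro p hp p' hp' he
      rw [Prod.mk.injEq] at he
      have : s p = s p' := mul_left_cancel he.1
      exact Prod.ext (by rw [← hs1 p hp, ← hs1 p' hp', this]) he.2
    · intro p hp p' hp' i j he
      have hrange : ∀ p ∈ F, ∀ i : Fin 3,
          ln (a : G ⧸ N) (p.1 * (e i : G ⧸ N)) ∉
            Set.range (fun k : Fin 3 => ln (a : G ⧸ N) (w k : G ⧸ N)) := by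
        rintro p hp i ⟨k, hk⟩
        rw [← hs1 p hp] at hk
        obtain ⟨m, hm, n, h⟩ := (ln_mk_eq_iff N a (s p * e i) (w k)).1 hk.symm
        have h1 := fact p hp (s p) (hs1 p hp) i m hm n
        rw [← h, hw k, hs2 p hp] at h1
        simp only [lact, reduceCtorEq] at h1
      rw [wd_eq_iff] at he
      rcases he.2 with h | ⟨h, h'⟩
      · have h2 : ln (a : G ⧸ N) (p.1 * (e i : G ⧸ N)) = ln (a : G ⧸ N) (p'.1 * (e j : G ⧸ N)) := h
        rw [← hs1 p hp, ← hs1 p' hp'] at h2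
        obtain ⟨m, hm, n, h⟩ := (ln_mk_eq_iff N a (s p * e i) (s p' * e j)).1 h2
        have h1 := fact p hp (s p) (hs1 p hp) i m hm n
        have h3 := hF p' hp' (s p') (hs1 p' hp') j 0
        rw [zpow_zero, mul_one] at h3
        rw [← h, h3, hs2 p hp, hs2 p' hp'] at h1
        simp only [lact, Sum.inl.injEq] at h1
        have hq := hC.stab m hm γ h1.symm
        refine Prod.ext ?_ he.1
        change Quotient.mk (MulAction.orbitRel Q (Ln a)) (ln a (γ⁻¹ * s p * e i)) =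
          Quotient.mk (MulAction.orbitRel Q (Ln a)) (ln a (γ⁻¹ * s p' * e j))
        apply Quotient.sound
        change MulAction.orbitRel Q (Ln a) _ _
        rw [MulAction.orbitRel_apply]
        refine ⟨⟨γ⁻¹ * m * γ, hq⟩⁻¹, ?_⟩
        have e1 : (⟨γ⁻¹ * m * γ, hq⟩ : Q) • ln a (γ⁻¹ * s p * e i) = ln a (γ⁻¹ * s p' * e j) := by
          change ln a ((γ⁻¹ * m * γ) * (γ⁻¹ * s p * e i)) = _
          rw [ln_eq_iff]
          refine ⟨n, ?_⟩
          rw [mul_assoc γ⁻¹ (s p') (e j), h]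
          group
        change (⟨γ⁻¹ * m * γ, hq⟩ : Q)⁻¹ • _ = _
        rw [← e1, inv_smul_smul]
      · exact absurd h (hrange p hp i)
    · intro p hp p' hp' h12 q hq h
      rw [Finset.mem_image] at hp hp'
      obtain ⟨p1, hp1, rfl⟩ := hp
      obtain ⟨p2, hp2, rfl⟩ := hp'
      have h3 : s p2 = (γ * q * γ⁻¹) * s p1 := by
        have h' : q * (γ⁻¹ * s p1) = γ⁻¹ * s p2 := h
        have : s p2 = γ * (γ⁻¹ * s p2) := by group
        rw [this, ← h']; group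
      have h4 : p1.1 = p2.1 := by
        rw [← hs1 p1 hp1, ← hs1 p2 hp2]
        exact (mk_eq_iff N _ _).2 ⟨_, Subgroup.Normal.conj_mem ‹_› _ (hC.le q hq) γ, h3⟩
      have h5 : p1 = p2 := Prod.ext h4 h12
      rw [h5]

/-- all claws, many labellings -/
theorem main1 {n B : ℕ} {a : G} {e : Fin 3 → G} {f : Fin 3 → G2} {κ η : ℚ} (hn : 1 ≤ n)
    (hB : (B : ℚ) ≤ η * n) (h0 : 0 ≤ κ) (hη : 0 ≤ η) (hη1 : η ≤ 1)
    {C : ℕ → G → (G ⧸ H) ⊕ G} (hC : ∀ t < n, LabD H Q N (C t))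
    (hcut : ∀ g : G, {t | t < n ∧ ∃ (i : Fin 3) (k : ℤ), C t (g * e i * a ^ k) ≠ C t g}.ncard ≤ B)
    (w : Fin 3 → G) (hw : ∀ t < n, ∀ i, C t (w i) = .inr 1)
    (hWW : WW a e f κ) (hHQ : HallQ a e f Q ((1 - η) * κ)) (F : Finset ((G ⧸ N) × G2)) :
    (1 - η) ^ 2 * κ * F.card ≤ (nb (a : G ⧸ N) (fun i => (e i : G ⧸ N)) f
      (wd fun i => ln (a : G ⧸ N) (w i : G ⧸ N)) F).card := by
  classical
  obtain ⟨t, ht, F', hsub, hgood, hF⟩ := exists_good_cut F n B η hn hB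
    (fun t p => ∃ (i : Fin 3) (k : ℤ), C t (p.1.out * e i * a ^ k) ≠ C t p.1.out)
    (fun p _ => hcut p.1.out)
  have hCt := hC t ht
  have hun : ∀ p ∈ F', ∀ g : G, (g : G ⧸ N) = p.1 → ∀ (i : Fin 3) (n : ℤ),
      C t (g * e i * a ^ n) = C t g := by
    intro p hp g hg i k
    have h1 : C t (p.1.out * e i * a ^ k) = C t p.1.out := by
      by_contra hne
      exact hgood p hp ⟨i, k, hne⟩
    obtain ⟨m, hm, h⟩ := (mk_eq_iff N p.1.out g).1 (by rw [hg]; exact QuotientGroup.out_eq' _)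
    rw [h, hCt.eqv m hm, ← h1, ← hCt.eqv m hm]
    congr 1
    group
  have hmain : (1 - η) * κ * F'.card ≤ (nb (a : G ⧸ N) (fun i => (e i : G ⧸ N)) f
      (wd fun i => ln (a : G ⧸ N) (w i : G ⧸ N)) F').card := by
    apply sum_classes_nb _ _ _ _ F' (fun p => cls N (C t) p.1)
    · intro F'' hs p0 hp0 hcl
      apply core1 hCt h0 hη w (hw t ht) hWW hHQ F'' _ (C t p0.1.out)
      · intro p hp
        have h1 : C t p0.1.out ∈ cls N (C t) p0.1 := ⟨p0.1.out, QuotientGroup.out_eq' _, rfl⟩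
        rw [← hcl p hp] at h1
        exact h1
      · intro p hp
        exact hun p (hs hp)
    · intro p hp p' hp' i j he
      obtain ⟨g, hg⟩ := QuotientGroup.mk_surjective p.1
      obtain ⟨g', hg'⟩ := QuotientGroup.mk_surjective p'.1
      have fact : ∀ p ∈ F', ∀ g : G, (g : G ⧸ N) = p.1 → ∀ (i : Fin 3) (u : G),
          ln (a : G ⧸ N) (p.1 * (e i : G ⧸ N)) = ln (a : G ⧸ N) (u : G ⧸ N) →
          ∃ m ∈ N, C t (m * g) = C t u := by
        intro p hp g hg i u h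
        rw [← hg] at h
        obtain ⟨m, hm, k, h⟩ := (ln_mk_eq_iff N a (g * e i) u).1 h
        refine ⟨m, hm, ?_⟩
        rw [h, hCt.eqv m hm, mul_assoc, hCt.eqv m hm, hun p hp g hg i k]
      have lift : ∀ (p : (G ⧸ N) × G2) (g m : G), m ∈ N → (g : G ⧸ N) = p.1 →
          ((m * g : G) : G ⧸ N) = p.1 := by
        intro p g m hm hg
        rw [← hg]
        exact ((mk_eq_iff N g _).2 ⟨m, hm, rfl⟩).symm
      rw [wd_eq_iff] at he
      rcases he.2 with h | ⟨⟨k, hk⟩, ⟨k', hk'⟩⟩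
      · have h2 : ln (a : G ⧸ N) (p.1 * (e i : G ⧸ N)) = ln (a : G ⧸ N) (p'.1 * (e j : G ⧸ N)) := h
        have h3 := h2
        rw [← hg'] at h3
        obtain ⟨m, hm, hc⟩ := fact p hp g hg i (g' * e j) h3
        have h4 := hun p' hp' g' hg' j 0
        rw [zpow_zero, mul_one] at h4
        exact cls_eq hCt (lift p g m hm hg) hg' (hc.trans h4)
      · obtain ⟨m, hm, hc⟩ := fact p hp g hg i (w k) hk.symm
        obtain ⟨m', hm', hc'⟩ := fact p' hp' g' hg' j (w k') hk'.symm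
        refine cls_eq hCt (lift p g m hm hg) (lift p' g' m' hm' hg') ?_
        rw [hc, hc', hw t ht, hw t ht]
  have hle := nb_mono (a : G ⧸ N) (fun i => (e i : G ⧸ N)) f
    (wd fun i => ln (a : G ⧸ N) (w i : G ⧸ N)) hsub
  have h1 : (1 - η) ^ 2 * κ * F.card ≤ (1 - η) * κ * F'.card := by
    have e1 : (1 - η) ^ 2 * κ * F.card = (1 - η) * κ * ((1 - η) * F.card) := by ring
    rw [e1]
    exact mul_le_mul_of_nonneg_left hF (mul_nonneg (by linarith) h0)
  exact (h1.trans hmain).trans (by exact_mod_cast hle)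

end core

section reach
variable {G : Type} [Group G]

theorem Rch.refl {a : G} {e : Fin 3 → G} (l : Ln a) : Rch a e 0 l l :=
  ⟨fun _ => l, rfl, rfl, fun k hk => by omega⟩

theorem Rch.succ {a : G} {e : Fin 3 → G} {n : ℕ} {l l' l'' : Ln a} (h : Rch a e n l l')
    (h' : AdjL a e l' l'') : Rch a e (n + 1) l l'' := by
  obtain ⟨c, h0, hn, hc⟩ := h
  refine ⟨fun k => if k ≤ n then c k else l'', ?_, ?_, ?_⟩
  · simp [h0]
  · simp
  · intro k hk
    by_cases h1 : k + 1 ≤ n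
    · simp only [show k ≤ n by omega, h1, if_true]
      exact hc k (by omega)
    · have h2 : k = n := by omega
      subst h2
      simp only [le_refl, if_true, show ¬ (k + 1 ≤ k) by omega, if_false]
      rw [hn]; exact h'

theorem Rch.pred {a : G} {e : Fin 3 → G} {n : ℕ} {l l'' : Ln a} (h : Rch a e (n + 1) l l'') :
    ∃ l', Rch a e n l l' ∧ AdjL a e l' l'' := by
  obtain ⟨c, h0, hn, hc⟩ := h
  refine ⟨c n, ⟨c, h0, rfl, fun k hk => hc k (by omega)⟩, ?_⟩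
  rw [← hn]
  exact hc n (by omega)

theorem AdjL.symm {a : G} {e : Fin 3 → G} {l l' : Ln a} (h : AdjL a e l l') : AdjL a e l' l := by
  obtain ⟨g, i, j, h1, h2⟩ := h
  exact ⟨g, j, i, h2, h1⟩

theorem AdjL.refl {a : G} {e : Fin 3 → G} (he : e 0 = 1) (l : Ln a) : AdjL a e l l := by
  obtain ⟨g, rfl⟩ := ln_surj a l
  exact ⟨g, 0, 0, by rw [he, mul_one], by rw [he, mul_one]⟩

theorem Rch.mono {a : G} {e : Fin 3 → G} (he : e 0 = 1) {n m : ℕ} (hnm : n ≤ m) {l l' : Ln a}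
    (h : Rch a e n l l') : Rch a e m l l' := by
  induction m, hnm using Nat.le_induction with
  | base => exact h
  | succ m _ ih => exact ih.succ (AdjL.refl he l')

theorem Rch.trans {a : G} {e : Fin 3 → G} {n : ℕ} {l l' : Ln a} (h : Rch a e n l l') :
    ∀ (m : ℕ) (l'' : Ln a), Rch a e m l' l'' → Rch a e (n + m) l l'' := by
  intro m
  induction m with
  | zero =>
    intro l'' h'
    obtain ⟨c, h0, hn, -⟩ := h'
    rw [← hn, h0]; exact h
  | succ m ih =>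
    intro l'' h'
    obtain ⟨u, h1, h2⟩ := h'.pred
    exact (ih u h1).succ h2

theorem Rch.symm {a : G} {e : Fin 3 → G} {n : ℕ} {l l' : Ln a} (h : Rch a e n l l') :
    Rch a e n l' l := by
  obtain ⟨c, h0, hn, hc⟩ := h
  refine ⟨fun k => c (n - k), by simpa using hn, by simpa using h0, ?_⟩
  intro k hk
  have h1 := hc (n - k - 1) (by omega)
  have h2 : n - k - 1 + 1 = n - k := by omega
  rw [h2] at h1
  have h3 : n - (k + 1) = n - k - 1 := by omega
  simp only [h3]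
  exact h1.symm

/-- lifting chains of lines -/
theorem Rch.lift {N : Subgroup G} [N.Normal] {a : G} {e : Fin 3 → G} : ∀ (n : ℕ) (u : G)
    (l' : Ln (a : G ⧸ N)),
    Rch (a : G ⧸ N) (fun i => (e i : G ⧸ N)) n (ln (a : G ⧸ N) (u : G ⧸ N)) l' →
    ∃ u' : G, ln (a : G ⧸ N) (u' : G ⧸ N) = l' ∧ Rch a e n (ln a u) (ln a u') := by
  intro n
  induction n with
  | zero =>
    intro u l' h
    obtain ⟨c, h0, hn, -⟩ := h
    exact ⟨u, by rw [← hn, h0], Rch.refl _⟩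
  | succ n ih =>
    intro u l' h
    obtain ⟨l'', h1, g, i, j, h2, h3⟩ := h.pred
    obtain ⟨u'', h4, h5⟩ := ih u l'' h1
    obtain ⟨g0, rfl⟩ := QuotientGroup.mk_surjective g
    rw [← h4] at h2
    obtain ⟨m, hm, k, h6⟩ := (ln_mk_eq_iff N a (g0 * e i) u'').1 h2
    refine ⟨m * g0 * e j, ?_, h5.succ ⟨m * g0, i, j, ?_, rfl⟩⟩
    · rw [← h3]
      exact ((ln_mk_eq_iff N a (g0 * e j) _).2 ⟨m, hm, 0, by group⟩).symm
    · rw [ln_eq_iff]
      exact ⟨k, by rw [h6]; group⟩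

/-- three lines none of which is far from the two others -/
theorem rch_all {a : G} {e : Fin 3 → G} (he : e 0 = 1) {ρ : ℕ} {P : Fin 3 → Ln a}
    (h : ∀ i, ∃ j, j ≠ i ∧ Rch a e ρ (P i) (P j)) (j : Fin 3) :
    Rch a e (ρ + ρ) (P 0) (P j) := by
  have hr : ∀ i j, Rch a e ρ (P i) (P j) → Rch a e ρ (P j) (P i) := fun i j h => h.symm
  have ht : ∀ j k, Rch a e ρ (P 0) (P j) → Rch a e ρ (P j) (P k) →
      Rch a e (ρ + ρ) (P 0) (P k) := fun j k h1 h2 => h1.trans ρ _ h2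
  have hm : ∀ j, Rch a e ρ (P 0) (P j) → Rch a e (ρ + ρ) (P 0) (P j) :=
    fun j h1 => h1.mono he (by omega)
  have h00 : Rch a e ρ (P 0) (P 0) := (Rch.refl (e := e) (P 0)).mono he (by omega)
  obtain ⟨j0, hj0, h1⟩ := h 0
  obtain ⟨j1, hj1, h2⟩ := h 1
  obtain ⟨j2, hj2, h3⟩ := h 2
  fin_cases j
  · exact hm _ h00
  · fin_cases j1
    · exact hm _ (hr _ _ h2)
    · exact absurd rfl hj1
    · fin_cases j0
      · exact absurd rfl hj0
      · exact hm _ h1
      · exact ht 2 1 h1 (hr _ _ h2)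
  · fin_cases j2
    · exact hm _ (hr _ _ h3)
    · fin_cases j0
      · exact absurd rfl hj0
      · exact ht 1 2 h1 (hr _ _ h3)
      · exact hm _ h1
    · exact absurd rfl hj2

theorem smul_ln (a g u : G) : g • ln a u = ln a (g * u) := rfl

theorem AdjL.smul {a : G} {e : Fin 3 → G} {l l' : Ln a} (γ : G) (h : AdjL a e l l') :
    AdjL a e (γ • l) (γ • l') := by
  obtain ⟨g, i, j, rfl, rfl⟩ := h
  exact ⟨γ * g, i, j, by rw [smul_ln, mul_assoc], by rw [smul_ln, mul_assoc]⟩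

theorem Rch.smul {a : G} {e : Fin 3 → G} {n : ℕ} {l l' : Ln a} (γ : G) (h : Rch a e n l l') :
    Rch a e n (γ • l) (γ • l') := by
  obtain ⟨c, h0, hn, hc⟩ := h
  exact ⟨fun k => γ • c k, by simp only [h0], by simp only [hn], fun k hk => (hc k hk).smul γ⟩

end reach

section geo
variable {G V : Type} [Group G] [GMet V] [MulAction G V]

theorem exists_L [IsomAct G V] {a : G} {H : Subgroup G} {Y : Set V} {θ : ℕ} (hR : RD a H Y θ)
    (x0 : V) (e : Fin 3 → G) : ∃ L : ℕ,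
    (∀ (g h : G) (i j : Fin 3) (m n : ℤ),
      prd Y (h • (g * e i * a ^ m) • x0) (h • (g * e j * a ^ n) • x0) ≤ L) ∧
    (∀ (g h : G) (m n : ℤ), prd Y (h • (g * a ^ m) • x0) (h • (g * a ^ n) • x0) ≤ L) := by
  obtain ⟨L1, hL1⟩ := hR.line x0
  have h2 : ∀ (g h : G) (m n : ℤ),
      prd Y (h • (g * a ^ m) • x0) (h • (g * a ^ n) • x0) ≤ L1 := by
    intro g h m n
    have := hL1 (h * g) m n
    simpa only [mul_smul] using this
  have hD : ∀ i j : Fin 3, d (e i • x0) (e j • x0) ≤ ∑ i, ∑ j, d (e i • x0) (e j • x0) := by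
    intro i j
    calc d (e i • x0) (e j • x0) ≤ ∑ j, d (e i • x0) (e j • x0) :=
          Finset.single_le_sum (f := fun j => d (e i • x0) (e j • x0)) (fun _ _ => Nat.zero_le _)
            (Finset.mem_univ j)
      _ ≤ ∑ i, ∑ j, d (e i • x0) (e j • x0) :=
          Finset.single_le_sum (f := fun i => ∑ j, d (e i • x0) (e j • x0))
            (fun _ _ => Nat.zero_le _) (Finset.mem_univ i)
  set D := ∑ i, ∑ j, d (e i • x0) (e j • x0) with hDdef
  refine ⟨L1 + (D + 16 * θ) + L1, ?_, ?_⟩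
  · intro g h i j m n
    have t1 := prd_tri (Y := Y) hR.ne (h • (g * e i * a ^ m) • x0) (h • (g * e i * a ^ (0 : ℤ)) • x0)
      (h • (g * e j * a ^ n) • x0)
    have t2 := prd_tri (Y := Y) hR.ne (h • (g * e i * a ^ (0 : ℤ)) • x0)
      (h • (g * e j * a ^ (0 : ℤ)) • x0) (h • (g * e j * a ^ n) • x0)
    have s1 := h2 (g * e i) h m 0
    have s2 := h2 (g * e j) h 0 n
    have s3 := prd_lip hR.hyp hR.one_le hR.qc (h • (g * e i * a ^ (0 : ℤ)) • x0)
      (h • (g * e j * a ^ (0 : ℤ)) • x0)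
    have s4 : d (h • (g * e i * a ^ (0 : ℤ)) • x0) (h • (g * e j * a ^ (0 : ℤ)) • x0) =
        d (e i • x0) (e j • x0) := by
      rw [IsomAct.isom, zpow_zero, mul_one, mul_one, mul_smul, mul_smul, IsomAct.isom]
    have s5 := hD i j
    omega
  · intro g h m n
    have := h2 g h m n
    omega

theorem Rch.bound {a : G} {Y : Set V} (hne : Y.Nonempty) {x0 : V} {e : Fin 3 → G} {L : ℕ}
    (h1 : ∀ (g h : G) (i j : Fin 3) (m n : ℤ),
      prd Y (h • (g * e i * a ^ m) • x0) (h • (g * e j * a ^ n) • x0) ≤ L)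
    (h2 : ∀ (g h : G) (m n : ℤ), prd Y (h • (g * a ^ m) • x0) (h • (g * a ^ n) • x0) ≤ L) :
    ∀ (n : ℕ) (u u' : G), Rch a e n (ln a u) (ln a u') → ∀ h : G,
      prd Y (h • u • x0) (h • u' • x0) ≤ (n + 1) * L := by
  intro n
  induction n with
  | zero =>
    intro u u' hr h
    obtain ⟨c, h0, hn, -⟩ := hr
    obtain ⟨k, hk⟩ := (ln_eq_iff a u u').1 (h0.symm.trans hn)
    have := h2 u h 0 k
    rw [zpow_zero, mul_one, ← hk] at this
    omega
  | succ n ih =>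
    intro u u' hr h
    obtain ⟨l'', h3, g, i, j, h4, h5⟩ := hr.pred
    obtain ⟨u'', rfl⟩ := ln_surj a l''
    have i1 := ih u u'' h3 h
    obtain ⟨k, hk⟩ := (ln_eq_iff a _ _).1 h4
    obtain ⟨k', hk'⟩ := (ln_eq_iff a _ _).1 h5
    have i2 := h1 g h i j k k'
    rw [← hk, ← hk'] at i2
    have i3 := prd_tri (Y := Y) hne (h • u • x0) (h • u'' • x0) (h • u' • x0)
    have i4 : (n + 1 + 1) * L = (n + 1) * L + L := by ring
    omega

end geo

theorem exists_nat_le {η : ℚ} (h0 : 0 < η) (x : ℚ) : ∃ n : ℕ, 1 ≤ n ∧ x ≤ η * n := by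
  obtain ⟨n, hn⟩ := exists_nat_ge (x / η)
  refine ⟨n + 1, by omega, ?_⟩
  rw [div_le_iff₀ h0] at hn
  push_cast
  nlinarith

/-- BLOCK TRN1 -/
theorem trn1 (hL : LongStmt) (hLab : LabStmt) : TrN1Stmt := by
  intro G V _ _ _ hG a hmal H Y θ hR e η he h0 h1
  have : IsomAct G V := ⟨hG.isom⟩
  obtain ⟨x0⟩ := hG.ne
  obtain ⟨L, hL1, hL2⟩ := exists_L hR x0 e
  obtain ⟨ρ, hρ1, hρ⟩ := exists_nat_le h0 1
  obtain ⟨B, hB⟩ := hLab G V hG a H Y θ hR x0 L ((ρ + ρ + 1 + 1) * L)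
  obtain ⟨n, hn1, hn⟩ := exists_nat_le h0 (B : ℚ)
  obtain ⟨T0, hT⟩ := hB n
  refine ⟨T0, fun Q hd hmal' hTr G2 _ f κ hf hκ hW => ?_⟩
  obtain ⟨c, c1, c2, c3, c4, c5⟩ := hT Q hd
  set N := Subgroup.normalClosure (Q : Set G) with hN
  have hC : ∀ t < n, LabD H Q N (fun g => c t (g • x0)) := by
    intro t ht
    refine ⟨?_, ?_, c5, fun q hq => Subgroup.subset_normalClosure hq⟩
    · intro m hm g
      rw [mul_smul]
      exact c1 t ht m hm _
    · intro g h hg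
      exact c2 t ht _ h hg
  have hcut : ∀ g : G, {t | t < n ∧ ∃ (i : Fin 3) (k : ℤ),
      c t ((g * e i * a ^ k) • x0) ≠ c t (g • x0)}.ncard ≤ B := by
    intro g
    set A : Set V := {q | ∃ (i : Fin 3) (k : ℤ), (g * e i * a ^ k) • x0 = q} with hA
    have hA1 : ∀ p ∈ A, ∀ p' ∈ A, ∀ h : G, prd Y (h • p) (h • p') ≤ L := by
      rintro p ⟨i, k, rfl⟩ p' ⟨j, k', rfl⟩ h
      exact hL1 g h i j k k'
    refine le_trans (Set.ncard_le_ncard ?_ ?_) (c3 A hA1)
    · rintro t ⟨ht, i, k, hne⟩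
      refine ⟨ht, _, ⟨i, k, rfl⟩, g • x0, ⟨0, 0, ?_⟩, hne⟩
      rw [he, mul_one, zpow_zero, mul_one]
    · exact (Set.finite_lt_nat n).subset fun t ht => ht.1
  have hHQ := hTr G2 f κ hκ hW
  have hmain : ∀ w : Fin 3 → G, (∀ i, Rch a e (ρ + ρ) (ln a 1) (ln a (w i))) →
      ∀ F : Finset ((G ⧸ N) × G2), (1 - η) ^ 2 * κ * F.card ≤
        (nb (a : G ⧸ N) (fun i => (e i : G ⧸ N)) f
          (wd fun i => ln (a : G ⧸ N) (w i : G ⧸ N)) F).card := by
    intro w hw F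
    refine main1 (C := fun t g => c t (g • x0)) hn1 hn hκ h0.le h1.le hC hcut w ?_ hW hHQ F
    intro t ht i
    apply c4 t ht
    intro h
    have := (hw i).bound hR.ne hL1 hL2 _ _ _ h
    rw [one_smul] at this
    refine this.trans ?_
    apply Nat.mul_le_mul_right
    omega
  have hHall : HallR (a : G ⧸ N) (fun i => (e i : G ⧸ N)) f ((1 - η) ^ 2 * κ) := by
    intro F
    have := hmain (fun _ => 1) (fun _ => (Rch.refl _).mono he (by omega)) F
    rwa [wd_const] at this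
  have he' : (fun i => (e i : G ⧸ N)) 0 = 1 := by
    change ((e 0 : G) : G ⧸ N) = 1
    rw [he]; rfl
  have hκ2 : 0 ≤ (1 - η) ^ 2 * κ := mul_nonneg (pow_nonneg (by linarith) 2) hκ
  intro P F
  by_cases hfar : ∃ i, ∀ j, j ≠ i → ¬ Rch (a : G ⧸ N) (fun i => (e i : G ⧸ N)) ρ (P i) (P j)
  · obtain ⟨i, hi⟩ := hfar
    have key := hL (G ⧸ N) G2 (a : G ⧸ N) (fun i => (e i : G ⧸ N)) f ((1 - η) ^ 2 * κ) hmal' he'
      hκ2 hHall ρ hρ1 P i hi F
    refine le_trans ?_ key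
    apply mul_le_mul_of_nonneg_right _ (Nat.cast_nonneg _)
    have e1 : (1 - η) ^ 3 * κ = (1 - η) * ((1 - η) ^ 2 * κ) := by ring
    rw [e1]
    apply mul_le_mul_of_nonneg_right _ hκ2
    have hρ0 : (0 : ℚ) < ρ := by exact_mod_cast hρ1
    have : (1 : ℚ) / ρ ≤ η := by rw [div_le_iff₀ hρ0]; exact hρ
    linarith
  · push Not at hfar
    have hall := rch_all he' hfar
    obtain ⟨γ, hγ⟩ := ln_surj (a : G ⧸ N) (P 0)
    have hlift : ∀ j, ∃ u : G, ln (a : G ⧸ N) (u : G ⧸ N) = γ⁻¹ • P j ∧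
        Rch a e (ρ + ρ) (ln a 1) (ln a u) := by
      intro j
      apply Rch.lift
      have := (hall j).smul γ⁻¹
      rw [← hγ, smul_ln, inv_mul_cancel] at this
      exact this
    choose w hw1 hw2 using hlift
    have hle : (1 - η) ^ 3 * κ ≤ (1 - η) ^ 2 * κ := by
      have e1 : (1 - η) ^ 3 * κ = (1 - η) * ((1 - η) ^ 2 * κ) := by ring
      rw [e1]
      nlinarith
    refine (mul_le_mul_of_nonneg_right hle (Nat.cast_nonneg _)).trans ?_
    classical
    apply pull_hall (a := (a : G ⧸ N)) (e := fun i => (e i : G ⧸ N)) (f := f)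
      (π := wd fun i => ln (a : G ⧸ N) (w i : G ⧸ N)) F (fun p => (γ⁻¹ * p.1, p.2))
      (hmain w hw2 _)
    · intro p _ p' _ h
      rw [Prod.mk.injEq] at h
      exact Prod.ext (mul_left_cancel h.1) h.2
    · intro p _ p' _ i j h
      rw [wd_eq_iff] at h ⊢
      refine ⟨h.1, ?_⟩
      have hr : ∀ (p : (G ⧸ N) × G2) (i : Fin 3), ln (a : G ⧸ N) (p.1 * (e i : G ⧸ N)) ∈
          Set.range P → ln (a : G ⧸ N) (γ⁻¹ * p.1 * (e i : G ⧸ N)) ∈
          Set.range fun i => ln (a : G ⧸ N) (w i : G ⧸ N) := by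
        rintro p i ⟨k, hk⟩
        refine ⟨k, ?_⟩
        change ln (a : G ⧸ N) (w k : G ⧸ N) = _
        rw [hw1, hk, smul_ln, mul_assoc]
      rcases h.2 with h2 | ⟨h2, h3⟩
      · left
        have h4 : ln (a : G ⧸ N) (p.1 * (e i : G ⧸ N)) = ln (a : G ⧸ N) (p'.1 * (e j : G ⧸ N)) := h2
        change ln (a : G ⧸ N) (γ⁻¹ * p.1 * (e i : G ⧸ N)) =
          ln (a : G ⧸ N) (γ⁻¹ * p'.1 * (e j : G ⧸ N))
        rw [mul_assoc, mul_assoc]
        exact congrArg (fun l => γ⁻¹ • l) h4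
      · exact Or.inr ⟨hr p i h2, hr p' j h3⟩

end TSq
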