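import Pool.Agent.Work.TSQ.TrN1

/-!
# Block TRN2: the invariant passes to the quotient on the second coordinate (helper75)
-/

namespace TSq
open FrobP GMet Finset

section core2
variable {G G1 : Type} [Group G] [Group G1] {H Q N : Subgroup G} [N.Normal]

theorem wd_snd {G2 : Type} {a : G1} (P : Fin 3 → Ln a) (n : Ln a × G2) : (wd P n).2 = n.2 := by
  unfold wd
  by_cases h : n.1 ∈ Set.range P
  · rw [if_pos h]
  · rw [if_neg h]

theorem wd_fst {G2 G2' : Type} {a : G1} (P : Fin 3 → Ln a) (n : Ln a × G2) (n' : Ln a × G2')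
    (h : n.1 = n'.1) : (wd P n).1 = (wd P n').1 := by
  unfold wd
  by_cases h1 : n.1 ∈ Set.range P
  · rw [if_pos h1, if_pos (h ▸ h1)]
  · rw [if_neg h1, if_neg (fun h2 => h1 (h ▸ h2)), h]

/-- one class of claws -/
theorem core2 {C : G → (G ⧸ H) ⊕ G} (hC : LabD H Q N C) {a : G1} {e : Fin 3 → G1}
    {f : Fin 3 → G} {κ η : ℚ} (h0 : 0 ≤ κ) (hη : 0 ≤ η)
    (hWW : WW a e f κ) (hHQ : WWQ2 a e f Q ((1 - η) * κ)) (P : Fin 3 → Ln a)
    (F : Finset (G1 × (G ⧸ N)))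
    (hF : ∀ p ∈ F, ∀ g : G, (g : G ⧸ N) = p.2 → ∀ i : Fin 3, C (g * f i) = C g)
    (y : (G ⧸ H) ⊕ G) (hy : ∀ p ∈ F, ∃ g : G, (g : G ⧸ N) = p.2 ∧ C g = y) :
    (1 - η) * κ * F.card ≤ (nb a e (fun i => (f i : G ⧸ N)) (wd P) F).card := by
  classical
  -- general fact on fibres
  have fact : ∀ p ∈ F, ∀ p' ∈ F, ∀ g g' : G, (g : G ⧸ N) = p.2 → (g' : G ⧸ N) = p'.2 →
      ∀ i j : Fin 3, p.2 * (f i : G ⧸ N) = p'.2 * (f j : G ⧸ N) →
      ∃ m ∈ N, g' * f j = m * (g * f i) ∧ C g' = lact m (C g) := by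
    intro p hp p' hp' g g' hg hg' i j h
    rw [← hg, ← hg'] at h
    obtain ⟨m, hm, hmm⟩ := (mk_eq_iff N (g * f i) (g' * f j)).1 h
    refine ⟨m, hm, hmm, ?_⟩
    rw [← hF p' hp' g' hg' j, hmm, hC.eqv m hm, hF p hp g hg i]
  cases y with
  | inr m0 =>
    have hy' : ∀ p ∈ F, ∃ g : G, (g : G ⧸ N) = p.2 ∧ C g = .inr 1 := by
      intro p hp
      obtain ⟨g, hg, hc⟩ := hy p hp
      have hm : m0 ∈ N := hC.mem _ _ hc
      refine ⟨m0⁻¹ * g, ?_, ?_⟩
      · rw [← hg]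
        exact ((mk_eq_iff N g _).2 ⟨m0⁻¹, N.inv_mem hm, rfl⟩).symm
      · rw [hC.eqv _ (N.inv_mem hm), hc]
        simp [lact]
    choose! s hs1 hs2 using hy'
    have hη' : (1 - η) * κ * F.card ≤ κ * F.card := by
      apply mul_le_mul_of_nonneg_right _ (Nat.cast_nonneg _)
      nlinarith
    refine hη'.trans ?_
    apply pull_hall (a := a) (e := e) (f := f) (π := wd P) F
      (fun p => (p.1, s p)) (hWW _ _)
    · intro p hp p' hp' he
      rw [Prod.mk.injEq] at he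
      exact Prod.ext he.1 (by rw [← hs1 p hp, ← hs1 p' hp', he.2])
    · intro p hp p' hp' i j he
      rw [wd_eq_iff] at he ⊢
      refine ⟨?_, he.2⟩
      obtain ⟨m, hm, h1, h2⟩ := fact p hp p' hp' (s p) (s p') (hs1 p hp) (hs1 p' hp') i j he.1
      rw [hs2 p hp, hs2 p' hp'] at h2
      simp only [lact, mul_one, Sum.inr.injEq] at h2
      rw [← h2, one_mul] at h1
      exact h1.symm
  | inl i0 =>
    obtain ⟨γ, rfl⟩ := QuotientGroup.mk_surjective i0
    choose! s hs1 hs2 using hy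
    apply pull_hall (a := a) (e := e) (f := f)
      (π := fun m => Prod.map id (Quotient.mk (MulAction.orbitRel Q G)) (wd P m)) F
      (fun p => (p.1, γ⁻¹ * s p)) (hHQ P _ _)
    · intro p hp p' hp' he
      rw [Prod.mk.injEq] at he
      have : s p = s p' := mul_left_cancel he.2
      exact Prod.ext he.1 (by rw [← hs1 p hp, ← hs1 p' hp', this])
    · intro p hp p' hp' i j he
      have he1 := he
      rw [wd_eq_iff] at he
      obtain ⟨m, hm, h1, h2⟩ := fact p hp p' hp' (s p) (s p') (hs1 p hp) (hs1 p' hp') i j he.1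
      rw [hs2 p hp, hs2 p' hp'] at h2
      simp only [lact, Sum.inl.injEq] at h2
      have hq := hC.stab m hm γ h2.symm
      refine Prod.ext ?_ ?_
      · change (wd P (nd a e f (p.1, γ⁻¹ * s p) i)).1 = (wd P (nd a e f (p'.1, γ⁻¹ * s p') j)).1
        have e1 := wd_fst P (nd a e f (p.1, γ⁻¹ * s p) i) (nd a e (fun i => (f i : G ⧸ N)) p i) rfl
        have e2 := wd_fst P (nd a e f (p'.1, γ⁻¹ * s p') j)
          (nd a e (fun i => (f i : G ⧸ N)) p' j) rfl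
        rw [e1, e2, he1]
      · change Quotient.mk (MulAction.orbitRel Q G) (wd P (nd a e f (p.1, γ⁻¹ * s p) i)).2 =
          Quotient.mk (MulAction.orbitRel Q G) (wd P (nd a e f (p'.1, γ⁻¹ * s p') j)).2
        rw [wd_snd, wd_snd]
        change Quotient.mk (MulAction.orbitRel Q G) (γ⁻¹ * s p * f i) =
          Quotient.mk (MulAction.orbitRel Q G) (γ⁻¹ * s p' * f j)
        apply Quotient.sound
        change MulAction.orbitRel Q G _ _
        rw [MulAction.orbitRel_apply]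
        refine ⟨⟨γ⁻¹ * m * γ, hq⟩⁻¹, ?_⟩
        have e1 : (⟨γ⁻¹ * m * γ, hq⟩ : Q) • (γ⁻¹ * s p * f i) = γ⁻¹ * s p' * f j := by
          change (γ⁻¹ * m * γ) * (γ⁻¹ * s p * f i) = _
          rw [mul_assoc γ⁻¹ (s p') (f j), h1]
          group
        change (⟨γ⁻¹ * m * γ, hq⟩ : Q)⁻¹ • _ = _
        rw [← e1, inv_smul_smul]
    · intro p hp p' hp' h12 q hq h
      rw [Finset.mem_image] at hp hp'
      obtain ⟨p1, hp1, rfl⟩ := hp
      obtain ⟨p2, hp2, rfl⟩ := hp'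
      have h3 : s p2 = (γ * q * γ⁻¹) * s p1 := by
        have h' : q * (γ⁻¹ * s p1) = γ⁻¹ * s p2 := h
        have : s p2 = γ * (γ⁻¹ * s p2) := by group
        rw [this, ← h']; group
      have h4 : p1.2 = p2.2 := by
        rw [← hs1 p1 hp1, ← hs1 p2 hp2]
        exact (mk_eq_iff N _ _).2 ⟨_, Subgroup.Normal.conj_mem ‹_› _ (hC.le q hq) γ, h3⟩
      have h5 : p1 = p2 := Prod.ext h12 h4
      rw [h5]

/-- all claws, many labellings -/
theorem main2 {n B : ℕ} {a : G1} {e : Fin 3 → G1} {f : Fin 3 → G} {κ η : ℚ} (hn : 1 ≤ n)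
    (hB : (B : ℚ) ≤ η * n) (h0 : 0 ≤ κ) (hη : 0 ≤ η) (hη1 : η ≤ 1)
    {C : ℕ → G → (G ⧸ H) ⊕ G} (hC : ∀ t < n, LabD H Q N (C t))
    (hcut : ∀ g : G, {t | t < n ∧ ∃ (i : Fin 3), C t (g * f i) ≠ C t g}.ncard ≤ B)
    (hWW : WW a e f κ) (hHQ : WWQ2 a e f Q ((1 - η) * κ)) (P : Fin 3 → Ln a)
    (F : Finset (G1 × (G ⧸ N))) :
    (1 - η) ^ 2 * κ * F.card ≤ (nb a e (fun i => (f i : G ⧸ N)) (wd P) F).card := by
  classical
  obtain ⟨t, ht, F', hsub, hgood, hF⟩ := exists_good_cut F n B η hn hB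
    (fun t p => ∃ (i : Fin 3), C t (p.2.out * f i) ≠ C t p.2.out)
    (fun p _ => hcut p.2.out)
  have hCt := hC t ht
  have hun : ∀ p ∈ F', ∀ g : G, (g : G ⧸ N) = p.2 → ∀ (i : Fin 3), C t (g * f i) = C t g := by
    intro p hp g hg i
    have h1 : C t (p.2.out * f i) = C t p.2.out := by
      by_contra hne
      exact hgood p hp ⟨i, hne⟩
    obtain ⟨m, hm, h⟩ := (mk_eq_iff N p.2.out g).1 (by rw [hg]; exact QuotientGroup.out_eq' _)
    rw [h, hCt.eqv m hm, ← h1, ← hCt.eqv m hm]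
    congr 1
    group
  have hmain : (1 - η) * κ * F'.card ≤ (nb a e (fun i => (f i : G ⧸ N)) (wd P) F').card := by
    apply sum_classes_nb _ _ _ _ F' (fun p => cls N (C t) p.2)
    · intro F'' hs p0 hp0 hcl
      apply core2 hCt h0 hη hWW hHQ P F'' _ (C t p0.2.out)
      · intro p hp
        have h1 : C t p0.2.out ∈ cls N (C t) p0.2 := ⟨p0.2.out, QuotientGroup.out_eq' _, rfl⟩
        rw [← hcl p hp] at h1
        exact h1
      · intro p hp
        exact hun p (hs hp)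
    · intro p hp p' hp' i j he
      obtain ⟨g, hg⟩ := QuotientGroup.mk_surjective p.2
      obtain ⟨g', hg'⟩ := QuotientGroup.mk_surjective p'.2
      rw [wd_eq_iff] at he
      have h1 : p.2 * (f i : G ⧸ N) = p'.2 * (f j : G ⧸ N) := he.1
      rw [← hg, ← hg'] at h1
      obtain ⟨m, hm, hmm⟩ := (mk_eq_iff N (g * f i) (g' * f j)).1 h1
      have h2 : ((m * g : G) : G ⧸ N) = p.2 := by
        rw [← hg]
        exact ((mk_eq_iff N g _).2 ⟨m, hm, rfl⟩).symm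
      refine cls_eq hCt h2 hg' ?_
      rw [← hun p' hp' g' hg' j, hmm, hCt.eqv m hm, hCt.eqv m hm, hun p hp g hg i]
  have hle := nb_mono a e (fun i => (f i : G ⧸ N)) (wd P) hsub
  have h1 : (1 - η) ^ 2 * κ * F.card ≤ (1 - η) * κ * F'.card := by
    have e1 : (1 - η) ^ 2 * κ * F.card = (1 - η) * κ * ((1 - η) * F.card) := by ring
    rw [e1]
    exact mul_le_mul_of_nonneg_left hF (mul_nonneg (by linarith) h0)
  exact (h1.trans hmain).trans (by exact_mod_cast hle)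

end core2

/-- BLOCK TRN2 -/
theorem trn2 (hLab : LabStmt) : TrN2Stmt := by
  intro G V _ _ _ hG a hmal H Y θ hR f η hf h0 h1
  have : IsomAct G V := ⟨hG.isom⟩
  obtain ⟨x0⟩ := hG.ne
  obtain ⟨L, hL1, -⟩ := exists_L hR x0 f
  obtain ⟨B, hB⟩ := hLab G V hG a H Y θ hR x0 L 0
  obtain ⟨n, hn1, hn⟩ := exists_nat_le h0 (B : ℚ)
  obtain ⟨T0, hT⟩ := hB n
  refine ⟨T0, fun Q hd hTr G1 _ a1 e1 κ he1 hκ hW => ?_⟩
  obtain ⟨c, c1, c2, c3, c4, c5⟩ := hT Q hd
  set N := Subgroup.normalClosure (Q : Set G) with hN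
  have hC : ∀ t < n, LabD H Q N (fun g => c t (g • x0)) := by
    intro t ht
    refine ⟨?_, ?_, c5, fun q hq => Subgroup.subset_normalClosure hq⟩
    · intro m hm g
      rw [mul_smul]
      exact c1 t ht m hm _
    · intro g h hg
      exact c2 t ht _ h hg
  have hcut : ∀ g : G, {t | t < n ∧ ∃ (i : Fin 3),
      c t ((g * f i) • x0) ≠ c t (g • x0)}.ncard ≤ B := by
    intro g
    set A : Set V := {q | ∃ (i : Fin 3), (g * f i) • x0 = q} with hA
    have hA1 : ∀ p ∈ A, ∀ p' ∈ A, ∀ h : G, prd Y (h • p) (h • p') ≤ L := by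
      rintro p ⟨i, rfl⟩ p' ⟨j, rfl⟩ h
      have := hL1 g h i j 0 0
      rwa [zpow_zero, mul_one, mul_one] at this
    refine le_trans (Set.ncard_le_ncard ?_ ?_) (c3 A hA1)
    · rintro t ⟨ht, i, hne⟩
      refine ⟨ht, _, ⟨i, rfl⟩, g • x0, ⟨0, ?_⟩, hne⟩
      rw [hf, mul_one]
    · exact (Set.finite_lt_nat n).subset fun t ht => ht.1
  have hHQ := hTr G1 a1 e1 κ hκ hW
  intro P F
  have hmain := main2 (C := fun t g => c t (g • x0)) hn1 hn hκ h0.le h1.le hC hcut hW hHQ P F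
  have hle : (1 - η) ^ 3 * κ ≤ (1 - η) ^ 2 * κ := by
    have hκ2 : 0 ≤ (1 - η) ^ 2 * κ := mul_nonneg (pow_nonneg (by linarith) 2) hκ
    have e1 : (1 - η) ^ 3 * κ = (1 - η) * ((1 - η) ^ 2 * κ) := by ring
    rw [e1]
    nlinarith
  exact (mul_le_mul_of_nonneg_right hle (Nat.cast_nonneg _)).trans hmain

end TSq

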