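import Pool.Agent.Work.TSQ.Step
import Pool.Agent.Work.TSQ.Lim
import Pool.Agent.Work.TSQ.BaseW
import Pool.Agent.Work.TSQ.BaseGeo
import Pool.Agent.Work.TSQ.PSb
import Pool.Agent.Work.TSQ.ResFin
import Pool.Agent.Work.TSQ.Lab
import Pool.Agent.Work.TSQ.NCut
import Pool.Agent.Work.TSQ.HCut
import Pool.Agent.Work.TSQ.Geo
import Pool.Agent.Work.TSQ.RduA
import Pool.Agent.Work.TSQ.RduB
import Pool.Agent.Work.TSQ.RDE
import Pool.Agent.Work.TSQ.Overlap
import Pool.Agent.Work.TSQ.Dich
import Pool.Agent.Work.TSQ.Trh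
import Pool.Agent.Work.TSQ.Long
import Pool.Agent.Work.TSQ.TrN1
import Pool.Agent.Work.TSQ.TrN2

/-!
# MP_ab148e_al: assembly
-/

namespace TSq

/-- There is a group `G` and a number `n` such that `G × G` has a paradoxical decomposition with at
most `n` pieces and `G` has none (in fact `n = 5`). -/
theorem main : ∃ (G : Type) (_ : Group G) (n : ℕ), Parad (G × G) n ∧ ¬ Parad G n := by
  have OV : OverStmt := over_of_dich dich
  have PSs : PSStmt := ps_of dich OV
  have LB : LabStmt := lab_of ncut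
  have RU : RDUStmt := rdu_of dich (rduA dich) (rduB dich OV)
  exact finStmt (oneStep_of PSs (trh hcut) (rde_of PSs dich) resFin RU (geo dich)
    (trn1 longStmt LB) (trn2 LB)) baseGeo baseWStmt

end TSq
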