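import Pool.Agent.Work.MP_50f8f6_al.Proj
import Pool.Agent.Work.MP_ab148e_al.R7.CDefs

/-!
# MP_ab148e_al (S02649): Tarski number of `G × G`. Definitions.

Conventions: everything acts on the left. Lines are the cosets `g⟨a⟩ ∈ Ln a`.
`Γ(G,G2)`: claws are the elements `(g,x)` of `G × G2`, nodes are the elements of `Ln a × G2`,
the claw `(g,x)` has the three nodes `(g⟨a⟩,x)`, `(gb⟨a⟩,x b2)`, `(gc⟨a⟩,x c2)`.
-/

namespace TSq
open FrobP GMet

/-! ## Groups -/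

/-- proper cobounded action on a hyperbolic (integer valued) geodesic space -/
structure HG (G V : Type) [Group G] [GMet V] [MulAction G V] : Prop where
  isom : ∀ (g : G) (x y : V), d (g • x) (g • y) = d x y
  ne : Nonempty V
  hyp : ∃ δ : ℕ, Hyp V δ
  prop : ∀ (x : V) (r : ℕ), {g : G | d x (g • x) ≤ r}.Finite
  cob : ∃ (x : V) (D : ℕ), ∀ y : V, ∃ g : G, d y (g • x) ≤ D

/-- `a` has infinite order and `⟨a⟩` is malnormal -/
structure Mal {G : Type} [Group G] (a : G) : Prop where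
  inf : ¬ IsOfFinOrder a
  mal : ∀ (g : G) (m n : ℤ), n ≠ 0 → g * a ^ n * g⁻¹ = a ^ m → g ∈ Subgroup.zpowers a

/-- Relator data: `H` acts coboundedly on the quasiconvex set `Y`, translates `g • Y` with `g ∉ H`
have small projection to `Y`, and all `a`-lines have bounded projection to `Y`. -/
structure RD {G V : Type} [Group G] [GMet V] [MulAction G V] (a : G) (H : Subgroup G) (Y : Set V)
    (θ : ℕ) : Prop where
  one_le : 1 ≤ θ
  hyp : Hyp V θ
  ne : Y.Nonempty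
  inv : ∀ h ∈ H, ∀ y ∈ Y, h • y ∈ Y
  qc : QC θ Y
  small : ∀ g : G, g ∉ H → ∀ x ∈ Y, ∀ y ∈ Y, prd Y (g • x) (g • y) ≤ θ
  cob : ∃ D : ℕ, ∀ x ∈ Y, ∀ y ∈ Y, ∃ h ∈ H, d x (h • y) ≤ D
  line : ∀ x : V, ∃ L : ℕ, ∀ (g : G) (m n : ℤ), prd Y (g • a ^ m • x) (g • a ^ n • x) ≤ L

/-- deep normal subgroups of finite index of `H` -/
structure Deep {G : Type} (V : Type) [Group G] [GMet V] [MulAction G V] (H Q : Subgroup G)
    (T : ℕ) : Prop where
  le : Q ≤ H
  nrm : ∀ h ∈ H, ∀ q ∈ Q, h * q * h⁻¹ ∈ Q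
  fi : Q.relIndex H ≠ 0
  big : ∀ q ∈ Q, q ≠ 1 → ∀ x : V, T ≤ d x (q • x)

/-- positions along the `a`-lines: `pos g` is the position of the projection of `g` to the line
`⟨a⟩`; the position of `g` on the line `x⟨a⟩` (with base point `x`) is `pos (x⁻¹ * g)`. -/
structure PS {G : Type} [Group G] (a : G) (pos : G → ℤ) (Δ : ℤ) : Prop where
  nn : 0 ≤ Δ
  one : pos 1 = 0
  shift : ∀ g, pos (a * g) = pos g + 1
  line : ∀ x : G, x ∉ Subgroup.zpowers a → ∀ m n : ℤ, |pos (x * a ^ m) - pos (x * a ^ n)| ≤ Δ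
  behr : ∀ x : G, x ∉ Subgroup.zpowers a → ∀ g : G,
    |pos g - pos x| ≤ Δ ∨ |pos (x⁻¹ * g) - pos x⁻¹| ≤ Δ
  lip : ∀ s : G, ∃ D : ℤ, ∀ g : G, |pos (g * s) - pos g| ≤ D
  fin : ∀ g g' : G, {l : G ⧸ Subgroup.zpowers a | ∃ x : G, (x : G ⧸ Subgroup.zpowers a) = l ∧
    Δ < |pos (x⁻¹ * g) - pos (x⁻¹ * g')|}.Finite

/-! ## The matching graph: see `MP_ab148e_al/R7/CDefs.lean` (helper79) -/

section graph
variable {G G2 : Type} [Group G] [Group G2]

/-- Hall condition modulo a subgroup `Q` of the first coordinate -/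
def HallQ (a : G) (e : Fin 3 → G) (f : Fin 3 → G2) (Q : Subgroup G) (κ : ℚ) : Prop :=
  ∀ F : Finset (G × G2),
    (∀ p ∈ F, ∀ p' ∈ F, p.2 = p'.2 → ∀ q ∈ Q, q * p.1 = p'.1 → p = p') →
    κ * F.card ≤ (nb a e f (Prod.map (Quotient.mk (MulAction.orbitRel Q (Ln a))) id) F).card

/-- the invariant modulo a subgroup `Q` of the second coordinate -/
def WWQ2 (a : G) (e : Fin 3 → G) (f : Fin 3 → G2) (Q : Subgroup G2) (κ : ℚ) : Prop :=
  ∀ P : Fin 3 → Ln a, ∀ F : Finset (G × G2),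
    (∀ p ∈ F, ∀ p' ∈ F, p.1 = p'.1 → ∀ q ∈ Q, q * p.2 = p'.2 → p = p') →
    κ * F.card ≤ (nb a e f
      (fun m => Prod.map id (Quotient.mk (MulAction.orbitRel Q G2)) (wd P m)) F).card

/-- `Q` costs at most the factor `1 - η` on the first coordinate -/
def Tr1 (a : G) (e : Fin 3 → G) (Q : Subgroup G) (η : ℚ) : Prop :=
  ∀ (G2 : Type) [Group G2] (f : Fin 3 → G2) (κ : ℚ), 0 ≤ κ → WW a e f κ →
    HallQ a e f Q ((1 - η) * κ)

/-- `Q` costs at most the factor `1 - η` on the second coordinate -/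
def Tr2 (f : Fin 3 → G) (Q : Subgroup G) (η : ℚ) : Prop :=
  ∀ (G1 : Type) [Group G1] (a1 : G1) (e1 : Fin 3 → G1) (κ : ℚ), 0 ≤ κ → WW a1 e1 f κ →
    WWQ2 a1 e1 f Q ((1 - η) * κ)

end graph

/-! ## Stages and tasks -/

/-- the free group of rank three -/
abbrev F3 : Type := FreeGroup (Fin 3)

/-- the letters `a` and `1, b, c` -/
def fa : F3 := FreeGroup.of 0
/-- the letters `1, b, c` -/
def fe : Fin 3 → F3 := ![1, FreeGroup.of 1, FreeGroup.of 2]

/-- a stage: a marked group in the class, with invariant `r` -/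
structure Stg (G : Type) [Group G] (π : F3 →* G) (r : ℚ) : Prop where
  surj : Function.Surjective π
  hg : ∃ (V : Type) (_ : GMet V) (_ : MulAction G V), HG G V
  mal : Mal (π fa)
  w : WW (π fa) (π ∘ fe) (π ∘ fe) r

/-- tasks -/
inductive Task where
  | u (g : F3)
  | e (j : ℕ) (v w : F3)

/-- the task has been done in the marked group `G` (stable under quotients) -/
def Done (G : Type) [Group G] (π : F3 →* G) : Task → Prop
  | .u g => IsOfFinOrder (π g) ∨ ∃ (h : G) (m n : ℤ), n ≠ 0 ∧ m ≠ 0 ∧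
      (π g) ^ n = h * (π fa) ^ m * h⁻¹
  | .e j v w => j = 0 ∨ π v ∈ Subgroup.zpowers (π fa) ∨ π w ∈ Subgroup.zpowers (π fa) ∨
      (π v)⁻¹ * π w ∈ Subgroup.zpowers (π fa) ∨
      ∃ k m : ℤ, (j : ℤ) ∣ k ∧ (j : ℤ) ∣ m ∧
        (Subgroup.closure {π v * (π fa) ^ k, π w * (π fa) ^ m} : Set G).Finite

/-! ## The family of translates of `Y`, in the language of `FrobP` -/

section cone
variable {G V : Type} [Group G] [GMet V] [MulAction G V]

/-- the family `g • Y`, indexed by `G ⧸ H` -/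
def rdY (H : Subgroup G) (Y : Set V) (i : G ⧸ H) : Set V :=
  {x | ∃ g : G, (g : G ⧸ H) = i ∧ ∃ y ∈ Y, g • y = x}

/-- the subgroups `g Q g⁻¹`, indexed by `G ⧸ H` -/
noncomputable def rdQ (H Q : Subgroup G) (i : G ⧸ H) : Subgroup G :=
  Q.map (MulAut.conj (Quotient.out i)).toMonoidHom

/-- cone data of the family -/
def rdCone (H : Subgroup G) (Y : Set V) (hY : Y.Nonempty) (ρ R : ℕ) (hρ : 1 ≤ ρ) (hR : 1 ≤ R) :
    ConeData V (G ⧸ H) where
  Y := rdY H Y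
  ρ := ρ
  R := R
  hY := by
    intro i
    obtain ⟨y, hy⟩ := hY
    obtain ⟨g, rfl⟩ := QuotientGroup.mk_surjective i
    exact ⟨g • y, g, rfl, y, hy, rfl⟩
  hρ := hρ
  hR := hR

end cone

/-! ## The two-generator subgroups of the tasks `e` -/

/-- `x ↦ v a^{4k}`, `y ↦ w a^{12k}` -/
def phi {G : Type} [Group G] (a v w : G) (k : ℕ) : FreeGroup (Fin 2) →* G :=
  FreeGroup.lift ![v * a ^ (4 * k), w * a ^ (12 * k)]

end TSq
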