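import Pool.Agent.Work.TSQ.Defs
import Pool.Agent.Work.MP_50f8f6_al.Interface

/-!
# MP_ab148e_al (S02649): the statements of the blocks, as `Prop`s.
A block is finished when `theorem xxx : XxxStmt` compiles.
-/

namespace TSq
open FrobP GMet

/-- orbit of `x` under the powers of `u` -/
def orb {G V : Type} [Group G] [MulAction G V] (u : G) (x : V) : Set V :=
  {y | ∃ n : ℤ, u ^ n • x = y}

/-- BLOCK DICH: elements of infinite order are loxodromic; their orbits are quasiconvex. -/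
def DichStmt : Prop := ∀ (G V : Type) [Group G] [GMet V] [MulAction G V], HG G V →
  ∀ g : G, ¬ IsOfFinOrder g →
    (∃ r : ℕ, 1 ≤ r ∧ ∀ (x : V) (m : ℕ), m ≤ r * d x (g ^ m • x)) ∧
    (∀ x : V, ∃ θ : ℕ, QC θ (orb g x))

/-- BLOCK OVER: if the projection of a translate of a `w`-orbit to a `u`-orbit is long, then a power
of the conjugate of `w` is a power of `u`. -/
def OverStmt : Prop := ∀ (G V : Type) [Group G] [GMet V] [MulAction G V], HG G V →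
  ∀ u w : G, ¬ IsOfFinOrder u → ¬ IsOfFinOrder w → ∀ x : V, ∃ K : ℕ, ∀ g : G,
    (∀ p q : ℤ, p ≠ 0 → g * w ^ p * g⁻¹ ≠ u ^ q) →
    ∀ m n : ℤ, prd (orb u x) (g • w ^ m • x) (g • w ^ n • x) ≤ K

/-- BLOCK PS: positions along the `a`-lines. The last three parts compare `pos` with projection
distances and count lines. -/
def PSStmt : Prop := ∀ (G V : Type) [Group G] [GMet V] [MulAction G V], HG G V →
  ∀ a : G, Mal a → ∀ x : V, ∃ (pos : G → ℤ) (Δ : ℤ) (κ : ℕ), PS a pos Δ ∧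
    (∀ g g' : G, |pos g - pos g'| ≤ κ * prd (orb a x) (g • x) (g' • x) + κ) ∧
    (∀ g g' : G, (prd (orb a x) (g • x) (g' • x) : ℤ) ≤ κ * |pos g - pos g'| + κ) ∧
    (∀ g g' : G, {l : Ln a | ∃ y : G, (y : Ln a) = l ∧
      Δ < |pos (y⁻¹ * g) - pos (y⁻¹ * g')|}.ncard ≤ κ * (1 + d (g • x) (g' • x)))

/-- BLOCK HCUT: equivariant labellings of `G` by the formal tripods `FreeGroup (Fin 2)`. -/
def HCutStmt : Prop := ∀ (G : Type) [Group G] (a : G) (pos : G → ℤ) (Δ : ℤ), Mal a →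
  PS a pos Δ → ∀ v w : G, v ∉ Subgroup.zpowers a → w ∉ Subgroup.zpowers a →
  v⁻¹ * w ∉ Subgroup.zpowers a → ∀ L : ℕ, ∃ K0 : ℕ, ∀ k ≥ K0,
  ∃ c : ℕ → G → FreeGroup (Fin 2),
    (∀ s ∈ Finset.Ico k (3 * k), ∀ (u : FreeGroup (Fin 2)) (g : G),
      c s (phi a v w k u * g) = u * c s g) ∧
    (∀ A : Set G, (∀ g ∈ A, ∀ g' ∈ A, ∀ u : FreeGroup (Fin 2),
        |pos ((phi a v w k u)⁻¹ * g) - pos ((phi a v w k u)⁻¹ * g')| ≤ L) →
      {s | s ∈ Finset.Ico k (3 * k) ∧ ∃ g ∈ A, ∃ g' ∈ A, c s g ≠ c s g'}.ncard ≤ 2 * L + 2) ∧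
    (∀ s ∈ Finset.Ico k (3 * k), ∀ (u : FreeGroup (Fin 2)) (n : ℤ),
      c s (phi a v w k u * a ^ n) = if -(s : ℤ) < n then u
        else if -(4 * k : ℤ) - s < n then u * (FreeGroup.of 0)⁻¹ else u * (FreeGroup.of 1)⁻¹)

/-- BLOCK TRH: the two-generator groups cost little on both coordinates. -/
def TrHStmt : Prop := ∀ (G : Type) [Group G] (a : G) (e : Fin 3 → G) (pos : G → ℤ) (Δ : ℤ),
  Mal a → PS a pos Δ → ∀ v w : G, v ∉ Subgroup.zpowers a → w ∉ Subgroup.zpowers a →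
  v⁻¹ * w ∉ Subgroup.zpowers a → ∀ η : ℚ, 0 < η → η < 1 → ∃ K0 : ℕ, ∀ k ≥ K0,
  ∀ Q' : Subgroup (FreeGroup (Fin 2)),
    Tr1 a e (Q'.map (phi a v w k)) η ∧ Tr2 e (Q'.map (phi a v w k)) η

/-- BLOCK RDE: the two-generator groups give relator data. -/
def RDEStmt : Prop := ∀ (G V : Type) [Group G] [GMet V] [MulAction G V], HG G V →
  ∀ a : G, Mal a → ∀ v w : G, v ∉ Subgroup.zpowers a → w ∉ Subgroup.zpowers a →
  v⁻¹ * w ∉ Subgroup.zpowers a → ∃ K0 : ℕ, ∀ k ≥ K0,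
    Function.Injective (phi a v w k) ∧
    (∃ (Y : Set V) (θ : ℕ), RD a (phi a v w k).range Y θ) ∧
    ∀ T : ℕ, ∃ S : Finset (FreeGroup (Fin 2)), 1 ∉ S ∧
      ∀ Q' : Subgroup (FreeGroup (Fin 2)), Q'.Normal → (∀ u ∈ S, u ∉ Q') →
        ∀ q ∈ Q', q ≠ 1 → ∀ x : V, T ≤ d x (phi a v w k q • x)

/-- BLOCK RESFIN: free groups are residually finite. -/
def ResFinStmt : Prop := ∀ S : Finset (FreeGroup (Fin 2)), 1 ∉ S →
  ∃ Q' : Subgroup (FreeGroup (Fin 2)), Q'.Normal ∧ Q'.index ≠ 0 ∧ ∀ u ∈ S, u ∉ Q'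

/-- BLOCK RDU: elements of infinite order, not commensurable to `a`. -/
def RDUStmt : Prop := ∀ (G V : Type) [Group G] [GMet V] [MulAction G V], HG G V →
  ∀ a : G, Mal a → ∀ u : G, ¬ IsOfFinOrder u →
  (∀ (h : G) (m n : ℤ), n ≠ 0 → m ≠ 0 → u ^ n ≠ h * a ^ m * h⁻¹) →
  ∃ (H : Subgroup G) (Y : Set V) (θ : ℕ), RD a H Y θ ∧
    ∀ (e : Fin 3 → G) (T : ℕ) (η : ℚ), 0 < η → η < 1 → ∃ Q : Subgroup G, Deep V H Q T ∧
      (∃ M : ℕ, 1 ≤ M ∧ u ^ M ∈ Q) ∧ Tr1 a e Q η ∧ Tr2 e Q η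

/-- BLOCK S1X: `S1Stmt` together with: intervals with small projections stay close to intervals of
the cone-off. -/
def S1xStmt : Prop := ∃ s K K0 D1 : ℕ, ∀ (V ι : Type) [GMet V] (C : ConeData V ι) (θ : ℕ),
  Fam C θ → K * θ ≤ C.R → Slim (Cone C) s ∧ E2 C K0 ∧
    ∀ x y z : V, (∀ i, prd (C.Y i) x y ≤ C.R) → Bt x z y →
      ∃ q, Bt (Cone.base C x) q (Cone.base C y) ∧ d (Cone.base C z) q ≤ D1

/-- BLOCK GEO: the class is stable under quotients by deep subgroups. -/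
def GeoStmt : Prop := ∀ (G V : Type) [Group G] [GMet V] [MulAction G V], HG G V →
  ∀ a : G, Mal a → ∀ (H : Subgroup G) (Y : Set V) (θ : ℕ), RD a H Y θ → ∃ T0 : ℕ,
  ∀ Q : Subgroup G, Deep V H Q T0 →
    (∃ (V' : Type) (_ : GMet V') (_ : MulAction (G ⧸ Subgroup.normalClosure (Q : Set G)) V'),
      HG (G ⧸ Subgroup.normalClosure (Q : Set G)) V') ∧
    Mal (a : G ⧸ Subgroup.normalClosure (Q : Set G))

/-- action of `G` on labels -/
def lact {G ι : Type} [Group G] [MulAction G ι] (g : G) : ι ⊕ G → ι ⊕ G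
  | .inl i => .inl (g • i)
  | .inr h => .inr (g * h)

/-- BLOCK NCUT: equivariant labellings of `V` for a rotation family (windmills). The bound for the
number of bad labellings does not depend on the number `n` of labellings. -/
def NCutStmt : Prop := ∃ K : ℕ, ∀ (G V ι : Type) [Group G] [GMet V] [MulAction G V]
  [MulAction G ι] [IsomAct G V] (C : ConeData V ι) [ConeAct G C] (H : ι → Subgroup G)
  (θ T L r0 n : ℕ) (x0 : V), Rot G C H θ T → K * (θ + L + r0 + n) ≤ T →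
  ∃ c : ℕ → V → ι ⊕ G,
    (∀ t < n, ∀ m ∈ NN H, ∀ p : V, c t (m • p) = lact m (c t p)) ∧
    (∀ t < n, ∀ (p : V) (g : G), c t p = .inr g → g ∈ NN H) ∧
    (∀ A : Set V, (∀ p ∈ A, ∀ p' ∈ A, ∀ i, prd (C.Y i) p p' ≤ L) →
      {t | t < n ∧ ∃ p ∈ A, ∃ p' ∈ A, c t p ≠ c t p'}.ncard ≤ K * (θ + L)) ∧
    (∀ t < n, ∀ p : V, (∀ i, prd (C.Y i) x0 p ≤ r0) → c t p = .inr 1)

/-- BLOCK LAB: the same in terms of relator data. -/
def LabStmt : Prop := ∀ (G V : Type) [Group G] [GMet V] [MulAction G V], HG G V →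
  ∀ (a : G) (H : Subgroup G) (Y : Set V) (θ : ℕ), RD a H Y θ → ∀ (x0 : V) (L r0 : ℕ),
  ∃ B : ℕ, ∀ n : ℕ, ∃ T0 : ℕ, ∀ Q : Subgroup G, Deep V H Q T0 →
  ∃ c : ℕ → V → (G ⧸ H) ⊕ G,
    (∀ t < n, ∀ m ∈ Subgroup.normalClosure (Q : Set G), ∀ p : V,
      c t (m • p) = lact m (c t p)) ∧
    (∀ t < n, ∀ (p : V) (g : G), c t p = .inr g → g ∈ Subgroup.normalClosure (Q : Set G)) ∧
    (∀ A : Set V, (∀ p ∈ A, ∀ p' ∈ A, ∀ g : G, prd Y (g • p) (g • p') ≤ L) →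
      {t | t < n ∧ ∃ p ∈ A, ∃ p' ∈ A, c t p ≠ c t p'}.ncard ≤ B) ∧
    (∀ t < n, ∀ p : V, (∀ g : G, prd Y (g • x0) (g • p) ≤ r0) → c t p = .inr 1) ∧
    (∀ m ∈ Subgroup.normalClosure (Q : Set G), ∀ g : G, m • (g : G ⧸ H) = (g : G ⧸ H) →
      g⁻¹ * m * g ∈ Q)

/-- BLOCK TRN1: the invariant passes to the quotient on the first coordinate. -/
def TrN1Stmt : Prop := ∀ (G V : Type) [Group G] [GMet V] [MulAction G V], HG G V →
  ∀ a : G, Mal a → ∀ (H : Subgroup G) (Y : Set V) (θ : ℕ), RD a H Y θ →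
  ∀ (e : Fin 3 → G) (η : ℚ), e 0 = 1 → 0 < η → η < 1 → ∃ T0 : ℕ, ∀ Q : Subgroup G,
  Deep V H Q T0 → Mal (a : G ⧸ Subgroup.normalClosure (Q : Set G)) → Tr1 a e Q η →
  ∀ (G2 : Type) [Group G2] (f : Fin 3 → G2) (κ : ℚ), f 0 = 1 → 0 ≤ κ → WW a e f κ →
    WW (a : G ⧸ Subgroup.normalClosure (Q : Set G))
      (fun i => (e i : G ⧸ Subgroup.normalClosure (Q : Set G))) f ((1 - η) ^ 3 * κ)

/-- BLOCK TRN2: the invariant passes to the quotient on the second coordinate. -/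
def TrN2Stmt : Prop := ∀ (G V : Type) [Group G] [GMet V] [MulAction G V], HG G V →
  ∀ a : G, Mal a → ∀ (H : Subgroup G) (Y : Set V) (θ : ℕ), RD a H Y θ →
  ∀ (f : Fin 3 → G) (η : ℚ), f 0 = 1 → 0 < η → η < 1 → ∃ T0 : ℕ, ∀ Q : Subgroup G,
  Deep V H Q T0 → Tr2 f Q η →
  ∀ (G1 : Type) [Group G1] (a1 : G1) (e1 : Fin 3 → G1) (κ : ℚ), e1 0 = 1 → 0 ≤ κ →
    WW a1 e1 f κ →
    WW a1 e1 (fun i => (f i : G ⧸ Subgroup.normalClosure (Q : Set G))) ((1 - η) ^ 3 * κ)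

/-- BLOCK BASE, part 1: the free group acts on its tree and `⟨a⟩` is malnormal -/
def BaseGeoStmt : Prop :=
  (∃ (V : Type) (_ : GMet V) (_ : MulAction F3 V), HG F3 V) ∧ Mal fa

/-- BLOCK BASE, part 2: the invariant for the free group -/
def BaseWStmt : Prop := WW fa fe fe (3 / 2)

/-- BLOCK STEP (assembly, done in `Step.lean` from the other blocks) -/
def OneStepStmt : Prop := ∀ (G : Type) [Group G] (π : F3 →* G) (r r' : ℚ), Stg G π r →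
  0 < r' → r' < r → ∀ t : Task, ∃ (G' : Type) (_ : Group G') (ρ : G →* G'),
    Stg G' (ρ.comp π) r' ∧ Done G' (ρ.comp π) t

/-- BLOCK FIN (helper79): limit group and Tarski numbers. -/
def FinStmt : Prop := OneStepStmt → BaseGeoStmt → BaseWStmt →
  ∃ (G : Type) (_ : Group G) (n : ℕ), Parad (G × G) n ∧ ¬ Parad G n

end TSq
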