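import Pool.Agent.Work.TSQ.Interface

/-!
# Blocks LINE and LONG (statements)
-/

namespace TSq

/-- two lines of one claw -/
def AdjL {G : Type} [Group G] (a : G) (e : Fin 3 → G) (l l' : Ln a) : Prop :=
  ∃ (g : G) (i j : Fin 3), ln a (g * e i) = l ∧ ln a (g * e j) = l'

/-- `l'` can be reached from `l` by `n` steps through claws -/
def Rch {G : Type} [Group G] (a : G) (e : Fin 3 → G) (n : ℕ) (l l' : Ln a) : Prop :=
  ∃ c : ℕ → Ln a, c 0 = l ∧ c n = l' ∧ ∀ k < n, AdjL a e (c k) (c (k + 1))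

/-- BLOCK LINE: the nodes of one line may be removed. -/
def LineStmt : Prop := ∀ (G G2 : Type) [Group G] [Group G2] (a : G) (e : Fin 3 → G)
  (f : Fin 3 → G2) (κ : ℚ), Mal a → 0 ≤ κ → HallR a e f κ → ∀ (l : Ln a) (F : Finset (G × G2)),
  κ * F.card ≤ ({n | n ∈ nb a e f id F ∧ n.1 ≠ l} : Set (Ln a × G2)).ncard

/-- BLOCK LONG: if one of the three lines of `P` is far from the two others, then the
identification costs little. -/
def LongStmt : Prop := ∀ (G G2 : Type) [Group G] [Group G2] (a : G) (e : Fin 3 → G)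
  (f : Fin 3 → G2) (κ : ℚ), Mal a → e 0 = 1 → 0 ≤ κ → HallR a e f κ →
  ∀ (ρ : ℕ), 1 ≤ ρ → ∀ (P : Fin 3 → Ln a) (i : Fin 3), (∀ j, j ≠ i → ¬ Rch a e ρ (P i) (P j)) →
  ∀ F : Finset (G × G2), (1 - 1 / ρ) * κ * F.card ≤ (nb a e f (wd P) F).card

end TSq
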