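import Pool.Agent.Work.TSQ.Orb

/-!
# Block OVER: long projection overlap of two cyclic orbits gives commensurability
-/

namespace TSq
open FrobP GMet

/-- If the projections `a`, `b` of `p`, `q` are far apart, every point of `[a,b]` is near `[p,q]`. -/
theorem near_of_pr {V : Type} [GMet V] {θ : ℕ} {Y : Set V} (hV : Hyp V θ) (h1 : 1 ≤ θ)
    (hY : QC θ Y) {p q a b z : V} (ha : Pr Y p a) (hb : Pr Y q b) (hab : 8 * θ < d a b)
    (hz : Bt a z b) : ∃ z', Bt p z' q ∧ d z z' ≤ 18 * θ := by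
  have e1 := ha.p3 hV h1 hY hb hab
  have t1 := tri p a z
  have t2 := tri z b q
  unfold Bt at hz
  by_cases hle : d p z ≤ d p q
  · obtain ⟨z', hz', hd⟩ := exists_bt p q hle
    refine ⟨z', hz', ?_⟩
    have e2 := hV.h1 hz' z
    have s1 := GMet.symm z p
    unfold Bt at hz'
    omega
  · exact ⟨q, Bt.right _ _, by omega⟩

theorem over_of (DI : DichStmt) : OverStmt := by
  intro G V _ _ _ hG u w hu hw x
  haveI : IsomAct G V := ⟨hG.isom⟩
  obtain ⟨θ1, hθ1⟩ := (DI G V hG u hu).2 x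
  obtain ⟨θ2, hθ2⟩ := (DI G V hG w hw).2 x
  obtain ⟨δ, hδ⟩ := hG.hyp
  set θ := θ1 + θ2 + δ + 1 with hθ
  have h1 : 1 ≤ θ := by omega
  have hV : Hyp V θ := hyp_mono hδ (by omega)
  have hq1 : QC θ (orb u x) := qc_mono hθ1 (by omega)
  have hq2 : QC θ (orb w x) := qc_mono hθ2 (by omega)
  have hB := hG.prop x (20 * θ)
  set B := {g : G | d x (g • x) ≤ 20 * θ} with hBdef
  set N := B.ncard + 1 with hN
  refine ⟨N * (40 * θ), ?_⟩
  intro g hg m n
  by_contra hcon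
  push Not at hcon
  obtain ⟨a, b, ha, hb, hab⟩ := exists_prd (orb_ne u x) (g • w ^ m • x) (g • w ^ n • x)
  rw [← hab] at hcon
  have hbig : 8 * θ < d a b := by
    have : 1 * (40 * θ) ≤ N * (40 * θ) := Nat.mul_le_mul_right _ (by omega)
    omega
  have hz : ∀ s : Fin N, ∃ (z : V) (l k : ℤ), Bt a z b ∧ d a z = s * (40 * θ) ∧
      d z (u ^ l • x) ≤ θ ∧ d z (g • w ^ k • x) ≤ 19 * θ := by
    intro s
    have hs : (s : ℕ) * (40 * θ) ≤ d a b := by
      have : (s : ℕ) * (40 * θ) ≤ N * (40 * θ) := Nat.mul_le_mul_right _ s.2.le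
      omega
    obtain ⟨z, hz, hd⟩ := exists_bt a b hs
    obtain ⟨y, ⟨l, rfl⟩, hy⟩ := hq1 a ha.1 b hb.1 z hz
    obtain ⟨z', hz', hzz'⟩ := near_of_pr hV h1 hq1 ha hb hbig hz
    obtain ⟨y', hy', hyz⟩ := qc_tr g hq2 _ (smul_mem_tr.2 (zpow_mem_orb w x m)) _
      (smul_mem_tr.2 (zpow_mem_orb w x n)) z' hz'
    obtain ⟨k, hk⟩ := hy'
    refine ⟨z, l, k, hz, hd, hy, ?_⟩
    rw [hk, smul_inv_smul]
    have t := tri z z' y'
    omega
  choose z l k hz1 hz2 hz3 hz4 using hz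
  have hf : ∀ s : Fin N, (u ^ l s)⁻¹ * g * w ^ k s ∈ hB.toFinset := by
    intro s
    rw [Set.Finite.mem_toFinset]
    change d x (((u ^ l s)⁻¹ * g * w ^ k s) • x) ≤ 20 * θ
    have e : d x (((u ^ l s)⁻¹ * g * w ^ k s) • x) = d (u ^ l s • x) (g • w ^ k s • x) := by
      rw [mul_smul, mul_smul, ← isom (u ^ l s) x, smul_inv_smul]
    rw [e]
    have t := tri (u ^ l s • x) (z s) (g • w ^ k s • x)
    have s1 := GMet.symm (u ^ l s • x) (z s)
    have := hz3 s
    have := hz4 s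
    omega
  obtain ⟨s, s', hne, heq⟩ := Fintype.exists_ne_map_eq_of_card_lt
    (fun s : Fin N => (⟨_, hf s⟩ : hB.toFinset)) (by
      rw [Fintype.card_coe, Fintype.card_fin, ← Set.ncard_eq_toFinset_card B hB]; omega)
  have heq' : (u ^ l s)⁻¹ * g * w ^ k s = (u ^ l s')⁻¹ * g * w ^ k s' := congrArg Subtype.val heq
  have hk : k s ≠ k s' := by
    intro hk
    have h4 := hz4 s
    have h5 := hz4 s'
    rw [hk] at h4
    have e := hz2 s
    have e' := hz2 s'
    have t := tri (z s) (g • w ^ k s' • x) (z s')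
    have s1 := GMet.symm (g • w ^ k s' • x) (z s')
    have t1 := tri a (z s) (z s')
    have t2 := tri a (z s') (z s)
    have s2 := GMet.symm (z s') (z s)
    have hne' : (s : ℕ) ≠ (s' : ℕ) := fun h => hne (Fin.ext h)
    rcases lt_or_gt_of_ne hne' with h | h
    · have := Nat.mul_le_mul_right (40 * θ) (Nat.succ_le_of_lt h)
      rw [Nat.succ_mul] at this
      omega
    · have := Nat.mul_le_mul_right (40 * θ) (Nat.succ_le_of_lt h)
      rw [Nat.succ_mul] at this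
      omega
  refine hg (k s - k s') (l s - l s') (sub_ne_zero.2 hk) ?_
  have h6 : g * w ^ k s = u ^ l s * ((u ^ l s')⁻¹ * g * w ^ k s') := by
    rw [← heq']; group
  rw [zpow_sub, zpow_sub]
  calc g * (w ^ k s * (w ^ k s')⁻¹) * g⁻¹ = g * w ^ k s * (w ^ k s')⁻¹ * g⁻¹ := by group
    _ = u ^ l s * ((u ^ l s')⁻¹ * g * w ^ k s') * (w ^ k s')⁻¹ * g⁻¹ := by rw [h6]
    _ = u ^ l s * (u ^ l s')⁻¹ := by group

end TSq
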