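import Pool.Agent.Work.TSQ.Interface
import Pool.Agent.Work.MP_50f8f6_al_helper59.S2
import Pool.Agent.Work.MP_50f8f6_al_helper63.S3

/-!
# Block R0: relator data and deep subgroups give a rotation family
-/

namespace TSq
open FrobP GMet

variable {G V : Type} [Group G] [GMet V] [MulAction G V]
variable {a : G} {H Q : Subgroup G} {Y : Set V} {θ T : ℕ}

theorem mem_rdY (hinv : ∀ h ∈ H, ∀ y ∈ Y, h • y ∈ Y) (g : G) (x : V) :
    x ∈ rdY H Y (g : G ⧸ H) ↔ g⁻¹ • x ∈ Y := by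
  constructor
  · rintro ⟨g', hg', y, hy, rfl⟩
    have h1 : g⁻¹ * g' ∈ H := QuotientGroup.eq.1 hg'.symm
    rw [← mul_smul]
    exact hinv _ h1 y hy
  · intro h
    exact ⟨g, rfl, g⁻¹ • x, h, smul_inv_smul g x⟩

theorem mem_rdQ (hn : ∀ h ∈ H, ∀ q ∈ Q, h * q * h⁻¹ ∈ Q) (g x : G) :
    x ∈ rdQ H Q (g : G ⧸ H) ↔ g⁻¹ * x * g ∈ Q := by
  unfold rdQ
  obtain ⟨h, hh⟩ := QuotientGroup.mk_out_eq_mul H g
  set o := Quotient.out (g : G ⧸ H) with ho
  have ho' : o = g * h := hh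
  constructor
  · rintro ⟨q, hq, rfl⟩
    have e : g⁻¹ * ((MulAut.conj o).toMonoidHom q) * g = (h : G) * q * (h : G)⁻¹ := by
      change g⁻¹ * (o * q * o⁻¹) * g = _
      rw [ho']; group
    rw [e]
    exact hn h h.2 q hq
  · intro hx
    refine ⟨(h : G)⁻¹ * (g⁻¹ * x * g) * h, ?_, ?_⟩
    · have := hn (h : G)⁻¹ (H.inv_mem h.2) _ hx
      rwa [inv_inv] at this
    · change o * ((h : G)⁻¹ * (g⁻¹ * x * g) * h) * o⁻¹ = x
      rw [ho']; group

theorem RD.mem_rdY (hR : RD a H Y θ) (g : G) (x : V) :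
    x ∈ rdY H Y (g : G ⧸ H) ↔ g⁻¹ • x ∈ Y := TSq.mem_rdY hR.inv g x

theorem Deep.mem_rdQ (hd : Deep V H Q T) (g x : G) :
    x ∈ rdQ H Q (g : G ⧸ H) ↔ g⁻¹ * x * g ∈ Q := TSq.mem_rdQ hd.nrm g x

instance rdCone.instConeAct (H : Subgroup G) (Y : Set V) (hY : Y.Nonempty) (ρ R : ℕ)
    (hρ : 1 ≤ ρ) (hR : 1 ≤ R) : ConeAct G (rdCone H Y hY ρ R hρ hR) where
  mem g i y hy := by
    obtain ⟨g', rfl, y0, h0, rfl⟩ := hy
    exact ⟨g * g', rfl, y0, h0, mul_smul g g' y0⟩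

theorem prd_rdY [IsomAct G V] (hinv : ∀ h ∈ H, ∀ y ∈ Y, h • y ∈ Y) (g : G) (x y : V) :
    prd (rdY H Y (g : G ⧸ H)) x y = prd Y (g⁻¹ • x) (g⁻¹ • y) := by
  have h1 : ∀ y ∈ Y, g • y ∈ rdY H Y (g : G ⧸ H) := fun y hy => by
    rw [TSq.mem_rdY hinv, inv_smul_smul]; exact hy
  have h2 : ∀ z ∈ rdY H Y (g : G ⧸ H), g⁻¹ • z ∈ Y := fun z hz => (TSq.mem_rdY hinv g z).1 hz
  have := prd_smul (Y := Y) (Z := rdY H Y (g : G ⧸ H)) g h1 h2 (g⁻¹ • x) (g⁻¹ • y)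
  rwa [smul_inv_smul, smul_inv_smul] at this

/-- the family of translates is a `Fam` -/
theorem RD.fam [IsomAct G V] (hR : RD a H Y θ) (ρ R : ℕ) (hρ : 1 ≤ ρ) (hR1 : 1 ≤ R) :
    Fam (rdCone H Y hR.ne ρ R hρ hR1) θ where
  one_le := hR.one_le
  hyp := hR.hyp
  qc := by
    intro i
    obtain ⟨g, rfl⟩ := QuotientGroup.mk_surjective i
    intro x hx y hy z hz
    have hx' := (hR.mem_rdY g x).1 hx
    have hy' := (hR.mem_rdY g y).1 hy
    obtain ⟨w, hw, hd⟩ := hR.qc _ hx' _ hy' (g⁻¹ • z) (by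
      unfold Bt at *
      rw [IsomAct.isom, IsomAct.isom, IsomAct.isom]; exact hz)
    refine ⟨g • w, (hR.mem_rdY g _).2 (by rwa [inv_smul_smul]), ?_⟩
    have e := IsomAct.isom g (g⁻¹ • z) w
    rw [smul_inv_smul] at e
    omega
  small := by
    intro i j hij x hx y hy
    obtain ⟨g, rfl⟩ := QuotientGroup.mk_surjective i
    obtain ⟨g', rfl⟩ := QuotientGroup.mk_surjective j
    have hx' := (hR.mem_rdY g' x).1 hx
    have hy' := (hR.mem_rdY g' y).1 hy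
    change prd (rdY H Y (g : G ⧸ H)) x y ≤ θ
    rw [prd_rdY hR.inv]
    have hg : g⁻¹ * g' ∉ H := fun h => hij (QuotientGroup.eq.2 h)
    have := hR.small _ hg _ hx' _ hy'
    rwa [mul_smul, mul_smul, smul_inv_smul, smul_inv_smul] at this

/-- rotation family of a deep subgroup -/
theorem RD.rot [IsomAct G V] (hR : RD a H Y θ) (hd : Deep V H Q T) (ρ R : ℕ) (hρ : 1 ≤ ρ)
    (hR1 : 1 ≤ R) : Rot G (rdCone H Y hR.ne ρ R hρ hR1) (rdQ H Q) θ T where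
  fam := hR.fam ρ R hρ hR1
  conj := by
    intro g i h hh
    obtain ⟨g', rfl⟩ := QuotientGroup.mk_surjective i
    have h1 := (hd.mem_rdQ g' h).1 hh
    have e : (g • ((g' : G) : G ⧸ H)) = ((g * g' : G) : G ⧸ H) := rfl
    rw [e, hd.mem_rdQ]
    have e2 : (g * g')⁻¹ * (g * h * g⁻¹) * (g * g') = g'⁻¹ * h * g' := by group
    rw [e2]; exact h1
  fix := by
    intro i h hh
    obtain ⟨g', rfl⟩ := QuotientGroup.mk_surjective i
    have h1 := hd.le ((hd.mem_rdQ g' h).1 hh)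
    have e : (h • ((g' : G) : G ⧸ H)) = ((h * g' : G) : G ⧸ H) := rfl
    rw [e]
    refine (QuotientGroup.eq.2 ?_).symm
    have e2 : g'⁻¹ * (h * g') = g'⁻¹ * h * g' := by group
    rw [e2]; exact h1
  big := by
    intro i h hh h1 x
    obtain ⟨g', rfl⟩ := QuotientGroup.mk_surjective i
    have h2 := (hd.mem_rdQ g' h).1 hh
    have h3 : g'⁻¹ * h * g' ≠ 1 := by
      intro h0
      apply h1
      have : h = g' * (g'⁻¹ * h * g') * g'⁻¹ := by group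
      rw [this, h0]; group
    have h4 := hd.big _ h2 h3 (g'⁻¹ • x)
    rw [mul_smul, smul_inv_smul, mul_smul, IsomAct.isom] at h4
    exact h4

/-- the normal closure -/
theorem Deep.nn (hd : Deep V H Q T) :
    NN (rdQ H Q) = Subgroup.normalClosure (Q : Set G) := by
  unfold NN Subgroup.normalClosure
  apply le_antisymm
  · rw [Subgroup.closure_le]
    intro x hx
    obtain ⟨i, hi⟩ := Set.mem_iUnion.1 hx
    obtain ⟨g, rfl⟩ := QuotientGroup.mk_surjective i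
    have h1 := (hd.mem_rdQ g x).1 hi
    apply Subgroup.subset_closure
    rw [Group.mem_conjugatesOfSet_iff]
    refine ⟨g⁻¹ * x * g, h1, ?_⟩
    rw [isConj_iff]
    exact ⟨g, by group⟩
  · rw [Subgroup.closure_le]
    intro x hx
    rw [Group.mem_conjugatesOfSet_iff] at hx
    obtain ⟨q, hq, hc⟩ := hx
    obtain ⟨g, rfl⟩ := isConj_iff.1 hc
    apply Subgroup.subset_closure
    refine Set.mem_iUnion.2 ⟨(g : G ⧸ H), ?_⟩
    change g * q * g⁻¹ ∈ rdQ H Q (g : G ⧸ H)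
    rw [hd.mem_rdQ]
    have e : g⁻¹ * (g * q * g⁻¹) * g = q := by group
    rw [e]; exact hq

/-- `Q` acts coboundedly on `Y` -/
theorem Deep.cob [IsomAct G V] (hR : RD a H Y θ) (hd : Deep V H Q T) :
    ∃ D : ℕ, ∀ x ∈ Y, ∀ y ∈ Y, ∃ q ∈ Q, d x (q • y) ≤ D := by
  classical
  obtain ⟨D, hD⟩ := hR.cob
  obtain ⟨y0, hy0⟩ := hR.ne
  -- finitely many cosets of `Q` in `H`
  have hfi : (Q.subgroupOf H).FiniteIndex := ⟨hd.fi⟩
  have hfin : Finite (H ⧸ Q.subgroupOf H) := inferInstance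
  -- a bound for the displacement of the representatives
  obtain ⟨E, hE⟩ : ∃ E : ℕ, ∀ c : H ⧸ Q.subgroupOf H,
      d y0 ((Quotient.out c : H) • y0) ≤ E := by
    have := (Set.finite_range fun c : H ⧸ Q.subgroupOf H =>
      d y0 ((Quotient.out c : H) • y0)).bddAbove
    obtain ⟨E, hE⟩ := this
    exact ⟨E, fun c => hE ⟨c, rfl⟩⟩
  refine ⟨2 * D + E, fun x hx y hy => ?_⟩
  obtain ⟨h1, hh1, hd1⟩ := hD x hx y0 hy0
  obtain ⟨h2, hh2, hd2⟩ := hD y hy y0 hy0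
  -- x ~ h1 y0, y ~ h2 y0; want q with q y ~ x: q h2 = h1 r, r representative
  set w : H := ⟨h1⁻¹, H.inv_mem hh1⟩ * ⟨h2, hh2⟩ with hw
  obtain ⟨t, ht⟩ := QuotientGroup.mk_out_eq_mul (Q.subgroupOf H) w
  set r : H := Quotient.out (w : H ⧸ Q.subgroupOf H) with hr
  have ht' : (r : G) = h1⁻¹ * h2 * (t : H) := by
    have := congrArg (Subtype.val) ht
    exact this
  have htQ : ((t : H) : G) ∈ Q := t.2
  -- q = h1 r h2⁻¹ = h2 t h2⁻¹
  refine ⟨h1 * r * h2⁻¹, ?_, ?_⟩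
  · have e : h1 * (r : G) * h2⁻¹ = h2 * ((t : H) : G) * h2⁻¹ := by
      rw [ht']; group
    rw [e]; exact hd.nrm h2 hh2 _ htQ
  · have e1 : d y0 ((r : G) • y0) ≤ E := hE _
    have t1 := tri x (h1 • y0) ((h1 * r * h2⁻¹) • y)
    have t2 := tri (h1 • y0) ((h1 * r) • y0) ((h1 * r * h2⁻¹) • y)
    have i1 := IsomAct.isom h1 y0 ((r : G) • y0)
    rw [← mul_smul] at i1
    have i2 := IsomAct.isom (h1 * r * h2⁻¹) (h2 • y0) y
    rw [← mul_smul, inv_mul_cancel_right] at i2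
    have s := GMet.symm (h2 • y0) y
    omega

end TSq
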