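import Pool.Agent.Work.TSQ.Interface

/-!
# MP_ab148e_al, block RDE, part a: words in the steps `s i * (s j)⁻¹`
-/

namespace TSq
namespace RDE

section words
variable {G : Type} [Group G]

/-- value of a word -/
def ev (s : Fin 3 → G) : List (Fin 3 × Fin 3) → G
  | [] => 1
  | p :: l => s p.1 * (s p.2)⁻¹ * ev s l

/-- second index of the last pair -/
def lst : Fin 3 → List (Fin 3 × Fin 3) → Fin 3
  | β, [] => β
  | _, p :: l => lst p.2 l

/-- last pair -/
def lp : Fin 3 × Fin 3 → List (Fin 3 × Fin 3) → Fin 3 × Fin 3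
  | p, [] => p
  | _, p :: l => lp p l

/-- reduced words, `β` is different from the first index -/
def Rd : Fin 3 → List (Fin 3 × Fin 3) → Prop
  | _, [] => True
  | β, p :: l => β ≠ p.1 ∧ p.1 ≠ p.2 ∧ Rd p.2 l

theorem lst_eq_lp (p : Fin 3 × Fin 3) (l : List (Fin 3 × Fin 3)) : lst p.2 l = (lp p l).2 := by
  induction l generalizing p with
  | nil => rfl
  | cons q l ih => exact ih q

theorem ev_append (s : Fin 3 → G) (l l' : List (Fin 3 × Fin 3)) :
    ev s (l ++ l') = ev s l * ev s l' := by
  induction l with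
  | nil => simp [ev]
  | cons p l ih => simp only [List.cons_append, ev, ih, mul_assoc]

theorem map_ev {H : Type} [Group H] (f : G →* H) (s : Fin 3 → G) (l : List (Fin 3 × Fin 3)) :
    f (ev s l) = ev (fun i => f (s i)) l := by
  induction l with
  | nil => simp [ev]
  | cons p l ih => simp only [ev, map_mul, map_inv, ih]

theorem lst_append (β : Fin 3) (l l' : List (Fin 3 × Fin 3)) :
    lst β (l ++ l') = lst (lst β l) l' := by
  induction l generalizing β with
  | nil => rfl
  | cons p l ih => exact ih p.2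

theorem rd_append (β : Fin 3) (l l' : List (Fin 3 × Fin 3)) :
    Rd β (l ++ l') ↔ Rd β l ∧ Rd (lst β l) l' := by
  induction l generalizing β with
  | nil => simp [Rd, lst]
  | cons p l ih => simp only [List.cons_append, Rd, lst, ih, and_assoc]

theorem lst_ne {l : List (Fin 3 × Fin 3)} (h : l ≠ []) (β γ : Fin 3) : lst β l = lst γ l := by
  cases l with
  | nil => exact absurd rfl h
  | cons p l => rfl

theorem lp_append (p q : Fin 3 × Fin 3) (l l' : List (Fin 3 × Fin 3)) :
    lp p (l ++ q :: l') = lp q l' := by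
  induction l generalizing p with
  | nil => rfl
  | cons r l ih => exact ih r

/-- powers of words -/
def pw (l : List (Fin 3 × Fin 3)) : ℕ → List (Fin 3 × Fin 3)
  | 0 => []
  | n + 1 => l ++ pw l n

theorem ev_pw (s : Fin 3 → G) (l : List (Fin 3 × Fin 3)) (n : ℕ) :
    ev s (pw l n) = ev s l ^ n := by
  induction n with
  | zero => simp [pw, ev]
  | succ n ih => rw [pw, ev_append, ih, pow_succ']

/-- cyclically reduced words -/
def CR (l : List (Fin 3 × Fin 3)) : Prop := l ≠ [] ∧ Rd (lst 0 l) l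

theorem CR.pw {l : List (Fin 3 × Fin 3)} (h : CR l) (n : ℕ) :
    Rd (lst 0 l) (pw l n) ∧ lst (lst 0 l) (pw l n) = lst 0 l := by
  induction n with
  | zero => exact ⟨trivial, rfl⟩
  | succ n ih =>
    have e : lst (lst 0 l) l = lst 0 l := lst_ne h.1 _ _
    refine ⟨(rd_append _ _ _).2 ⟨h.2, ?_⟩, ?_⟩
    · rw [e]; exact ih.1
    · rw [RDE.pw, lst_append, e]; exact ih.2

theorem CR.rot {A B : List (Fin 3 × Fin 3)} (h : CR (A ++ B)) (hB : B ≠ []) : CR (B ++ A) := by
  refine ⟨by simp [hB], ?_⟩
  obtain ⟨h1, h2⟩ := h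
  rw [rd_append, lst_append] at h2
  rw [rd_append, lst_append]
  by_cases hA : A = []
  · subst hA
    refine ⟨?_, trivial⟩
    exact h2.2
  · refine ⟨?_, ?_⟩
    · rw [lst_ne hA (lst 0 B) (lst (lst 0 A) B)]
      exact h2.2
    · rw [lst_ne hB (lst (lst 0 B) A) (lst 0 A)]
      exact h2.1

theorem exists_ne3 (i : Fin 3) : ∃ β : Fin 3, β ≠ i := ⟨i + 1, by fin_cases i <;> decide⟩

theorem exists_nf (s : Fin 3 → G) (l : List (Fin 3 × Fin 3)) :
    ∃ l', ev s l' = ev s l ∧ l'.length ≤ l.length ∧ ∃ β, Rd β l' := by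
  induction l with
  | nil => exact ⟨[], rfl, le_rfl, 0, trivial⟩
  | cons p l ih =>
    obtain ⟨l', h1, h2, β, h3⟩ := ih
    by_cases hp : p.1 = p.2
    · refine ⟨l', ?_, ?_, β, h3⟩
      · rw [h1]; simp [ev, hp]
      · simp only [List.length_cons]; omega
    · obtain ⟨γ, hγ⟩ := exists_ne3 p.1
      cases l' with
      | nil =>
        refine ⟨[p], ?_, ?_, γ, hγ, hp, trivial⟩
        · simp only [ev] at h1 ⊢
          rw [← h1]
        · simp only [List.length_cons, List.length_nil]; omega
      | cons q l'' =>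
        obtain ⟨h4, h5, h6⟩ := h3
        by_cases hq : p.2 = q.1
        · by_cases hpq : p.1 = q.2
          · refine ⟨l'', ?_, ?_, q.2, h6⟩
            · simp only [ev] at h1 ⊢
              rw [← h1, hq, hpq]; group
            · simp only [List.length_cons] at h2 ⊢; omega
          · refine ⟨(p.1, q.2) :: l'', ?_, ?_, γ, hγ, hpq, h6⟩
            · simp only [ev] at h1 ⊢
              rw [← h1, hq]; group
            · simp only [List.length_cons] at h2 ⊢; omega
        · refine ⟨p :: q :: l'', ?_, ?_, γ, hγ, hp, hq, h5, h6⟩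
          · simp only [ev] at h1 ⊢
            rw [← h1]
          · simp only [List.length_cons] at h2 ⊢; omega

theorem exists_cr (s : Fin 3 → G) (hs : ∀ u : G, ∃ l, ev s l = u) (u : G) (hu : u ≠ 1) :
    ∃ (c : G) (l : List (Fin 3 × Fin 3)), CR l ∧ ev s l = c * u * c⁻¹ := by
  classical
  have hne : ∃ n : ℕ, ∃ (l : List (Fin 3 × Fin 3)) (c : G), l.length = n ∧ ev s l = c * u * c⁻¹ := by
    obtain ⟨l, hl⟩ := hs u
    exact ⟨_, l, 1, rfl, by rw [hl]; simp⟩
  obtain ⟨l, c, hn, hl⟩ := Nat.find_spec hne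
  obtain ⟨l', h1, h2, β, h3⟩ := exists_nf s l
  rw [hl] at h1
  have hne' : l' ≠ [] := by
    rintro rfl
    simp only [ev] at h1
    apply hu
    have : c * u = c := by
      have := congrArg (· * c) h1
      simpa using this.symm
    simpa using this
  refine ⟨c, l', ⟨hne', ?_⟩, h1⟩
  cases l' with
  | nil => exact absurd rfl hne'
  | cons p l'' =>
    obtain ⟨h4, h5, h6⟩ := h3
    refine ⟨?_, h5, h6⟩
    intro hlast
    change lst p.2 l'' = p.1 at hlast
    rcases List.eq_nil_or_concat l'' with h | ⟨A, q, h⟩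
    · subst h
      exact h5 hlast.symm
    · rw [List.concat_eq_append] at h
      subst h
      have hq : q.2 = p.1 := by
        rw [lst_append] at hlast
        exact hlast
      have hlt : ((q.1, p.2) :: A).length < Nat.find hne := by
        rw [← hn]
        simp only [List.length_cons, List.length_append, List.length_nil] at h2 ⊢
        omega
      apply Nat.find_min hne hlt
      refine ⟨(q.1, p.2) :: A, s q.1 * (s q.2)⁻¹ * c, rfl, ?_⟩
      have e : s q.1 * (s q.2)⁻¹ * c * u * (s q.1 * (s q.2)⁻¹ * c)⁻¹ =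
          s q.1 * (s q.2)⁻¹ * (c * u * c⁻¹) * (s q.1 * (s q.2)⁻¹)⁻¹ := by group
      rw [e, ← h1]
      simp only [ev, ev_append, hq]
      group

end words

end RDE
end TSq
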