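import Pool.Agent.Work.TSQ.RDEa

/-!
# MP_ab148e_al, block RDE, part b: ping-pong with the positions on the lines
-/

namespace TSq
namespace RDE

variable {G : Type} [Group G] {a : G} {pos : G → ℤ} {Δ : ℤ} {v : Fin 3 → G} {c : Fin 3 → ℤ}
  {E k : ℤ}

/-- the letters -/
def sg (a : G) (v : Fin 3 → G) (c : Fin 3 → ℤ) (i : Fin 3) : G := v i * a ^ c i

/-- tripods with large exponents -/
structure TP (a : G) (pos : G → ℤ) (Δ : ℤ) (v : Fin 3 → G) (c : Fin 3 → ℤ) (E k : ℤ) : Prop where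
  ps : PS a pos Δ
  mal : Mal a
  ne : ∀ i j, i ≠ j → (v i)⁻¹ * v j ∉ Subgroup.zpowers a
  near : ∀ i j, |pos ((v i)⁻¹ * v j)| ≤ E
  near1 : ∀ i, |pos (v i)⁻¹| ≤ E
  lip : ∀ i j g, |pos (g * ((v i)⁻¹ * v j)) - pos g| ≤ E
  lip1 : ∀ i g, |pos (g * v i) - pos g| ≤ E
  lip2 : ∀ i g, |pos (g * (v i)⁻¹) - pos g| ≤ E
  one : 1 ≤ E
  le : Δ ≤ E
  big : 40 * E ≤ k
  gap : ∀ i j, i ≠ j → 4 * k ≤ |c i - c j|
  typ : ∀ i j i' j', i ≠ j → i' ≠ j' → |(c i - c j) - (c i' - c j')| < 4 * k → i = i' ∧ j = j'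

theorem ab (x y : ℤ) : |x| ≤ |y| + |y - x| := by
  have := abs_sub_abs_le_abs_sub x y
  rw [abs_sub_comm x y] at this
  linarith

/-- position on the line `v i` -/
def P (pos : G → ℤ) (v : Fin 3 → G) (i : Fin 3) (g : G) : ℤ := pos ((v i)⁻¹ * g)

theorem _root_.TSq.PS.zshift (h : PS a pos Δ) (n : ℤ) (g : G) : pos (a ^ n * g) = pos g + n := by
  have key : ∀ m : ℕ, ∀ g : G, pos (a ^ m * g) = pos g + m := by
    intro m
    induction m with
    | zero => intro g; simp
    | succ m ih =>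
      intro g
      rw [pow_succ', mul_assoc, h.shift, ih]
      push_cast; ring
  obtain ⟨m, rfl | rfl⟩ := n.eq_nat_or_neg
  · rw [zpow_natCast]; exact key m g
  · have := key m (a ^ (-(m : ℤ)) * g)
    rw [← mul_assoc, zpow_neg, zpow_natCast, mul_inv_cancel, one_mul] at this
    rw [zpow_neg, zpow_natCast]
    linarith

theorem TP.P_st (T : TP a pos Δ v c E k) (i j : Fin 3) (g : G) :
    P pos v i (sg a v c i * (sg a v c j)⁻¹ * g) = P pos v j g + (c i - c j) := by
  unfold P sg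
  have e : (v i)⁻¹ * (v i * a ^ c i * (v j * a ^ c j)⁻¹ * g) = a ^ (c i - c j) * ((v j)⁻¹ * g) := by
    rw [zpow_sub]; group
  rw [e, T.ps.zshift]

theorem TP.bb (T : TP a pos Δ v c E k) {i j : Fin 3} (h : i ≠ j) (g : G) :
    |P pos v i g| ≤ 2 * E ∨ |P pos v j g| ≤ 2 * E := by
  have hb := T.ps.behr _ (T.ne i j h) ((v i)⁻¹ * g)
  have e1 : ((v i)⁻¹ * v j)⁻¹ * ((v i)⁻¹ * g) = (v j)⁻¹ * g := by group
  have e2 : ((v i)⁻¹ * v j)⁻¹ = (v j)⁻¹ * v i := by group
  rw [e1, e2] at hb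
  have n1 := T.near i j
  have n2 := T.near j i
  have := T.le
  unfold P
  rcases hb with hb | hb
  · left
    rw [abs_le] at *
    constructor <;> linarith
  · right
    rw [abs_le] at *
    constructor <;> linarith

/-- the steps push away -/
theorem TP.push (T : TP a pos Δ v c E k) {i j : Fin 3} (h : i ≠ j) {g : G}
    (hg : |P pos v i g| ≤ 3 * E) :
    |P pos v j (sg a v c j * (sg a v c i)⁻¹ * g) - (c j - c i)| ≤ 3 * E ∧
      ∀ γ, γ ≠ j → |P pos v γ (sg a v c j * (sg a v c i)⁻¹ * g)| ≤ 2 * E := by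
  have e := T.P_st j i g
  have h1 : |P pos v j (sg a v c j * (sg a v c i)⁻¹ * g) - (c j - c i)| ≤ 3 * E := by
    rw [e, add_sub_cancel_right]; exact hg
  refine ⟨h1, fun γ hγ => ?_⟩
  rcases T.bb hγ (sg a v c j * (sg a v c i)⁻¹ * g) with h2 | h2
  · exact h2
  · exfalso
    have g1 := T.gap j i h.symm
    have b := T.big
    have o := T.one
    have t := ab (c j - c i) (P pos v j (sg a v c j * (sg a v c i)⁻¹ * g))
    linarith

/-- ping-pong from the right -/
theorem TP.pp (T : TP a pos Δ v c E k) (l : List (Fin 3 × Fin 3)) :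
    ∀ (p : Fin 3 × Fin 3) (g : G), p.1 ≠ p.2 → Rd p.2 l → |P pos v (lp p l).2 g| ≤ 3 * E →
      |P pos v p.1 (ev (sg a v c) (p :: l) * g) - (c p.1 - c p.2)| ≤ 3 * E ∧
      ∀ γ, γ ≠ p.1 → |P pos v γ (ev (sg a v c) (p :: l) * g)| ≤ 2 * E := by
  induction l with
  | nil =>
    intro p g h1 _ hg
    simp only [ev, mul_one]
    exact T.push (Ne.symm h1) hg
  | cons q l ih =>
    intro p g h1 h2 hg
    obtain ⟨h3, h4, h5⟩ := h2
    have := (ih q g h4 h5 hg).2 p.2 h3
    have e : ev (sg a v c) (p :: q :: l) * g =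
        sg a v c p.1 * (sg a v c p.2)⁻¹ * (ev (sg a v c) (q :: l) * g) := by
      rw [ev, mul_assoc]
    rw [e]
    exact T.push (Ne.symm h1) (this.trans (by have := T.one; linarith))

/-- ping-pong from the left -/
theorem TP.pp' (T : TP a pos Δ v c E k) (l : List (Fin 3 × Fin 3)) :
    ∀ (p : Fin 3 × Fin 3) (g : G), p.1 ≠ p.2 → Rd p.2 l → |P pos v p.1 g| ≤ 3 * E →
      |P pos v (lp p l).2 ((ev (sg a v c) (p :: l))⁻¹ * g) - (c (lp p l).2 - c (lp p l).1)| ≤ 3 * E ∧
      ∀ γ, γ ≠ (lp p l).2 → |P pos v γ ((ev (sg a v c) (p :: l))⁻¹ * g)| ≤ 2 * E := by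
  induction l with
  | nil =>
    intro p g h1 _ hg
    have e : (ev (sg a v c) [p])⁻¹ * g = sg a v c p.2 * (sg a v c p.1)⁻¹ * g := by
      simp only [ev]; group
    rw [e]
    exact T.push h1 hg
  | cons q l ih =>
    intro p g h1 h2 hg
    obtain ⟨h3, h4, h5⟩ := h2
    have h6 := T.push h1 hg
    have h7 := h6.2 q.1 (Ne.symm h3)
    have e : (ev (sg a v c) (p :: q :: l))⁻¹ * g =
        (ev (sg a v c) (q :: l))⁻¹ * (sg a v c p.2 * (sg a v c p.1)⁻¹ * g) := by
      rw [ev]; group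
    rw [e]
    exact ih q _ h4 h5 (h7.trans (by have := T.one; linarith))

/-! ### lines -/

/-- the line `y⟨a⟩` is on the path -/
def OnP (a : G) (v : Fin 3 → G) (c : Fin 3 → ℤ) : List (Fin 3 × Fin 3) → G → Prop
  | [], _ => False
  | p :: l, y => (v p.1)⁻¹ * y ∈ Subgroup.zpowers a ∨
      OnP a v c l ((sg a v c p.1 * (sg a v c p.2)⁻¹)⁻¹ * y)

theorem OnP.exists {l : List (Fin 3 × Fin 3)} {y : G} (h : OnP a v c l y) :
    ∃ A p B, l = A ++ p :: B ∧ (v p.1)⁻¹ * ((ev (sg a v c) A)⁻¹ * y) ∈ Subgroup.zpowers a := by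
  induction l generalizing y with
  | nil => exact absurd h id
  | cons p l ih =>
    rcases h with h | h
    · exact ⟨[], p, l, rfl, by simpa [ev] using h⟩
    · obtain ⟨A, q, B, rfl, h1⟩ := ih h
      refine ⟨p :: A, q, B, rfl, ?_⟩
      have e : (ev (sg a v c) (p :: A))⁻¹ * y =
          (ev (sg a v c) A)⁻¹ * ((sg a v c p.1 * (sg a v c p.2)⁻¹)⁻¹ * y) := by
        rw [ev]; group
      rw [e]; exact h1

theorem notmem {y : G} {i : Fin 3}
    (h : (v i)⁻¹ * y ∉ Subgroup.zpowers a) : y⁻¹ * v i ∉ Subgroup.zpowers a := by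
  intro h1
  apply h
  have := (Subgroup.zpowers a).inv_mem h1
  have e : (y⁻¹ * v i)⁻¹ = (v i)⁻¹ * y := by group
  rwa [e] at this

/-- points on a line have almost the same position on a different line -/
theorem _root_.TSq.PS.line' (h : PS a pos Δ) {x : G} (hx : x ∉ Subgroup.zpowers a) (m : ℤ) :
    |pos (x * a ^ m) - pos x| ≤ Δ := by
  have := h.line x hx m 0
  rwa [zpow_zero, mul_one] at this

/-- Behrstock inequality for the lines `v i` and `y` -/
theorem TP.bh (T : TP a pos Δ v c E k) {y : G} {i : Fin 3}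
    (h : (v i)⁻¹ * y ∉ Subgroup.zpowers a) (g : G) :
    |P pos v i g - P pos v i y| ≤ E ∨ |pos (y⁻¹ * g) - pos (y⁻¹ * v i)| ≤ E := by
  have hb := T.ps.behr _ h ((v i)⁻¹ * g)
  have e1 : ((v i)⁻¹ * y)⁻¹ * ((v i)⁻¹ * g) = y⁻¹ * g := by group
  have e2 : ((v i)⁻¹ * y)⁻¹ = y⁻¹ * v i := by group
  rw [e1, e2] at hb
  have := T.le
  unfold P
  rcases hb with hb | hb
  · left; exact hb.trans this
  · right; exact hb.trans this

/-- a line which is not on the path does not see the path -/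
theorem TP.off (T : TP a pos Δ v c E k) (l : List (Fin 3 × Fin 3)) :
    ∀ (β : Fin 3) (g0 y : G), Rd β l → (∀ γ, γ ≠ β → |P pos v γ g0| ≤ 2 * E) →
      |pos (y⁻¹ * g0) - pos (y⁻¹ * v β)| ≤ 2 * E → ¬ OnP a v c l y →
      |pos (y⁻¹ * ev (sg a v c) l) - pos (y⁻¹ * g0)| ≤ 4 * E := by
  induction l with
  | nil =>
    intro β g0 y _ _ h2 _
    have h3 := T.lip1 β y⁻¹
    simp only [ev, mul_one]
    rw [abs_le] at *
    have := T.one
    constructor <;> linarith
  | cons p l ih =>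
    intro β g0 y h h1 h2 h3
    obtain ⟨h4, h5, h6⟩ := h
    have hnot : ¬ ((v p.1)⁻¹ * y ∈ Subgroup.zpowers a) := fun hh => h3 (Or.inl hh)
    have hnot' : ¬ OnP a v c l ((sg a v c p.1 * (sg a v c p.2)⁻¹)⁻¹ * y) :=
      fun hh => h3 (Or.inr hh)
    have o := T.one
    have b := T.big
    by_cases hA : |P pos v p.1 y| ≤ 2 * k
    · -- the line is on the near side
      have q1 := (T.pp l p 1 h5 h6 (by
        unfold P
        rw [mul_one]
        exact (T.near1 _).trans (by linarith))).1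
      rw [mul_one] at q1
      have g1 := T.gap p.1 p.2 h5
      rcases T.bh hnot (ev (sg a v c) (p :: l)) with q2 | q2
      · exfalso
        have t1 := ab (c p.1 - c p.2) (P pos v p.1 (ev (sg a v c) (p :: l)))
        have t2 := abs_sub_abs_le_abs_sub (P pos v p.1 (ev (sg a v c) (p :: l))) (P pos v p.1 y)
        linarith
      · have q3 := T.lip β p.1 (y⁻¹ * v β)
        have e : y⁻¹ * v β * ((v β)⁻¹ * v p.1) = y⁻¹ * v p.1 := by group
        rw [e] at q3
        rw [abs_le] at *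
        constructor <;> linarith
    · -- the line is on the far side
      push Not at hA
      have q0 := h1 p.1 (Ne.symm h4)
      have q1 : |pos (y⁻¹ * g0) - pos (y⁻¹ * v p.1)| ≤ E := by
        rcases T.bh hnot g0 with q2 | q2
        · exfalso
          have t2 := ab (P pos v p.1 y) (P pos v p.1 g0)
          linarith
        · exact q2
      set y1 := (sg a v c p.1 * (sg a v c p.2)⁻¹)⁻¹ * y with hy1
      set g1 := (sg a v c p.1 * (sg a v c p.2)⁻¹)⁻¹ * g0 with hg1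
      have e1 : y1⁻¹ * g1 = y⁻¹ * g0 := by rw [hy1, hg1]; group
      have e2 : y1⁻¹ * v p.2 = y⁻¹ * v p.1 * a ^ (c p.1 - c p.2) := by
        rw [hy1, zpow_sub]; unfold sg; group
      have e3 : y1⁻¹ * ev (sg a v c) l = y⁻¹ * ev (sg a v c) (p :: l) := by
        rw [hy1]; simp only [ev]; group
      have e4 : g1 = sg a v c p.2 * (sg a v c p.1)⁻¹ * g0 := by rw [hg1]; group
      have q4 := ih p.2 g1 y1 h6 (by
        rw [e4]
        exact (T.push h5 (q0.trans (by linarith))).2) (by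
        rw [e1, e2]
        have q5 := T.ps.line' (notmem hnot) (c p.1 - c p.2)
        have := T.le
        rw [abs_le] at *
        constructor <;> linarith) hnot'
      rwa [e1, e3] at q4

theorem TP.on (T : TP a pos Δ v c E k) {l : List (Fin 3 × Fin 3)} {β : Fin 3} (h : Rd β l) {y : G}
    (hy : 4 * E < |pos (y⁻¹ * ev (sg a v c) l) - pos y⁻¹|) : OnP a v c l y := by
  by_contra hn
  have o := T.one
  have := T.off l β 1 y h (fun γ _ => by
    unfold P
    rw [mul_one]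
    exact (T.near1 _).trans (by linarith)) (by
    have := T.lip1 β y⁻¹
    rw [mul_one, abs_sub_comm]
    exact this.trans (by linarith)) hn
  rw [mul_one] at this
  linarith

end RDE
end TSq
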