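import Pool.Agent.Work.TSQ.RDEb

/-!
# MP_ab148e_al, block RDE, part c: limits, malnormality
-/

namespace TSq
namespace RDE

variable {G : Type} [Group G] {a : G} {pos : G → ℤ} {Δ : ℤ} {v : Fin 3 → G} {c : Fin 3 → ℤ}
  {E k : ℤ}

/-- points of a different line -/
theorem TP.far (T : TP a pos Δ v c E k) {i j : Fin 3} (h : i ≠ j) (s : ℤ) :
    |P pos v i (v j * a ^ s)| ≤ 2 * E := by
  have h1 := T.ps.line' (T.ne i j h) s
  have h2 := T.near i j
  have h3 := T.le
  have e : (v i)⁻¹ * (v j * a ^ s) = (v i)⁻¹ * v j * a ^ s := by group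
  unfold P
  rw [e]
  rw [abs_le] at *
  constructor <;> linarith

theorem TP.self (T : TP a pos Δ v c E k) (i : Fin 3) (s : ℤ) :
    P pos v i (v i * a ^ s) = s := by
  unfold P
  have e : (v i)⁻¹ * (v i * a ^ s) = a ^ s * 1 := by group
  rw [e, T.ps.zshift, T.ps.one]
  ring

theorem TP.P_one (T : TP a pos Δ v c E k) (i : Fin 3) : |P pos v i 1| ≤ E := by
  unfold P
  rw [mul_one]; exact T.near1 i

section cyc
variable (T : TP a pos Δ v c E k) {p : Fin 3 × Fin 3} {l : List (Fin 3 × Fin 3)}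
  (hc : CR (p :: l))

theorem cr1 {p : Fin 3 × Fin 3} {l : List (Fin 3 × Fin 3)} (hc : CR (p :: l)) :
    (lp p l).2 ≠ p.1 ∧ p.1 ≠ p.2 ∧ Rd p.2 l := by
  obtain ⟨-, h1, h2, h3⟩ := hc
  refine ⟨?_, h2, h3⟩
  rw [← lst_eq_lp]; exact h1

include T hc

/-- forward iterates -/
theorem TP.iter {g : G} (hg : |P pos v (lp p l).2 g| ≤ 3 * E) (n : ℕ) :
    |P pos v (lp p l).2 (ev (sg a v c) (p :: l) ^ n * g)| ≤ 3 * E ∧
    |P pos v p.1 (ev (sg a v c) (p :: l) ^ (n + 1) * g) - (c p.1 - c p.2)| ≤ 3 * E ∧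
    ∀ γ, γ ≠ p.1 → |P pos v γ (ev (sg a v c) (p :: l) ^ (n + 1) * g)| ≤ 2 * E := by
  obtain ⟨h1, h2, h3⟩ := cr1 hc
  have key : ∀ n : ℕ, |P pos v (lp p l).2 (ev (sg a v c) (p :: l) ^ n * g)| ≤ 3 * E := by
    intro n
    induction n with
    | zero => rw [pow_zero, one_mul]; exact hg
    | succ n ih =>
      have := (T.pp l p _ h2 h3 ih).2 _ h1
      rw [pow_succ', mul_assoc]
      exact this.trans (by have := T.one; linarith)
  refine ⟨key n, ?_⟩
  rw [pow_succ', mul_assoc]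
  exact T.pp l p _ h2 h3 (key n)

/-- backward iterates -/
theorem TP.iter' {g : G} (hg : |P pos v p.1 g| ≤ 3 * E) (n : ℕ) :
    |P pos v p.1 ((ev (sg a v c) (p :: l) ^ n)⁻¹ * g)| ≤ 3 * E ∧
    |P pos v (lp p l).2 ((ev (sg a v c) (p :: l) ^ (n + 1))⁻¹ * g) -
      (c (lp p l).2 - c (lp p l).1)| ≤ 3 * E ∧
    ∀ γ, γ ≠ (lp p l).2 → |P pos v γ ((ev (sg a v c) (p :: l) ^ (n + 1))⁻¹ * g)| ≤ 2 * E := by
  obtain ⟨h1, h2, h3⟩ := cr1 hc
  have key : ∀ n : ℕ, |P pos v p.1 ((ev (sg a v c) (p :: l) ^ n)⁻¹ * g)| ≤ 3 * E := by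
    intro n
    induction n with
    | zero => rw [pow_zero, inv_one, one_mul]; exact hg
    | succ n ih =>
      have := (T.pp' l p _ h2 h3 ih).2 _ (Ne.symm h1)
      rw [pow_succ, mul_inv_rev, mul_assoc]
      exact this.trans (by have := T.one; linarith)
  refine ⟨key n, ?_⟩
  rw [pow_succ, mul_inv_rev, mul_assoc]
  exact T.pp' l p _ h2 h3 (key n)

/-- the powers do not fix the line `v b` -/
theorem TP.dist {n : ℕ} (hn : n ≠ 0) (s : ℤ) :
    ev (sg a v c) (p :: l) ^ n * v (lp p l).2 ≠ v (lp p l).2 * a ^ s := by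
  obtain ⟨h1, h2, h3⟩ := cr1 hc
  intro he
  obtain ⟨m, rfl⟩ := Nat.exists_eq_succ_of_ne_zero hn
  have q := (T.iter hc (g := v (lp p l).2) (by
    have := T.self (lp p l).2 0
    rw [zpow_zero, mul_one] at this
    rw [this, abs_zero]
    have := T.one; linarith) m).2.1
  rw [Nat.succ_eq_add_one] at he
  rw [he] at q
  have f := T.far (Ne.symm h1) s
  have g1 := T.gap p.1 p.2 h2
  have t := ab (c p.1 - c p.2) (P pos v p.1 (v (lp p l).2 * a ^ s))
  have b := T.big
  have o := T.one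
  linarith

theorem TP.dist' {n : ℕ} (hn : n ≠ 0) (s : ℤ) :
    (ev (sg a v c) (p :: l) ^ n)⁻¹ * v p.1 ≠ v p.1 * a ^ s := by
  obtain ⟨h1, h2, h3⟩ := cr1 hc
  intro he
  obtain ⟨m, rfl⟩ := Nat.exists_eq_succ_of_ne_zero hn
  have q := (T.iter' hc (g := v p.1) (by
    have := T.self p.1 0
    rw [zpow_zero, mul_one] at this
    rw [this, abs_zero]
    have := T.one; linarith) m).2.1
  rw [Nat.succ_eq_add_one] at he
  rw [he] at q
  have f := T.far h1 s
  have hl : (lp p l).1 ≠ (lp p l).2 := by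
    have key : ∀ (l : List (Fin 3 × Fin 3)) (p : Fin 3 × Fin 3), p.1 ≠ p.2 → Rd p.2 l →
        (lp p l).1 ≠ (lp p l).2 := by
      intro l
      induction l with
      | nil => intro p h _; exact h
      | cons q l ih => intro p _ h; exact ih q h.2.1 h.2.2
    exact key l p h2 h3
  have g1 := T.gap (lp p l).2 (lp p l).1 (Ne.symm hl)
  have t := ab (c (lp p l).2 - c (lp p l).1) (P pos v (lp p l).2 (v p.1 * a ^ s))
  have b := T.big
  have o := T.one
  linarith

/-- forward limit -/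
theorem TP.lim (g : G) : ∃ N0 : ℕ, ∀ n ≥ N0,
    |P pos v (lp p l).2 (ev (sg a v c) (p :: l) ^ n * g)| ≤ 3 * E ∧
    |P pos v p.1 (ev (sg a v c) (p :: l) ^ n * g) - (c p.1 - c p.2)| ≤ 3 * E := by
  obtain ⟨h1, h2, h3⟩ := cr1 hc
  set h := ev (sg a v c) (p :: l) with hh
  -- some iterate is good
  have key : ∃ m : ℕ, |P pos v (lp p l).2 (h ^ m * g)| ≤ 3 * E := by
    by_contra hcon
    push Not at hcon
    have hinf : Set.Infinite {y : G ⧸ Subgroup.zpowers a | ∃ x : G,
        (x : G ⧸ Subgroup.zpowers a) = y ∧ Δ < |pos (x⁻¹ * 1) - pos (x⁻¹ * g)|} := by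
      apply Set.infinite_of_injective_forall_mem (f := fun m : ℕ =>
        (((h ^ m)⁻¹ * v (lp p l).2 : G) : G ⧸ Subgroup.zpowers a))
      · -- injective
        have inj : ∀ m n : ℕ, m < n →
            (((h ^ m)⁻¹ * v (lp p l).2 : G) : G ⧸ Subgroup.zpowers a) ≠
            (((h ^ n)⁻¹ * v (lp p l).2 : G) : G ⧸ Subgroup.zpowers a) := by
          intro m n hmn he
          have h4 := QuotientGroup.eq.1 he.symm
          obtain ⟨s, hs⟩ := Subgroup.mem_zpowers_iff.1 h4
          obtain ⟨k', rfl⟩ := Nat.exists_eq_add_of_lt hmn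
          apply T.dist hc (n := k' + 1) (by omega) s
          rw [← hh, hs]
          have : h ^ (m + k' + 1) = h ^ (k' + 1) * h ^ m := by rw [← pow_add]; congr 1; ring
          rw [this]
          group
        intro m n he
        rcases lt_trichotomy m n with h4 | h4 | h4
        · exact absurd he (inj m n h4)
        · exact h4
        · exact absurd he.symm (inj n m h4)
      · intro m
        refine ⟨(h ^ m)⁻¹ * v (lp p l).2, rfl, ?_⟩
        have e1 : ((h ^ m)⁻¹ * v (lp p l).2)⁻¹ * 1 = (v (lp p l).2)⁻¹ * (h ^ m * 1) := by group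
        have e2 : ((h ^ m)⁻¹ * v (lp p l).2)⁻¹ * g = (v (lp p l).2)⁻¹ * (h ^ m * g) := by group
        rw [e1, e2]
        have q1 := hcon m
        have q2 : |P pos v (lp p l).2 (h ^ m * 1)| ≤ 2 * E := by
          cases m with
          | zero =>
            rw [pow_zero, one_mul]
            exact (T.P_one _).trans (by have := T.one; linarith)
          | succ m =>
            exact (T.iter hc (g := 1) ((T.P_one _).trans (by have := T.one; linarith)) m).2.2 _ h1
        have t := ab (P pos v (lp p l).2 (h ^ m * g)) (P pos v (lp p l).2 (h ^ m * 1))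
        have o := T.one
        have le := T.le
        unfold P at *
        linarith
    exact hinf (T.ps.fin 1 g)
  obtain ⟨m, hm⟩ := key
  refine ⟨m + 1, fun n hn => ?_⟩
  obtain ⟨k', rfl⟩ := Nat.exists_eq_add_of_le hn
  have h4 := T.iter hc hm
  have e1 : h ^ (m + 1 + k') * g = h ^ (k' + 1) * (h ^ m * g) := by
    rw [← mul_assoc, ← pow_add]; congr 2; ring
  rw [e1]
  exact ⟨(h4 (k' + 1)).1, (h4 k').2.1⟩

/-- backward limit -/
theorem TP.lim' (g : G) : ∃ N0 : ℕ, ∀ n ≥ N0,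
    |P pos v p.1 ((ev (sg a v c) (p :: l) ^ n)⁻¹ * g)| ≤ 3 * E ∧
    |P pos v (lp p l).2 ((ev (sg a v c) (p :: l) ^ n)⁻¹ * g) -
      (c (lp p l).2 - c (lp p l).1)| ≤ 3 * E := by
  obtain ⟨h1, h2, h3⟩ := cr1 hc
  set h := ev (sg a v c) (p :: l) with hh
  have key : ∃ m : ℕ, |P pos v p.1 ((h ^ m)⁻¹ * g)| ≤ 3 * E := by
    by_contra hcon
    push Not at hcon
    have hinf : Set.Infinite {y : G ⧸ Subgroup.zpowers a | ∃ x : G,
        (x : G ⧸ Subgroup.zpowers a) = y ∧ Δ < |pos (x⁻¹ * 1) - pos (x⁻¹ * g)|} := by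
      apply Set.infinite_of_injective_forall_mem (f := fun m : ℕ =>
        ((h ^ m * v p.1 : G) : G ⧸ Subgroup.zpowers a))
      · have inj : ∀ m n : ℕ, m < n →
            ((h ^ m * v p.1 : G) : G ⧸ Subgroup.zpowers a) ≠
            ((h ^ n * v p.1 : G) : G ⧸ Subgroup.zpowers a) := by
          intro m n hmn he
          have h4 := QuotientGroup.eq.1 he.symm
          obtain ⟨s, hs⟩ := Subgroup.mem_zpowers_iff.1 h4
          obtain ⟨k', rfl⟩ := Nat.exists_eq_add_of_lt hmn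
          apply T.dist' hc (n := k' + 1) (by omega) s
          rw [← hh, hs]
          have : h ^ (m + k' + 1) = h ^ m * h ^ (k' + 1) := by rw [← pow_add]; congr 1
          rw [this]
          group
        intro m n he
        rcases lt_trichotomy m n with h4 | h4 | h4
        · exact absurd he (inj m n h4)
        · exact h4
        · exact absurd he.symm (inj n m h4)
      · intro m
        refine ⟨h ^ m * v p.1, rfl, ?_⟩
        have e1 : (h ^ m * v p.1)⁻¹ * 1 = (v p.1)⁻¹ * ((h ^ m)⁻¹ * 1) := by group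
        have e2 : (h ^ m * v p.1)⁻¹ * g = (v p.1)⁻¹ * ((h ^ m)⁻¹ * g) := by group
        rw [e1, e2]
        have q1 := hcon m
        have q2 : |P pos v p.1 ((h ^ m)⁻¹ * 1)| ≤ 2 * E := by
          cases m with
          | zero =>
            rw [pow_zero, inv_one, one_mul]
            exact (T.P_one _).trans (by have := T.one; linarith)
          | succ m =>
            exact (T.iter' hc (g := 1) ((T.P_one _).trans (by have := T.one; linarith)) m).2.2 _
              (Ne.symm h1)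
        have t := ab (P pos v p.1 ((h ^ m)⁻¹ * g)) (P pos v p.1 ((h ^ m)⁻¹ * 1))
        have o := T.one
        have le := T.le
        unfold P at *
        linarith
    exact hinf (T.ps.fin 1 g)
  obtain ⟨m, hm⟩ := key
  refine ⟨m + 1, fun n hn => ?_⟩
  obtain ⟨k', rfl⟩ := Nat.exists_eq_add_of_le hn
  have h4 := T.iter' hc hm
  have e1 : (h ^ (m + 1 + k'))⁻¹ * g = (h ^ (k' + 1))⁻¹ * ((h ^ m)⁻¹ * g) := by
    rw [← mul_assoc, ← mul_inv_rev, ← pow_add]; congr 3; ring
  rw [e1]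
  exact ⟨(h4 (k' + 1)).1, (h4 k').2.1⟩

end cyc

end RDE
end TSq
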