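import Pool.Agent.Work.TSQ.RDEc

/-!
# MP_ab148e_al, block RDE, part d: malnormality of the two-generator groups
-/

namespace TSq
namespace RDE

variable {G : Type} [Group G] {a : G} {pos : G → ℤ} {Δ : ℤ} {v : Fin 3 → G} {c : Fin 3 → ℤ}
  {E k : ℤ}

theorem lp_ne {l : List (Fin 3 × Fin 3)} {p : Fin 3 × Fin 3} (h : p.1 ≠ p.2) (hl : Rd p.2 l) :
    (lp p l).1 ≠ (lp p l).2 := by
  induction l generalizing p with
  | nil => exact h
  | cons q l ih => exact ih hl.2.1 hl.2.2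

/-- the elements of the group are not conjugate to powers of `a` -/
theorem TP.nocomm (T : TP a pos Δ v c E k) {p : Fin 3 × Fin 3} {l : List (Fin 3 × Fin 3)}
    (hc : CR (p :: l)) (g : G) (m : ℤ) : ev (sg a v c) (p :: l) ≠ g * a ^ m * g⁻¹ := by
  intro he
  obtain ⟨h1, h2, h3⟩ := cr1 hc
  obtain ⟨N1, hN1⟩ := T.lim hc g
  obtain ⟨N2, hN2⟩ := T.lim' hc g
  have o := T.one
  have b := T.big
  have le := T.le
  set n := N1 + N2 with hn
  obtain ⟨q1, q2⟩ := hN1 n (by omega)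
  obtain ⟨q3, q4⟩ := hN2 n (by omega)
  have e1 : ev (sg a v c) (p :: l) ^ n * g = g * a ^ (m * n) := by
    rw [he, conj_pow, zpow_mul, zpow_natCast]; group
  have e2 : (ev (sg a v c) (p :: l) ^ n)⁻¹ * g = g * a ^ (-(m * n)) := by
    rw [he, conj_pow, zpow_neg, zpow_mul, zpow_natCast]; group
  rw [e1] at q1 q2
  rw [e2] at q3 q4
  have key : ∀ i : Fin 3, (v i)⁻¹ * g ∉ Subgroup.zpowers a → ∀ x y : ℤ,
      |P pos v i (g * a ^ x) - P pos v i (g * a ^ y)| ≤ 2 * E := by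
    intro i hi x y
    have r1 := T.ps.line' hi x
    have r2 := T.ps.line' hi y
    have e1 : (v i)⁻¹ * g * a ^ x = (v i)⁻¹ * (g * a ^ x) := by group
    have e2 : (v i)⁻¹ * g * a ^ y = (v i)⁻¹ * (g * a ^ y) := by group
    rw [e1] at r1
    rw [e2] at r2
    unfold P
    rw [abs_le] at *
    constructor <;> linarith
  have k1 : (v p.1)⁻¹ * g ∈ Subgroup.zpowers a := by
    by_contra hcon
    have r := key p.1 hcon (m * n) (-(m * n))
    have g1 := T.gap p.1 p.2 h2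
    have t1 := ab (c p.1 - c p.2) (P pos v p.1 (g * a ^ (m * n)))
    have t2 := ab (P pos v p.1 (g * a ^ (m * n))) (P pos v p.1 (g * a ^ (-(m * n))))
    rw [abs_sub_comm] at r
    linarith
  have k2 : (v (lp p l).2)⁻¹ * g ∈ Subgroup.zpowers a := by
    by_contra hcon
    have r := key (lp p l).2 hcon (m * n) (-(m * n))
    have g1 := T.gap (lp p l).2 (lp p l).1 (Ne.symm (lp_ne h2 h3))
    have t1 := ab (c (lp p l).2 - c (lp p l).1) (P pos v (lp p l).2 (g * a ^ (-(m * n))))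
    have t2 := ab (P pos v (lp p l).2 (g * a ^ (-(m * n)))) (P pos v (lp p l).2 (g * a ^ (m * n)))
    linarith
  apply T.ne _ _ h1
  have := (Subgroup.zpowers a).mul_mem k2 ((Subgroup.zpowers a).inv_mem k1)
  have e : (v (lp p l).2)⁻¹ * g * ((v p.1)⁻¹ * g)⁻¹ = (v (lp p l).2)⁻¹ * v p.1 := by group
  rwa [e] at this

/-- nontrivial elements are nontrivial -/
theorem TP.ne_one (T : TP a pos Δ v c E k) {p : Fin 3 × Fin 3} {l : List (Fin 3 × Fin 3)}
    (hc : CR (p :: l)) : ev (sg a v c) (p :: l) ≠ 1 := by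
  have := T.nocomm hc 1 0
  simpa using this

theorem TP.core (T : TP a pos Δ v c E k) {p q : Fin 3 × Fin 3} {l l' : List (Fin 3 × Fin 3)}
    (hc : CR (p :: l)) (hc' : CR (q :: l')) (g : G)
    (hg : g * ev (sg a v c) (q :: l') * g⁻¹ = ev (sg a v c) (p :: l)) (s : ℤ)
    (hs : (v q.1)⁻¹ * (g⁻¹ * v p.1) = a ^ s) : g = 1 := by
  obtain ⟨h1, h2, h3⟩ := cr1 hc
  obtain ⟨h1', h2', h3'⟩ := cr1 hc'
  have o := T.one
  have b := T.big
  have le := T.le
  obtain ⟨N1, hN1⟩ := T.lim hc g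
  obtain ⟨N2, hN2⟩ := T.lim' hc g
  set h := ev (sg a v c) (p :: l) with hh
  set h' := ev (sg a v c) (q :: l') with hh'
  set n := N1 + N2 + 1 with hn
  obtain ⟨q1, q2⟩ := hN1 n (by omega)
  obtain ⟨q3, q4⟩ := hN2 n (by omega)
  have hpow : h ^ n * g = g * h' ^ n := by rw [← hg, conj_pow]; group
  have hpow' : (h ^ n)⁻¹ * g = g * (h' ^ n)⁻¹ := by rw [← hg, conj_pow]; group
  rw [hpow] at q1 q2
  rw [hpow'] at q3 q4
  have i1 := T.iter hc' (g := 1) ((T.P_one _).trans (by linarith)) (n - 1)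
  have i2 := T.iter' hc' (g := 1) ((T.P_one _).trans (by linarith)) (n - 1)
  rw [← hh', mul_one, mul_one, show n - 1 + 1 = n by omega] at i1
  rw [← hh', mul_one, mul_one, show n - 1 + 1 = n by omega] at i2
  obtain ⟨-, i1a, i1b⟩ := i1
  obtain ⟨-, i2a, i2b⟩ := i2
  -- `g * v q.1 = v p.1 * a ^ (-s)`
  have hgv : g * v q.1 = v p.1 * a ^ (-s) := by
    rw [zpow_neg, ← hs]; group
  have e1 : ∀ x : G, P pos v p.1 (g * x) = P pos v q.1 x - s := by
    intro x
    unfold P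
    have : (v p.1)⁻¹ * (g * x) = a ^ (-s) * ((v q.1)⁻¹ * x) := by
      rw [zpow_neg, ← hs]; group
    rw [this, T.ps.zshift]; ring
  rw [e1] at q2 q3
  have hsE : |s| ≤ 6 * E := by
    have := i2b q.1 (Ne.symm h1')
    rw [abs_le] at *
    constructor <;> linarith
  have hpq : p = q := by
    have := T.typ p.1 p.2 q.1 q.2 h2 h2' (by
      have : |c p.1 - c p.2 - (c q.1 - c q.2)| ≤ 12 * E := by
        rw [abs_le] at *
        constructor <;> linarith
      linarith)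
    exact Prod.ext this.1 this.2
  subst hpq
  -- the line before
  set r := lp p l with hr
  set r' := lp p l' with hr'
  set y0 := g⁻¹ * v r.2 with hy0
  have hgexp : g = v p.1 * a ^ (-s) * (v p.1)⁻¹ := by rw [← hgv]; group
  have hpg : |pos ((v r.2)⁻¹ * g)| ≤ 3 * E := by
    have f1 := T.far h1 (-s)
    have f2 := T.lip2 p.1 ((v r.2)⁻¹ * (v p.1 * a ^ (-s)))
    have e : (v r.2)⁻¹ * (v p.1 * a ^ (-s)) * (v p.1)⁻¹ = (v r.2)⁻¹ * g := by
      rw [hgexp]; group
    rw [e] at f2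
    unfold P at f1
    rw [abs_le] at *
    constructor <;> linarith
  have hrne : r.1 ≠ r.2 := lp_ne h2 h3
  have hrne' : r'.1 ≠ r'.2 := lp_ne h2 h3'
  have hon : OnP a v c (pw (p :: l') n) (h' ^ n * y0) := by
    refine T.on (hc'.pw n).1 ?_
    have e3 : (h' ^ n * y0)⁻¹ * ev (sg a v c) (pw (p :: l') n) = (v r.2)⁻¹ * g := by
      rw [ev_pw, ← hh', hy0]; group
    have e4 : (h' ^ n * y0)⁻¹ = (v r.2)⁻¹ * (g * (h' ^ n)⁻¹) := by rw [hy0]; group
    rw [e3, e4]
    have g1 := T.gap r.2 r.1 (Ne.symm hrne)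
    unfold P at q4
    have t1 := ab (c r.2 - c r.1) (pos ((v r.2)⁻¹ * (g * (h' ^ n)⁻¹)))
    have t2 := ab (pos ((v r.2)⁻¹ * (g * (h' ^ n)⁻¹))) (pos ((v r.2)⁻¹ * g))
    linarith
  obtain ⟨A, t, B, hAB, hmem⟩ := hon.exists
  obtain ⟨s1, hs1⟩ := Subgroup.mem_zpowers_iff.1 hmem
  have hred := (hc'.pw n).1
  have hlast := (hc'.pw n).2
  rw [hAB] at hred hlast
  rw [rd_append] at hred
  rw [lst_append] at hlast
  obtain ⟨-, -, htne, hBred⟩ := hred
  change lst t.2 B = lst p.2 l' at hlast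
  rw [lst_eq_lp p l', ← hr'] at hlast
  have hy0' : y0 = (ev (sg a v c) (t :: B))⁻¹ * (v t.1 * a ^ s1) := by
    have e5 : h' ^ n = ev (sg a v c) A * ev (sg a v c) (t :: B) := by
      rw [← ev_append, ← hAB, ev_pw]
    rw [hs1, e5]; group
  have hfin : (v r'.2)⁻¹ * y0 ∈ Subgroup.zpowers a := by
    cases B with
    | nil =>
      have e6 : t.2 = r'.2 := hlast
      rw [hy0', ← e6]
      refine Subgroup.mem_zpowers_iff.2 ⟨c t.2 - c t.1 + s1, ?_⟩
      simp only [ev, sg]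
      rw [zpow_add, zpow_sub]; group
    | cons t' B' =>
      exfalso
      obtain ⟨ht1, ht2, ht3⟩ := hBred
      have e7 : y0 = (ev (sg a v c) (t' :: B'))⁻¹ * (v t.2 * a ^ (c t.2 - c t.1 + s1)) := by
        rw [hy0']
        rw [show ev (sg a v c) (t :: t' :: B') =
          sg a v c t.1 * (sg a v c t.2)⁻¹ * ev (sg a v c) (t' :: B') from rfl]
        unfold sg
        rw [zpow_add, zpow_sub]; group
      have f1 := T.far (Ne.symm ht1) (c t.2 - c t.1 + s1)
      have f2 := (T.pp' B' t' _ ht2 ht3 (f1.trans (by linarith))).1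
      rw [← e7] at f2
      have e8 : (lp t' B').2 = r'.2 := by rw [← lst_eq_lp]; exact hlast
      have hne8 : (lp t' B').2 ≠ (lp t' B').1 := Ne.symm (lp_ne ht2 ht3)
      have g1 := T.gap _ _ hne8
      have t1 := ab (c (lp t' B').2 - c (lp t' B').1) (P pos v (lp t' B').2 y0)
      rw [e8] at t1 g1 f2
      -- compare with the line `g * v r'.2`
      have f3 := T.lip p.1 r.2 ((v r'.2)⁻¹ * (g⁻¹ * v p.1))
      have e9 : (v r'.2)⁻¹ * (g⁻¹ * v p.1) * ((v p.1)⁻¹ * v r.2) = (v r'.2)⁻¹ * y0 := by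
        rw [hy0]; group
      rw [e9] at f3
      have e10 : (v r'.2)⁻¹ * (g⁻¹ * v p.1) = (v r'.2)⁻¹ * (v p.1 * a ^ s) := by
        rw [← hs]; group
      rw [e10] at f3
      have f4 := T.far h1' s
      unfold P at t1 f2 f4
      have t2 := ab (pos ((v r'.2)⁻¹ * y0)) (pos ((v r'.2)⁻¹ * (v p.1 * a ^ s)))
      rw [abs_sub_comm] at f3
      linarith
  obtain ⟨s2, hs2⟩ := Subgroup.mem_zpowers_iff.1 hfin
  have hgv2 : g * v r'.2 = v r.2 * a ^ (-s2) := by
    rw [zpow_neg, hs2, hy0]; group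
  have e11 : ∀ x : G, P pos v r.2 (g * x) = P pos v r'.2 x - s2 := by
    intro x
    unfold P
    have : (v r.2)⁻¹ * (g * x) = a ^ (-s2) * ((v r'.2)⁻¹ * x) := by
      rw [zpow_neg, hs2, hy0]; group
    rw [this, T.ps.zshift]; ring
  rw [e11] at q1 q4
  have hs2E : |s2| ≤ 6 * E := by
    have := i1b r'.2 h1'
    rw [abs_le] at *
    constructor <;> linarith
  have hrr : r.2 = r'.2 := by
    have := T.typ r.2 r.1 r'.2 r'.1 (Ne.symm hrne) (Ne.symm hrne') (by
      have : |c r.2 - c r.1 - (c r'.2 - c r'.1)| ≤ 12 * E := by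
        rw [abs_le] at *
        constructor <;> linarith
      linarith)
    exact this.1
  rw [← hrr] at hgv2
  by_contra hg1
  have hs0 : -s ≠ 0 := by
    intro h0
    rw [h0, zpow_zero, mul_one] at hgexp
    exact hg1 (by rw [hgexp]; group)
  apply T.ne _ _ h1
  apply T.mal.mal _ (-s2) (-s) hs0
  have e12 : (v r.2)⁻¹ * v p.1 * a ^ (-s) * ((v r.2)⁻¹ * v p.1)⁻¹ = (v r.2)⁻¹ * g * v r.2 := by
    rw [hgexp]; group
  rw [e12, mul_assoc, hgv2]
  group

/-- malnormality -/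
theorem TP.maln (T : TP a pos Δ v c E k) {l l' : List (Fin 3 × Fin 3)}
    (hc : CR l) (hc' : CR l') (g : G)
    (hg : g * ev (sg a v c) l' * g⁻¹ = ev (sg a v c) l) :
    ∃ (A : List (Fin 3 × Fin 3)) (m : ℤ),
      g = (ev (sg a v c) A)⁻¹ * ev (sg a v c) l' ^ m := by
  cases l with
  | nil => exact absurd rfl hc.1
  | cons p l =>
  obtain ⟨h1, h2, h3⟩ := cr1 hc
  have o := T.one
  have b := T.big
  have le := T.le
  obtain ⟨N1, hN1⟩ := T.lim hc g
  obtain ⟨N2, hN2⟩ := T.lim' hc g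
  set h := ev (sg a v c) (p :: l) with hh
  set h' := ev (sg a v c) l' with hh'
  set n := N1 + N2 with hn
  obtain ⟨-, q2⟩ := hN1 n (by omega)
  obtain ⟨q3, -⟩ := hN2 n (by omega)
  clear_value n
  have hpow : h ^ n * g = g * h' ^ n := by rw [← hg, conj_pow]; group
  have hpow' : (h ^ n)⁻¹ * g = g * (h' ^ n)⁻¹ := by rw [← hg, conj_pow]; group
  rw [hpow] at q2
  rw [hpow'] at q3
  have hon : OnP a v c (pw l' (n + n)) (h' ^ n * (g⁻¹ * v p.1)) := by
    refine T.on (hc'.pw (n + n)).1 ?_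
    have e1 : (h' ^ n * (g⁻¹ * v p.1))⁻¹ * ev (sg a v c) (pw l' (n + n)) =
        (v p.1)⁻¹ * (g * h' ^ n) := by
      rw [ev_pw, ← hh', pow_add]; group
    have e2 : (h' ^ n * (g⁻¹ * v p.1))⁻¹ = (v p.1)⁻¹ * (g * (h' ^ n)⁻¹) := by group
    rw [e1, e2]
    have g1 := T.gap p.1 p.2 h2
    unfold P at q2 q3
    have t1 := ab (c p.1 - c p.2) (pos ((v p.1)⁻¹ * (g * h' ^ n)))
    have t2 := ab (pos ((v p.1)⁻¹ * (g * h' ^ n))) (pos ((v p.1)⁻¹ * (g * (h' ^ n)⁻¹)))
    rw [abs_sub_comm (pos ((v p.1)⁻¹ * (g * (h' ^ n)⁻¹)))] at t2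
    linarith
  -- locate the line in one period
  have loc : ∀ (m : ℕ) (y : G), OnP a v c (pw l' m) y → ∃ j : ℤ, OnP a v c l' (h' ^ j * y) := by
    intro m
    induction m with
    | zero => intro y hy; exact absurd hy id
    | succ m ih =>
      intro y hy
      have app : ∀ (l1 l2 : List (Fin 3 × Fin 3)) (y : G), OnP a v c (l1 ++ l2) y →
          OnP a v c l1 y ∨ OnP a v c l2 ((ev (sg a v c) l1)⁻¹ * y) := by
        intro l1
        induction l1 with
        | nil => intro l2 y hy; right; simpa [ev] using hy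
        | cons t l1 ih =>
          intro l2 y hy
          rcases hy with hy | hy
          · exact Or.inl (Or.inl hy)
          · rcases ih l2 _ hy with h5 | h5
            · exact Or.inl (Or.inr h5)
            · right
              have e : (ev (sg a v c) (t :: l1))⁻¹ * y =
                  (ev (sg a v c) l1)⁻¹ * ((sg a v c t.1 * (sg a v c t.2)⁻¹)⁻¹ * y) := by
                rw [ev]; group
              rw [e]; exact h5
      rcases app _ _ _ hy with h5 | h5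
      · exact ⟨0, by simpa using h5⟩
      · obtain ⟨j, hj⟩ := ih _ h5
        refine ⟨j - 1, ?_⟩
        have e : h' ^ (j - 1) * y = h' ^ j * (h'⁻¹ * y) := by
          rw [zpow_sub, zpow_one, mul_assoc]
        rw [e]; exact hj
  obtain ⟨j, hj⟩ := loc _ _ hon
  obtain ⟨A, q, B, hAB, hmem⟩ := hj.exists
  obtain ⟨s, hs⟩ := Subgroup.mem_zpowers_iff.1 hmem
  have hc2 : CR (q :: (B ++ A)) := by
    have : CR (A ++ q :: B) := by rw [← hAB]; exact hc'
    exact this.rot (by simp)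
  set m : ℤ := j + n with hm
  have hA : h' = ev (sg a v c) A * ev (sg a v c) (q :: B) := by
    rw [hh', hAB, ev_append]
  have hcore := T.core hc hc2 (g * h' ^ (-m) * ev (sg a v c) A) (by
    have e1 : ev (sg a v c) (q :: (B ++ A)) = (ev (sg a v c) A)⁻¹ * h' * ev (sg a v c) A := by
      rw [show q :: (B ++ A) = (q :: B) ++ A from rfl, ev_append, hA]; group
    rw [e1]
    have e2 : g * h' ^ (-m) * ev (sg a v c) A * ((ev (sg a v c) A)⁻¹ * h' * ev (sg a v c) A) *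
        (g * h' ^ (-m) * ev (sg a v c) A)⁻¹ = g * (h' ^ (-m) * h' * h' ^ m) * g⁻¹ := by group
    rw [e2]
    have e3 : h' ^ (-m) * h' * h' ^ m = h' := by
      have : h' * h' ^ m = h' ^ m * h' := by
        rw [← zpow_one_add, ← zpow_add_one, add_comm]
      rw [mul_assoc, this, ← mul_assoc, ← zpow_add]; simp
    rw [e3]; exact hg) s (by
    rw [hs]
    have e4 : (g * h' ^ (-m) * ev (sg a v c) A)⁻¹ * v p.1 =
        (ev (sg a v c) A)⁻¹ * (h' ^ m * (g⁻¹ * v p.1)) := by group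
    rw [e4, hm, zpow_add, zpow_natCast, mul_assoc (h' ^ j)])
  refine ⟨A, m, ?_⟩
  have e5 : g = g * h' ^ (-m) * ev (sg a v c) A * ((ev (sg a v c) A)⁻¹ * h' ^ m) := by
    group
  rw [hcore, one_mul] at e5
  exact e5

end RDE
end TSq
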