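import Pool.Agent.Work.TSQ.Interface

/-!
# MP_ab148e_al: assembly of the step theorem
-/

namespace TSq
open FrobP GMet

theorem WW.mono {G G2 : Type} [Group G] [Group G2] {a : G} {e : Fin 3 → G} {f : Fin 3 → G2}
    {r r' : ℚ} (h : WW a e f r) (hr : r' ≤ r) : WW a e f r' := by
  intro κ F
  exact (mul_le_mul_of_nonneg_right hr (Nat.cast_nonneg _)).trans (h κ F)

theorem Stg.mono {G : Type} [Group G] {π : F3 →* G} {r r' : ℚ} (h : Stg G π r) (hr : r' ≤ r) :
    Stg G π r' := ⟨h.surj, h.hg, h.mal, h.w.mono hr⟩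

theorem Deep.mono {G V : Type} [Group G] [GMet V] [MulAction G V] {H Q : Subgroup G} {T T' : ℕ}
    (h : Deep V H Q T) (hT : T' ≤ T) : Deep V H Q T' :=
  ⟨h.le, h.nrm, h.fi, fun q hq h1 x => hT.trans (h.big q hq h1 x)⟩

/-- the common part of both kinds of tasks -/
theorem stg_quot (GE : GeoStmt) (T1 : TrN1Stmt) (T2 : TrN2Stmt) {G V : Type} [Group G] [GMet V]
    [MulAction G V] (hG : HG G V) {π : F3 →* G} {r : ℚ} (hr : 0 ≤ r) (hS : Stg G π r)
    {H : Subgroup G} {Y : Set V} {θ : ℕ} (hRD : RD (π fa) H Y θ)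
    {η : ℚ} (h0 : 0 < η) (h1 : η < 1) : ∃ T0 : ℕ, ∀ Q : Subgroup G, Deep V H Q T0 →
      Tr1 (π fa) (π ∘ fe) Q η → Tr2 (π ∘ fe) Q η →
      Stg (G ⧸ Subgroup.normalClosure (Q : Set G))
        ((QuotientGroup.mk' (Subgroup.normalClosure (Q : Set G))).comp π)
        ((1 - η) ^ 3 * ((1 - η) ^ 3 * r)) := by
  obtain ⟨t0, h0'⟩ := GE G V hG _ hS.mal H Y θ hRD
  have he : (π ∘ fe) 0 = 1 := by
    change π (fe 0) = 1
    have : fe 0 = 1 := rfl
    rw [this, map_one]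
  obtain ⟨t1, h1'⟩ := T1 G V hG _ hS.mal H Y θ hRD (π ∘ fe) η he h0 h1
  obtain ⟨t2, h2'⟩ := T2 G V hG _ hS.mal H Y θ hRD (π ∘ fe) η he h0 h1
  refine ⟨t0 + t1 + t2, fun Q hQ hT1 hT2 => ?_⟩
  obtain ⟨hg, hm⟩ := h0' Q (hQ.mono (by omega))
  have e1 := h1' Q (hQ.mono (by omega)) hm hT1 G (π ∘ fe) r he hr hS.w
  have e2 := h2' Q (hQ.mono (by omega)) hT2 _ _ _ ((1 - η) ^ 3 * r)
    (by rw [he]; rfl)
    (mul_nonneg (pow_nonneg (by linarith) 3) hr) e1
  refine ⟨?_, hg, hm, e2⟩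
  exact (QuotientGroup.mk'_surjective _).comp hS.surj

/-- choice of `η` -/
theorem exists_eta {r r' : ℚ} (h0 : 0 < r') (h1 : r' < r) :
    ∃ η : ℚ, 0 < η ∧ η < 1 ∧ r' ≤ (1 - η) ^ 3 * ((1 - η) ^ 3 * r) := by
  have hr : 0 < r := h0.trans h1
  refine ⟨(1 - r' / r) / 6, ?_, ?_, ?_⟩
  · have : r' / r < 1 := (div_lt_one hr).2 h1
    linarith
  · have : 0 < r' / r := div_pos h0 hr
    linarith
  · set x := (1 - r' / r) / 6 with hx
    have hq : r' / r < 1 := (div_lt_one hr).2 h1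
    have hq0 : 0 < r' / r := div_pos h0 hr
    have hb : 1 + (6 : ℕ) * (-x) ≤ (1 + (-x)) ^ 6 := one_add_mul_le_pow (by linarith) 6
    have e : r' = (1 - 6 * x) * r := by
      rw [hx]; field_simp; ring
    have : (1 - 6 * x) * r ≤ (1 - x) ^ 6 * r := by
      apply mul_le_mul_of_nonneg_right _ hr.le
      push_cast at hb
      calc 1 - 6 * x = 1 + 6 * (-x) := by ring
        _ ≤ (1 + (-x)) ^ 6 := hb
        _ = (1 - x) ^ 6 := by ring
    calc r' = (1 - 6 * x) * r := e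
      _ ≤ (1 - x) ^ 6 * r := this
      _ = (1 - x) ^ 3 * ((1 - x) ^ 3 * r) := by ring

theorem oneStep_of (PSs : PSStmt) (TH : TrHStmt) (RE : RDEStmt) (RF : ResFinStmt) (RU : RDUStmt)
    (GE : GeoStmt) (T1 : TrN1Stmt) (T2 : TrN2Stmt) : OneStepStmt := by
  intro G _ π r r' hS h0 h1 t
  obtain ⟨η, he0, he1, her⟩ := exists_eta h0 h1
  have hr : 0 ≤ r := (h0.trans h1).le
  obtain ⟨V, _, _, hG⟩ := hS.hg
  by_cases hD : Done G π t
  · refine ⟨G, inferInstance, MonoidHom.id G, ?_, ?_⟩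
    · rw [MonoidHom.id_comp]; exact hS.mono h1.le
    · rw [MonoidHom.id_comp]; exact hD
  cases t with
  | u g =>
    unfold Done at hD
    push Not at hD
    obtain ⟨hinf, hcom⟩ := hD
    obtain ⟨H, Y, θ, hRD, hQ⟩ := RU G V hG _ hS.mal (π g) hinf
      (fun h m n hn hm => hcom h m n hn hm)
    obtain ⟨T0, hT⟩ := stg_quot GE T1 T2 hG hr hS hRD he0 he1
    obtain ⟨Q, hd, ⟨M, hM, hMQ⟩, q1, q2⟩ :=
      hQ (π ∘ fe) T0 η he0 he1
    refine ⟨_, inferInstance, QuotientGroup.mk' (Subgroup.normalClosure (Q : Set G)),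
      (hT Q hd q1 q2).mono her, Or.inl ?_⟩
    rw [isOfFinOrder_iff_pow_eq_one]
    refine ⟨M, hM, ?_⟩
    rw [MonoidHom.comp_apply, ← map_pow]
    exact (QuotientGroup.eq_one_iff _).2 (Subgroup.subset_normalClosure hMQ)
  | e j v w =>
    unfold Done at hD
    push Not at hD
    obtain ⟨hj, hv, hw, hvw, -⟩ := hD
    set a := π fa with ha
    obtain ⟨pos, Δ, κ, hps, -, -, -⟩ := PSs G V hG a hS.mal hG.ne.some
    obtain ⟨k1, hk1⟩ := TH G a (π ∘ fe) pos Δ hS.mal hps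
      (π v) (π w) hv hw hvw η he0 he1
    obtain ⟨k2, hk2⟩ := RE G V hG a hS.mal (π v) (π w) hv hw hvw
    -- a multiple of `j` which is at least `k1` and `k2`
    obtain ⟨k, hk, hkj⟩ : ∃ k, k1 + k2 ≤ k ∧ j ∣ k :=
      ⟨(k1 + k2) * j, Nat.le_mul_of_pos_right _ (Nat.pos_of_ne_zero hj), dvd_mul_left _ _⟩
    obtain ⟨hinj, ⟨Y, θ, hRD⟩, hbig⟩ := hk2 k (by omega)
    obtain ⟨T0, hT⟩ := stg_quot GE T1 T2 hG hr hS hRD he0 he1
    obtain ⟨S, hS1, hSQ⟩ := hbig T0
    obtain ⟨Q', hn, hfi, hQS⟩ := RF S hS1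
    set φ := phi a (π v) (π w) k with hφ
    have hd : Deep V φ.range (Q'.map φ) T0 := by
      refine ⟨?_, ?_, ?_, ?_⟩
      · rintro x ⟨q, hq, rfl⟩; exact ⟨q, rfl⟩
      · rintro x ⟨u, rfl⟩ y ⟨q, hq, rfl⟩
        exact ⟨u * q * u⁻¹, hn.conj_mem q hq u, by simp⟩
      · rw [MonoidHom.range_eq_map, Subgroup.relIndex_map_map_of_injective _ _ hinj,
          Subgroup.relIndex_top_right]
        exact hfi
      · rintro x ⟨q, hq, rfl⟩ hx y
        exact hSQ Q' hn hQS q hq (by rintro rfl; exact hx (map_one _)) y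
    obtain ⟨q1, q2⟩ := hk1 k (by omega) Q'
    refine ⟨_, inferInstance, QuotientGroup.mk' (Subgroup.normalClosure ((Q'.map φ : Subgroup G) : Set G)),
      (hT (Q'.map φ) hd q1 q2).mono her, Or.inr (Or.inr (Or.inr (Or.inr ?_)))⟩
    set N := Subgroup.normalClosure ((Q'.map φ : Subgroup G) : Set G) with hN
    refine ⟨((4 * k : ℕ) : ℤ), ((12 * k : ℕ) : ℤ), ?_, ?_, ?_⟩
    · exact_mod_cast Dvd.dvd.mul_left hkj 4
    · exact_mod_cast Dvd.dvd.mul_left hkj 12
    · -- the image of `φ` in the quotient is finite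
      have hFI : Q'.FiniteIndex := ⟨hfi⟩
      have hfin : Finite (FreeGroup (Fin 2) ⧸ Q') := inferInstance
      have hker : ∀ u u' : FreeGroup (Fin 2), (u : FreeGroup (Fin 2) ⧸ Q') = u' →
          (QuotientGroup.mk' N) (φ u) = (QuotientGroup.mk' N) (φ u') := by
        intro u u' h
        have h1 : u⁻¹ * u' ∈ Q' := QuotientGroup.eq.1 h
        have h2 : (φ u)⁻¹ * φ u' ∈ N := by
          apply Subgroup.subset_normalClosure
          exact ⟨u⁻¹ * u', h1, by simp⟩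
        exact (QuotientGroup.eq).2 h2
      have hrange : (Set.range fun u : FreeGroup (Fin 2) => (QuotientGroup.mk' N) (φ u)).Finite := by
        have : (Set.range fun u : FreeGroup (Fin 2) => (QuotientGroup.mk' N) (φ u)) ⊆
            Set.range fun q : FreeGroup (Fin 2) ⧸ Q' => (QuotientGroup.mk' N) (φ q.out) := by
          rintro _ ⟨u, rfl⟩
          exact ⟨(u : FreeGroup (Fin 2) ⧸ Q'), hker _ _ (QuotientGroup.out_eq' _)⟩
        exact (Set.finite_range _).subset this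
      refine hrange.subset ?_
      have hle : Subgroup.closure {((QuotientGroup.mk' N).comp π) v *
          ((QuotientGroup.mk' N).comp π) fa ^ ((4 * k : ℕ) : ℤ),
          ((QuotientGroup.mk' N).comp π) w *
          ((QuotientGroup.mk' N).comp π) fa ^ ((12 * k : ℕ) : ℤ)} ≤
          ((QuotientGroup.mk' N).comp φ).range := by
        rw [Subgroup.closure_le]
        rintro x (rfl | rfl)
        · refine ⟨FreeGroup.of 0, ?_⟩
          simp only [MonoidHom.comp_apply, hφ, phi, FreeGroup.lift_apply_of, zpow_natCast,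
            Matrix.cons_val_zero, map_mul, map_pow, ha]
        · refine ⟨FreeGroup.of 1, ?_⟩
          simp only [MonoidHom.comp_apply, hφ, phi, FreeGroup.lift_apply_of, zpow_natCast,
            Matrix.cons_val_one, Matrix.cons_val_fin_one, map_mul, map_pow, ha]
      intro x hx
      obtain ⟨u, hu⟩ := hle hx
      exact ⟨u, hu⟩

end TSq
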