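import Pool.Agent.Work.TSQ.Interface

/-!
# MP_ab148e_al: block TAR (helper79)
-/

namespace TSq

open Finset

namespace Tar

section lower
variable {G : Type} [Group G]

/-- counting consequence of a paradoxical decomposition -/
theorem count [DecidableEq G] {k l : ℕ} {A : Fin k → Set G} {B : Fin l → Set G} {g : Fin k → G}
    {h : Fin l → G} (hA : Pairwise (fun i j => Disjoint (A i) (A j)))
    (hB : Pairwise (fun i j => Disjoint (B i) (B j))) (hAB : ∀ i j, Disjoint (A i) (B j))
    (cA : (⋃ i, (fun x => g i * x) '' A i) = Set.univ)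
    (cB : (⋃ j, (fun x => h j * x) '' B j) = Set.univ) (E1 E2 : Finset G) :
    E1.card + E2.card ≤
      ((E1.biUnion fun t => univ.image fun i => t * g i) ∪
        (E2.biUnion fun t => univ.image fun j => t * h j)).card := by
  have hiA : ∀ t : G, ∃ i, (t * g i)⁻¹ ∈ A i := by
    intro t
    have : t⁻¹ ∈ (⋃ i, (fun x => g i * x) '' A i) := by rw [cA]; trivial
    obtain ⟨i, a, ha, hat⟩ := Set.mem_iUnion.1 this
    refine ⟨i, ?_⟩
    have e : (t * g i)⁻¹ = a := by
      have hat' : g i * a = t⁻¹ := hat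
      rw [mul_inv_rev, ← hat']; group
    rw [e]; exact ha
  have hiB : ∀ t : G, ∃ j, (t * h j)⁻¹ ∈ B j := by
    intro t
    have : t⁻¹ ∈ (⋃ i, (fun x => h i * x) '' B i) := by rw [cB]; trivial
    obtain ⟨i, a, ha, hat⟩ := Set.mem_iUnion.1 this
    refine ⟨i, ?_⟩
    have e : (t * h i)⁻¹ = a := by
      have hat' : h i * a = t⁻¹ := hat
      rw [mul_inv_rev, ← hat']; group
    rw [e]; exact ha
  choose iA hiA using hiA
  choose iB hiB using hiB
  have cardA : (E1.image fun t => t * g (iA t)).card = E1.card := by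
    apply card_image_of_injective
    intro t t' htt
    have htt : t * g (iA t) = t' * g (iA t') := htt
    have e : iA t = iA t' := by
      by_contra hne
      have h1 := hiA t
      have h2 := hiA t'
      rw [← htt] at h2
      exact Set.disjoint_left.1 (hA hne) h1 h2
    rw [e] at htt
    exact mul_right_cancel htt
  have cardB : (E2.image fun t => t * h (iB t)).card = E2.card := by
    apply card_image_of_injective
    intro t t' htt
    have htt : t * h (iB t) = t' * h (iB t') := htt
    have e : iB t = iB t' := by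
      by_contra hne
      have h1 := hiB t
      have h2 := hiB t'
      rw [← htt] at h2
      exact Set.disjoint_left.1 (hB hne) h1 h2
    rw [e] at htt
    exact mul_right_cancel htt
  have hdis : Disjoint (E1.image fun t => t * g (iA t)) (E2.image fun t => t * h (iB t)) := by
    rw [Finset.disjoint_left]
    rintro u hu hu'
    obtain ⟨t, _, rfl⟩ := mem_image.1 hu
    obtain ⟨t', _, e⟩ := mem_image.1 hu'
    have h1 := hiA t
    have h2 := hiB t'
    rw [e] at h2
    exact Set.disjoint_left.1 (hAB _ _) h1 h2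
  rw [← cardA, ← cardB, ← card_union_of_disjoint hdis]
  apply card_le_card
  apply union_subset_union
  · intro u hu
    obtain ⟨t, ht, rfl⟩ := mem_image.1 hu
    exact mem_biUnion.2 ⟨t, ht, mem_image_of_mem _ (mem_univ _)⟩
  · intro u hu
    obtain ⟨t, ht, rfl⟩ := mem_image.1 hu
    exact mem_biUnion.2 ⟨t, ht, mem_image_of_mem _ (mem_univ _)⟩

/-- `u` lies on a line `r⟨x⟩` with `r ∈ R` -/
def On (x : G) (R : Finset G) (u : G) : Prop := ∃ r ∈ R, ∃ i : ℤ, u = r * x ^ i

/-- the triple `(x; y, z)` fails -/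
def Fl (x y z : G) : Prop :=
  ∃ F R : Finset G, R.card < F.card ∧ ∀ g ∈ F, On x R g ∧ On x R (g * y) ∧ On x R (g * z)

/-- the core: no `(2,3)` Hall condition -/
theorem no23 [DecidableEq G] (x y z : G) (hx : ¬ IsOfFinOrder x → Fl x y z)
    (hc : ∀ E1 E2 : Finset G, E1.card + E2.card ≤
      ((E1 ∪ E1.image (· * x)) ∪ (E2 ∪ E2.image (· * y) ∪ E2.image (· * z))).card) : False := by
  by_cases hfin : IsOfFinOrder x
  · -- `x` torsion
    have hn := hfin.orderOf_pos
    set n := orderOf x with hnd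
    set E : Finset G := {1, y, z} with hE
    set E1 : Finset G := (E ×ˢ range n).image (fun q => q.1 * x ^ q.2) with hE1
    have h1 : E1.image (· * x) ⊆ E1 := by
      intro u hu
      obtain ⟨v, hv, rfl⟩ := mem_image.1 hu
      obtain ⟨⟨q, i⟩, hq, rfl⟩ := mem_image.1 hv
      rw [mem_product, mem_range] at hq
      simp only at hq ⊢
      refine mem_image.2 ⟨(q, (i + 1) % n), ?_, ?_⟩
      · rw [mem_product, mem_range]
        exact ⟨hq.1, Nat.mod_lt _ hn⟩
      · simp only
        rw [hnd, pow_mod_orderOf, pow_succ, mul_assoc]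
    have h2 : ∀ u ∈ E, u ∈ E1 := by
      intro u hu
      refine mem_image.2 ⟨(u, 0), ?_, by simp⟩
      rw [mem_product, mem_range]
      exact ⟨hu, hn⟩
    have h3 := hc E1 {1}
    have h4 : ((E1 ∪ E1.image (· * x)) ∪ (({1} : Finset G) ∪ ({1} : Finset G).image (· * y) ∪
        ({1} : Finset G).image (· * z))) ⊆ E1 := by
      apply union_subset
      · exact union_subset (Finset.Subset.refl _) h1
      · apply union_subset
        · apply union_subset
          · intro u hu
            rw [mem_singleton] at hu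
            exact h2 u (by rw [hu, hE]; simp)
          · intro u hu
            rw [image_singleton, mem_singleton, one_mul] at hu
            exact h2 u (by rw [hu, hE]; simp)
        · intro u hu
          rw [image_singleton, mem_singleton, one_mul] at hu
          exact h2 u (by rw [hu, hE]; simp)
    have h5 := card_le_card h4
    rw [card_singleton] at h3
    omega
  · obtain ⟨F, R, hFR, hcov⟩ := hx hfin
    set U : Finset G := F ∪ F.image (· * y) ∪ F.image (· * z) with hU
    have hpos : ∀ u ∈ U, ∃ i : ℤ, ∃ r ∈ R, u = r * x ^ i := by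
      intro u hu
      rw [hU, mem_union, mem_union, mem_image, mem_image] at hu
      rcases hu with (hu | ⟨g, hg, rfl⟩) | ⟨g, hg, rfl⟩
      · obtain ⟨r, hr, i, hi⟩ := (hcov u hu).1
        exact ⟨i, r, hr, hi⟩
      · obtain ⟨r, hr, i, hi⟩ := (hcov g hg).2.1
        exact ⟨i, r, hr, hi⟩
      · obtain ⟨r, hr, i, hi⟩ := (hcov g hg).2.2
        exact ⟨i, r, hr, hi⟩
    choose! pos hpos using hpos
    obtain ⟨m, hm⟩ : ∃ m : ℕ, ∀ u ∈ U, (pos u).natAbs ≤ m :=
      ⟨U.sup fun u => (pos u).natAbs, fun u hu => le_sup (f := fun u => (pos u).natAbs) hu⟩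
    let φ : G × ℤ → G := fun q => q.1 * x ^ q.2
    set E1 : Finset G := (R ×ˢ Finset.Ico (-(m : ℤ)) m).image φ with hE1
    set E3 : Finset G := (R ×ˢ Finset.Icc (-(m : ℤ)) m).image φ with hE3
    have c3 : E3.card ≤ E1.card + R.card := by
      have : E3 ⊆ E1 ∪ R.image (fun r => r * x ^ (m : ℤ)) := by
        intro u hu
        obtain ⟨⟨r, i⟩, hr, rfl⟩ := mem_image.1 hu
        rw [mem_product, Finset.mem_Icc] at hr
        simp only at hr
        rw [mem_union]
        rcases lt_or_eq_of_le hr.2.2 with h | h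
        · left
          refine mem_image.2 ⟨(r, i), ?_, rfl⟩
          rw [mem_product, Finset.mem_Ico]
          exact ⟨hr.1, hr.2.1, h⟩
        · right
          exact mem_image.2 ⟨r, hr.1, by simp [φ, h]⟩
      exact (card_le_card this).trans ((card_union_le _ _).trans
        (Nat.add_le_add_left card_image_le _))
    have hsub : (E1 ∪ E1.image (· * x)) ∪ U ⊆ E3 := by
      apply union_subset
      · apply union_subset
        · apply image_subset_image
          apply product_subset_product (Finset.Subset.refl _)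
          intro i hi
          rw [Finset.mem_Ico] at hi
          rw [Finset.mem_Icc]
          omega
        · intro u hu
          obtain ⟨v, hv, rfl⟩ := mem_image.1 hu
          obtain ⟨⟨q, i⟩, hq, rfl⟩ := mem_image.1 hv
          rw [mem_product, Finset.mem_Ico] at hq
          refine mem_image.2 ⟨(q, i + 1), ?_, ?_⟩
          · rw [mem_product, Finset.mem_Icc]
            refine ⟨hq.1, ?_⟩
            have := hq.2
            simp only at this ⊢
            omega
          · change q * x ^ (i + 1) = q * x ^ i * x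
            rw [zpow_add_one, mul_assoc]
      · intro u hu
        obtain ⟨r, hr, hur⟩ := hpos u hu
        refine mem_image.2 ⟨(r, pos u), ?_, hur.symm⟩
        rw [mem_product, Finset.mem_Icc]
        refine ⟨hr, ?_⟩
        have := hm u hu
        simp only
        omega
    have h1 := hc E1 F
    have h2 := card_le_card hsub
    have h3 : E1.card + F.card ≤ E3.card := h1.trans h2
    omega

theorem noParad_aux (hf : ∀ x y z : G, ¬ IsOfFinOrder x → Fl x y z) {k l : ℕ}
    {A : Fin k → Set G} {B : Fin l → Set G} {g : Fin k → G} {h : Fin l → G} (hkl : k + l ≤ 5)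
    (hk : k ≤ 2) (hA : Pairwise (fun i j => Disjoint (A i) (A j)))
    (hB : Pairwise (fun i j => Disjoint (B i) (B j))) (hAB : ∀ i j, Disjoint (A i) (B j))
    (cA : (⋃ i, (fun x => g i * x) '' A i) = Set.univ)
    (cB : (⋃ j, (fun x => h j * x) '' B j) = Set.univ) : False := by
  classical
  have hcount := count hA hB hAB cA cB
  have hk0 : k ≠ 0 := by
    rintro rfl
    have : (1 : G) ∈ (⋃ i, (fun x => g i * x) '' A i) := by rw [cA]; trivial
    obtain ⟨i, -⟩ := Set.mem_iUnion.1 this
    exact i.elim0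
  have hl0 : l ≠ 0 := by
    rintro rfl
    have : (1 : G) ∈ (⋃ j, (fun x => h j * x) '' B j) := by rw [cB]; trivial
    obtain ⟨i, -⟩ := Set.mem_iUnion.1 this
    exact i.elim0
  by_cases hk1 : k = 1
  · subst hk1
    -- `E1 = {h_j g_0⁻¹}`, `E2 = {1}`
    have h1 := hcount (univ.image fun j => h j * (g 0)⁻¹) {1}
    have h2 : (((univ.image fun j => h j * (g 0)⁻¹).biUnion fun t => univ.image fun i => t * g i) ∪
        (({1} : Finset G).biUnion fun t => univ.image fun j => t * h j)) ⊆
        (univ.image fun j => h j * (g 0)⁻¹).image (· * g 0) := by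
      apply union_subset
      · intro u hu
        obtain ⟨t, ht, hu⟩ := mem_biUnion.1 hu
        obtain ⟨i, -, rfl⟩ := mem_image.1 hu
        rw [Subsingleton.elim i 0]
        exact mem_image_of_mem _ ht
      · intro u hu
        obtain ⟨t, ht, hu⟩ := mem_biUnion.1 hu
        obtain ⟨j, -, rfl⟩ := mem_image.1 hu
        rw [mem_singleton] at ht
        subst ht
        refine mem_image.2 ⟨h j * (g 0)⁻¹, mem_image_of_mem _ (mem_univ _), ?_⟩
        simp
    have h3 := card_le_card h2
    have h4 : ((univ.image fun j => h j * (g 0)⁻¹).image (· * g 0)).card ≤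
      (univ.image fun j => h j * (g 0)⁻¹).card := card_image_le
    rw [card_singleton] at h1
    omega
  · have hk2 : k = 2 := by omega
    subst hk2
    have hl3 : l ≤ 3 := by omega
    -- choose indices
    let j0 : Fin l := ⟨0, by omega⟩
    let j1 : Fin l := ⟨min 1 (l - 1), by omega⟩
    let j2 : Fin l := ⟨min 2 (l - 1), by omega⟩
    have hj : ∀ j : Fin l, j = j0 ∨ j = j1 ∨ j = j2 := by
      intro j
      have := j.2
      rcases Nat.lt_or_ge j.1 1 with h | h
      · left; apply Fin.ext; change j.1 = 0; omega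
      rcases Nat.lt_or_ge j.1 2 with h' | h'
      · right; left; apply Fin.ext; change j.1 = min 1 (l - 1); omega
      · right; right; apply Fin.ext; change j.1 = min 2 (l - 1); omega
    refine no23 ((g 0)⁻¹ * g 1) ((h j0)⁻¹ * h j1) ((h j0)⁻¹ * h j2) (hf _ _ _) ?_
    intro E1 E2
    have h1 := hcount (E1.image (· * (g 0)⁻¹)) (E2.image (· * (h j0)⁻¹))
    rw [card_image_of_injective _ (mul_left_injective _),
      card_image_of_injective _ (mul_left_injective _)] at h1
    refine h1.trans (card_le_card ?_)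
    apply union_subset_union
    · intro u hu
      obtain ⟨t, ht, hu⟩ := mem_biUnion.1 hu
      obtain ⟨i, -, rfl⟩ := mem_image.1 hu
      obtain ⟨s, hs, rfl⟩ := mem_image.1 ht
      fin_cases i
      · apply mem_union_left
        simpa using hs
      · apply mem_union_right
        refine mem_image.2 ⟨s, hs, ?_⟩
        simp [mul_assoc]
    · intro u hu
      obtain ⟨t, ht, hu⟩ := mem_biUnion.1 hu
      obtain ⟨j, -, rfl⟩ := mem_image.1 hu
      obtain ⟨s, hs, rfl⟩ := mem_image.1 ht
      rcases hj j with rfl | rfl | rfl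
      · apply mem_union_left
        apply mem_union_left
        simpa using hs
      · apply mem_union_left
        apply mem_union_right
        refine mem_image.2 ⟨s, hs, ?_⟩
        simp [mul_assoc]
      · apply mem_union_right
        refine mem_image.2 ⟨s, hs, ?_⟩
        simp [mul_assoc]

/-! ### failing triples -/

theorem Fl.swap {x y z : G} (h : Fl x y z) : Fl x z y := by
  obtain ⟨F, R, h1, h2⟩ := h
  exact ⟨F, R, h1, fun g hg => ⟨(h2 g hg).1, (h2 g hg).2.2, (h2 g hg).2.1⟩⟩

theorem On.inv {x : G} {R : Finset G} {u : G} (h : On x⁻¹ R u) : On x R u := by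
  obtain ⟨r, hr, i, hi⟩ := h
  exact ⟨r, hr, -i, by rw [hi, inv_zpow, zpow_neg]⟩

theorem Fl.inv {x y z : G} (h : Fl x⁻¹ y z) : Fl x y z := by
  obtain ⟨F, R, h1, h2⟩ := h
  exact ⟨F, R, h1, fun g hg => ⟨(h2 g hg).1.inv, (h2 g hg).2.1.inv, (h2 g hg).2.2.inv⟩⟩

theorem Fl.recentre {x y z : G} (h : Fl x y⁻¹ (y⁻¹ * z)) : Fl x y z := by
  classical
  obtain ⟨F, R, h1, h2⟩ := h
  refine ⟨F.image (· * y⁻¹), R, ?_, ?_⟩
  · rwa [card_image_of_injective _ (mul_left_injective _)]
  · intro g hg
    obtain ⟨f, hf, rfl⟩ := mem_image.1 hg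
    obtain ⟨h3, h4, h5⟩ := h2 f hf
    refine ⟨h4, ?_, ?_⟩
    · rwa [inv_mul_cancel_right]
    · rwa [mul_assoc]

theorem Fl.conj {x y z h : G} (hF : Fl (h⁻¹ * x * h) (h⁻¹ * y * h) (h⁻¹ * z * h)) : Fl x y z := by
  classical
  obtain ⟨F, R, h1, h2⟩ := hF
  have hinj : Function.Injective (fun g : G => h * g * h⁻¹) := fun g g' e =>
    mul_left_cancel (mul_right_cancel e)
  have key : ∀ u, On (h⁻¹ * x * h) R u →
      On x (R.image fun g => h * g * h⁻¹) (h * u * h⁻¹) := by
    rintro u ⟨r, hr, i, hi⟩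
    refine ⟨h * r * h⁻¹, mem_image_of_mem _ hr, i, ?_⟩
    have e : (h⁻¹ * x * h) ^ i = h⁻¹ * x ^ i * h := by
      have := conj_zpow (i := i) (a := h⁻¹) (b := x)
      rwa [inv_inv] at this
    rw [hi, e]; group
  refine ⟨F.image fun g => h * g * h⁻¹, R.image fun g => h * g * h⁻¹, ?_, ?_⟩
  · rw [card_image_of_injective F hinj]
    exact lt_of_le_of_lt card_image_le h1
  · intro g hg
    obtain ⟨f, hf, rfl⟩ := mem_image.1 hg
    obtain ⟨h3, h4, h5⟩ := h2 f hf
    refine ⟨key _ h3, ?_, ?_⟩
    · have := key _ h4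
      have e : h * (f * (h⁻¹ * y * h)) * h⁻¹ = h * f * h⁻¹ * y := by group
      rwa [e] at this
    · have := key _ h5
      have e : h * (f * (h⁻¹ * z * h)) * h⁻¹ = h * f * h⁻¹ * z := by group
      rwa [e] at this

/-- doubling: `|R| ≤ |F|` is enough if `1 ∈ R` -/
theorem Fl.dbl {x y z : G} (hx : ¬ IsOfFinOrder x) {F R : Finset G} (hRF : R.card ≤ F.card)
    (h1R : (1 : G) ∈ R)
    (hcov : ∀ g ∈ F, On x R g ∧ On x R (g * y) ∧ On x R (g * z)) : Fl x y z := by
  classical
  have hinj : Function.Injective (fun n : ℕ => x ^ n) := injective_pow_iff_not_isOfFinOrder.2 hx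
  -- `n` with `x ^ n F` disjoint from `F`
  obtain ⟨n, hn⟩ : ∃ n : ℕ, x ^ n ∉ (F ×ˢ F).image (fun q : G × G => q.1 * q.2⁻¹) := by
    by_contra hcon
    push Not at hcon
    have : (Set.range fun n : ℕ => x ^ n).Finite :=
      ((F ×ˢ F).image (fun q : G × G => q.1 * q.2⁻¹)).finite_toSet.subset (by
        rintro _ ⟨n, rfl⟩; exact hcon n)
    exact Set.infinite_range_of_injective hinj this
  have hdis : Disjoint F (F.image (x ^ n * ·)) := by
    rw [Finset.disjoint_left]
    intro u hu hu'
    obtain ⟨v, hv, rfl⟩ := mem_image.1 hu'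
    apply hn
    refine mem_image.2 ⟨(x ^ n * v, v), mem_product.2 ⟨hu, hv⟩, ?_⟩
    simp
  refine ⟨F ∪ F.image (x ^ n * ·), R ∪ (R.erase 1).image (x ^ n * ·), ?_, ?_⟩
  · rw [card_union_of_disjoint hdis, card_image_of_injective F (mul_right_injective (x ^ n))]
    have h2 : ((R.erase 1).image (x ^ n * ·)).card ≤ R.card - 1 := by
      rw [← card_erase_of_mem h1R]; exact card_image_le
    have h3 := card_union_le R ((R.erase 1).image (x ^ n * ·))
    have h4 : 0 < R.card := card_pos.2 ⟨1, h1R⟩
    omega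
  · have key1 : ∀ u, On x R u → On x (R ∪ (R.erase 1).image (x ^ n * ·)) u := by
      rintro u ⟨r, hr, i, hi⟩
      exact ⟨r, mem_union_left _ hr, i, hi⟩
    have key2 : ∀ u, On x R u → On x (R ∪ (R.erase 1).image (x ^ n * ·)) (x ^ n * u) := by
      rintro u ⟨r, hr, i, hi⟩
      by_cases hr1 : r = 1
      · subst hr1
        refine ⟨1, mem_union_left _ h1R, n + i, ?_⟩
        rw [hi, one_mul, one_mul, zpow_add, zpow_natCast]
      · refine ⟨x ^ n * r, mem_union_right _ (mem_image_of_mem _ (mem_erase.2 ⟨hr1, hr⟩)), i, ?_⟩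
        rw [hi, mul_assoc]
    intro g hg
    rcases mem_union.1 hg with hg | hg
    · obtain ⟨h3, h4, h5⟩ := hcov g hg
      exact ⟨key1 _ h3, key1 _ h4, key1 _ h5⟩
    · obtain ⟨f, hf, rfl⟩ := mem_image.1 hg
      obtain ⟨h3, h4, h5⟩ := hcov f hf
      refine ⟨key2 _ h3, ?_, ?_⟩
      · rw [mul_assoc]; exact key2 _ h4
      · rw [mul_assoc]; exact key2 _ h5

variable {a : G}

/-- case (A) -/
theorem fl_A (ha : ¬ IsOfFinOrder a) {j : ℕ} (hj : j ≠ 0) {v w : G} {k m : ℤ}
    (hk : (j : ℤ) ∣ k) (hm : (j : ℤ) ∣ m)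
    (hfin : (Subgroup.closure {v * a ^ k, w * a ^ m} : Set G).Finite) : Fl (a ^ j) v w := by
  classical
  set E := Subgroup.closure {v * a ^ k, w * a ^ m} with hE
  have hxi : ¬ IsOfFinOrder (a ^ j) := fun h => ha (h.of_pow hj)
  refine Fl.dbl hxi (F := hfin.toFinset) (R := hfin.toFinset) le_rfl
    (hfin.mem_toFinset.2 (one_mem E)) ?_
  intro g hg
  have hg : g ∈ E := hfin.mem_toFinset.1 hg
  obtain ⟨k', rfl⟩ := hk
  obtain ⟨m', rfl⟩ := hm
  refine ⟨⟨g, hfin.mem_toFinset.2 hg, 0, by simp⟩,
    ⟨g * (v * a ^ ((j : ℤ) * k')), hfin.mem_toFinset.2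
      (mul_mem hg (Subgroup.subset_closure (by simp))), -k', ?_⟩,
    ⟨g * (w * a ^ ((j : ℤ) * m')), hfin.mem_toFinset.2
      (mul_mem hg (Subgroup.subset_closure (by simp))), -m', ?_⟩⟩
  · rw [← zpow_natCast, ← zpow_mul, mul_assoc, mul_assoc, ← zpow_add]
    have : (j : ℤ) * k' + (j : ℤ) * -k' = 0 := by ring
    rw [this, zpow_zero, mul_one]
  · rw [← zpow_natCast, ← zpow_mul, mul_assoc, mul_assoc, ← zpow_add]
    have : (j : ℤ) * m' + (j : ℤ) * -m' = 0 := by ring
    rw [this, zpow_zero, mul_one]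

/-- case (B) -/
theorem fl_B (ha : ¬ IsOfFinOrder a) {j : ℕ} (hj : j ≠ 0) {w : G} {k m : ℤ}
    (hk : (j : ℤ) ∣ k) (hm : (j : ℤ) ∣ m)
    (hfin : (Subgroup.closure {w * a ^ k, (a ^ j * w) * a ^ m} : Set G).Finite) (s : ℤ) :
    Fl (a ^ j) (a ^ s) w := by
  classical
  set E := Subgroup.closure {w * a ^ k, (a ^ j * w) * a ^ m} with hE
  have hxi : ¬ IsOfFinOrder (a ^ j) := fun h => ha (h.of_pow hj)
  have hmem : ∀ g, g ∈ hfin.toFinset ↔ g ∈ E := fun g => hfin.mem_toFinset
  have hdis : Disjoint hfin.toFinset (hfin.toFinset.image (· * a ^ j)) := by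
    rw [Finset.disjoint_left]
    intro u hu hu'
    obtain ⟨v, hv, rfl⟩ := mem_image.1 hu'
    rw [hmem] at hu hv
    have h1 : a ^ j ∈ E := by
      have := mul_mem (inv_mem hv) hu
      rwa [inv_mul_cancel_left] at this
    apply hxi
    have hfE : Finite E := hfin
    have h2 : IsOfFinOrder (⟨a ^ j, h1⟩ : E) := isOfFinOrder_of_finite _
    exact (Submonoid.isOfFinOrder_coe (H := E.toSubmonoid) (x := ⟨a ^ j, h1⟩)).2 h2
  refine Fl.dbl hxi (F := hfin.toFinset ∪ hfin.toFinset.image (· * a ^ j))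
    (R := hfin.toFinset ∪ hfin.toFinset.image (· * a ^ s)) ?_
    (mem_union_left _ ((hmem 1).2 (one_mem E))) ?_
  · rw [card_union_of_disjoint hdis, card_image_of_injective _ (mul_left_injective _)]
    exact (card_union_le _ _).trans (Nat.add_le_add_left card_image_le _)
  · obtain ⟨k', rfl⟩ := hk
    obtain ⟨m', rfl⟩ := hm
    intro g hg
    rcases mem_union.1 hg with hg | hg
    · have hgE := (hmem g).1 hg
      refine ⟨⟨g, mem_union_left _ hg, 0, by simp⟩,
        ⟨g * a ^ s, mem_union_right _ (mem_image_of_mem _ hg), 0, by simp⟩,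
        ⟨g * (w * a ^ ((j : ℤ) * k')), mem_union_left _ ((hmem _).2
          (mul_mem hgE (Subgroup.subset_closure (by simp)))), -k', ?_⟩⟩
      rw [← zpow_natCast, ← zpow_mul, mul_assoc, mul_assoc, ← zpow_add]
      have : (j : ℤ) * k' + (j : ℤ) * -k' = 0 := by ring
      rw [this, zpow_zero, mul_one]
    · obtain ⟨e, he, rfl⟩ := mem_image.1 hg
      have heE := (hmem e).1 he
      refine ⟨⟨e, mem_union_left _ he, 1, by simp⟩,
        ⟨e * a ^ s, mem_union_right _ (mem_image_of_mem _ he), 1, ?_⟩,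
        ⟨e * (a ^ j * w * a ^ ((j : ℤ) * m')), mem_union_left _ ((hmem _).2
          (mul_mem heE (Subgroup.subset_closure (by simp)))), -m', ?_⟩⟩
      · rw [zpow_one, mul_assoc, mul_assoc, ← zpow_natCast, ← zpow_add, ← zpow_add, add_comm]
      · rw [← zpow_natCast, ← zpow_mul]
        have : (j : ℤ) * m' + (j : ℤ) * -m' = 0 := by ring
        rw [mul_assoc e, mul_assoc e, mul_assoc (a ^ (j : ℤ) * w), ← zpow_add, this, zpow_zero,
          mul_one]

/-- case (E) -/
theorem fl_E (ha : ¬ IsOfFinOrder a) {j : ℕ} (hj : j ≠ 0) (s t : ℤ) :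
    Fl (a ^ j) (a ^ s) (a ^ t) := by
  classical
  have hinj : Function.Injective (fun n : ℕ => a ^ n) := injective_pow_iff_not_isOfFinOrder.2 ha
  have key : ∀ i : ℤ, On (a ^ j) ((range j).image fun n : ℕ => a ^ n) (a ^ i) := by
    intro i
    have hj' : (0 : ℤ) < j := by omega
    refine ⟨a ^ (i % j).toNat, mem_image_of_mem _ (mem_range.2 ?_), i / j, ?_⟩
    · have h1 := Int.emod_lt_of_pos i hj'
      have h2 := Int.emod_nonneg i hj'.ne'
      omega
    · rw [← zpow_natCast a (i % j).toNat, Int.toNat_of_nonneg (Int.emod_nonneg i hj'.ne'),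
        ← zpow_natCast, ← zpow_mul, ← zpow_add, Int.emod_add_mul_ediv]
  refine ⟨(range (j + 1)).image fun n : ℕ => a ^ n, (range j).image fun n : ℕ => a ^ n, ?_, ?_⟩
  · rw [card_image_of_injective _ hinj, card_image_of_injective _ hinj, card_range, card_range]
    omega
  · intro g hg
    obtain ⟨i, -, rfl⟩ := mem_image.1 hg
    refine ⟨?_, ?_, ?_⟩
    · have := key (i : ℤ)
      rwa [zpow_natCast] at this
    · rw [← zpow_natCast a i, ← zpow_add]; exact key _
    · rw [← zpow_natCast a i, ← zpow_add]; exact key _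

end lower

theorem allFl {G : Type} [Group G] (π : F3 →* G) (hπ : Function.Surjective π)
    (hM : Mal (π fa)) (hD : ∀ t : Task, Done G π t) (x y z : G)
    (hx : ¬ IsOfFinOrder x) : Fl x y z := by
  set a := π fa with ha
  -- the case `x = a ^ j`
  have key : ∀ (j : ℕ), j ≠ 0 → ∀ v w : G, Fl (a ^ j) v w := by
    intro j hj v w
    -- (B)
    have hB : ∀ (s : ℤ) (w : G), w ∉ Subgroup.zpowers a → Fl (a ^ j) (a ^ s) w := by
      intro s w hw
      obtain ⟨w', rfl⟩ := hπ w
      rcases hD (.e j w' (fa ^ j * w')) with h | h | h | h | h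
      · exact absurd h hj
      · exact absurd h hw
      · exfalso
        rw [map_mul, map_pow] at h
        apply hw
        have h2 : a ^ j ∈ Subgroup.zpowers a := Subgroup.npow_mem_zpowers _ _
        exact (Subgroup.mul_mem_cancel_left _ h2).1 h
      · exfalso
        rw [map_mul, map_pow] at h
        obtain ⟨m, hm⟩ := Subgroup.mem_zpowers_iff.1 h
        apply hw
        have h3 := hM.mal ((π w')⁻¹) m j (by exact_mod_cast hj) (by
          rw [inv_inv, zpow_natCast, hm, mul_assoc])
        exact (Subgroup.inv_mem_iff _).1 h3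
      · obtain ⟨k, m, hk, hm, hfin⟩ := h
        rw [map_mul, map_pow] at hfin
        exact fl_B hM.inf hj hk hm hfin s
    by_cases hv : v ∈ Subgroup.zpowers a
    · obtain ⟨s, rfl⟩ := Subgroup.mem_zpowers_iff.1 hv
      by_cases hw : w ∈ Subgroup.zpowers a
      · obtain ⟨t, rfl⟩ := Subgroup.mem_zpowers_iff.1 hw
        exact fl_E hM.inf hj s t
      · exact hB s w hw
    · by_cases hw : w ∈ Subgroup.zpowers a
      · obtain ⟨t, rfl⟩ := Subgroup.mem_zpowers_iff.1 hw
        exact (hB t v hv).swap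
      · by_cases hvw : v⁻¹ * w ∈ Subgroup.zpowers a
        · obtain ⟨t, ht⟩ := Subgroup.mem_zpowers_iff.1 hvw
          apply Fl.recentre
          rw [← ht]
          apply Fl.swap
          exact hB t _ (fun h => hv ((Subgroup.inv_mem_iff _).1 h))
        · obtain ⟨v', rfl⟩ := hπ v
          obtain ⟨w', rfl⟩ := hπ w
          rcases hD (.e j v' w') with h | h | h | h | h
          · exact absurd h hj
          · exact absurd h hv
          · exact absurd h hw
          · exact absurd h hvw
          · obtain ⟨k, m, hk, hm, hfin⟩ := h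
            exact fl_A hM.inf hj hk hm hfin
  -- `x` is conjugate to a power of `a`
  obtain ⟨x', rfl⟩ := hπ x
  rcases hD (.u x') with h | ⟨h, m, n, hn, hm, hxn⟩
  · exact absurd h hx
  · apply Fl.conj (h := h)
    set x := h⁻¹ * π x' * h with hxd
    have h1 : x ^ n = a ^ m := by
      have e : x ^ n = h⁻¹ * (π x') ^ n * h := by
        have := conj_zpow (i := n) (a := h⁻¹) (b := π x')
        rwa [inv_inv] at this
      rw [e, hxn, ← ha]; group
    have h2 : x ∈ Subgroup.zpowers a := by
      apply hM.mal x m m hm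
      rw [← h1]
      rw [← zpow_one_add, add_comm, zpow_add_one, mul_inv_cancel_right]
    have hxi : ¬ IsOfFinOrder x := by
      intro hf
      apply hx
      rw [isOfFinOrder_iff_pow_eq_one] at hf ⊢
      obtain ⟨q, hq, h3⟩ := hf
      refine ⟨q, hq, ?_⟩
      have e : π x' = h * x * h⁻¹ := by rw [hxd]; group
      rw [e, conj_pow, h3]; group
    obtain ⟨j, hj⟩ := Subgroup.mem_zpowers_iff.1 h2
    have hj0 : j ≠ 0 := by
      rintro rfl
      apply hxi
      rw [← hj, zpow_zero]
      exact IsOfFinOrder.one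
    rcases lt_or_gt_of_ne hj0 with hj1 | hj1
    · apply Fl.inv
      have e : x⁻¹ = a ^ (-j).toNat := by
        rw [← zpow_natCast, Int.toNat_of_nonneg (by omega), zpow_neg, hj]
      rw [e]
      exact key _ (by omega) _ _
    · have e : x = a ^ j.toNat := by
        rw [← zpow_natCast, Int.toNat_of_nonneg (by omega), hj]
      rw [e]
      exact key _ (by omega) _ _

/-! ### the decomposition of the square -/

theorem parad5 {K : Type} [Group K] (α : K) (hα : ¬ IsOfFinOrder α) (D : Fin 3 → K)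
    (m : K → Fin 3) (hm : Function.Injective (fun k => ((k * D (m k) : K) : Ln α))) :
    Parad K 5 := by
  classical
  -- matched points and shifts
  let S : K → Prop := fun v => ∃ (k : K) (i : ℕ), v = k * D (m k) * α ^ i
  have hS : ∀ v, S v → S (v * α) := by
    rintro v ⟨k, i, rfl⟩
    exact ⟨k, i + 1, by rw [pow_succ, mul_assoc]⟩
  let A : Fin 2 → Set K := ![{u | ∃ v, ¬ S v ∧ u⁻¹ = v}, {u | ∃ v, S v ∧ u⁻¹ = v * α}]
  let B : Fin 3 → Set K := fun j => {u | ∃ k, m k = j ∧ u⁻¹ = k * D j}
  refine ⟨2, 3, A, B, ![1, α], D, le_refl _, ?_, ?_, ?_, ?_, ?_⟩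
  · have h01 : Disjoint (A 0) (A 1) := by
      rw [Set.disjoint_left]
      rintro u ⟨v, hv, h1⟩ ⟨w, hw, h2⟩
      apply hv
      rw [← h1, h2]
      exact hS w hw
    intro i j hij
    fin_cases i <;> fin_cases j
    · exact absurd rfl hij
    · exact h01
    · exact h01.symm
    · exact absurd rfl hij
  · intro i j hij
    rw [Set.disjoint_left]
    rintro u ⟨k, hk, h1⟩ ⟨k', hk', h2⟩
    apply hij
    have e : k = k' := by
      apply hm
      simp only
      rw [hk, hk', ← h1, ← h2]
    rw [← hk, ← hk', e]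
  · intro i j
    rw [Set.disjoint_left]
    rintro u hu ⟨k, hk, h2⟩
    fin_cases i
    · obtain ⟨v, hv, h1⟩ := hu
      apply hv
      refine ⟨k, 0, ?_⟩
      rw [← h1, h2, hk]; simp
    · obtain ⟨v, ⟨k', i, rfl⟩, h1⟩ := hu
      rw [h2] at h1
      have e : k = k' := by
        apply hm
        simp only
        rw [hk, h1, QuotientGroup.eq]
        have : (k' * D (m k') * α ^ i * α)⁻¹ * (k' * D (m k')) = (α ^ (i + 1))⁻¹ := by
          rw [pow_succ]; group
        rw [this]
        exact Subgroup.inv_mem _ (Subgroup.npow_mem_zpowers _ _)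
      subst e
      rw [hk, mul_assoc] at h1
      have h3 : α ^ i * α = 1 := by
        have := mul_left_cancel (a := k * D j) (b := 1) (c := α ^ i * α) (by rw [mul_one]; exact h1)
        exact this.symm
      apply hα
      rw [isOfFinOrder_iff_pow_eq_one]
      exact ⟨i + 1, by omega, by rw [pow_succ]; exact h3⟩
  · rw [Set.eq_univ_iff_forall]
    intro v
    rw [Set.mem_iUnion]
    by_cases hv : S v⁻¹
    · refine ⟨1, α⁻¹ * v, ⟨v⁻¹, hv, ?_⟩, ?_⟩
      · group
      · change α * (α⁻¹ * v) = v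
        group
    · refine ⟨0, v, ⟨v⁻¹, hv, rfl⟩, ?_⟩
      change 1 * v = v
      group
  · rw [Set.eq_univ_iff_forall]
    intro v
    rw [Set.mem_iUnion]
    refine ⟨m v⁻¹, (D (m v⁻¹))⁻¹ * v, ⟨v⁻¹, rfl, ?_⟩, ?_⟩
    · group
    · change D (m v⁻¹) * ((D (m v⁻¹))⁻¹ * v) = v
      group

theorem parad_of_hall {G G2 : Type} [Group G] [Group G2] {a : G} (ha : ¬ IsOfFinOrder a)
    {e : Fin 3 → G} {f : Fin 3 → G2} (h : HallR a e f 1) : Parad (G × G2) 5 := by
  classical
  obtain ⟨φ, hφ, hmem⟩ := (Finset.all_card_le_biUnion_card_iff_exists_injective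
    (fun p : G × G2 => (univ.image fun i => nd a e f p i : Finset (Ln a × G2)))).1 (by
      intro s
      have h1 := h s
      rw [one_mul] at h1
      have h2 : s.card ≤ (nb a e f id s).card := by exact_mod_cast h1
      convert h2 using 2
      unfold nb
      ext n
      simp)
  have hex : ∀ p : G × G2, ∃ i, nd a e f p i = φ p := by
    intro p
    obtain ⟨i, -, hi⟩ := mem_image.1 (hmem p)
    exact ⟨i, hi⟩
  choose m hm using hex
  refine parad5 (K := G × G2) (a, 1) ?_ (fun i => (e i, f i)) m ?_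
  · intro hfin
    apply ha
    rw [isOfFinOrder_iff_pow_eq_one] at hfin ⊢
    obtain ⟨n, hn, h1⟩ := hfin
    exact ⟨n, hn, congrArg Prod.fst h1⟩
  · intro p q hpq
    apply hφ
    rw [← hm p, ← hm q]
    have hpq : (((p * (e (m p), f (m p)) : G × G2)) : Ln ((a, 1) : G × G2)) =
        (q * (e (m q), f (m q)) : G × G2) := hpq
    rw [QuotientGroup.eq, Subgroup.mem_zpowers_iff] at hpq
    obtain ⟨i, hi⟩ := hpq
    unfold nd
    have h1 := congrArg Prod.fst hi
    have h2 := congrArg Prod.snd hi
    simp only [Prod.pow_fst, Prod.pow_snd, Prod.fst_mul, Prod.snd_mul, Prod.fst_inv,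
      Prod.snd_inv, one_zpow] at h1 h2
    apply Prod.ext
    · simp only [ln]
      rw [QuotientGroup.eq, Subgroup.mem_zpowers_iff]
      exact ⟨i, h1⟩
    · simp only
      exact (inv_mul_eq_one.1 h2.symm)

theorem noParad {G : Type} [Group G] (hf : ∀ x y z : G, ¬ IsOfFinOrder x → Fl x y z) :
    ¬ Parad G 5 := by
  rintro ⟨k, l, A, B, g, h, hkl, hA, hB, hAB, cA, cB⟩
  rcases Nat.lt_or_ge k 3 with hk | hk
  · exact noParad_aux hf hkl (by omega) hA hB hAB cA cB
  · exact noParad_aux hf (by omega : l + k ≤ 5) (by omega) hB hA (fun i j => (hAB j i).symm)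
      cB cA

end Tar

end TSq
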