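import Pool.Agent.Work.TSQ.LongDef

/-!
# Blocks TRN1, TRN2: common counting lemmas (helper75)
-/

namespace TSq
open Finset

section count
variable {C C1 M M1 K : Type}

/-- averaging: some cut is good for most elements of `F` -/
theorem exists_good_cut (F : Finset C) (n B : ℕ) (η : ℚ) (hn : 1 ≤ n)
    (hB : (B : ℚ) ≤ η * n) (bad : ℕ → C → Prop)
    (h : ∀ p ∈ F, {t | t < n ∧ bad t p}.ncard ≤ B) :
    ∃ t < n, ∃ F' ⊆ F, (∀ p ∈ F', ¬ bad t p) ∧ (1 - η) * F.card ≤ (F'.card : ℚ) := by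
  classical
  suffices h' : ∃ t < n, (1 - η) * F.card ≤ ((F.filter fun p => ¬ bad t p).card : ℚ) by
    obtain ⟨t, ht, h1⟩ := h'
    exact ⟨t, ht, _, Finset.filter_subset _ F, fun p hp => (Finset.mem_filter.1 hp).2, h1⟩
  by_contra hc
  push Not at hc
  have h1 : ∀ t ∈ range n, η * F.card < ((F.filter fun p => bad t p).card : ℚ) := by
    intro t ht
    have e := Finset.card_filter_add_card_filter_not (s := F) (fun p => bad t p)
    have e' : ((F.filter fun p => bad t p).card : ℚ) + ((F.filter fun p => ¬ bad t p).card : ℚ)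
        = F.card := by exact_mod_cast e
    have := hc t (Finset.mem_range.1 ht)
    linarith
  have h2 : (n : ℚ) * (η * F.card) < ∑ t ∈ range n, ((F.filter fun p => bad t p).card : ℚ) := by
    have : ∑ _t ∈ range n, (η * F.card) < ∑ t ∈ range n, ((F.filter fun p => bad t p).card : ℚ) :=
      Finset.sum_lt_sum_of_nonempty ⟨0, Finset.mem_range.2 (by omega)⟩ h1
    rwa [Finset.sum_const, Finset.card_range, nsmul_eq_mul] at this
  have h3 : (∑ t ∈ range n, (F.filter fun p => bad t p).card) =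
      ∑ p ∈ F, ((range n).filter fun t => bad t p).card := by
    simp only [Finset.card_filter]
    exact Finset.sum_comm
  have h4 : ∑ p ∈ F, ((range n).filter fun t => bad t p).card ≤ ∑ _p ∈ F, B := by
    apply Finset.sum_le_sum
    intro p hp
    have e : ((range n).filter fun t => bad t p : Finset ℕ) = {t | t < n ∧ bad t p} := by
      ext t; simp
    have := h p hp
    rw [← e, Set.ncard_coe_finset] at this
    exact this
  rw [Finset.sum_const, smul_eq_mul] at h4
  have h5 : (∑ t ∈ range n, ((F.filter fun p => bad t p).card : ℚ)) ≤ F.card * B := by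
    have : ((∑ t ∈ range n, (F.filter fun p => bad t p).card : ℕ) : ℚ) ≤ ((F.card * B : ℕ) : ℚ) := by
      exact_mod_cast (h3 ▸ h4)
    push_cast at this
    exact this
  have h6 : (F.card : ℚ) * B ≤ F.card * (η * n) :=
    mul_le_mul_of_nonneg_left hB (Nat.cast_nonneg _)
  nlinarith

open Classical in
/-- adding up over classes -/
theorem sum_classes (F : Finset C) (ν : C → Finset M) (cl : C → K) (r : ℚ)
    (h1 : ∀ κ : K, r * (F.filter fun p => cl p = κ).card ≤
      (((F.filter fun p => cl p = κ).biUnion ν).card : ℚ))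
    (h2 : ∀ p ∈ F, ∀ p' ∈ F, ∀ m, m ∈ ν p → m ∈ ν p' → cl p = cl p') :
    r * F.card ≤ ((F.biUnion ν).card : ℚ) := by
  have e1 : F.card = ∑ κ ∈ F.image cl, (F.filter fun p => cl p = κ).card :=
    Finset.card_eq_sum_card_image cl F
  have e2 : F.biUnion ν = (F.image cl).biUnion fun κ => (F.filter fun p => cl p = κ).biUnion ν := by
    ext m
    simp only [Finset.mem_biUnion, Finset.mem_image, Finset.mem_filter]
    constructor
    · rintro ⟨p, hp, hm⟩
      exact ⟨cl p, ⟨p, hp, rfl⟩, p, ⟨hp, rfl⟩, hm⟩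
    · rintro ⟨κ, -, p, ⟨hp, -⟩, hm⟩
      exact ⟨p, hp, hm⟩
  have e3 : (F.biUnion ν).card =
      ∑ κ ∈ F.image cl, ((F.filter fun p => cl p = κ).biUnion ν).card := by
    rw [e2]
    apply Finset.card_biUnion
    intro κ _ κ' _ hne
    change Disjoint (Finset.biUnion _ _) (Finset.biUnion _ _)
    rw [Finset.disjoint_left]
    intro m hm hm'
    simp only [Finset.mem_biUnion, Finset.mem_filter] at hm hm'
    obtain ⟨p, ⟨hp, rfl⟩, hm⟩ := hm
    obtain ⟨p', ⟨hp', rfl⟩, hm'⟩ := hm'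
    exact hne (h2 p hp p' hp' m hm hm')
  rw [e3, e1]
  push_cast
  rw [Finset.mul_sum]
  exact Finset.sum_le_sum fun κ _ => h1 κ

/-- comparison of neighbourhoods -/
theorem nbhd_card_le [DecidableEq C1] [DecidableEq M] [DecidableEq M1] (F : Finset C) (lift : C → C1) (ν1 : C1 → Fin 3 → M1) (ν : C → Fin 3 → M)
    (h : ∀ p ∈ F, ∀ p' ∈ F, ∀ i j, ν p i = ν p' j → ν1 (lift p) i = ν1 (lift p') j) :
    ((F.image lift).biUnion fun p => univ.image (ν1 p)).card ≤
      (F.biUnion fun p => univ.image (ν p)).card := by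
  have hex : ∀ m ∈ ((F.image lift).biUnion fun p => univ.image (ν1 p)),
      ∃ p ∈ F, ∃ i, ν1 (lift p) i = m := by
    intro m hm
    simp only [Finset.mem_biUnion, Finset.mem_image, Finset.mem_univ, true_and] at hm
    obtain ⟨_, ⟨p, hp, rfl⟩, i, hi⟩ := hm
    exact ⟨p, hp, i, hi⟩
  rcases F.eq_empty_or_nonempty with h0 | ⟨p0, -⟩
  · subst h0; simp
  have : Nonempty C := ⟨p0⟩
  choose! P hP I hI using hex
  apply Finset.card_le_card_of_injOn (fun m => ν (P m) (I m))
  · intro m hm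
    simp only [Finset.coe_biUnion, Set.mem_iUnion, Finset.mem_coe, Finset.mem_image,
      Finset.mem_univ, true_and]
    exact ⟨P m, hP m hm, I m, rfl⟩
  · intro m hm m' hm' he
    have := h _ (hP m hm) _ (hP m' hm') _ _ he
    rwa [hI m hm, hI m' hm'] at this

end count

section nbd
variable {G G2 G' G2' M M' : Type} [Group G] [Group G2] [Group G'] [Group G2']

open Classical in
theorem nb_eq (a : G) (e : Fin 3 → G) (f : Fin 3 → G2) (π : Ln a × G2 → M)
    (F : Finset (G × G2)) :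
    nb a e f π F = F.biUnion fun p => univ.image fun i => π (nd a e f p i) := by
  unfold nb
  congr 1

open Classical in
/-- the Hall inequality is pulled back along a lift -/
theorem pull_hall {a : G} {e : Fin 3 → G} {f : Fin 3 → G2} {π : Ln a × G2 → M}
    {a' : G'} {e' : Fin 3 → G'} {f' : Fin 3 → G2'} {π' : Ln a' × G2' → M'} {r : ℚ}
    (F : Finset (G' × G2')) (lift : G' × G2' → G × G2)
    (hr : r * (F.image lift).card ≤ (nb a e f π (F.image lift)).card)
    (hinj : ∀ p ∈ F, ∀ p' ∈ F, lift p = lift p' → p = p')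
    (h : ∀ p ∈ F, ∀ p' ∈ F, ∀ i j, π' (nd a' e' f' p i) = π' (nd a' e' f' p' j) →
      π (nd a e f (lift p) i) = π (nd a e f (lift p') j)) :
    r * F.card ≤ (nb a' e' f' π' F).card := by
  have e1 : (F.image lift).card = F.card :=
    Finset.card_image_of_injOn fun p hp p' hp' he => hinj p hp p' hp' he
  rw [e1] at hr
  refine hr.trans ?_
  rw [nb_eq, nb_eq]
  exact_mod_cast nbhd_card_le F lift (fun p i => π (nd a e f p i))
    (fun p i => π' (nd a' e' f' p i)) h

theorem nb_mono (a : G) (e : Fin 3 → G) (f : Fin 3 → G2) (π : Ln a × G2 → M)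
    {F F' : Finset (G × G2)} (h : F ⊆ F') : (nb a e f π F).card ≤ (nb a e f π F').card := by
  classical
  rw [nb_eq, nb_eq]
  exact Finset.card_le_card (Finset.biUnion_subset_biUnion_of_subset_left _ h)

theorem sum_classes_nb {K : Type} (a : G) (e : Fin 3 → G) (f : Fin 3 → G2) (π : Ln a × G2 → M)
    (F : Finset (G × G2)) (cl : G × G2 → K) (r : ℚ)
    (h1 : ∀ F' ⊆ F, ∀ p0 ∈ F', (∀ p ∈ F', cl p = cl p0) →
      r * F'.card ≤ (nb a e f π F').card)
    (h2 : ∀ p ∈ F, ∀ p' ∈ F, ∀ i j, π (nd a e f p i) = π (nd a e f p' j) → cl p = cl p') :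
    r * F.card ≤ (nb a e f π F).card := by
  classical
  rw [nb_eq]
  apply sum_classes F (fun p => univ.image fun i => π (nd a e f p i)) cl r
  · intro κ
    rcases (F.filter fun p => cl p = κ).eq_empty_or_nonempty with h | ⟨p0, hp0⟩
    · rw [h]; simp
    · have := h1 _ (Finset.filter_subset _ F) p0 hp0 (fun p hp => by
        rw [(Finset.mem_filter.1 hp).2, (Finset.mem_filter.1 hp0).2])
      rwa [nb_eq] at this
  · intro p hp p' hp' m hm hm'
    simp only [Finset.mem_image, Finset.mem_univ, true_and] at hm hm'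
    obtain ⟨i, rfl⟩ := hm
    obtain ⟨j, hj⟩ := hm'
    exact h2 p hp p' hp' i j hj.symm

omit [Group G2] in
/-- `wd` of equal second coordinates: description of the equality -/
theorem wd_eq_iff {a : G} (P : Fin 3 → Ln a) (n n' : Ln a × G2) :
    wd P n = wd P n' ↔ n.2 = n'.2 ∧
      (n.1 = n'.1 ∨ (n.1 ∈ Set.range P ∧ n'.1 ∈ Set.range P)) := by
  unfold wd
  by_cases h : n.1 ∈ Set.range P
  · by_cases h' : n'.1 ∈ Set.range P
    · rw [if_pos h, if_pos h', Prod.mk.injEq]
      constructor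
      · rintro ⟨-, h2⟩; exact ⟨h2, Or.inr ⟨h, h'⟩⟩
      · rintro ⟨h2, -⟩; exact ⟨rfl, h2⟩
    · rw [if_pos h, if_neg h']
      constructor
      · intro hh
        exact absurd (hh ▸ ⟨0, rfl⟩ : n'.1 ∈ Set.range P) h'
      · rintro ⟨-, h2 | h2⟩
        · exact absurd (h2 ▸ h) h'
        · exact absurd h2.2 h'
  · by_cases h' : n'.1 ∈ Set.range P
    · rw [if_neg h, if_pos h']
      constructor
      · intro hh
        exact absurd (hh ▸ ⟨0, rfl⟩ : n.1 ∈ Set.range P) h
      · rintro ⟨-, h2 | h2⟩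
        · exact absurd (h2 ▸ h') h
        · exact absurd h2.1 h
    · rw [if_neg h, if_neg h']
      constructor
      · rintro rfl; exact ⟨rfl, Or.inl rfl⟩
      · rintro ⟨h2, h3 | h3⟩
        · exact Prod.ext h3 h2
        · exact absurd h3.1 h

omit [Group G2] in
theorem wd_const {a : G} (l : Ln a) : wd (G2 := G2) (fun _ => l) = id := by
  funext n
  unfold wd
  by_cases h : n.1 ∈ Set.range (fun _ : Fin 3 => l)
  · rw [if_pos h]
    obtain ⟨_, h⟩ := h
    exact Prod.ext h rfl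
  · rw [if_neg h]; rfl

end nbd

section lines
variable {G : Type} [Group G]

theorem ln_eq_iff (a g g' : G) : ln a g = ln a g' ↔ ∃ k : ℤ, g' = g * a ^ k := by
  unfold ln
  rw [QuotientGroup.eq, Subgroup.mem_zpowers_iff]
  constructor
  · rintro ⟨k, hk⟩; exact ⟨k, by rw [hk]; group⟩
  · rintro ⟨k, rfl⟩; exact ⟨k, by group⟩

theorem ln_surj (a : G) (l : Ln a) : ∃ g, ln a g = l := QuotientGroup.mk_surjective l

variable (N : Subgroup G) [N.Normal]

theorem mk_eq_iff (g g' : G) : (g : G ⧸ N) = g' ↔ ∃ m ∈ N, g' = m * g := by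
  rw [QuotientGroup.eq]
  constructor
  · intro h
    refine ⟨g * (g⁻¹ * g') * g⁻¹, Subgroup.Normal.conj_mem ‹_› _ h _, by group⟩
  · rintro ⟨m, hm, rfl⟩
    have : g⁻¹ * (m * g) = g⁻¹ * m * (g⁻¹)⁻¹ := by group
    rw [this]
    exact Subgroup.Normal.conj_mem ‹_› _ hm _

/-- equality of lines of the quotient -/
theorem ln_mk_eq_iff (a g g' : G) :
    ln (a : G ⧸ N) (g : G ⧸ N) = ln (a : G ⧸ N) (g' : G ⧸ N) ↔
      ∃ m ∈ N, ∃ k : ℤ, g' = m * g * a ^ k := by
  rw [ln_eq_iff]
  constructor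
  · rintro ⟨k, hk⟩
    have : ((g * a ^ k : G) : G ⧸ N) = g' := by rw [hk]; rfl
    obtain ⟨m, hm, h⟩ := (mk_eq_iff N _ _).1 this
    exact ⟨m, hm, k, by rw [h]; group⟩
  · rintro ⟨m, hm, k, h⟩
    refine ⟨k, ?_⟩
    have : ((g * a ^ k : G) : G ⧸ N) = g' := (mk_eq_iff N _ _).2 ⟨m, hm, by rw [h]; group⟩
    rw [← this]; rfl

end lines

end TSq
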