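import Pool.Agent.Work.TSQ.Interface

/-!
# Block TRH (helper35): the two-generator groups cost little on both coordinates, from HCUT

`tr2_core` is the general transfer lemma for the second coordinate.
-/

set_option autoImplicit false
set_option linter.unusedSectionVars false

namespace TSq
open FrobP GMet

namespace TRH

theorem exists_good {α : Type} (F : Finset α) (I : Finset ℕ) (hI : I.Nonempty)
    (bad : ℕ → α → Prop) (B : ℕ) (hB : ∀ p ∈ F, {s | s ∈ I ∧ bad s p}.ncard ≤ B) :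
    ∃ s ∈ I, ({p | p ∈ F ∧ bad s p} : Set α).ncard * I.card ≤ B * F.card := by
  classical
  have h1 : ∀ s, ({p | p ∈ F ∧ bad s p} : Set α).ncard = (F.filter fun p => bad s p).card := by
    intro s
    rw [← Set.ncard_coe_finset]
    congr 1
    ext p
    simp
  have h2 : ∀ p, ({s | s ∈ I ∧ bad s p} : Set ℕ).ncard = (I.filter fun s => bad s p).card := by
    intro p
    rw [← Set.ncard_coe_finset]
    congr 1
    ext s
    simp
  simp only [h1]
  simp only [h2] at hB
  refine Finset.exists_le_of_sum_le hI ?_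
  rw [← Finset.sum_mul, Finset.sum_const, smul_eq_mul, mul_comm I.card]
  refine Nat.mul_le_mul_right _ ?_
  have h3 : ∑ s ∈ I, (F.filter fun p => bad s p).card =
      ∑ p ∈ F, (I.filter fun s => bad s p).card :=
    Finset.sum_card_bipartiteAbove_eq_sum_card_bipartiteBelow _
  rw [h3, mul_comm B]
  exact le_trans (Finset.sum_le_card_nsmul F _ B hB) (by rw [smul_eq_mul])

/-- the uncut part is large -/
theorem exists_good' {α : Type} (F : Finset α) (I : Finset ℕ) (hI : I.Nonempty)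
    (bad : ℕ → α → Prop) (B : ℕ) (hB : ∀ p ∈ F, {s | s ∈ I ∧ bad s p}.ncard ≤ B) (η : ℚ)
    (hη : (B : ℚ) ≤ η * I.card) :
    ∃ s ∈ I, ∃ F' : Finset α, (∀ p, p ∈ F' ↔ p ∈ F ∧ ¬ bad s p) ∧
      (1 - η) * F.card ≤ F'.card := by
  classical
  obtain ⟨s, hs, h⟩ := exists_good F I hI bad B hB
  refine ⟨s, hs, F.filter fun p => ¬ bad s p, fun p => Finset.mem_filter, ?_⟩
  have h1 : ({p | p ∈ F ∧ bad s p} : Set α).ncard = (F.filter fun p => bad s p).card := by
    rw [← Set.ncard_coe_finset]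
    congr 1
    ext p
    simp
  rw [h1] at h
  have h2 := Finset.card_filter_add_card_filter_not (s := F) (fun p => bad s p)
  have hI0 : (0 : ℚ) < I.card := by exact_mod_cast hI.card_pos
  have h3 : ((F.filter fun p => bad s p).card : ℚ) * I.card ≤ B * F.card := by exact_mod_cast h
  have h4 : ((F.filter fun p => bad s p).card : ℚ) * I.card ≤ (η * F.card) * I.card := by
    refine h3.trans ?_
    have h5 : (B : ℚ) * F.card ≤ η * I.card * F.card :=
      mul_le_mul_of_nonneg_right hη (Nat.cast_nonneg _)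
    linarith
  have h5 : ((F.filter fun p => bad s p).card : ℚ) ≤ η * F.card := le_of_mul_le_mul_right h4 hI0
  have h6 : ((F.filter fun p => bad s p).card : ℚ) + ((F.filter fun p => ¬ bad s p).card : ℚ) =
      F.card := by exact_mod_cast h2
  linarith

section

variable {G G2 : Type} [Group G] [Group G2]

theorem mem_nb {M : Type} (a : G) (e : Fin 3 → G) (f : Fin 3 → G2) (π : Ln a × G2 → M)
    (F : Finset (G × G2)) (m : M) : m ∈ nb a e f π F ↔ ∃ p ∈ F, ∃ i, π (nd a e f p i) = m := by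
  unfold nb
  simp

/-- identification of the lines of `P` -/
noncomputable def wl {a : G} (P : Fin 3 → Ln a) (l : Ln a) : Ln a := by
  classical
  exact if l ∈ Set.range P then P 0 else l

theorem wd_eq {a : G} (P : Fin 3 → Ln a) (n : Ln a × G2) : wd P n = (wl P n.1, n.2) := by
  unfold wd wl
  split_ifs <;> rfl

theorem ln_eq {a g h : G} : ln a g = ln a h ↔ ∃ n : ℤ, h = g * a ^ n := by
  unfold ln
  rw [QuotientGroup.eq, Subgroup.mem_zpowers_iff]
  constructor
  · rintro ⟨n, hn⟩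
    exact ⟨n, by rw [hn, mul_inv_cancel_left]⟩
  · rintro ⟨n, hn⟩
    exact ⟨n, by rw [hn, inv_mul_cancel_left]⟩

theorem ln_mul {a g h : G} (x : G) (H : ln a g = ln a h) : ln a (x * g) = ln a (x * h) := by
  obtain ⟨n, rfl⟩ := ln_eq.1 H
  exact ln_eq.2 ⟨n, by rw [mul_assoc]⟩

end

/-- representatives of the orbits of a group action -/
theorem exists_rep (Γ Λ : Type) [Group Γ] [MulAction Γ Λ] :
    ∃ (rep : Λ → Λ) (t : Λ → Γ), (∀ l, t l • l = rep l) ∧ ∀ (γ : Γ) l, rep (γ • l) = rep l := by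
  classical
  have h : ∀ l : Λ, ∃ γ : Γ, γ • l =
      Quotient.out (Quotient.mk (MulAction.orbitRel Γ Λ) l) := by
    intro l
    have h1 : (MulAction.orbitRel Γ Λ) (Quotient.out (Quotient.mk (MulAction.orbitRel Γ Λ) l)) l :=
      Quotient.exact (Quotient.out_eq _)
    exact MulAction.orbitRel_apply.1 h1
  choose t ht using h
  refine ⟨_, t, ht, fun γ l => ?_⟩
  have h2 : Quotient.mk (MulAction.orbitRel Γ Λ) (γ • l) = Quotient.mk (MulAction.orbitRel Γ Λ) l :=
    Quotient.sound (MulAction.orbitRel_apply.2 ⟨γ, rfl⟩)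
  rw [h2]

/-- transfer on the second coordinate -/
theorem tr2_core {G Γ Λ : Type} [Group G] [Group Γ] [MulAction Γ Λ]
    (hfree : ∀ (γ : Γ) (l : Λ), γ • l = l → γ = 1) (ψ : Γ →* G) (f : Fin 3 → G) (I : Finset ℕ)
    (hI : I.Nonempty) (B : ℕ) (η : ℚ) (hB : (B : ℚ) ≤ η * I.card) (c : ℕ → G → Λ)
    (hc : ∀ s ∈ I, ∀ (γ : Γ) (g : G), c s (ψ γ * g) = γ • c s g)
    (hbad : ∀ x : G, {s | s ∈ I ∧ ∃ i, c s (x * f i) ≠ c s (x * f 0)}.ncard ≤ B) :
    Tr2 f ψ.range η := by
  classical
  intro G1 _ a1 e1 κ hκ hW P F hF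
  obtain ⟨s, hs, F', hF', hcard⟩ := exists_good' F I hI
    (fun s p => ∃ i, c s (p.2 * f i) ≠ c s (p.2 * f 0)) B (fun p _ => hbad p.2) η hB
  obtain ⟨rep, t, ht, hrep⟩ := exists_rep Γ Λ
  have hrep2 : ∀ l, rep (rep l) = rep l := fun l => by
    conv_lhs => rw [← ht l]
    rw [hrep]
  set T : G1 × G → G1 × G := fun p => (p.1, ψ (t (c s (p.2 * f 0))) * p.2) with hT
  have hlab : ∀ p ∈ F', ∀ i, c s ((T p).2 * f i) = rep (c s (p.2 * f 0)) := by
    intro p hp i
    have h1 : ¬ ∃ i, c s (p.2 * f i) ≠ c s (p.2 * f 0) := ((hF' p).1 hp).2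
    push Not at h1
    rw [hT, mul_assoc, hc s hs, h1 i, ht]
  have hinj : Set.InjOn T F' := by
    intro p hp p' hp' hpp
    have h1 : (T p).1 = (T p').1 := congrArg Prod.fst hpp
    have h2 : (T p).2 = (T p').2 := congrArg Prod.snd hpp
    change ψ (t (c s (p.2 * f 0))) * p.2 = ψ (t (c s (p'.2 * f 0))) * p'.2 at h2
    refine hF p ((hF' p).1 hp).1 p' ((hF' p').1 hp').1 h1
      (ψ ((t (c s (p'.2 * f 0)))⁻¹ * t (c s (p.2 * f 0)))) ⟨_, rfl⟩ ?_
    rw [map_mul, map_inv, mul_assoc, h2, inv_mul_cancel_left]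
  have h1 := hW P (F'.image T)
  rw [Finset.card_image_of_injOn hinj] at h1
  have h2 : (nb a1 e1 f (wd P) (F'.image T)).card ≤ (nb a1 e1 f
      (fun m => Prod.map id (Quotient.mk (MulAction.orbitRel ψ.range G)) (wd P m)) F).card := by
    refine Finset.card_le_card_of_injOn
      (Prod.map id (Quotient.mk (MulAction.orbitRel ψ.range G))) ?_ ?_
    · intro m hm
      obtain ⟨p', hp', i, rfl⟩ := (mem_nb _ _ _ _ _ _).1 (Finset.mem_coe.1 hm)
      obtain ⟨p, hp, rfl⟩ := Finset.mem_image.1 hp'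
      refine Finset.mem_coe.2 ((mem_nb _ _ _ _ _ _).2 ⟨p, ((hF' p).1 hp).1, i, ?_⟩)
      rw [wd_eq, wd_eq]
      refine Prod.ext rfl ?_
      refine Quotient.sound (MulAction.orbitRel_apply.2 ?_)
      refine ⟨⟨ψ (t (c s (p.2 * f 0))), ⟨_, rfl⟩⟩⁻¹, ?_⟩
      change (ψ (t (c s (p.2 * f 0))))⁻¹ * (ψ (t (c s (p.2 * f 0))) * p.2 * f i) = p.2 * f i
      rw [mul_assoc, inv_mul_cancel_left]
    · intro m hm m' hm' hmm
      obtain ⟨p1, hp1, i, rfl⟩ := (mem_nb _ _ _ _ _ _).1 (Finset.mem_coe.1 hm)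
      obtain ⟨p, hp, rfl⟩ := Finset.mem_image.1 hp1
      obtain ⟨p1', hp1', i', rfl⟩ := (mem_nb _ _ _ _ _ _).1 (Finset.mem_coe.1 hm')
      obtain ⟨p', hp', rfl⟩ := Finset.mem_image.1 hp1'
      rw [wd_eq, wd_eq] at hmm ⊢
      have e1 : wl P (nd a1 e1 f (T p) i).1 = wl P (nd a1 e1 f (T p') i').1 :=
        congrArg Prod.fst hmm
      have e2 : Quotient.mk (MulAction.orbitRel ψ.range G) ((T p).2 * f i) =
          Quotient.mk (MulAction.orbitRel ψ.range G) ((T p').2 * f i') := congrArg Prod.snd hmm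
      obtain ⟨⟨q, γ, rfl⟩, hq⟩ := MulAction.orbitRel_apply.1 (Quotient.exact e2)
      have hq' : ψ γ * ((T p').2 * f i') = (T p).2 * f i := hq
      have h3 := hc s hs γ ((T p').2 * f i')
      rw [hq', hlab p hp i, hlab p' hp' i'] at h3
      have h4 : rep (c s (p.2 * f 0)) = rep (c s (p'.2 * f 0)) := by
        rw [← hrep2 (c s (p.2 * f 0)), h3, hrep, hrep2]
      rw [h4] at h3
      have h5 := hfree γ _ h3.symm
      rw [h5, map_one, one_mul] at hq'
      exact Prod.ext e1 hq'.symm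
  have h3 : ((nb a1 e1 f (wd P) (F'.image T)).card : ℚ) ≤ (nb a1 e1 f
      (fun m => Prod.map id (Quotient.mk (MulAction.orbitRel ψ.range G)) (wd P m)) F).card := by
    exact_mod_cast h2
  calc (1 - η) * κ * F.card = κ * ((1 - η) * F.card) := by ring
    _ ≤ κ * F'.card := mul_le_mul_of_nonneg_left hcard hκ
    _ ≤ _ := h1.trans h3

/-- infinite Hall theorem: slots -/
theorem slots {G G2 : Type} [Group G] [Group G2] (a : G) (e : Fin 3 → G) (f : Fin 3 → G2)
    (P : Fin 3 → Ln a) (p q : ℕ)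
    (h : ∀ F : Finset (G × G2), p * F.card ≤ q * (nb a e f (wd P) F).card) :
    ∃ (Φ : (G × G2) × Fin p → (Ln a × G2) × Fin q) (J : (G × G2) × Fin p → Fin 3),
      Function.Injective Φ ∧ ∀ x, (Φ x).1 = wd P (nd a e f x.1 (J x)) := by
  classical
  have hH : ∀ S : Finset ((G × G2) × Fin p), S.card ≤ (S.biUnion fun x =>
      ((Finset.univ.image fun i => wd P (nd a e f x.1 i)) ×ˢ
        (Finset.univ : Finset (Fin q)))).card := by
    intro S
    have h1 : S ⊆ (S.image Prod.fst) ×ˢ (Finset.univ : Finset (Fin p)) := by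
      intro x hx
      rw [Finset.mem_product]
      exact ⟨Finset.mem_image_of_mem _ hx, Finset.mem_univ _⟩
    have h2 : (nb a e f (wd P) (S.image Prod.fst)) ×ˢ (Finset.univ : Finset (Fin q)) ⊆
        S.biUnion fun x => ((Finset.univ.image fun i => wd P (nd a e f x.1 i)) ×ˢ
        (Finset.univ : Finset (Fin q))) := by
      intro m hm
      rw [Finset.mem_product] at hm
      obtain ⟨c, hc, i, hi⟩ := (mem_nb _ _ _ _ _ _).1 hm.1
      obtain ⟨x, hx, rfl⟩ := Finset.mem_image.1 hc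
      refine Finset.mem_biUnion.2 ⟨x, hx, ?_⟩
      rw [Finset.mem_product]
      exact ⟨Finset.mem_image.2 ⟨i, Finset.mem_univ _, hi⟩, Finset.mem_univ _⟩
    calc S.card ≤ ((S.image Prod.fst) ×ˢ (Finset.univ : Finset (Fin p))).card :=
          Finset.card_le_card h1
      _ = p * (S.image Prod.fst).card := by
          rw [Finset.card_product, Finset.card_univ, Fintype.card_fin, mul_comm]
      _ ≤ q * (nb a e f (wd P) (S.image Prod.fst)).card := h _
      _ = ((nb a e f (wd P) (S.image Prod.fst)) ×ˢ (Finset.univ : Finset (Fin q))).card := by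
          rw [Finset.card_product, Finset.card_univ, Fintype.card_fin, mul_comm]
      _ ≤ _ := Finset.card_le_card h2
  obtain ⟨Φ, hΦ, hm⟩ := (Finset.all_card_le_biUnion_card_iff_exists_injective _).1 hH
  have h3 : ∀ x, ∃ i, (Φ x).1 = wd P (nd a e f x.1 i) := by
    intro x
    have h4 := hm x
    rw [Finset.mem_product] at h4
    obtain ⟨i, -, hi⟩ := Finset.mem_image.1 h4.1
    exact ⟨i, hi.symm⟩
  choose J hJ using h3
  exact ⟨Φ, J, hΦ, hJ⟩

/-- transfer on the first coordinate; `t m` are the three lines of the tripod `1` -/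
theorem tr1_core {G Γ : Type} [Group G] [Group Γ] (φ : Γ →* G) (Q' : Subgroup Γ) (a : G)
    (e : Fin 3 → G) (t : Fin 3 → Γ) (ht : Function.Injective fun m => ln a (φ (t m)))
    (I : Finset ℕ)
    (hI : I.Nonempty) (B : ℕ) (η : ℚ) (hB : (B : ℚ) ≤ η * I.card) (c : ℕ → G → Γ)
    (hc : ∀ s ∈ I, ∀ (γ : Γ) (g : G), c s (φ γ * g) = γ * c s g)
    (hsp : ∀ s ∈ I, ∀ (z : Γ) (n : ℤ), ∃ m, c s (φ z * a ^ n) = z * (t m)⁻¹)
    (hbad : ∀ g : G, {s | s ∈ I ∧ ((∃ i, c s (g * e i) ≠ c s (g * e 0)) ∨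
      ∃ i, (∀ z, ln a (g * e i) ≠ ln a (φ z)) ∧
        ∃ n : ℤ, c s (g * e i * a ^ n) ≠ c s (g * e 0))}.ncard ≤ B) :
    Tr1 a e (Q'.map φ) η := by
  classical
  intro G2 _ f κ hκ hW F hF
  obtain ⟨s, hs, F', hF', hcard⟩ := exists_good' F I hI
    (fun s p => (∃ i, c s (p.1 * e i) ≠ c s (p.1 * e 0)) ∨
      ∃ i, (∀ z, ln a (p.1 * e i) ≠ ln a (φ z)) ∧
        ∃ n : ℤ, c s (p.1 * e i * a ^ n) ≠ c s (p.1 * e 0)) B (fun p _ => hbad p.1) η hB
  set P : Fin 3 → Ln a := fun m => ln a (φ (t m)) with hP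
  -- rational slots
  obtain ⟨p, hp⟩ : ∃ p : ℕ, (p : ℤ) = κ.num := Int.eq_ofNat_of_zero_le (Rat.num_nonneg.2 hκ) |>.imp
    fun _ h => h.symm
  have hq0 : (0 : ℚ) < κ.den := by exact_mod_cast κ.den_pos
  have hκpq : κ * κ.den = p := by
    have h1 := Rat.mul_den_eq_num κ
    rw [h1, ← hp]
    simp
  obtain ⟨Φ, J, hΦ, hJ⟩ := slots a e f P p κ.den (fun S => by
    have h1 := hW P S
    have h2 : (p : ℚ) * S.card ≤ κ.den * (nb a e f (wd P) S).card := by
      rw [← hκpq]
      have h3 := mul_le_mul_of_nonneg_left h1 hq0.le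
      calc κ * κ.den * S.card = κ.den * (κ * S.card) := by ring
        _ ≤ _ := h3
    exact_mod_cast h2)
  -- the data of a claw
  set y : G × G2 → Γ := fun c' => c s (c'.1 * e 0) with hy
  set H : G × G2 → G × G2 := fun c' => ((φ (y c'))⁻¹ * c'.1, c'.2) with hH
  set N := nb a e f (Prod.map (Quotient.mk (MulAction.orbitRel (Q'.map φ) (Ln a))) id) F with hN
  set Ψ : (G × G2) × Fin p → (MulAction.orbitRel.Quotient (Q'.map φ) (Ln a) × G2) × Fin κ.den :=
    fun x => (Prod.map (Quotient.mk (MulAction.orbitRel (Q'.map φ) (Ln a))) id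
      (nd a e f x.1 (J (H x.1, x.2))), (Φ (H x.1, x.2)).2) with hΨ
  have hmain : (F' ×ˢ (Finset.univ : Finset (Fin p))).card ≤
      (N ×ˢ (Finset.univ : Finset (Fin κ.den))).card := by
    refine Finset.card_le_card_of_injOn Ψ ?_ ?_
    · rintro ⟨x, i⟩ hx
      rw [Finset.mem_coe, Finset.mem_product] at hx
      rw [Finset.mem_coe, Finset.mem_product]
      exact ⟨(mem_nb _ _ _ _ _ _).2 ⟨x, ((hF' x).1 hx.1).1, _, rfl⟩, Finset.mem_univ _⟩
    · rintro ⟨⟨g, x⟩, i⟩ hx ⟨⟨g1, x1⟩, i1⟩ hx1 hE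
      rw [Finset.mem_coe, Finset.mem_product] at hx hx1
      have hg := ((hF' (g, x)).1 hx.1)
      have hg1 := ((hF' (g1, x1)).1 hx1.1)
      have hu := hg.2
      have hu1 := hg1.2
      push Not at hu hu1
      obtain ⟨hA, hA'⟩ := hu
      obtain ⟨hA1, hA1'⟩ := hu1
      dsimp only at hA hA' hA1 hA1'
      set j := J (H (g, x), i) with hj
      set j1 := J (H (g1, x1), i1) with hj1
      have E1 : Quotient.mk (MulAction.orbitRel (Q'.map φ) (Ln a)) (ln a (g * e j)) =
          Quotient.mk (MulAction.orbitRel (Q'.map φ) (Ln a)) (ln a (g1 * e j1)) :=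
        congrArg (fun z => z.1.1) hE
      have E2 : x * f j = x1 * f j1 := congrArg (fun z => z.1.2) hE
      have E3 : (Φ (H (g, x), i)).2 = (Φ (H (g1, x1), i1)).2 := congrArg (fun z => z.2) hE
      obtain ⟨⟨q, γ, hγ, rfl⟩, hq⟩ := MulAction.orbitRel_apply.1 (Quotient.exact E1.symm)
      have hq' : ln a (φ γ * g * e j) = ln a (g1 * e j1) := by
        rw [mul_assoc]
        exact hq
      obtain ⟨n, hn⟩ := ln_eq.1 hq'
      -- labels
      set y0 : Γ := γ * c s (g * e 0) with hy0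
      set y1 : Γ := c s (g1 * e 0) with hy1
      have hHg : H (g, x) = ((φ y0)⁻¹ * (φ γ * g), x) := by
        refine Prod.ext ?_ rfl
        change (φ (c s (g * e 0)))⁻¹ * g = (φ y0)⁻¹ * (φ γ * g)
        rw [hy0, map_mul, mul_inv_rev, mul_assoc, inv_mul_cancel_left]
      have hHg1 : H (g1, x1) = ((φ y1)⁻¹ * g1, x1) := rfl
      have hfin : y0 = y1 → H (g, x) = H (g1, x1) → (g, x) = (g1, x1) := by
        intro h1 h2
        rw [hHg, hHg1, h1] at h2
        have h3 : (φ y1)⁻¹ * (φ γ * g) = (φ y1)⁻¹ * g1 := congrArg Prod.fst h2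
        have h4 : x = x1 := congrArg Prod.snd h2
        exact hF _ hg.1 _ hg1.1 h4 (φ γ) ⟨γ, hγ, rfl⟩ (mul_left_cancel h3)
      have hc1 : c s (g1 * e j1) = y1 := hA1 j1
      have key : y0 = y1 ∧ (H (g, x), i) = (H (g1, x1), i1) := by
        by_cases hspec : ∀ z, ln a (g * e j) ≠ ln a (φ z)
        · -- not special
          have h1 : c s (g1 * e j1) = y0 := by
            rw [hn, mul_assoc, mul_assoc, hc s hs, ← mul_assoc, hA' j hspec n]
          have h2 : y0 = y1 := by rw [← h1, hc1]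
          refine ⟨h2, hΦ (Prod.ext ?_ E3)⟩
          rw [hJ, hJ]
          congr 1
          refine Prod.ext ?_ E2
          change ln a ((H (g, x)).1 * e j) = ln a ((H (g1, x1)).1 * e j1)
          rw [hHg, hHg1, h2]
          dsimp only
          rw [mul_assoc (φ y1)⁻¹ (φ γ * g) (e j), mul_assoc (φ y1)⁻¹ g1 (e j1)]
          exact ln_mul _ hq'
        · -- special
          push Not at hspec
          obtain ⟨z, hz⟩ := hspec
          obtain ⟨n0, hn0⟩ := ln_eq.1 hz.symm
          have e0 : φ γ * g * e j = φ (γ * z) * a ^ n0 := by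
            rw [mul_assoc, hn0, map_mul, mul_assoc]
          have e1 : g1 * e j1 = φ (γ * z) * a ^ (n0 + n) := by
            rw [hn, e0, mul_assoc, ← zpow_add]
          obtain ⟨m, hm⟩ := hsp s hs (γ * z) n0
          obtain ⟨m1, hm1⟩ := hsp s hs (γ * z) (n0 + n)
          have hl0 : y0 = γ * z * (t m)⁻¹ := by
            rw [← hm, ← e0, mul_assoc, hc s hs, hA j]
          have hl1 : y1 = γ * z * (t m1)⁻¹ := by
            rw [← hm1, ← e1, hc1]
          have hL0 : ln a ((H (g, x)).1 * e j) = P m := by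
            rw [hHg]
            dsimp only
            refine ln_eq.2 ⟨-n0, ?_⟩
            have h4 : φ (t m) = (φ y0)⁻¹ * φ (γ * z) := by
              rw [← map_inv, ← map_mul, hl0]
              congr 1
              group
            rw [mul_assoc (φ y0)⁻¹ (φ γ * g) (e j), e0, h4]
            group
          have hL1 : ln a ((H (g1, x1)).1 * e j1) = P m1 := by
            rw [hHg1]
            dsimp only
            refine ln_eq.2 ⟨-(n0 + n), ?_⟩
            have h4 : φ (t m1) = (φ y1)⁻¹ * φ (γ * z) := by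
              rw [← map_inv, ← map_mul, hl1]
              congr 1
              group
            rw [mul_assoc (φ y1)⁻¹ g1 (e j1), e1, h4]
            group
          have hw : ∀ m, wl P (P m) = P 0 := fun m => by
            unfold wl
            rw [if_pos ⟨m, rfl⟩]
          have h3 : (H (g, x), i) = (H (g1, x1), i1) := by
            refine hΦ (Prod.ext ?_ E3)
            rw [hJ, hJ, wd_eq, wd_eq]
            refine Prod.ext ?_ E2
            change wl P (ln a ((H (g, x)).1 * e j)) = wl P (ln a ((H (g1, x1)).1 * e j1))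
            rw [hL0, hL1, hw, hw]
          refine ⟨?_, h3⟩
          have h4 : j = j1 := congrArg J h3
          have h5 : H (g, x) = H (g1, x1) := congrArg Prod.fst h3
          have h6 : P m = P m1 := by rw [← hL0, ← hL1, h4, h5]
          rw [hl0, hl1, ht h6]
      have h7 : (H (g, x), i).2 = (H (g1, x1), i1).2 := congrArg Prod.snd key.2
      have h8 : (H (g, x), i).1 = (H (g1, x1), i1).1 := congrArg Prod.fst key.2
      exact Prod.ext (hfin key.1 h8) h7
  rw [Finset.card_product, Finset.card_product, Finset.card_univ, Finset.card_univ,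
    Fintype.card_fin, Fintype.card_fin] at hmain
  have h1 : κ * F'.card ≤ N.card := by
    have h2 : (F'.card : ℚ) * p ≤ N.card * κ.den := by exact_mod_cast hmain
    rw [← hκpq] at h2
    have h3 : (κ * F'.card) * κ.den ≤ N.card * κ.den := by
      calc (κ * F'.card) * κ.den = F'.card * (κ * κ.den) := by ring
        _ ≤ _ := h2
    exact le_of_mul_le_mul_right h3 hq0
  calc (1 - η) * κ * F.card = κ * ((1 - η) * F.card) := by ring
    _ ≤ κ * F'.card := mul_le_mul_of_nonneg_left hcard hκ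
    _ ≤ _ := h1

/-- bound for the positions of points moved by finitely many elements -/
theorem exists_lip {G : Type} [Group G] {a : G} {pos : G → ℤ} {Δ : ℤ} (hP : PS a pos Δ)
    (e : Fin 3 → G) : ∃ D : ℤ, 0 ≤ D ∧ ∀ i, ∀ g : G, |pos (g * e i) - pos g| ≤ D := by
  choose D hD using fun i => hP.lip (e i)
  refine ⟨|D 0| + |D 1| + |D 2|, by positivity, fun i g => (hD i g).trans ?_⟩
  have h0 := abs_nonneg (D 0)
  have h1 := abs_nonneg (D 1)
  have h2 := abs_nonneg (D 2)
  have h3 := le_abs_self (D 0)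
  have h4 := le_abs_self (D 1)
  have h5 := le_abs_self (D 2)
  fin_cases i
  · change D 0 ≤ _
    omega
  · change D 1 ≤ _
    omega
  · change D 2 ≤ _
    omega

end TRH

open TRH

/-- BLOCK TRH -/
theorem trh (hc : HCutStmt) : TrHStmt := by
  classical
  intro G _ a e pos Δ hM hP v w hv hw hvw η hη hη1
  obtain ⟨D, hD0, hD⟩ := exists_lip hP e
  have hnn := hP.nn
  obtain ⟨L, hL⟩ : ∃ L : ℕ, (L : ℤ) = 2 * (D + Δ) :=
    Int.eq_ofNat_of_zero_le (by omega : 0 ≤ 2 * (D + Δ)) |>.imp fun _ h => h.symm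
  obtain ⟨K0, hK0⟩ := hc G a pos Δ hM hP v w hv hw hvw L
  refine ⟨K0 + (⌈((L : ℚ) + 1) / η⌉₊ + 1), fun k hk Q' => ?_⟩
  obtain ⟨c, hc1, hc2, hc3⟩ := hK0 k (by omega)
  set φ := phi a v w k with hφ
  have hk1 : 1 ≤ k := by omega
  have hI : (Finset.Ico k (3 * k)).Nonempty := ⟨k, Finset.mem_Ico.2 ⟨le_rfl, by omega⟩⟩
  have hcard : (Finset.Ico k (3 * k)).card = 2 * k := by
    rw [Nat.card_Ico]
    omega
  have hB : ((2 * L + 2 : ℕ) : ℚ) ≤ η * ((Finset.Ico k (3 * k)).card : ℚ) := by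
    rw [hcard]
    have h1 : ((L : ℚ) + 1) / η ≤ k := by
      refine (Nat.le_ceil _).trans ?_
      exact_mod_cast (by omega : ⌈((L : ℚ) + 1) / η⌉₊ ≤ k)
    rw [div_le_iff₀ hη] at h1
    push_cast
    linarith
  -- sets of bounded position
  have hbd : ∀ A : Set G, (∀ g ∈ A, ∀ g' ∈ A, ∀ u : FreeGroup (Fin 2),
      |pos ((φ u)⁻¹ * g) - pos ((φ u)⁻¹ * g')| ≤ L) → ∀ (bad : ℕ → Prop),
      (∀ s, bad s → ∃ g ∈ A, ∃ g' ∈ A, c s g ≠ c s g') →
      {s | s ∈ Finset.Ico k (3 * k) ∧ bad s}.ncard ≤ 2 * L + 2 := by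
    intro A hA bad hb
    refine le_trans (Set.ncard_le_ncard ?_ ?_) (hc2 A hA)
    · rintro s ⟨h1, h2⟩
      exact ⟨h1, hb s h2⟩
    · exact (Finset.finite_toSet (Finset.Ico k (3 * k))).subset fun s hs => hs.1
  constructor
  · -- first coordinate
    refine tr1_core φ Q' a e ![1, FreeGroup.of 0, FreeGroup.of 1] ?_ _ hI (2 * L + 2) η hB c
      (fun s hs γ g => hc1 s hs γ g) ?_ ?_
    · have p0 : ln a (φ 1) = ln a 1 := by rw [map_one]
      have p1 : ln a (φ (FreeGroup.of 0)) = ln a v := by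
        refine ln_eq.2 ⟨-(4 * k : ℕ), ?_⟩
        rw [hφ, phi, FreeGroup.lift_apply_of]
        change v = v * a ^ (4 * k) * a ^ (-((4 * k : ℕ) : ℤ))
        rw [zpow_neg, zpow_natCast, mul_assoc, mul_inv_cancel, mul_one]
      have p2 : ln a (φ (FreeGroup.of 1)) = ln a w := by
        refine ln_eq.2 ⟨-(12 * k : ℕ), ?_⟩
        rw [hφ, phi, FreeGroup.lift_apply_of]
        change w = w * a ^ (12 * k) * a ^ (-((12 * k : ℕ) : ℤ))
        rw [zpow_neg, zpow_natCast, mul_assoc, mul_inv_cancel, mul_one]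
      have q1 : ln a 1 ≠ ln a v := fun h => hv (by
        obtain ⟨n, hn⟩ := ln_eq.1 h
        rw [hn, one_mul]
        exact Subgroup.zpow_mem_zpowers a n)
      have q2 : ln a 1 ≠ ln a w := fun h => hw (by
        obtain ⟨n, hn⟩ := ln_eq.1 h
        rw [hn, one_mul]
        exact Subgroup.zpow_mem_zpowers a n)
      have q3 : ln a v ≠ ln a w := fun h => hvw (by
        obtain ⟨n, hn⟩ := ln_eq.1 h
        rw [hn, inv_mul_cancel_left]
        exact Subgroup.zpow_mem_zpowers a n)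
      have r : ∀ m : Fin 3, ln a (φ ((![1, FreeGroup.of 0, FreeGroup.of 1] :
          Fin 3 → FreeGroup (Fin 2)) m)) = (![ln a 1, ln a v, ln a w] : Fin 3 → Ln a) m := by
        intro m
        fin_cases m
        · exact p0
        · exact p1
        · exact p2
      intro m m' h
      dsimp only at h
      rw [r, r] at h
      fin_cases m <;> fin_cases m' <;> first | rfl | skip
      · exact absurd h q1
      · exact absurd h q2
      · exact absurd h.symm q1
      · exact absurd h q3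
      · exact absurd h.symm q2
      · exact absurd h.symm q3
    · intro s hs z n
      rw [hc3 s hs z n]
      split_ifs
      · exact ⟨0, by simp⟩
      · exact ⟨1, by simp⟩
      · exact ⟨2, by simp⟩
    · intro g
      refine hbd ({h | ∃ i, h = g * e i} ∪ {h | ∃ i, (∀ z, ln a (g * e i) ≠ ln a (φ z)) ∧
        ∃ n : ℤ, h = g * e i * a ^ n}) ?_ _ ?_
      · -- distance to g
        have h0 : ∀ u : FreeGroup (Fin 2), ∀ h ∈ ({h | ∃ i, h = g * e i} ∪
            {h | ∃ i, (∀ z, ln a (g * e i) ≠ ln a (φ z)) ∧ ∃ n : ℤ, h = g * e i * a ^ n} :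
              Set G), |pos ((φ u)⁻¹ * h) - pos ((φ u)⁻¹ * g)| ≤ D + Δ := by
          rintro u h (⟨i, rfl⟩ | ⟨i, hi, n, rfl⟩)
          · have h1 := hD i ((φ u)⁻¹ * g)
            rw [mul_assoc] at h1
            omega
          · have h1 := hD i ((φ u)⁻¹ * g)
            have h2 : (φ u)⁻¹ * g * e i ∉ Subgroup.zpowers a := by
              intro h3
              obtain ⟨m, hm⟩ := Subgroup.mem_zpowers_iff.1 h3
              refine hi u (ln_eq.2 ⟨-m, ?_⟩)
              have h4 : g * e i = φ u * a ^ m := by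
                rw [hm]
                group
              rw [h4]
              group
            have h3 := hP.line _ h2 n 0
            rw [zpow_zero, mul_one] at h3
            have h4 : (φ u)⁻¹ * (g * e i * a ^ n) = (φ u)⁻¹ * g * e i * a ^ n := by group
            rw [h4]
            rw [abs_le] at *
            constructor <;> omega
        intro h hh h' hh' u
        have h1 := h0 u h hh
        have h2 := h0 u h' hh'
        rw [hL]
        rw [abs_le] at *
        constructor <;> omega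
      · rintro s (⟨i, hi⟩ | ⟨i, hi, n, hn⟩)
        · exact ⟨_, Or.inl ⟨i, rfl⟩, _, Or.inl ⟨0, rfl⟩, hi⟩
        · exact ⟨_, Or.inr ⟨i, hi, n, rfl⟩, _, Or.inl ⟨0, rfl⟩, hn⟩
  · -- second coordinate
    have hr : Q'.map φ = (φ.comp Q'.subtype).range := by
      rw [MonoidHom.range_comp, Subgroup.range_subtype]
    rw [hr]
    refine tr2_core (Γ := Q') (Λ := FreeGroup (Fin 2)) ?_ (φ.comp Q'.subtype) e _ hI
      (2 * L + 2) η hB c (fun s hs γ g => hc1 s hs γ g) ?_
    · intro γ l h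
      have h1 : (γ : FreeGroup (Fin 2)) * l = l := h
      exact Subtype.ext (mul_eq_right.1 h1)
    · intro x
      refine hbd {h | ∃ i, h = x * e i} ?_ _ ?_
      · rintro _ ⟨i, rfl⟩ _ ⟨i', rfl⟩ u
        have h1 := hD i ((φ u)⁻¹ * x)
        have h2 := hD i' ((φ u)⁻¹ * x)
        rw [mul_assoc] at h1 h2
        rw [hL]
        rw [abs_le] at *
        constructor <;> omega
      · rintro s ⟨i, hi⟩
        exact ⟨_, ⟨i, rfl⟩, _, ⟨0, rfl⟩, hi⟩

end TSq
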