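import Pool.Agent.Work.TSQ.Trh
import Pool.Agent.Work.TSQ.NCut

/-!
# Block TRN2 (helper90): the invariant passes to the quotient on the second coordinate
-/

set_option linter.unusedSectionVars false

namespace TSq
open FrobP GMet

namespace TN2

theorem lact_smul {G : Type} [Group G] (H : Subgroup G) (g : G) (l : (G ⧸ H) ⊕ G) :
    lact g l = g • l := by
  cases l <;> rfl

/-- images of a finite set under two maps, one of which factors through the other -/
theorem card_image_le_of {α β γ : Type} [DecidableEq β] [DecidableEq γ] (s : Finset α)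
    (A : α → β) (B : α → γ) (h : ∀ x ∈ s, ∀ y ∈ s, B x = B y → A x = A y) :
    (s.image A).card ≤ (s.image B).card := by
  classical
  have h1 : ∀ b ∈ s.image B, ∃ x ∈ s, B x = b := fun b hb => Finset.mem_image.1 hb
  choose x hx hB using h1
  rw [← Finset.card_attach (s := s.image B)]
  refine (Finset.card_le_card ?_).trans
    (Finset.card_image_le (s := (s.image B).attach) (f := fun b => A (x b.1 b.2)))
  intro a ha
  obtain ⟨y, hy, rfl⟩ := Finset.mem_image.1 ha
  have hb : B y ∈ s.image B := Finset.mem_image_of_mem B hy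
  exact Finset.mem_image.2 ⟨⟨B y, hb⟩, Finset.mem_attach _ _, h _ (hx _ hb) _ hy (hB _ hb)⟩

end TN2

open TN2 TRH

theorem trN2 (hLab : LabStmt) : TrN2Stmt := by
  classical
  intro G V _ _ _ hG a _ H Y θ hRD f η _ hη0 hη1
  have : IsomAct G V := ⟨hG.isom⟩
  obtain ⟨x0⟩ := hG.ne
  set L : ℕ := (Finset.univ.sup fun ij : Fin 3 × Fin 3 => d (f ij.1 • x0) (f ij.2 • x0)) + 16 * θ
    with hL
  obtain ⟨B, hB⟩ := hLab G V hG a H Y θ hRD x0 L 0
  obtain ⟨n, hn⟩ := exists_nat_ge ((B : ℚ) / η)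
  have hBn : (B : ℚ) ≤ η * ((n + 1 : ℕ) : ℚ) := by
    rw [div_le_iff₀ hη0] at hn
    push_cast
    linarith
  obtain ⟨T0, hT0⟩ := hB (n + 1)
  refine ⟨T0, fun Q hQ hTr G1 _ a1 e1 κ _ hκ hW => ?_⟩
  obtain ⟨c, hc1, hc2, hc3, _, hc5⟩ := hT0 Q hQ
  set N : Subgroup G := Subgroup.normalClosure (Q : Set G) with hN
  have hW2 := hTr G1 a1 e1 κ hκ hW
  intro P F
  -- lifts
  let σ : G ⧸ N → G := Quotient.out
  have hσ : ∀ y : G ⧸ N, (σ y : G ⧸ N) = y := fun y => Quotient.out_eq y
  let I : Finset ℕ := Finset.range (n + 1)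
  have hI : I.Nonempty := ⟨0, Finset.mem_range.2 (Nat.succ_pos n)⟩
  obtain ⟨s, hs, F', hF', hcard⟩ := exists_good' F I hI
    (fun s p => ∃ i, c s ((σ p.2 * f i) • x0) ≠ c s ((σ p.2 * f 0) • x0)) B (by
      intro p _
      refine (Set.ncard_le_ncard ?_ ?_).trans
        (hc3 {y | ∃ i, (σ p.2 * f i) • x0 = y} ?_)
      · rintro s ⟨hs, i, hi⟩
        exact ⟨Finset.mem_range.1 hs, _, ⟨i, rfl⟩, _, ⟨0, rfl⟩, hi⟩
      · exact (Set.finite_lt_nat (n + 1)).subset fun t ht => ht.1
      · rintro _ ⟨i, rfl⟩ _ ⟨j, rfl⟩ g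
        have h1 := FrobP.prd_lip hRD.hyp hRD.one_le hRD.qc (g • (σ p.2 * f i) • x0)
          (g • (σ p.2 * f j) • x0)
        rw [IsomAct.isom, mul_smul, mul_smul, IsomAct.isom] at h1
        have h2 : d (f i • x0) (f j • x0) ≤
            Finset.univ.sup fun ij : Fin 3 × Fin 3 => d (f ij.1 • x0) (f ij.2 • x0) :=
          Finset.le_sup (f := fun ij : Fin 3 × Fin 3 => d (f ij.1 • x0) (f ij.2 • x0))
            (Finset.mem_univ (i, j))
        rw [mul_smul, mul_smul]
        omega) η (by rw [Finset.card_range]; exact hBn)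
  have hsn : s < n + 1 := Finset.mem_range.1 hs
  have hcs : ∀ m ∈ N, ∀ p : V, c s (m • p) = m • c s p := fun m hm p => by
    rw [hc1 s hsn m hm p, lact_smul]
  obtain ⟨rep, t, ht, hrep⟩ := exists_rep N ((G ⧸ H) ⊕ G)
  set lb : G1 × (G ⧸ N) → (G ⧸ H) ⊕ G := fun p => c s ((σ p.2 * f 0) • x0) with hlb
  set T : G1 × (G ⧸ N) → G1 × G := fun p => (p.1, (t (lb p) : G) * σ p.2) with hT
  have hTmk : ∀ p, ((T p).2 : G ⧸ N) = p.2 := by
    intro p
    have h1 : (((t (lb p) : G) * σ p.2 : G) : G ⧸ N) = (σ p.2 : G ⧸ N) := by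
      rw [QuotientGroup.mk_mul, (QuotientGroup.eq_one_iff (t (lb p) : G)).2 (t (lb p)).2, one_mul]
    change (((t (lb p) : G) * σ p.2 : G) : G ⧸ N) = p.2
    rw [h1, hσ]
  have hTinj : Function.Injective T := by
    intro p p' h
    have h1 : (T p).1 = (T p').1 := congrArg Prod.fst h
    refine Prod.ext h1 ?_
    rw [← hTmk p, ← hTmk p', h]
  have hunc : ∀ p ∈ F', ∀ i, c s ((σ p.2 * f i) • x0) = lb p := by
    intro p hp i
    have h1 := ((hF' p).1 hp).2
    push Not at h1
    exact h1 i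
  have hlab : ∀ p ∈ F', ∀ i, c s (((T p).2 * f i) • x0) = rep (lb p) := by
    intro p hp i
    have e : ((T p).2 * f i) • x0 = (t (lb p) : G) • (σ p.2 * f i) • x0 := by
      rw [← mul_smul, ← mul_assoc]
    rw [e, hcs _ (t (lb p)).2, hunc p hp i]
    exact ht (lb p)
  -- label of a point of the quotient
  set R : G ⧸ N → (G ⧸ H) ⊕ G := fun y => rep (c s (σ y • x0)) with hR
  have hRnode : ∀ p ∈ F', ∀ i, R (p.2 * (f i : G ⧸ N)) = rep (lb p) := by
    intro p hp i
    have h1 : (σ (p.2 * (f i : G ⧸ N)) : G ⧸ N) = ((σ p.2 * f i : G) : G ⧸ N) := by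
      rw [hσ, QuotientGroup.mk_mul, hσ]
    have h2 : σ (p.2 * (f i : G ⧸ N)) * (σ p.2 * f i)⁻¹ ∈ N := by
      rw [← QuotientGroup.eq_one_iff, QuotientGroup.mk_mul, QuotientGroup.mk_inv, h1,
        mul_inv_cancel]
    have h3 : σ (p.2 * (f i : G ⧸ N)) • x0 =
        (σ (p.2 * (f i : G ⧸ N)) * (σ p.2 * f i)⁻¹) • (σ p.2 * f i) • x0 := by
      rw [← mul_smul, inv_mul_cancel_right]
    change rep (c s (σ (p.2 * (f i : G ⧸ N)) • x0)) = rep (lb p)
    rw [h3, hcs _ h2, hunc p hp i]
    exact hrep ⟨_, h2⟩ (lb p)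
  set f' : Fin 3 → G ⧸ N := fun i => (f i : G ⧸ N) with hf'
  set pr : Ln a1 × G → Ln a1 × (G ⧸ N) := Prod.map id QuotientGroup.mk with hpr
  -- the estimate for one label
  have key : ∀ r : (G ⧸ H) ⊕ G, (1 - η) * κ * (F'.filter fun p => rep (lb p) = r).card ≤
      (nb a1 e1 f' (wd P) (F'.filter fun p => rep (lb p) = r)).card := by
    intro r
    set Fr := F'.filter fun p => rep (lb p) = r with hFr
    have hmem : ∀ p, p ∈ Fr ↔ p ∈ F' ∧ rep (lb p) = r := fun p => Finset.mem_filter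
    set NG := nb a1 e1 f (wd P) (Fr.image T) with hNG
    have hNGmem : ∀ m ∈ NG, ∃ p ∈ Fr, ∃ i, m = (wl P (ln a1 (p.1 * e1 i)), (T p).2 * f i) := by
      intro m hm
      obtain ⟨p', hp', i, rfl⟩ := (mem_nb _ _ _ _ _ _).1 hm
      obtain ⟨p, hp, rfl⟩ := Finset.mem_image.1 hp'
      exact ⟨p, hp, i, by rw [wd_eq]; rfl⟩
    have hNGlab : ∀ m ∈ NG, c s (m.2 • x0) = r := by
      intro m hm
      obtain ⟨p, hp, i, rfl⟩ := hNGmem m hm
      rw [hlab p ((hmem p).1 hp).1 i]
      exact ((hmem p).1 hp).2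
    have hprNB : NG.image pr ⊆ nb a1 e1 f' (wd P) Fr := by
      intro m hm
      obtain ⟨m', hm', rfl⟩ := Finset.mem_image.1 hm
      obtain ⟨p, hp, i, rfl⟩ := hNGmem m' hm'
      refine (mem_nb _ _ _ _ _ _).2 ⟨p, hp, i, ?_⟩
      rw [wd_eq]
      refine Prod.ext rfl ?_
      change p.2 * (f i : G ⧸ N) = (((T p).2 * f i : G) : G ⧸ N)
      rw [QuotientGroup.mk_mul, hTmk]
    -- two nodes with the same image differ by an element of `N` fixing the label
    have hfib : ∀ m ∈ NG, ∀ m' ∈ NG, pr m = pr m' → m.1 = m'.1 ∧ ∃ γ ∈ N, γ * m.2 = m'.2 ∧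
        γ • r = r := by
      intro m hm m' hm' h
      have h1 : (pr m).1 = (pr m').1 := congrArg Prod.fst h
      refine ⟨h1, m'.2 * m.2⁻¹, ?_, by rw [inv_mul_cancel_right], ?_⟩
      · have h2 : (m.2 : G ⧸ N) = (m'.2 : G ⧸ N) := congrArg Prod.snd h
        rw [← QuotientGroup.eq_one_iff, QuotientGroup.mk_mul, QuotientGroup.mk_inv, h2,
          mul_inv_cancel]
      · have h2 : (m.2 : G ⧸ N) = (m'.2 : G ⧸ N) := congrArg Prod.snd h
        have h3 : m'.2 * m.2⁻¹ ∈ N := by
          rw [← QuotientGroup.eq_one_iff, QuotientGroup.mk_mul, QuotientGroup.mk_inv, h2,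
            mul_inv_cancel]
        have h4 := hcs _ h3 (m.2 • x0)
        rw [← mul_smul, inv_mul_cancel_right, hNGlab m hm, hNGlab m' hm'] at h4
        exact h4.symm
    have hcardT : (Fr.image T).card = Fr.card := Finset.card_image_of_injective _ hTinj
    rcases r with i | m
    · -- centre
      obtain ⟨g, rfl⟩ := QuotientGroup.mk_surjective i
      set S := (Fr.image T).image (fun p : G1 × G => (p.1, g⁻¹ * p.2)) with hS
      have hcardS : S.card = Fr.card := by
        rw [hS, Finset.card_image_of_injective, hcardT]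
        intro p p' h
        have h1 : ((p.1, g⁻¹ * p.2) : G1 × G).1 = ((p'.1, g⁻¹ * p'.2) : G1 × G).1 :=
          congrArg Prod.fst h
        have h2 : ((p.1, g⁻¹ * p.2) : G1 × G).2 = ((p'.1, g⁻¹ * p'.2) : G1 × G).2 :=
          congrArg Prod.snd h
        exact Prod.ext h1 (mul_left_cancel h2)
      have h1 := hW2 P S (by
        intro p hp p' hp' hpp q hq hqp
        obtain ⟨p1, hp1, rfl⟩ := Finset.mem_image.1 hp
        obtain ⟨p2, hp2, rfl⟩ := Finset.mem_image.1 hp'
        obtain ⟨p3, hp3, rfl⟩ := Finset.mem_image.1 hp1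
        obtain ⟨p4, hp4, rfl⟩ := Finset.mem_image.1 hp2
        change p3.1 = p4.1 at hpp
        change q * (g⁻¹ * (T p3).2) = g⁻¹ * (T p4).2 at hqp
        have h2 : (g * q * g⁻¹) * (T p3).2 = (T p4).2 := by
          have := congrArg (fun z => g * z) hqp
          simp only [mul_inv_cancel_left] at this
          rw [← this]; group
        have h3 : g * q * g⁻¹ ∈ N :=
          (Subgroup.normalClosure_normal (s := (Q : Set G))).conj_mem q
            (Subgroup.subset_normalClosure hq) g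
        have h5 : ((T p4).2 : G ⧸ N) = ((T p3).2 : G ⧸ N) := by
          rw [← h2, QuotientGroup.mk_mul (N := N) (g * q * g⁻¹) (T p3).2,
            (QuotientGroup.eq_one_iff (g * q * g⁻¹)).2 h3, one_mul]
        have h4 : p3.2 = p4.2 := by
          rw [← hTmk p3, ← hTmk p4, h5]
        rw [Prod.ext hpp h4])
      rw [hcardS] at h1
      refine h1.trans ?_
      have h2 : (nb a1 e1 f (fun m => Prod.map id (Quotient.mk (MulAction.orbitRel Q G)) (wd P m))
          S).card ≤ (nb a1 e1 f' (wd P) Fr).card := by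
        refine le_trans ?_ ((card_image_le_of NG
          (fun m => (m.1, Quotient.mk (MulAction.orbitRel Q G) (g⁻¹ * m.2))) pr ?_).trans
          (Finset.card_le_card hprNB))
        · apply Finset.card_le_card
          intro m hm
          obtain ⟨p, hp, i, rfl⟩ := (mem_nb _ _ _ _ _ _).1 hm
          obtain ⟨p1, hp1, rfl⟩ := Finset.mem_image.1 hp
          refine Finset.mem_image.2 ⟨wd P (nd a1 e1 f p1 i), (mem_nb _ _ _ _ _ _).2
            ⟨p1, hp1, i, rfl⟩, ?_⟩
          rw [wd_eq, wd_eq]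
          refine Prod.ext rfl ?_
          change Quotient.mk (MulAction.orbitRel Q G) (g⁻¹ * (p1.2 * f i)) =
            Quotient.mk (MulAction.orbitRel Q G) (g⁻¹ * p1.2 * f i)
          rw [mul_assoc]
        · intro m hm m' hm' h
          obtain ⟨h3, γ, hγ, h4, h5⟩ := hfib m hm m' hm' h
          have h6 : γ • (g : G ⧸ H) = (g : G ⧸ H) := Sum.inl.inj h5
          have h7 := hc5 γ hγ g h6
          refine Prod.ext h3 ?_
          refine Quotient.sound (MulAction.orbitRel_apply.2 ⟨⟨_, h7⟩⁻¹, ?_⟩)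
          change (g⁻¹ * γ * g)⁻¹ * (g⁻¹ * m'.2) = g⁻¹ * m.2
          rw [← h4]; group
      exact_mod_cast h2
    · -- piece
      have h1 := hW P (Fr.image T)
      rw [hcardT] at h1
      have h2 : NG.card ≤ (nb a1 e1 f' (wd P) Fr).card := by
        rw [← Finset.card_image_of_injOn (s := NG) (f := pr)]
        · exact Finset.card_le_card hprNB
        · intro x hx x' hx' h
          obtain ⟨h3, γ, _, h4, h5⟩ := hfib x (Finset.mem_coe.1 hx) x' (Finset.mem_coe.1 hx') h
          have h6 : γ * m = m := Sum.inr.inj h5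
          have h7 : γ = 1 := by simpa using h6
          rw [h7, one_mul] at h4
          exact Prod.ext h3 h4
      have h3 : ((NG.card : ℕ) : ℚ) ≤ (nb a1 e1 f' (wd P) Fr).card := by exact_mod_cast h2
      refine le_trans ?_ (h1.trans h3)
      have h4 : (0 : ℚ) ≤ κ * Fr.card := mul_nonneg hκ (Nat.cast_nonneg _)
      nlinarith
  -- sum over the labels
  have hsum : (1 - η) * κ * F'.card ≤ (nb a1 e1 f' (wd P) F).card := by
    have h1 : F'.card = ∑ r ∈ F'.image (fun p => rep (lb p)),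
        (F'.filter fun p => rep (lb p) = r).card :=
      Finset.card_eq_sum_card_image _ _
    have h2 : ∑ r ∈ F'.image (fun p => rep (lb p)),
        (nb a1 e1 f' (wd P) (F'.filter fun p => rep (lb p) = r)).card ≤
        (nb a1 e1 f' (wd P) F).card := by
      rw [← Finset.card_biUnion]
      · apply Finset.card_le_card
        intro m hm
        obtain ⟨r, _, hm⟩ := Finset.mem_biUnion.1 hm
        obtain ⟨p, hp, i, rfl⟩ := (mem_nb _ _ _ _ _ _).1 hm
        exact (mem_nb _ _ _ _ _ _).2 ⟨p, ((hF' p).1 (Finset.mem_filter.1 hp).1).1, i, rfl⟩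
      · intro r _ r' _ hne
        rw [Function.onFun, Finset.disjoint_left]
        intro m hm hm'
        obtain ⟨p, hp, i, rfl⟩ := (mem_nb _ _ _ _ _ _).1 hm
        obtain ⟨p', hp', i', h3⟩ := (mem_nb _ _ _ _ _ _).1 hm'
        apply hne
        have h4 := hRnode p (Finset.mem_filter.1 hp).1 i
        have h5 := hRnode p' (Finset.mem_filter.1 hp').1 i'
        rw [wd_eq, wd_eq] at h3
        have h6 : p'.2 * f' i' = p.2 * f' i := congrArg Prod.snd h3
        have h6' : p'.2 * (f i' : G ⧸ N) = p.2 * (f i : G ⧸ N) := h6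
        rw [h6', h4, (Finset.mem_filter.1 hp).2, (Finset.mem_filter.1 hp').2] at h5
        exact h5
    rw [h1]
    push_cast
    rw [Finset.mul_sum]
    refine (Finset.sum_le_sum fun r _ => key r).trans ?_
    exact_mod_cast h2
  have h1η : 0 < 1 - η := by linarith
  have h0F : (0 : ℚ) ≤ F.card := Nat.cast_nonneg _
  calc (1 - η) ^ 3 * κ * F.card ≤ (1 - η) ^ 2 * κ * F.card := by
        have h1 : (1 - η) ^ 3 ≤ (1 - η) ^ 2 := by
          have : (1 - η) ^ 3 = (1 - η) ^ 2 * (1 - η) := by ring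
          rw [this]
          have h2 : (0 : ℚ) ≤ (1 - η) ^ 2 := by positivity
          nlinarith
        exact mul_le_mul_of_nonneg_right (mul_le_mul_of_nonneg_right h1 hκ) h0F
    _ = (1 - η) * κ * ((1 - η) * F.card) := by ring
    _ ≤ (1 - η) * κ * F'.card :=
        mul_le_mul_of_nonneg_left hcard (mul_nonneg h1η.le hκ)
    _ ≤ _ := hsum

end TSq
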